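import Pool.Agent.W_0649d4.CCentral

/-! Existence of the representatives used in the definitions of the invariants. -/

namespace MNF

variable {G : Type*} [Group G] {S : Subgroup G} (F : FusionSystem S)

theorem conjEl_iff (x y : G) : F.ConjEl x y ↔
    ∃ ψ : Subgroup.zpowers x ≃* Subgroup.zpowers y,
      ψ ∈ F.iso (Subgroup.zpowers x) (Subgroup.zpowers y) ∧
      (ψ ⟨x, Subgroup.mem_zpowers x⟩ : G) = y := by
  constructor
  · rintro ⟨P, Q, φ, h, hφ, rfl⟩
    exact CCentral_zpowers F hφ ⟨x, h⟩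
  · rintro ⟨ψ, hψ, h⟩
    exact ⟨_, _, ψ, Subgroup.mem_zpowers x, hψ, h⟩

theorem conjEl_refl {x : G} (hx : x ∈ S) : F.ConjEl x x :=
  ⟨S, S, MulEquiv.refl S, hx, F.refl_mem le_rfl, rfl⟩

theorem conjEl_symm {x y : G} (h : F.ConjEl x y) : F.ConjEl y x := by
  obtain ⟨P, Q, φ, hx, hφ, rfl⟩ := h
  refine ⟨Q, P, φ.symm, (φ ⟨x, hx⟩).2, F.symm_mem hφ, ?_⟩
  show (φ.symm (φ ⟨x, hx⟩) : G) = x
  rw [MulEquiv.symm_apply_apply]

theorem conjEl_trans {x y z : G} (h : F.ConjEl x y) (h' : F.ConjEl y z) : F.ConjEl x z := by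
  rw [conjEl_iff] at h h' ⊢
  obtain ⟨φ, hφ, h1⟩ := h
  obtain ⟨ψ, hψ, h2⟩ := h'
  refine ⟨φ.trans ψ, F.trans_mem hφ hψ, ?_⟩
  have h3 : φ ⟨x, Subgroup.mem_zpowers x⟩ = ⟨y, Subgroup.mem_zpowers y⟩ := Subtype.ext h1
  show (ψ (φ ⟨x, Subgroup.mem_zpowers x⟩) : G) = z
  rw [h3, h2]

theorem conj_zpowers {x : G} {Q : Subgroup G} (h : F.Conj (Subgroup.zpowers x) Q) :
    ∃ y, F.ConjEl x y ∧ Q = Subgroup.zpowers y ∧ y ∈ S := by
  obtain ⟨φ, hφ⟩ := h
  obtain ⟨ψ, hψ, h1⟩ := CCentral_zpowers F hφ ⟨x, Subgroup.mem_zpowers x⟩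
  refine ⟨φ ⟨x, Subgroup.mem_zpowers x⟩, ⟨_, _, φ, Subgroup.mem_zpowers x, hφ, rfl⟩, ?_, ?_⟩
  · apply le_antisymm
    · intro y hy
      obtain ⟨n, hn⟩ := Subgroup.mem_zpowers_iff.mp (φ.symm ⟨y, hy⟩).2
      rw [Subgroup.mem_zpowers_iff]
      refine ⟨n, ?_⟩
      have h2 : (⟨x, Subgroup.mem_zpowers x⟩ : Subgroup.zpowers x) ^ n = φ.symm ⟨y, hy⟩ :=
        Subtype.ext (by simpa using hn)
      have h3 := congrArg φ h2
      rw [MulEquiv.apply_symm_apply, map_zpow] at h3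
      have h4 := congrArg Subtype.val h3
      simpa using h4
    · rw [Subgroup.zpowers_le]
      exact (φ _).2
  · exact F.le_right hφ (φ _).2

variable [Finite G]

theorem exists_elementTransversal : ∃ X : Finset S, IsElementTransversal F X := by
  classical
  let s : Setoid S := ⟨fun x y => F.ConjEl (x : G) (y : G), fun x => conjEl_refl F x.2,
    fun h => conjEl_symm F h, fun h h' => conjEl_trans F h h'⟩
  have hfin : Finite (Quotient s) := Quotient.finite s
  letI := Fintype.ofFinite (Quotient s)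
  have key : ∀ c : Quotient s, ∃ x : S, Quotient.mk s x = c ∧
      F.FullyCentralized (Subgroup.zpowers (x : G)) := by
    intro c
    obtain ⟨x, hx, hmax⟩ := Set.exists_max_image {x : S | Quotient.mk s x = c}
      (fun x => Nat.card (cS S (Subgroup.zpowers (x : G)))) (Set.toFinite _)
      ⟨c.out, Quotient.out_eq c⟩
    refine ⟨x, hx, ?_⟩
    intro Q hQ
    obtain ⟨y, hxy, rfl, hy⟩ := conj_zpowers F hQ
    apply hmax ⟨y, hy⟩
    show Quotient.mk s ⟨y, hy⟩ = c
    have hx' : Quotient.mk s x = c := hx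
    rw [← hx']
    exact Quotient.sound (conjEl_symm F hxy : F.ConjEl y (x : G))
  choose f hf hfc using key
  refine ⟨Finset.univ.image f, ?_, ?_⟩
  · intro x hx
    rw [Finset.mem_image] at hx
    obtain ⟨c, -, rfl⟩ := hx
    exact hfc c
  · intro y
    refine ⟨f (Quotient.mk s y), ⟨Finset.mem_image_of_mem _ (Finset.mem_univ _), ?_⟩, ?_⟩
    · have h1 : s (f (Quotient.mk s y)) y := Quotient.exact (hf _)
      exact conjEl_symm F h1
    · rintro z ⟨hz, hyz⟩
      rw [Finset.mem_image] at hz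
      obtain ⟨c, -, rfl⟩ := hz
      have h2 : Quotient.mk s y = Quotient.mk s (f c) := Quotient.sound hyz
      rw [h2, hf]

theorem exists_centricTransversal : ∃ Y : Finset (Subgroup G), IsCentricTransversal F Y := by
  classical
  let s : Setoid {P : Subgroup G // F.Centric P} := ⟨fun P Q => F.Conj P.1 Q.1,
    fun P => FusionSystem.Conj.refl F P.2.1, fun h => FusionSystem.Conj.symm h,
    fun h h' => FusionSystem.Conj.trans h h'⟩
  have hfin : Finite (Quotient s) := Quotient.finite s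
  letI := Fintype.ofFinite (Quotient s)
  refine ⟨Finset.univ.image (fun c : Quotient s => (c.out.1 : Subgroup G)), ?_, ?_⟩
  · intro Q hQ
    rw [Finset.mem_image] at hQ
    obtain ⟨c, -, rfl⟩ := hQ
    exact c.out.2
  · intro P hP
    refine ⟨(Quotient.mk s ⟨P, hP⟩).out.1, ⟨Finset.mem_image_of_mem _ (Finset.mem_univ _), ?_⟩,
      ?_⟩
    · have h1 : s (Quotient.mk s ⟨P, hP⟩).out ⟨P, hP⟩ := Quotient.exact (Quotient.out_eq _)
      exact FusionSystem.Conj.symm h1
    · rintro Q ⟨hQ, hPQ⟩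
      rw [Finset.mem_image] at hQ
      obtain ⟨c, -, rfl⟩ := hQ
      have h2 : Quotient.mk s ⟨P, hP⟩ = Quotient.mk s c.out := Quotient.sound hPQ
      rw [h2, Quotient.out_eq]

theorem exists_linTransversal : ∃ Z : Finset (S →* ℂˣ), IsLinTransversal F Z := by
  classical
  let s : Setoid (S →* ℂˣ) := ⟨fun μ ν => ∃ a : F.aut S, ∀ y : S, ν y = μ ((a : MulAut S) y),
    fun μ => ⟨1, fun y => rfl⟩, fun {μ ν} ⟨a, h⟩ => ⟨a⁻¹, fun y => by
      rw [h]
      show μ y = μ ((a : MulAut S) ((a : MulAut S)⁻¹ y))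
      rw [MulAut.apply_inv_self]⟩, fun {μ ν ρ} ⟨a, h⟩ ⟨b, h'⟩ => ⟨a * b, fun y => by
      rw [h', h]
      rfl⟩⟩
  have hfin0 : Finite (S →* ℂˣ) := inferInstance
  have hfin : Finite (Quotient s) := Quotient.finite s
  letI := Fintype.ofFinite (Quotient s)
  refine ⟨Finset.univ.image (fun c : Quotient s => c.out), ?_⟩
  intro μ
  refine ⟨(Quotient.mk s μ).out, ⟨Finset.mem_image_of_mem _ (Finset.mem_univ _), ?_⟩, ?_⟩
  · have h1 : s μ (Quotient.mk s μ).out := Quotient.exact (Quotient.out_eq _).symm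
    exact h1
  · rintro ν ⟨hν, hμν⟩
    rw [Finset.mem_image] at hν
    obtain ⟨c, -, rfl⟩ := hν
    have h2 : Quotient.mk s μ = Quotient.mk s c.out := Quotient.sound hμν
    rw [h2, Quotient.out_eq]

/-- All representatives needed for `k(F, α)` and `m(F, α, d)` exist. -/
theorem exists_transversals : ∃ (X : Finset S) (Y : S → Finset (Subgroup G))
    (Z : Finset (S →* ℂˣ)), IsElementTransversal F X ∧
      (∀ x ∈ X, IsCentricTransversal (F.cent x) (Y x)) ∧ IsLinTransversal F Z := by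
  obtain ⟨X, hX⟩ := exists_elementTransversal F
  obtain ⟨Z, hZ⟩ := exists_linTransversal F
  choose Y hY using fun x : S => exists_centricTransversal (F.cent x)
  exact ⟨X, Y, Z, hX, fun x _ => hY x, hZ⟩

end MNF
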