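import Pool.Agent.W_0649d4.CBasic

/-! TASK COut. `Out_F(S)` is a `p'`-group; images of essential subgroups. -/

namespace MNF

variable {G : Type*} [Group G] {S : Subgroup G} (F : FusionSystem S)

/-- `Out_F(S)` has order prime to `p`: `S` is fully normalized and `Aut_S(S) = Inn(S)`. -/
theorem card_out (p : ℕ) [Fact p.Prime] [Finite G] (hF : F.Saturated p) :
    ¬ p ∣ Nat.card (F.Out S) := by
  have h1 : nS S S = S := le_antisymm inf_le_left (le_nS le_rfl)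
  have hfn : F.FullyNormalized S := by
    intro Q _
    rw [h1]
    exact Subgroup.card_le_of_le (inf_le_left : nS S Q ≤ S)
  have h2 := (hF.sylow S le_rfl hfn).2
  have h3 : autS S S = (MulAut.conj (G := S)).range := by
    ext φ
    constructor
    · rintro ⟨s, hs, h⟩
      refine ⟨⟨s, hs⟩, ?_⟩
      ext x
      rw [MulAut.conj_apply, h x]
      rfl
    · rintro ⟨y, rfl⟩
      exact conj_mem_autS le_rfl y
  rw [h3] at h2
  exact h2

private theorem str_transport {A B : Type*} [Group A] [Group B] (E : A ≃* B) (p : ℕ)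
    (h : ∃ M : Subgroup A, M ≠ ⊤ ∧ p ∣ Nat.card M ∧
      ∀ g : A, g ∉ M → ¬ p ∣ Nat.card ↥(M ⊓ M.map (MulAut.conj g).toMonoidHom)) :
    ∃ M : Subgroup B, M ≠ ⊤ ∧ p ∣ Nat.card M ∧
      ∀ g : B, g ∉ M → ¬ p ∣ Nat.card ↥(M ⊓ M.map (MulAut.conj g).toMonoidHom) := by
  obtain ⟨M, h1, h2, h3⟩ := h
  have hinj : Function.Injective (E.toMonoidHom : A →* B) := E.injective
  have hcard : ∀ K : Subgroup A, Nat.card (K.map E.toMonoidHom) = Nat.card K := fun K =>
    (Nat.card_congr (K.equivMapOfInjective E.toMonoidHom hinj).toEquiv).symm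
  refine ⟨M.map E.toMonoidHom, ?_, ?_, ?_⟩
  · intro h4
    apply h1
    rw [eq_top_iff]
    intro x _
    have h5 : E x ∈ M.map E.toMonoidHom := by
      rw [h4]
      exact Subgroup.mem_top _
    obtain ⟨y, hy, hyx⟩ := h5
    have h6 : y = x := E.injective hyx
    exact h6 ▸ hy
  · rw [hcard]
    exact h2
  · intro g hg
    obtain ⟨a, rfl⟩ := E.surjective g
    have ha : a ∉ M := fun h4 => hg ⟨a, h4, rfl⟩
    have h4 : (M.map E.toMonoidHom).map (MulAut.conj (E a)).toMonoidHom =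
        (M.map (MulAut.conj a).toMonoidHom).map E.toMonoidHom := by
      rw [Subgroup.map_map, Subgroup.map_map]
      congr 1
      ext x
      simp [MulAut.conj_apply]
    rw [h4, ← Subgroup.map_inf _ _ _ hinj, hcard]
    exact h3 a ha

/-- The image of an essential subgroup under an element of `Aut_F(S)` is essential. -/
theorem essential_image (p : ℕ) [Finite G] {Q R : Subgroup G} (hQ : F.Essential p Q)
    {ψ : S ≃* S} (hψ : ψ ∈ F.iso S S) (φ : Q ≃* R)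
    (h : ∀ x : Q, (φ x : G) = ψ ⟨x, hQ.1.1 x.2⟩) : F.Essential p R := by
  have hQS : Q ≤ S := hQ.1.1
  have hφ : φ ∈ F.iso Q R := F.res_mem φ hQS hψ h
  have hconj : F.Conj Q R := ⟨φ, hφ⟩
  have hRS : R ≤ S := F.le_right hφ
  refine ⟨hQ.1.conj hconj, ?_, ?_⟩
  · intro Q' hQ'
    refine (hQ.2.1 Q' (hconj.trans hQ')).trans ?_
    -- conjugation
    have key : ∀ g (hg : g ∈ nS S Q) (y : G), y ∈ R →
        (ψ ⟨g, hg.1⟩ : G) * y * (ψ ⟨g, hg.1⟩ : G)⁻¹ ∈ R := by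
      intro g hg y hy
      have h1 := h (φ.symm ⟨y, hy⟩)
      rw [MulEquiv.apply_symm_apply] at h1
      have h1' : y = (ψ ⟨(φ.symm ⟨y, hy⟩ : Q), hQS (φ.symm ⟨y, hy⟩).2⟩ : G) := h1
      have hx : g * (φ.symm ⟨y, hy⟩ : Q) * g⁻¹ ∈ Q :=
        ((mem_nS.1 hg).2 _).1 (φ.symm ⟨y, hy⟩).2
      have h2 := h ⟨g * (φ.symm ⟨y, hy⟩ : Q) * g⁻¹, hx⟩
      have h3 : (⟨g * (φ.symm ⟨y, hy⟩ : Q) * g⁻¹, hQS hx⟩ : S) =
          ⟨g, hg.1⟩ * ⟨(φ.symm ⟨y, hy⟩ : Q), hQS (φ.symm ⟨y, hy⟩).2⟩ * (⟨g, hg.1⟩)⁻¹ := rfl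
      have h4 : (ψ ⟨g, hg.1⟩ : G) * y * (ψ ⟨g, hg.1⟩ : G)⁻¹ =
          (φ ⟨g * (φ.symm ⟨y, hy⟩ : Q) * g⁻¹, hx⟩ : G) := by
        rw [h2]
        show _ = (ψ (⟨g * (φ.symm ⟨y, hy⟩ : Q) * g⁻¹, hQS hx⟩ : S) : G)
        rw [h3, map_mul, map_mul, map_inv, Subgroup.coe_mul, Subgroup.coe_mul, Subgroup.coe_inv,
          ← h1']
      rw [h4]
      exact (φ _).2
    have hmem : ∀ g (hg : g ∈ nS S Q), (ψ ⟨g, hg.1⟩ : G) ∈ nS S R := by
      intro g hg
      rw [mem_nS]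
      refine ⟨(ψ _).2, fun y => ⟨fun hy => key g hg y hy, fun hy => ?_⟩⟩
      have h1 := key g⁻¹ (inv_mem hg) _ hy
      have h2 : (ψ ⟨g⁻¹, (inv_mem hg : g⁻¹ ∈ nS S Q).1⟩ : G) = (ψ ⟨g, hg.1⟩ : G)⁻¹ := by
        have h3 : (⟨g⁻¹, (inv_mem hg : g⁻¹ ∈ nS S Q).1⟩ : S) = (⟨g, hg.1⟩)⁻¹ := rfl
        rw [h3, map_inv, Subgroup.coe_inv]
      rw [h2] at h1
      have h4 : (ψ ⟨g, hg.1⟩ : G)⁻¹ * ((ψ ⟨g, hg.1⟩ : G) * y * (ψ ⟨g, hg.1⟩ : G)⁻¹) *
          ((ψ ⟨g, hg.1⟩ : G)⁻¹)⁻¹ = y := by group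
      rwa [h4] at h1
    refine Nat.card_le_card_of_injective
      (fun g : nS S Q => (⟨(ψ ⟨g.1, g.2.1⟩ : G), hmem g.1 g.2⟩ : nS S R)) ?_
    intro g g' hgg
    have h1 : (ψ ⟨g.1, g.2.1⟩ : G) = (ψ ⟨g'.1, g'.2.1⟩ : G) :=
      congrArg (fun z : nS S R => (z : G)) hgg
    have h2 := ψ.injective (Subtype.ext h1)
    exact Subtype.ext (congrArg (fun z : S => (z : G)) h2)
  · have haut : (F.aut Q).map (MulAut.congr φ).toMonoidHom = F.aut R := by
      ext a
      rw [Subgroup.mem_map]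
      constructor
      · rintro ⟨b, hb, rfl⟩
        have hb' := (F.mem_aut hQS b).1 hb
        exact (F.mem_aut hRS _).2 (F.trans_mem (F.symm_mem hφ) (F.trans_mem hb' hφ))
      · intro ha
        have ha' := (F.mem_aut hRS a).1 ha
        refine ⟨(MulAut.congr φ).symm a, (F.mem_aut hQS _).2 ?_, MulEquiv.apply_symm_apply _ a⟩
        exact F.trans_mem hφ (F.trans_mem ha' (F.symm_mem hφ))
    let e : F.aut Q ≃* F.aut R :=
      ((MulAut.congr φ).subgroupMap (F.aut Q)).trans (MulEquiv.subgroupCongr haut)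
    have he : ∀ a : F.aut Q, ((e a : F.aut R) : MulAut R) = MulAut.congr φ (a : MulAut Q) :=
      fun a => rfl
    have hinn : (F.inn Q).map (e : F.aut Q →* F.aut R) = F.inn R := by
      ext a
      rw [Subgroup.mem_map]
      constructor
      · rintro ⟨b, hb, rfl⟩
        obtain ⟨y, hy⟩ := Subgroup.mem_subgroupOf.1 hb
        refine Subgroup.mem_subgroupOf.2 ⟨φ y, ?_⟩
        have h1 : ((e b : F.aut R) : MulAut R) = MulAut.congr φ (b : MulAut Q) := he b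
        show MulAut.conj (φ y) = ((e b : F.aut R) : MulAut R)
        rw [h1, ← hy]
        ext x
        simp [MulAut.congr, MulAut.conj_apply]
      · intro ha
        obtain ⟨y, hy⟩ := Subgroup.mem_subgroupOf.1 ha
        refine ⟨e.symm a, ?_, MulEquiv.apply_symm_apply e a⟩
        refine Subgroup.mem_subgroupOf.2 ⟨φ.symm y, ?_⟩
        have h1 : MulAut.congr φ ((e.symm a : F.aut Q) : MulAut Q) = (a : MulAut R) := by
          rw [← he, MulEquiv.apply_symm_apply]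
        apply (MulAut.congr φ).injective
        show MulAut.congr φ (MulAut.conj (φ.symm y)) = MulAut.congr φ ((e.symm a : F.aut Q) : MulAut Q)
        rw [h1, ← hy]
        ext x
        simp [MulAut.congr, MulAut.conj_apply]
    exact str_transport (QuotientGroup.congr (F.inn Q) (F.inn R) e hinn) p hQ.2.2

end MNF
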