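import Pool.Agent.W_0649d4.Iface

/-! Basic facts on twisted group algebras and on `lNum`, `zNum`. -/

namespace MNF

section general

variable {k : Type*} [Field k]

/-- Transfer of simple modules: injection on classes. -/
theorem exists_inj_of_assign {A B : Type*} [Ring A] [Ring B]
    (P : Submodule A A → Prop) (s : Setoid {m : Submodule A A // P m})
    (hs : ∀ m m', s m m' ↔ Nonempty ((A ⧸ m.1) ≃ₗ[A] (A ⧸ m'.1)))
    (X : {m : Submodule A A // P m} → Type*)
    [∀ m, AddCommGroup (X m)] [∀ m, Module B (X m)] (hX : ∀ m, IsSimpleModule B (X m))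
    (hinj : ∀ m m', Nonempty (X m ≃ₗ[B] X m') → Nonempty ((A ⧸ m.1) ≃ₗ[A] (A ⧸ m'.1))) :
    ∃ f : Quotient s → Quotient (simpleSetoid B), Function.Injective f := by
  have h1 : ∀ m, ∃ J : {J : Submodule B B // IsCoatom J}, Nonempty (X m ≃ₗ[B] (B ⧸ J.1)) := by
    intro m
    obtain ⟨J, hJ, ⟨e⟩⟩ := isSimpleModule_iff_quot_maximal.mp (hX m)
    exact ⟨⟨J, hJ.out⟩, ⟨e⟩⟩
  choose J hJ using h1
  refine ⟨fun c => Quotient.mk _ (J c.out), ?_⟩
  intro c c' h
  have h2 := Quotient.exact h
  obtain ⟨e⟩ : Nonempty ((B ⧸ (J c.out).1) ≃ₗ[B] (B ⧸ (J c'.out).1)) := h2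
  obtain ⟨e1⟩ := hJ c.out
  obtain ⟨e2⟩ := hJ c'.out
  have h3 := hinj c.out c'.out ⟨(e1.trans e).trans e2.symm⟩
  have h4 : s c.out c'.out := (hs _ _).mpr h3
  rw [← Quotient.out_eq c, ← Quotient.out_eq c']
  exact Quotient.sound h4

theorem exists_inj_of_ringEquiv {A B : Type*} [Ring A] [Ring B] (e : A ≃+* B) :
    ∃ f : Quotient (simpleSetoid A) → Quotient (simpleSetoid B), Function.Injective f := by
  letI : ∀ m : {m : Submodule A A // IsCoatom m}, Module B (A ⧸ m.1) :=
    fun m => Module.compHom (A ⧸ m.1) e.symm.toRingHom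
  have hsm : ∀ (m : {m : Submodule A A // IsCoatom m}) (b : B) (x : A ⧸ m.1),
      b • x = e.symm b • x := fun m b x => rfl
  have hsm' : ∀ (m : {m : Submodule A A // IsCoatom m}) (a : A) (x : A ⧸ m.1),
      a • x = e a • x := by
    intro m a x
    rw [hsm, RingEquiv.symm_apply_apply]
  refine exists_inj_of_assign (fun m => IsCoatom m) (simpleSetoid A) (fun m m' => Iff.rfl)
    (fun m => A ⧸ m.1) ?_ ?_
  · intro m
    have h1 : IsSimpleModule A (A ⧸ m.1) := isSimpleModule_iff_isCoatom.mpr m.2
    have hnt : Nontrivial (A ⧸ m.1) := IsSimpleModule.nontrivial A _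
    rw [isSimpleModule_iff_toSpanSingleton_surjective]
    refine ⟨hnt, fun x hx y => ?_⟩
    obtain ⟨a, ha⟩ := IsSimpleModule.toSpanSingleton_surjective A hx y
    refine ⟨e a, ?_⟩
    rw [LinearMap.toSpanSingleton_apply] at ha ⊢
    rw [← ha]
    exact (hsm' m a x).symm
  · rintro m m' ⟨f⟩
    refine ⟨{ f with
      map_smul' := fun a x => ?_ }⟩
    show f (a • x) = a • f x
    rw [hsm', map_smul, ← hsm']

theorem lNum_congr {A B : Type*} [Ring A] [Ring B] (e : A ≃+* B) : lNum A = lNum B := by
  obtain ⟨f, hf⟩ := exists_inj_of_ringEquiv e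
  obtain ⟨g, hg⟩ := exists_inj_of_ringEquiv e.symm
  obtain ⟨h, hh⟩ := Function.Embedding.schroeder_bernstein hf hg
  exact Nat.card_congr (Equiv.ofBijective h hh)

/-- A maximal left ideal containing a finite intersection of maximal left ideals is isomorphic to
one of them (as a quotient module). -/
theorem exists_iso_of_inf_le {A ι : Type*} [Ring A] [DecidableEq ι] (m : ι → Submodule A A)
    (hm : ∀ i, IsCoatom (m i)) (J : Submodule A A) (hJ : IsCoatom J) (s : Finset ι)
    (h : s.inf m ≤ J) : ∃ i ∈ s, Nonempty ((A ⧸ m i) ≃ₗ[A] (A ⧸ J)) := by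
  induction s using Finset.induction_on with
  | empty =>
    exfalso
    rw [Finset.inf_empty, top_le_iff] at h
    exact hJ.1 h
  | insert j s hj ih =>
    rw [Finset.inf_insert] at h
    by_cases h1 : s.inf m ≤ J
    · obtain ⟨i, hi, hi'⟩ := ih h1
      exact ⟨i, Finset.mem_insert_of_mem hi, hi'⟩
    · set N := s.inf m with hN
      have h2 : N ⊔ J = ⊤ := by
        apply hJ.2
        refine lt_of_le_of_ne le_sup_right ?_
        intro h3
        apply h1
        rw [h3]; exact le_sup_left
      have h3 : ¬ N ≤ m j := by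
        intro h4
        apply h1
        exact (le_inf h4 le_rfl).trans h
      have h4 : N ⊔ m j = ⊤ := by
        apply (hm j).2
        refine lt_of_le_of_ne le_sup_right ?_
        intro h5
        apply h3
        rw [h5]; exact le_sup_left
      have surj : ∀ I : Submodule A A, N ⊔ I = ⊤ →
          Function.Surjective (I.mkQ.comp N.subtype) := by
        intro I hI y
        obtain ⟨x, rfl⟩ := I.mkQ_surjective y
        have hx : x ∈ N ⊔ I := by rw [hI]; trivial
        obtain ⟨a, ha, b, hb, rfl⟩ := Submodule.mem_sup.mp hx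
        refine ⟨⟨a, ha⟩, ?_⟩
        rw [LinearMap.comp_apply, map_add]
        have : I.mkQ b = 0 := by rwa [Submodule.mkQ_apply, Submodule.Quotient.mk_eq_zero]
        rw [this, add_zero]
        rfl
      let f := (m j).mkQ.comp N.subtype
      let g := J.mkQ.comp N.subtype
      have hf : Function.Surjective f := surj _ h4
      have hg : Function.Surjective g := surj _ h2
      have hker : LinearMap.ker f ≤ LinearMap.ker g := by
        intro x hx
        rw [LinearMap.mem_ker] at hx ⊢
        have h5 : (x : A) ∈ m j := by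
          have : (m j).mkQ (x : A) = 0 := hx
          rwa [Submodule.mkQ_apply, Submodule.Quotient.mk_eq_zero] at this
        have h6 : (x : A) ∈ J := h ⟨h5, x.2⟩
        show J.mkQ (x : A) = 0
        rwa [Submodule.mkQ_apply, Submodule.Quotient.mk_eq_zero]
      let e := f.quotKerEquivOfSurjective hf
      let φ : (A ⧸ m j) →ₗ[A] (A ⧸ J) := ((LinearMap.ker f).liftQ g hker).comp e.symm.toLinearMap
      have hφ : Function.Surjective φ := by
        intro y
        obtain ⟨x, rfl⟩ := hg y
        refine ⟨e (Submodule.Quotient.mk x), ?_⟩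
        show (LinearMap.ker f).liftQ g hker (e.symm (e (Submodule.Quotient.mk x))) = _
        rw [LinearEquiv.symm_apply_apply]
        rfl
      have i1 : IsSimpleModule A (A ⧸ m j) := isSimpleModule_iff_isCoatom.mpr (hm j)
      have i2 : IsSimpleModule A (A ⧸ J) := isSimpleModule_iff_isCoatom.mpr hJ
      have hne : φ ≠ 0 := by
        intro h0
        have hnt : Nontrivial (A ⧸ J) := IsSimpleModule.nontrivial A _
        obtain ⟨y, hy⟩ := exists_ne (0 : A ⧸ J)
        obtain ⟨x, hx⟩ := hφ y
        rw [h0] at hx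
        exact hy hx.symm
      exact ⟨j, Finset.mem_insert_self _ _, ⟨LinearEquiv.ofBijective φ
        (LinearMap.bijective_of_ne_zero hne)⟩⟩

/-- Finitely many simple modules. -/
theorem finite_simple (k : Type*) [Field k] (A : Type*) [Ring A] [Algebra k A]
    [FiniteDimensional k A] : Finite (Quotient (simpleSetoid A)) := by
  classical
  by_contra hinf
  rw [not_finite_iff_infinite] at hinf
  have key : ∀ t : Finset (Quotient (simpleSetoid A)),
      Module.finrank k ((t.inf (fun c => (c.out.1 : Submodule A A))).restrictScalars k) + t.card ≤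
        Module.finrank k A := by
    intro t
    induction t using Finset.induction_on with
    | empty =>
      rw [Finset.card_empty, add_zero]
      exact Submodule.finrank_le _
    | insert c t hc ih =>
      rw [Finset.card_insert_of_notMem hc, Finset.inf_insert]
      set N := t.inf (fun c => (c.out.1 : Submodule A A)) with hN
      have h1 : ¬ N ≤ c.out.1 := by
        intro h
        obtain ⟨i, hi, ⟨e⟩⟩ := exists_iso_of_inf_le (fun c : Quotient (simpleSetoid A) =>
          (c.out.1 : Submodule A A)) (fun c => c.out.2) c.out.1 c.out.2 t h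
        apply hc
        have h2 : i = c := by
          rw [← Quotient.out_eq i, ← Quotient.out_eq c]
          exact Quotient.sound ⟨e⟩
        rw [← h2]; exact hi
      have h2 : (c.out.1 ⊓ N).restrictScalars k < N.restrictScalars k := by
        refine lt_of_le_of_ne (fun x hx => hx.2) ?_
        intro h3
        apply h1
        intro x hx
        have h4 : x ∈ N.restrictScalars k := hx
        rw [← h3] at h4
        exact h4.1
      have h3 := Submodule.finrank_lt_finrank_of_lt h2
      omega
  obtain ⟨t, ht⟩ := Infinite.exists_subset_card_eq (Quotient (simpleSetoid A))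
    (Module.finrank k A + 1)
  have := key t
  omega

/-- Transfer principle: if every simple projective `A`-module `A ⧸ m` has an attached simple
`B`-module `X m`, and `X m ≅ X m'` implies `A ⧸ m ≅ A ⧸ m'`, then `z(A) ≤ l(B)`. -/
theorem zNum_le_of_assign (k : Type*) [Field k] {A B : Type*} [Ring A] [Ring B] [Algebra k B]
    [FiniteDimensional k B]
    (X : {m : Submodule A A // IsCoatom m ∧ Module.Projective A (A ⧸ m)} → Type*)
    [∀ m, AddCommGroup (X m)] [∀ m, Module B (X m)] (hs : ∀ m, IsSimpleModule B (X m))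
    (hinj : ∀ m m', Nonempty (X m ≃ₗ[B] X m') → Nonempty ((A ⧸ m.1) ≃ₗ[A] (A ⧸ m'.1))) :
    zNum A ≤ lNum B := by
  have := finite_simple k B
  obtain ⟨f, hf⟩ := exists_inj_of_assign (fun m => IsCoatom m ∧ Module.Projective A (A ⧸ m))
    (simpleProjSetoid A) (fun m m' => Iff.rfl) X hs hinj
  exact Nat.card_le_card_of_injective f hf

/-- The same for all simple modules. -/
theorem lNum_le_of_assign (k : Type*) [Field k] {A B : Type*} [Ring A] [Ring B] [Algebra k B]
    [FiniteDimensional k B]
    (X : {m : Submodule A A // IsCoatom m} → Type*)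
    [∀ m, AddCommGroup (X m)] [∀ m, Module B (X m)] (hs : ∀ m, IsSimpleModule B (X m))
    (hinj : ∀ m m', Nonempty (X m ≃ₗ[B] X m') → Nonempty ((A ⧸ m.1) ≃ₗ[A] (A ⧸ m'.1))) :
    lNum A ≤ lNum B := by
  have := finite_simple k B
  obtain ⟨f, hf⟩ := exists_inj_of_assign (fun m => IsCoatom m)
    (simpleSetoid A) (fun m m' => Iff.rfl) X hs hinj
  exact Nat.card_le_card_of_injective f hf

theorem zNum_le_lNum (k : Type*) [Field k] (A : Type*) [Ring A] [Algebra k A]
    [FiniteDimensional k A] : zNum A ≤ lNum A :=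
  zNum_le_of_assign k (fun m => A ⧸ m.1)
    (fun m => isSimpleModule_iff_isCoatom.mpr m.2.1) (fun _ _ h => h)

/-- Surjective ring homomorphisms `A → B`: simple `B`-modules inflate to simple `A`-modules. -/
theorem lNum_le_of_surj (k : Type*) [Field k] {A B : Type*} [Ring A] [Algebra k A]
    [FiniteDimensional k A] [Ring B] (f : A →+* B) (hf : Function.Surjective f) :
    lNum B ≤ lNum A := by
  letI : ∀ m : {m : Submodule B B // IsCoatom m}, Module A (B ⧸ m.1) :=
    fun m => Module.compHom (B ⧸ m.1) f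
  have hsm : ∀ (m : {m : Submodule B B // IsCoatom m}) (a : A) (x : B ⧸ m.1),
      a • x = f a • x := fun m a x => rfl
  refine lNum_le_of_assign k (fun m => B ⧸ m.1) ?_ ?_
  · intro m
    have h1 : IsSimpleModule B (B ⧸ m.1) := isSimpleModule_iff_isCoatom.mpr m.2
    have hnt : Nontrivial (B ⧸ m.1) := IsSimpleModule.nontrivial B _
    rw [isSimpleModule_iff_toSpanSingleton_surjective]
    refine ⟨hnt, fun x hx y => ?_⟩
    obtain ⟨b, hb⟩ := IsSimpleModule.toSpanSingleton_surjective B hx y
    obtain ⟨a, rfl⟩ := hf b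
    refine ⟨a, ?_⟩
    rw [LinearMap.toSpanSingleton_apply] at hb ⊢
    rw [← hb]
    exact hsm m a x
  · rintro m m' ⟨e⟩
    refine ⟨{ e with
      map_smul' := fun b x => ?_ }⟩
    show e (b • x) = b • e x
    obtain ⟨a, rfl⟩ := hf b
    rw [← hsm, map_smul, hsm]

end general

section tw

variable {H : Type*} [Group H] {k : Type*} [Field k]

instance [Finite H] (α : Cocycle H k) : FiniteDimensional k (TwAlg α) :=
  inferInstanceAs (FiniteDimensional k (H →₀ k))

theorem TwAlg.smul_mul_smul_of' (α : Cocycle H k) (x y : k) (a b : H) :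
    (x • TwAlg.of α a) * (y • TwAlg.of α b) = (x * y * (α a b : k)) • TwAlg.of α (a * b) := by
  rw [smul_mul_smul_comm, TwAlg.of_mul_of, smul_smul]

/-- An algebra homomorphism out of `k_α H` from a map on the basis. -/
theorem TwAlg.exists_algHom (α : Cocycle H k) {B : Type*} [Ring B] [Algebra k B] (φ : H → B)
    (h1 : ((α 1 1 : kˣ) : k) • (1 : B) = φ 1)
    (hm : ∀ a b, φ a * φ b = ((α a b : kˣ) : k) • φ (a * b)) :
    ∃ F : TwAlg α →ₐ[k] B, ∀ a, F (TwAlg.of α a) = φ a := by
  let f := TwAlg.lift α φ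
  have hf : ∀ a, f (TwAlg.of α a) = φ a := TwAlg.lift_of α φ
  refine ⟨AlgHom.ofLinearMap f ?_ ?_, hf⟩
  · rw [TwAlg.one_def, map_smul, hf, ← h1, smul_smul, ← Units.val_mul, inv_mul_cancel,
      Units.val_one, one_smul]
  · intro x y
    have h : (LinearMap.mul k (TwAlg α)).compr₂ f = (LinearMap.mul k B).compl₁₂ f f := by
      apply TwAlg.lhom_ext
      intro a
      apply TwAlg.lhom_ext
      intro b
      show f (TwAlg.of α a * TwAlg.of α b) = f (TwAlg.of α a) * f (TwAlg.of α b)
      rw [TwAlg.of_mul_of, map_smul, hf, hf, hf, hm]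
    exact LinearMap.congr_fun (LinearMap.congr_fun h x) y

/-- A group homomorphism `f : H' → H` induces an algebra homomorphism `k_{f^* α} H' → k_α H`,
`of a ↦ of (f a)`. -/
theorem exists_map {H' : Type*} [Group H'] (α : Cocycle H k) (f : H' →* H) :
    ∃ F : TwAlg (α.comap f) →ₐ[k] TwAlg α, ∀ a, F (TwAlg.of _ a) = TwAlg.of α (f a) := by
  apply TwAlg.exists_algHom
  · show ((α (f 1) (f 1) : kˣ) : k) • (1 : TwAlg α) = TwAlg.of α (f 1)
    rw [map_one, TwAlg.one_def, smul_smul, ← Units.val_mul, mul_inv_cancel, Units.val_one,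
      one_smul]
  · intro a b
    show _ = ((α (f a) (f b) : kˣ) : k) • TwAlg.of α (f (a * b))
    rw [TwAlg.of_mul_of, map_mul]

theorem exists_hom_of_cohom {α β : Cocycle H k} (c : H → kˣ)
    (hc : ∀ a b, α a b = β a b * (c a * c b * (c (a * b))⁻¹)) :
    ∃ F : TwAlg α →ₐ[k] TwAlg β, ∀ a, F (TwAlg.of α a) = ((c a : kˣ) : k) • TwAlg.of β a := by
  apply TwAlg.exists_algHom
  · have h1 := hc 1 1
    rw [mul_one] at h1
    have h2 : α 1 1 = β 1 1 * c 1 := by rw [h1]; simp
    rw [h2, TwAlg.one_def, smul_smul]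
    congr 1
    rw [← Units.val_mul]
    congr 1
    rw [mul_comm (β 1 1), mul_assoc, mul_inv_cancel, mul_one]
  · intro a b
    rw [TwAlg.smul_mul_smul_of', smul_smul, hc, ← Units.val_mul, ← Units.val_mul, ← Units.val_mul]
    congr 2
    apply Units.ext
    simp only [Units.val_mul, Units.val_inv_eq_inv_val]
    have n1 := (c (a * b)).ne_zero
    field_simp

/-- Cohomologous cocycles give isomorphic algebras: `of a ↦ c a • of a`. -/
theorem twAlgEquiv_of_cohom {α β : Cocycle H k} (h : Cocycle.Cohom α β) :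
    Nonempty (TwAlg α ≃ₐ[k] TwAlg β) := by
  obtain ⟨c, hc⟩ := h
  obtain ⟨F, hF⟩ := exists_hom_of_cohom c hc
  obtain ⟨F', hF'⟩ := exists_hom_of_cohom (α := β) (β := α) (fun a => (c a)⁻¹) (by
    intro a b
    rw [hc a b]
    apply Units.ext
    simp only [Units.val_mul, Units.val_inv_eq_inv_val, inv_inv]
    have n1 := (c (a * b)).ne_zero
    have n2 := (c a).ne_zero
    have n3 := (c b).ne_zero
    field_simp)
  refine ⟨AlgEquiv.ofAlgHom F F' ?_ ?_⟩
  · have : (F.comp F').toLinearMap = LinearMap.id := by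
      apply TwAlg.lhom_ext
      intro a
      show F (F' (TwAlg.of β a)) = TwAlg.of β a
      rw [hF', map_smul, hF, smul_smul, ← Units.val_mul, inv_mul_cancel, Units.val_one, one_smul]
    exact AlgHom.toLinearMap_injective this
  · have : (F'.comp F).toLinearMap = LinearMap.id := by
      apply TwAlg.lhom_ext
      intro a
      show F' (F (TwAlg.of α a)) = TwAlg.of α a
      rw [hF, map_smul, hF', smul_smul, ← Units.val_mul, mul_inv_cancel, Units.val_one, one_smul]
    exact AlgHom.toLinearMap_injective this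

theorem twAlgEquiv_of_mulEquiv {H' : Type*} [Group H'] (α : Cocycle H k) (e : H' ≃* H) :
    Nonempty (TwAlg (α.comap e.toMonoidHom) ≃ₐ[k] TwAlg α) := by
  obtain ⟨F, hF⟩ := exists_map α e.toMonoidHom
  obtain ⟨F', hF'⟩ := TwAlg.exists_algHom α (B := TwAlg (α.comap e.toMonoidHom))
    (fun a => TwAlg.of _ (e.symm a)) (by
      show _ = TwAlg.of (α.comap e.toMonoidHom) (e.symm 1)
      have h1 : (α.comap e.toMonoidHom) 1 1 = α 1 1 := by
        show α (e 1) (e 1) = α 1 1
        rw [map_one]
      rw [map_one, TwAlg.one_def, h1, smul_smul, ← Units.val_mul, mul_inv_cancel, Units.val_one,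
        one_smul]) (by
      intro a b
      rw [TwAlg.of_mul_of, map_mul]
      congr 2
      show α (e (e.symm a)) (e (e.symm b)) = α a b
      rw [MulEquiv.apply_symm_apply, MulEquiv.apply_symm_apply])
  refine ⟨AlgEquiv.ofAlgHom F F' ?_ ?_⟩
  · have : (F.comp F').toLinearMap = LinearMap.id := by
      apply TwAlg.lhom_ext
      intro a
      show F (F' (TwAlg.of α a)) = TwAlg.of α a
      rw [hF', hF]
      congr 1
      exact e.apply_symm_apply a
    exact AlgHom.toLinearMap_injective this
  · have : (F'.comp F).toLinearMap = LinearMap.id := by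
      apply TwAlg.lhom_ext
      intro a
      show F' (F (TwAlg.of _ a)) = TwAlg.of _ a
      rw [hF, hF']
      congr 1
      exact e.symm_apply_apply a
    exact AlgHom.toLinearMap_injective this

/-- Conjugate subgroups: `k_α (g U g⁻¹) ≅ k_α U`. -/
theorem lNum_conj (α : Cocycle H k) (U : Subgroup H) (g : H) :
    lNum (TwAlg (α.comap (U.map (MulAut.conj g).toMonoidHom).subtype)) =
      lNum (TwAlg (α.comap U.subtype)) := by
  let e : U ≃* U.map (MulAut.conj g).toMonoidHom :=
    U.equivMapOfInjective (MulAut.conj g).toMonoidHom (MulAut.conj g).injective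
  have he : ∀ u : U, ((e u : U.map (MulAut.conj g).toMonoidHom) : H) = g * u * g⁻¹ := fun u => rfl
  obtain ⟨E1⟩ := twAlgEquiv_of_mulEquiv
    (α.comap (U.map (MulAut.conj g).toMonoidHom).subtype) e
  have hco : Cocycle.Cohom ((α.comap (U.map (MulAut.conj g).toMonoidHom).subtype).comap
      e.toMonoidHom) (α.comap U.subtype) := by
    refine ⟨fun u => (α g (u : H))⁻¹ * α (g * u * g⁻¹) g, ?_⟩
    intro a b
    show α (g * (a : H) * g⁻¹) (g * b * g⁻¹) = α (a : H) (b : H) *
      ((α g (a : H))⁻¹ * α (g * a * g⁻¹) g * ((α g (b : H))⁻¹ * α (g * b * g⁻¹) g) *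
        ((α g ((a : H) * b))⁻¹ * α (g * ((a : H) * b) * g⁻¹) g)⁻¹)
    have h1 := α.cocycle g (a : H) (b : H)
    have h2 := α.cocycle (g * a * g⁻¹) g (b : H)
    have h3 := α.cocycle (g * a * g⁻¹) (g * b * g⁻¹) g
    have e1 : g * (a : H) * g⁻¹ * g = g * a := by group
    have e2 : g * (b : H) * g⁻¹ * g = g * b := by group
    have e3 : g * (a : H) * g⁻¹ * (g * b * g⁻¹) = g * ((a : H) * b) * g⁻¹ := by group
    rw [e1] at h2
    rw [e2, e3] at h3
    have f1 : α (a : H) (b : H) = α g (a : H) * α (g * a) (b : H) * (α g ((a : H) * b))⁻¹ := by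
      rw [h1]; simp
    have f2 : α (g * a) (b : H) =
        (α (g * a * g⁻¹) g)⁻¹ * (α g (b : H) * α (g * a * g⁻¹) (g * b)) := by
      rw [← h2]; simp
    have f3 : α (g * (a : H) * g⁻¹) (g * b) =
        (α (g * b * g⁻¹) g)⁻¹ * (α (g * (a : H) * g⁻¹) (g * b * g⁻¹) *
          α (g * ((a : H) * b) * g⁻¹) g) := by
      rw [h3]; simp
    rw [f1, f2, f3]
    apply Units.ext
    simp only [Units.val_mul, Units.val_inv_eq_inv_val, mul_inv_rev, inv_inv]
    have n1 := (α g (a : H)).ne_zero
    have n2 := (α (g * a * g⁻¹) g).ne_zero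
    have n3 := (α g (b : H)).ne_zero
    have n4 := (α (g * b * g⁻¹) g).ne_zero
    have n8 := (α (g * ((a : H) * b) * g⁻¹) g).ne_zero
    have n9 := (α g ((a : H) * b)).ne_zero
    field_simp
  obtain ⟨E2⟩ := twAlgEquiv_of_cohom hco
  rw [← lNum_congr E1.toRingEquiv, lNum_congr E2.toRingEquiv]

end tw

end MNF
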