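import Pool.Agent.W_0649d4.Iface

/-! Cocycles of finite `p`-groups with values in `kˣ`, `k` algebraically closed of
characteristic `p`, split in a unique way. -/

namespace MNF

open scoped BigOperators

variable {k : Type*} [Field k] [IsAlgClosed k]

omit [IsAlgClosed k] in
theorem pow_card_inj {U : Type*} [Group U] [Finite U] (p : ℕ) [Fact p.Prime] [CharP k p]
    (hU : IsPGroup p U) {x y : kˣ} (h : x ^ Nat.card U = y ^ Nat.card U) : x = y := by
  obtain ⟨n, hn⟩ := (IsPGroup.iff_card).mp hU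
  rw [hn] at h
  apply Units.ext
  have h1 : (x : k) ^ p ^ n = (y : k) ^ p ^ n := by
    have := congrArg (fun u : kˣ => (u : k)) h
    simpa using this
  have h2 : ((x : k) - y) ^ p ^ n = 0 := by
    rw [sub_pow_char_pow, h1, sub_self]
  exact sub_eq_zero.mp (pow_eq_zero_iff (pow_ne_zero n (Fact.out : p.Prime).ne_zero) |>.mp h2)

theorem pgroup_split {U : Type*} [Group U] [Finite U] (p : ℕ) [Fact p.Prime] [CharP k p]
    (hU : IsPGroup p U) (α : Cocycle U k) :
    ∃! γ : U → kˣ, ∀ a b, α a b = γ a * γ b * (γ (a * b))⁻¹ := by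
  classical
  have : Fintype U := Fintype.ofFinite U
  have hN : Nat.card U ≠ 0 := Nat.card_pos.ne'
  let β : U → kˣ := fun a => ∏ c : U, α a c
  have hβ : ∀ a b, α a b ^ Nat.card U = β a * β b * (β (a * b))⁻¹ := by
    intro a b
    have h1 : ∀ c, α a b * α (a * b) c = α b c * α a (b * c) := fun c => α.cocycle a b c
    have h2 : ∏ c : U, (α a b * α (a * b) c) = ∏ c : U, (α b c * α a (b * c)) :=
      Finset.prod_congr rfl (fun c _ => h1 c)
    rw [Finset.prod_mul_distrib, Finset.prod_mul_distrib, Finset.prod_const, Finset.card_univ,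
      ← Nat.card_eq_fintype_card] at h2
    have h3 : ∏ c : U, α a (b * c) = β a :=
      Fintype.prod_equiv (Equiv.mulLeft b) _ _ (fun c => rfl)
    rw [h3] at h2
    rw [eq_mul_inv_iff_mul_eq, h2, mul_comm]
  have hroot : ∀ x : kˣ, ∃ y : kˣ, y ^ Nat.card U = x := by
    intro x
    obtain ⟨z, hz⟩ := IsAlgClosed.exists_pow_nat_eq (x : k) (Nat.pos_of_ne_zero hN)
    have hz0 : z ≠ 0 := by
      rintro rfl
      rw [zero_pow hN] at hz
      exact x.ne_zero hz.symm
    refine ⟨Units.mk0 z hz0, ?_⟩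
    apply Units.ext
    simpa using hz
  choose r hr using hroot
  refine ⟨fun a => r (β a), ?_, ?_⟩
  · intro a b
    apply pow_card_inj p hU
    rw [hβ, mul_pow, mul_pow, inv_pow, hr, hr, hr]
  · intro γ hγ
    funext a
    -- the quotient is a homomorphism
    have hγ' : ∀ a b, α a b = γ a * γ b * (γ (a * b))⁻¹ := hγ
    have hβ' : ∀ a b, α a b = r (β a) * r (β b) * (r (β (a * b)))⁻¹ := by
      intro a b
      apply pow_card_inj p hU
      rw [hβ, mul_pow, mul_pow, inv_pow, hr, hr, hr]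
    let f : U →* kˣ := MonoidHom.mk' (fun a => γ a * (r (β a))⁻¹) (by
      intro a b
      have h1 := (hγ' a b).symm.trans (hβ' a b)
      have h2 : γ (a * b) = γ a * γ b * (r (β a) * r (β b) * (r (β (a * b)))⁻¹)⁻¹ := by
        rw [← h1, mul_inv_rev, inv_inv, mul_comm (γ (a * b)), ← mul_assoc, mul_inv_cancel, one_mul]
      rw [h2]
      apply Units.ext
      simp only [Units.val_mul, Units.val_inv_eq_inv_val, mul_inv_rev, inv_inv]
      have n1 := (r (β a)).ne_zero
      have n2 := (r (β b)).ne_zero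
      have n3 := (r (β (a * b))).ne_zero
      field_simp)
    have h1 : f a = 1 := by
      apply pow_card_inj p hU
      rw [one_pow, ← map_pow, pow_card_eq_one', map_one]
    have h2 : γ a * (r (β a))⁻¹ = 1 := h1
    exact mul_inv_eq_one.mp h2

/-- Conjugation by `of h` maps the normalised lifts of the elements of `U` to the normalised lifts
of the elements of `U'`, if `h U h⁻¹ ≤ U'`. -/
theorem split_conj {H : Type*} [Group H] (p : ℕ) [Fact p.Prime] [CharP k p] (α : Cocycle H k)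
    (U U' : Subgroup H) [Finite U] (hU : IsPGroup p U) (γ : U → kˣ) (γ' : U' → kˣ)
    (hγ : ∀ a b : U, α a b = γ a * γ b * (γ (a * b))⁻¹)
    (hγ' : ∀ a b : U', α a b = γ' a * γ' b * (γ' (a * b))⁻¹)
    (h : H) (hn : ∀ u : U, h * (u : H) * h⁻¹ ∈ U') (u : U) :
    TwAlg.of α h * ((((γ u)⁻¹ : kˣ) : k) • TwAlg.of α (u : H)) =
      ((((γ' ⟨h * u * h⁻¹, hn u⟩)⁻¹ : kˣ) : k) • TwAlg.of α (h * u * h⁻¹)) * TwAlg.of α h := by
  let σ : U →* U' :=
    { toFun := fun u => ⟨h * u * h⁻¹, hn u⟩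
      map_one' := by
        apply Subtype.ext
        simp
      map_mul' := fun a b => by
        apply Subtype.ext
        simp }
  let c : U → kˣ := fun u => α h (u : H) * (α (h * u * h⁻¹) h)⁻¹
  have hc : ∀ a b : U, α (a : H) (b : H) =
      (c a * γ' (σ a)) * (c b * γ' (σ b)) * (c (a * b) * γ' (σ (a * b)))⁻¹ := by
    intro a b
    have h1 := α.cocycle h (a : H) (b : H)
    have h2 := α.cocycle (h * a * h⁻¹) h (b : H)
    have h3 := α.cocycle (h * a * h⁻¹) (h * b * h⁻¹) h
    have e1 : h * (a : H) * h⁻¹ * h = h * a := by group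
    have e2 : h * (b : H) * h⁻¹ * h = h * b := by group
    have e3 : h * (a : H) * h⁻¹ * (h * b * h⁻¹) = h * (a * b : H) * h⁻¹ := by group
    rw [e1] at h2
    rw [e2, e3] at h3
    have h4 := hγ' (σ a) (σ b)
    rw [← map_mul] at h4
    have h5 : α (h * (a : H) * h⁻¹) (h * b * h⁻¹) = γ' (σ a) * γ' (σ b) * (γ' (σ (a * b)))⁻¹ := h4
    have h6 : c (a * b) = α h ((a : H) * b) * (α (h * ((a : H) * b) * h⁻¹) h)⁻¹ := rfl
    rw [h6]
    simp only [c]
    have f1 : α (a : H) (b : H) = α h (a : H) * α (h * a) (b : H) * (α h ((a : H) * b))⁻¹ := by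
      rw [h1]; simp
    have f2 : α (h * a) (b : H) =
        (α (h * a * h⁻¹) h)⁻¹ * (α h (b : H) * α (h * a * h⁻¹) (h * b)) := by
      rw [← h2]; simp
    have f3 : α (h * (a : H) * h⁻¹) (h * b) =
        (α (h * b * h⁻¹) h)⁻¹ * (α (h * (a : H) * h⁻¹) (h * b * h⁻¹) *
          α (h * ((a : H) * b) * h⁻¹) h) := by
      rw [h3]; simp
    rw [f1, f2, f3, h5]
    apply Units.ext
    simp only [Units.val_mul, Units.val_inv_eq_inv_val, mul_inv_rev, inv_inv]
    have n1 := (α h (a : H)).ne_zero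
    have n2 := (α (h * a * h⁻¹) h).ne_zero
    have n3 := (α h (b : H)).ne_zero
    have n4 := (α (h * b * h⁻¹) h).ne_zero
    have n5 := (γ' (σ a)).ne_zero
    have n6 := (γ' (σ b)).ne_zero
    have n7 := (γ' (σ (a * b))).ne_zero
    have n8 := (α (h * ((a : H) * b) * h⁻¹) h).ne_zero
    have n9 := (α h ((a : H) * b)).ne_zero
    field_simp
  have huniq := (pgroup_split p hU (α.comap U.subtype)).unique (y₁ := γ)
    (y₂ := fun u => c u * γ' (σ u)) (fun a b => hγ a b) (fun a b => hc a b)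
  have h5 : γ u = c u * γ' (σ u) := congrFun huniq u
  have h6 : TwAlg.of α h * TwAlg.of α (u : H) =
      ((c u : kˣ) : k) • (TwAlg.of α (h * u * h⁻¹) * TwAlg.of α h) := by
    rw [TwAlg.of_mul_of, TwAlg.of_mul_of, smul_smul]
    have e1 : h * (u : H) * h⁻¹ * h = h * u := by group
    rw [e1]
    congr 1
    simp [c]
  have h7 : (⟨h * u * h⁻¹, hn u⟩ : U') = σ u := rfl
  rw [mul_smul_comm, smul_mul_assoc, h6, smul_smul, h5, h7]
  congr 1
  simp

end MNF
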