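import Pool.Agent.W_0649d4.ABasic
import Pool.Agent.W_0649d4.ASplit

/-! Higman's criterion and vanishing of `z` in the presence of a normal `p`-subgroup. -/

namespace MNF

open scoped BigOperators

variable {k : Type*} [Field k]

/-- `(of u)⁻¹` in `k_α H`. -/
noncomputable def TwAlg.ofInv {H : Type*} [Group H] (α : Cocycle H k) (u : H) : TwAlg α :=
  (((α u u⁻¹ * α 1 1)⁻¹ : kˣ) : k) • TwAlg.of α u⁻¹

theorem TwAlg.of_mul_ofInv {H : Type*} [Group H] (α : Cocycle H k) (u : H) :
    TwAlg.of α u * TwAlg.ofInv α u = 1 := by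
  rw [TwAlg.ofInv, mul_smul_comm, TwAlg.of_mul_of, smul_smul, mul_inv_cancel, TwAlg.one_def,
    ← Units.val_mul]
  congr 2
  rw [mul_inv_rev, mul_assoc, inv_mul_cancel, mul_one]

theorem TwAlg.ofInv_mul_of {H : Type*} [Group H] (α : Cocycle H k) (u : H) :
    TwAlg.ofInv α u * TwAlg.of α u = 1 := by
  have h := α.cocycle u u⁻¹ u
  rw [mul_inv_cancel, inv_mul_cancel, Cocycle.one_left α u, Cocycle.one_right α u] at h
  have h1 : α u u⁻¹ = α u⁻¹ u := mul_right_cancel h
  rw [TwAlg.ofInv, smul_mul_assoc, TwAlg.of_mul_of, smul_smul, inv_mul_cancel, TwAlg.one_def,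
    ← Units.val_mul, h1]
  congr 2
  rw [mul_inv_rev, mul_assoc, inv_mul_cancel, mul_one]

/-- Representatives of the right cosets. -/
theorem exists_rep {H : Type*} [Group H] (U : Subgroup H) :
    ∃ r : H → H, (∀ h, h * (r h)⁻¹ ∈ U) ∧ ∀ u ∈ U, ∀ h, r (u * h) = r h := by
  classical
  refine ⟨fun h => (Quotient.mk (QuotientGroup.rightRel U) h).out, fun h => ?_, fun u hu h => ?_⟩
  · have h1 : (QuotientGroup.rightRel U) ((Quotient.mk (QuotientGroup.rightRel U) h).out) h :=
      Quotient.mk_out h
    rw [QuotientGroup.rightRel_apply] at h1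
    exact h1
  · have h1 : Quotient.mk (QuotientGroup.rightRel U) (u * h) =
        Quotient.mk (QuotientGroup.rightRel U) h := by
      apply Quotient.sound
      change (QuotientGroup.rightRel U) (u * h) h
      rw [QuotientGroup.rightRel_apply, mul_inv_rev, mul_inv_cancel_left]
      exact U.inv_mem hu
    change (Quotient.mk (QuotientGroup.rightRel U) (u * h)).out =
      (Quotient.mk (QuotientGroup.rightRel U) h).out
    rw [h1]

/-- Higman's criterion for the regular module. -/
theorem higman_reg {H : Type*} [Group H] (α : Cocycle H k) (U : Subgroup H) [Fintype U] :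
    ∃ θ : TwAlg α →ₗ[k] TwAlg α, ∀ a : TwAlg α,
      ∑ u : U, TwAlg.of α (u : H) * θ (TwAlg.ofInv α (u : H) * a) = a := by
  classical
  obtain ⟨r, hr, hr'⟩ := exists_rep U
  let θ : TwAlg α →ₗ[k] TwAlg α := TwAlg.lift α fun h => if r h = h then TwAlg.of α h else 0
  refine ⟨θ, fun a => ?_⟩
  have key : (∑ u : U, (LinearMap.mulLeft k (TwAlg.of α (u : H))).comp
      (θ.comp (LinearMap.mulLeft k (TwAlg.ofInv α (u : H))))) = LinearMap.id := by
    apply TwAlg.lhom_ext
    intro h
    rw [LinearMap.sum_apply, LinearMap.id_apply]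
    have hterm : ∀ u : U, (LinearMap.mulLeft k (TwAlg.of α (u : H))).comp
        (θ.comp (LinearMap.mulLeft k (TwAlg.ofInv α (u : H)))) (TwAlg.of α h) =
        if u = ⟨h * (r h)⁻¹, hr h⟩ then TwAlg.of α h else 0 := by
      intro u
      rw [LinearMap.comp_apply, LinearMap.comp_apply, LinearMap.mulLeft_apply,
        LinearMap.mulLeft_apply]
      have h1 : TwAlg.ofInv α (u : H) * TwAlg.of α h =
          ((((α (u : H) (u : H)⁻¹ * α 1 1)⁻¹ : kˣ) : k) * (α (u : H)⁻¹ h : k)) •
            TwAlg.of α ((u : H)⁻¹ * h) := by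
        rw [TwAlg.ofInv, smul_mul_assoc, TwAlg.of_mul_of, smul_smul]
      have h2 : θ (TwAlg.ofInv α (u : H) * TwAlg.of α h) =
          if u = ⟨h * (r h)⁻¹, hr h⟩ then TwAlg.ofInv α (u : H) * TwAlg.of α h else 0 := by
        rw [h1, map_smul]
        have h3 : θ (TwAlg.of α ((u : H)⁻¹ * h)) =
            if r ((u : H)⁻¹ * h) = (u : H)⁻¹ * h then TwAlg.of α ((u : H)⁻¹ * h) else 0 :=
          TwAlg.lift_of α _ _
        rw [h3, hr' _ (U.inv_mem u.2)]
        have h4 : r h = (u : H)⁻¹ * h ↔ u = ⟨h * (r h)⁻¹, hr h⟩ := by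
          rw [Subtype.ext_iff]
          constructor
          · intro e
            change (u : H) = h * (r h)⁻¹
            rw [e, mul_inv_rev, inv_inv, mul_inv_cancel_left]
          · intro e
            change (u : H) = h * (r h)⁻¹ at e
            rw [e, mul_inv_rev, inv_inv, mul_assoc, inv_mul_cancel, mul_one]
        by_cases h5 : u = ⟨h * (r h)⁻¹, hr h⟩
        · rw [if_pos (h4.2 h5), if_pos h5]
        · rw [if_neg (fun e => h5 (h4.1 e)), if_neg h5, smul_zero]
      rw [h2]
      by_cases h5 : u = ⟨h * (r h)⁻¹, hr h⟩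
      · rw [if_pos h5, if_pos h5, ← mul_assoc, TwAlg.of_mul_ofInv, one_mul]
      · rw [if_neg h5, if_neg h5, mul_zero]
    rw [Finset.sum_congr rfl fun u _ => hterm u, Finset.sum_ite_eq' Finset.univ,
      if_pos (Finset.mem_univ _)]
  have h1 := LinearMap.congr_fun key a
  rw [LinearMap.sum_apply, LinearMap.id_apply] at h1
  exact h1

/-- Higman: a projective `k_α H`-module `M` has a `k`-linear map `θ` with
`∑_{u ∈ U} u θ u⁻¹ = id`, for every subgroup `U`. Proof: `M` is a direct summand of a free module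
`X →₀ k_α H`; for `k_α H` itself take for `θ` the projection onto the span of a set of
representatives of `U \ H`. -/
theorem higman {H : Type*} [Group H] [Finite H] (α : Cocycle H k) (U : Subgroup H) [Fintype U]
    (M : Type*) [AddCommGroup M] [Module (TwAlg α) M] [Module k M] [IsScalarTower k (TwAlg α) M]
    [Module.Projective (TwAlg α) M] :
    ∃ θ : M →ₗ[k] M, ∀ m : M,
      ∑ u : U, TwAlg.of α (u : H) • θ (TwAlg.ofInv α (u : H) • m) = m := by
  classical
  obtain ⟨θ, hθ⟩ := higman_reg α U
  obtain ⟨s, hs⟩ := (Module.projective_def (R := TwAlg α) (P := M)).1 inferInstance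
  let π : (M →₀ TwAlg α) →ₗ[TwAlg α] M := Finsupp.linearCombination (TwAlg α) id
  let Θ : (M →₀ TwAlg α) →ₗ[k] (M →₀ TwAlg α) := Finsupp.mapRange.linearMap θ
  refine ⟨(π.restrictScalars k).comp (Θ.comp (s.restrictScalars k)), fun m => ?_⟩
  have h1 : ∀ f : M →₀ TwAlg α,
      ∑ u : U, TwAlg.of α (u : H) • Θ (TwAlg.ofInv α (u : H) • f) = f := by
    intro f
    ext x
    rw [Finsupp.finsetSum_apply]
    exact hθ (f x)
  have h2 : ∀ u : U, TwAlg.of α (u : H) • ((π.restrictScalars k).comp
      (Θ.comp (s.restrictScalars k))) (TwAlg.ofInv α (u : H) • m) =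
      π (TwAlg.of α (u : H) • Θ (TwAlg.ofInv α (u : H) • s m)) := by
    intro u
    change TwAlg.of α (u : H) • π (Θ (s (TwAlg.ofInv α (u : H) • m))) = _
    rw [map_smul s, map_smul π]
  rw [Finset.sum_congr rfl fun u _ => h2 u, ← map_sum, h1]
  exact hs m

/-- A finite `p`-group acting additively on a nonzero module of characteristic `p` has a nonzero
fixed point. -/
theorem exists_fixed {U : Type*} [Group U] [Finite U] (p : ℕ) [Fact p.Prime] (hU : IsPGroup p U)
    (M : Type*) [AddCommGroup M] [DistribMulAction U M] (hp : ∀ m : M, (p : ℤ) • m = 0)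
    [Nontrivial M] : ∃ m : M, m ≠ 0 ∧ ∀ u : U, u • m = m := by
  classical
  obtain ⟨m, hm⟩ := exists_ne (0 : M)
  let N : Submodule ℤ M := Submodule.span ℤ (Set.range fun u : U => u • m)
  have hN : ∀ (g : U) (x : M), x ∈ N → g • x ∈ N := by
    intro g x hx
    refine Submodule.span_induction (p := fun x _ => g • x ∈ N) ?_ ?_ ?_ ?_ hx
    · rintro _ ⟨u, rfl⟩
      refine Submodule.subset_span ⟨g * u, ?_⟩
      change (g * u) • m = g • (u • m)
      rw [mul_smul]
    · rw [smul_zero]
      exact N.zero_mem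
    · intro a b _ _ ha hb
      rw [smul_add]
      exact N.add_mem ha hb
    · intro c a _ ha
      rw [smul_comm g c a]
      exact N.smul_mem c ha
  have hfin : Module.Finite ℤ N := Module.Finite.span_of_finite ℤ (Set.finite_range _)
  have hp0 : p ≠ 0 := (Fact.out : p.Prime).ne_zero
  have htor : Module.IsTorsion ℤ N := by
    intro x
    refine ⟨⟨(p : ℤ), mem_nonZeroDivisors_of_ne_zero (by exact_mod_cast hp0)⟩, ?_⟩
    apply Subtype.ext
    exact hp x.1
  have hNf : Finite N := Module.finite_of_fg_torsion N htor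
  let _ : MulAction U N :=
    { smul := fun g x => ⟨g • x.1, hN g x.1 x.2⟩
      one_smul := fun x => Subtype.ext (one_smul U x.1)
      mul_smul := fun g h x => Subtype.ext (mul_smul g h x.1) }
  have hcard : p ∣ Nat.card N := by
    have hmN : m ∈ N := Submodule.subset_span ⟨1, one_smul U m⟩
    have h1 : addOrderOf (⟨m, hmN⟩ : N) = p := by
      apply addOrderOf_eq_prime
      · apply Subtype.ext
        change p • m = 0
        rw [← hp m, natCast_zsmul]
      · intro h
        exact hm (congrArg Subtype.val h)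
    rw [← h1]
    exact addOrderOf_dvd_natCard _
  have h0 : (0 : N) ∈ MulAction.fixedPoints U N := fun g => Subtype.ext (smul_zero g)
  obtain ⟨b, hb, hb0⟩ := hU.exists_fixed_point_of_prime_dvd_card_of_fixed_point N hcard h0
  exact ⟨b.1, fun h => hb0 (Subtype.ext h.symm), fun u => congrArg Subtype.val (hb u)⟩

/-- `z(k_α H) = 0` if `H` has a nontrivial normal `p`-subgroup `U`. Proof: let `M = A ⧸ m` be simple
projective, `γ` the splitting of `α|_U` (`pgroup_split`), `û = (γ u)⁻¹ of u`. The fixed points of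
all `û` form a nonzero submodule (`split_conj`), so every `û` acts trivially; then
`m = ∑_u û θ (û⁻¹ m) = ∑_u θ m = |U| θ m = 0`. -/
theorem zNum_eq_zero {H : Type*} [Group H] [Finite H] [IsAlgClosed k] (p : ℕ) [Fact p.Prime]
    [CharP k p] (α : Cocycle H k) (U : Subgroup H) [U.Normal] (hU : IsPGroup p U) (hne : U ≠ ⊥) :
    zNum (TwAlg α) = 0 := by
  classical
  have : Fintype U := Fintype.ofFinite U
  unfold zNum
  have hempty : IsEmpty {m : Submodule (TwAlg α) (TwAlg α) // IsCoatom m ∧
      Module.Projective (TwAlg α) (TwAlg α ⧸ m)} := by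
    refine ⟨fun ⟨J, hJ, hproj⟩ => ?_⟩
    have hsimple : IsSimpleModule (TwAlg α) (TwAlg α ⧸ J) := isSimpleModule_iff_isCoatom.2 hJ
    have hnt : Nontrivial (TwAlg α ⧸ J) := IsSimpleModule.nontrivial (TwAlg α) _
    obtain ⟨γ, hγ, -⟩ := pgroup_split p hU (α.comap U.subtype)
    have hγ' : ∀ a b : U, α (a : H) (b : H) = γ a * γ b * (γ (a * b))⁻¹ := hγ
    have hγ1 : α 1 1 = γ 1 := by
      have := hγ' 1 1
      rw [mul_one, mul_assoc, mul_inv_cancel, mul_one] at this
      exact this
    let hat : U →* TwAlg α :=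
      { toFun := fun u => (((γ u)⁻¹ : kˣ) : k) • TwAlg.of α (u : H)
        map_one' := by
          rw [← hγ1, TwAlg.one_def]
          rfl
        map_mul' := fun a b => by
          rw [TwAlg.smul_mul_smul_of', ← Units.val_mul, ← Units.val_mul, hγ' a b]
          congr 2
          rw [mul_comm (γ a)⁻¹, mul_assoc, ← mul_assoc (γ a)⁻¹, ← mul_assoc (γ a)⁻¹,
            inv_mul_cancel, one_mul, ← mul_assoc, inv_mul_cancel, one_mul] }
    have hhat : ∀ u : U, hat u = (((γ u)⁻¹ : kˣ) : k) • TwAlg.of α (u : H) := fun u => rfl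
    let _ : DistribMulAction U (TwAlg α ⧸ J) := DistribMulAction.compHom _ hat
    have hact : ∀ (u : U) (x : TwAlg α ⧸ J), u • x = hat u • x := fun _ _ => rfl
    have hchar : ∀ x : TwAlg α ⧸ J, (p : ℤ) • x = 0 := by
      intro x
      rw [natCast_zsmul, ← Nat.cast_smul_eq_nsmul k, CharP.cast_eq_zero, zero_smul]
    obtain ⟨x0, hx0, hfix0⟩ := exists_fixed p hU (TwAlg α ⧸ J) hchar
    -- the fixed points are a submodule
    let F : Submodule (TwAlg α) (TwAlg α ⧸ J) :=
      { carrier := {x | ∀ u : U, hat u • x = x}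
        add_mem' := fun {a b} ha hb u => by rw [smul_add, ha u, hb u]
        zero_mem' := fun u => smul_zero _
        smul_mem' := fun a x hx u => by
          have hlin : ∀ h : H, hat u • (TwAlg.of α h • x) = TwAlg.of α h • x := by
            intro h
            have hn : ∀ v : U, h * (v : H) * h⁻¹ ∈ U := fun v => Subgroup.Normal.conj_mem
              inferInstance v.1 v.2 h
            have hm : h⁻¹ * (u : H) * h ∈ U := by
              have := Subgroup.Normal.conj_mem (H := U) inferInstance u.1 u.2 h⁻¹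
              rwa [inv_inv] at this
            have h1 := split_conj p α U U hU γ γ hγ' hγ' h hn ⟨h⁻¹ * (u : H) * h, hm⟩
            have h2 : (⟨h * (h⁻¹ * (u : H) * h) * h⁻¹, hn ⟨h⁻¹ * (u : H) * h, hm⟩⟩ : U) = u := by
              apply Subtype.ext
              change h * (h⁻¹ * (u : H) * h) * h⁻¹ = u
              group
            have h3 : h * (h⁻¹ * (u : H) * h) * h⁻¹ = u := by group
            rw [h2, h3, ← hhat] at h1
            change TwAlg.of α h * hat ⟨h⁻¹ * (u : H) * h, hm⟩ = hat u * TwAlg.of α h at h1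
            rw [← mul_smul, ← h1, mul_smul, hx]
          have hl : (((LinearMap.toSpanSingleton (TwAlg α) (TwAlg α ⧸ J) x).restrictScalars k)
              ∘ₗ (LinearMap.mulLeft k (hat u))) =
              (LinearMap.toSpanSingleton (TwAlg α) (TwAlg α ⧸ J) x).restrictScalars k := by
            apply TwAlg.lhom_ext
            intro h
            change (hat u * TwAlg.of α h) • x = TwAlg.of α h • x
            rw [mul_smul]
            exact hlin h
          have := LinearMap.congr_fun hl a
          change (hat u * a) • x = a • x at this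
          rw [← mul_smul]
          exact this }
    have hF : F = ⊤ := by
      rcases eq_bot_or_eq_top F with h | h
      · exfalso
        have h1 : x0 ∈ F := fun u => hfix0 u
        rw [h] at h1
        exact hx0 ((Submodule.mem_bot _).1 h1)
      · exact h
    have hfix : ∀ (u : U) (x : TwAlg α ⧸ J), hat u • x = x := by
      intro u x
      have h1 : x ∈ F := by
        rw [hF]
        exact Submodule.mem_top
      exact h1 u
    have hof : ∀ (u : U) (x : TwAlg α ⧸ J), TwAlg.of α (u : H) • x = ((γ u : kˣ) : k) • x := by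
      intro u x
      have h1 := hfix u x
      rw [hhat, smul_assoc] at h1
      have h2 := congrArg (fun y => ((γ u : kˣ) : k) • y) h1
      change ((γ u : kˣ) : k) • ((((γ u)⁻¹ : kˣ) : k) • (TwAlg.of α (u : H) • x)) =
        ((γ u : kˣ) : k) • x at h2
      rw [smul_smul, ← Units.val_mul, mul_inv_cancel, Units.val_one, one_smul] at h2
      exact h2
    have hofInv : ∀ (u : U) (x : TwAlg α ⧸ J),
        TwAlg.ofInv α (u : H) • x = (((γ u)⁻¹ : kˣ) : k) • x := by
      intro u x
      have h1 : TwAlg.of α (u : H) • (TwAlg.ofInv α (u : H) • x) = x := by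
        rw [← mul_smul, TwAlg.of_mul_ofInv, one_smul]
      rw [hof] at h1
      have h2 := congrArg (fun y => (((γ u)⁻¹ : kˣ) : k) • y) h1
      change (((γ u)⁻¹ : kˣ) : k) • (((γ u : kˣ) : k) • (TwAlg.ofInv α (u : H) • x)) = _ at h2
      rw [smul_smul, ← Units.val_mul, inv_mul_cancel, Units.val_one, one_smul] at h2
      exact h2
    obtain ⟨θ, hθ⟩ := higman α U (TwAlg α ⧸ J)
    have hpU : p ∣ Nat.card U := by
      obtain ⟨n, hn⟩ := (IsPGroup.iff_card).1 hU
      rw [hn]
      apply dvd_pow_self
      rintro rfl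
      rw [pow_zero] at hn
      exact hne ((Subgroup.card_eq_one).1 hn)
    have h1 := hθ x0
    have h2 : ∀ u : U, TwAlg.of α (u : H) • θ (TwAlg.ofInv α (u : H) • x0) = θ x0 := by
      intro u
      rw [hofInv, map_smul, hof, smul_smul, ← Units.val_mul, mul_inv_cancel, Units.val_one,
        one_smul]
    rw [Finset.sum_congr rfl fun u _ => h2 u, Finset.sum_const, Finset.card_univ,
      ← Nat.card_eq_fintype_card] at h1
    obtain ⟨c, hc⟩ := hpU
    have h3 : (p : ℤ) • (c • θ x0) = 0 := hchar _
    rw [natCast_zsmul, smul_smul, ← hc, h1] at h3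
    exact hx0 h3
  have : IsEmpty (Quotient (simpleProjSetoid (TwAlg α))) :=
    ⟨fun q => Quotient.inductionOn q fun x => hempty.elim x⟩
  exact Nat.card_of_isEmpty

end MNF
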