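import Pool.Agent.W_0649d4.ABasic
import Pool.Agent.W_0649d4.ASplit
import Pool.Agent.W_0649d4.AHigman

/-! Comparison of `l` along two surjections. -/

namespace MNF

section

variable {k : Type*} [Field k]

/-- The map of twisted group algebras induced by a surjection is surjective. -/
theorem exists_map_surj {H H' : Type*} [Group H] [Group H'] (α : Cocycle H k) (f : H' →* H)
    (hf : Function.Surjective f) :
    ∃ F : TwAlg (α.comap f) →ₐ[k] TwAlg α, (∀ a, F (TwAlg.of _ a) = TwAlg.of α (f a)) ∧
      Function.Surjective F := by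
  obtain ⟨F, hF⟩ := exists_map α f
  refine ⟨F, hF, ?_⟩
  have h1 : (LinearMap.range F.toLinearMap).mkQ = 0 := by
    apply TwAlg.lhom_ext
    intro a
    obtain ⟨b, rfl⟩ := hf a
    rw [LinearMap.zero_apply, Submodule.mkQ_apply, Submodule.Quotient.mk_eq_zero]
    exact ⟨TwAlg.of _ b, hF b⟩
  intro x
  have h2 : (LinearMap.range F.toLinearMap).mkQ x = 0 := by rw [h1]; rfl
  rw [Submodule.mkQ_apply, Submodule.Quotient.mk_eq_zero] at h2
  exact h2

theorem TwAlg.eq_of_basis {H : Type*} [Group H] {α : Cocycle H k} {M : Type*} [AddCommGroup M]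
    [Module k M] (f g : TwAlg α →ₗ[k] M) (h : ∀ a, f (TwAlg.of α a) = g (TwAlg.of α a))
    (x : TwAlg α) : f x = g x := by
  rw [TwAlg.lhom_ext h]

end

variable {k : Type*} [Field k] [IsAlgClosed k]

/-- If `π : A → E` is surjective with kernel a `p`-group, every simple module over the inflated
algebra comes from `k_α E`. -/
theorem lNum_inflate_le {A E : Type*} [Group A] [Finite A] [Group E] [Finite E] (p : ℕ)
    [Fact p.Prime] [CharP k p] (π : A →* E) (hπ : Function.Surjective π) (hker : IsPGroup p π.ker)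
    (α : Cocycle E k) : lNum (TwAlg (α.comap π)) ≤ lNum (TwAlg α) := by
  classical
  set β := α.comap π with hβ
  obtain ⟨F, hF⟩ : ∃ F : TwAlg β →ₐ[k] TwAlg α, ∀ a, F (TwAlg.of β a) = TwAlg.of α (π a) :=
    exists_map α π
  have hβ1 : ∀ (u a : A), π u = 1 → β u a = α 1 1 := by
    intro u a hu
    show α (π u) (π a) = α 1 1
    rw [hu, Cocycle.one_left]
  have hβ2 : ∀ (a u : A), π u = 1 → β a u = α 1 1 := by
    intro a u hu
    show α (π a) (π u) = α 1 1
    rw [hu, Cocycle.one_right]
  -- the kernel acts by the scalar `α 1 1` on simple modules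
  have hkerM : ∀ (m : {m : Submodule (TwAlg β) (TwAlg β) // IsCoatom m}) (u : A), π u = 1 →
      ∀ x : TwAlg β ⧸ m.1, TwAlg.of β u • x = ((α 1 1 : kˣ) : k) • x := by
    intro m
    have hsimp : IsSimpleModule (TwAlg β) (TwAlg β ⧸ m.1) := isSimpleModule_iff_isCoatom.mpr m.2
    have hnt : Nontrivial (TwAlg β ⧸ m.1) := IsSimpleModule.nontrivial (TwAlg β) _
    have hcomm : ∀ (u a : A), π u = 1 →
        TwAlg.of β u * TwAlg.of β a = TwAlg.of β a * TwAlg.of β (a⁻¹ * u * a) := by
      intro u a hu
      have h1 : π (a⁻¹ * u * a) = 1 := by rw [map_mul, map_mul, hu, mul_one, map_inv]; simp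
      rw [TwAlg.of_mul_of, TwAlg.of_mul_of, hβ1 _ _ hu, hβ2 _ _ h1]
      congr 2
      group
    let W : Submodule (TwAlg β) (TwAlg β ⧸ m.1) :=
      { carrier := {x | ∀ u : A, π u = 1 → TwAlg.of β u • x = ((α 1 1 : kˣ) : k) • x}
        zero_mem' := fun u hu => by rw [smul_zero, smul_zero]
        add_mem' := fun ha hb u hu => by rw [smul_add, smul_add, ha u hu, hb u hu]
        smul_mem' := by
          intro c x hx u hu
          -- linear in `c`
          have key := TwAlg.eq_of_basis (α := β) (M := TwAlg β ⧸ m.1)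
            (((Algebra.lsmul k k (TwAlg β ⧸ m.1)).toLinearMap.flip x).comp
              (LinearMap.mulLeft k (TwAlg.of β u)))
            (((α 1 1 : kˣ) : k) • ((Algebra.lsmul k k (TwAlg β ⧸ m.1)).toLinearMap.flip x)) (by
              intro a
              show (TwAlg.of β u * TwAlg.of β a) • x = ((α 1 1 : kˣ) : k) • (TwAlg.of β a • x)
              have h1 : π (a⁻¹ * u * a) = 1 := by
                rw [map_mul, map_mul, hu, mul_one, map_inv]; simp
              rw [hcomm u a hu, mul_smul, hx _ h1, smul_comm]) c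
          have key' : (TwAlg.of β u * c) • x = ((α 1 1 : kˣ) : k) • (c • x) := key
          rw [← mul_smul, key'] }
    have hW : W ≠ ⊥ := by
      let act : DistribMulAction π.ker (TwAlg β ⧸ m.1) :=
        { smul := fun u x => ((((α 1 1)⁻¹ : kˣ) : k) • TwAlg.of β (u : A)) • x
          one_smul := fun x => by
            show ((((α 1 1)⁻¹ : kˣ) : k) • TwAlg.of β (1 : A)) • x = x
            have h1 : ((((α 1 1)⁻¹ : kˣ) : k) • TwAlg.of β (1 : A)) = 1 := by
              rw [TwAlg.one_def, hβ1 1 1 (map_one π)]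
            rw [h1, one_smul]
          mul_smul := fun u v x => by
            show ((((α 1 1)⁻¹ : kˣ) : k) • TwAlg.of β ((u : A) * v)) • x =
              ((((α 1 1)⁻¹ : kˣ) : k) • TwAlg.of β (u : A)) •
                ((((α 1 1)⁻¹ : kˣ) : k) • TwAlg.of β (v : A)) • x
            rw [smul_smul, TwAlg.smul_mul_smul_of', hβ1 _ _ u.2]
            congr 2
            rw [← Units.val_mul, ← Units.val_mul]
            congr 1
            simp
          smul_zero := fun u => by
            show ((((α 1 1)⁻¹ : kˣ) : k) • TwAlg.of β (u : A)) • (0 : TwAlg β ⧸ m.1) = 0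
            rw [smul_zero]
          smul_add := fun u x y => by
            show ((((α 1 1)⁻¹ : kˣ) : k) • TwAlg.of β (u : A)) • (x + y) =
              ((((α 1 1)⁻¹ : kˣ) : k) • TwAlg.of β (u : A)) • x +
              ((((α 1 1)⁻¹ : kˣ) : k) • TwAlg.of β (u : A)) • y
            rw [smul_add] }
      obtain ⟨x, hx, h⟩ := @exists_fixed π.ker _ _ p _ hker (TwAlg β ⧸ m.1) _ act (by
        intro x
        rw [← Int.cast_smul_eq_zsmul k]
        simp) hnt
      intro h0
      have h1 : x ∈ W := by
        intro u hu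
        have h2 : ((((α 1 1)⁻¹ : kˣ) : k) • TwAlg.of β u) • x = x := h ⟨u, hu⟩
        rw [smul_assoc] at h2
        have h3 := congrArg (fun y => ((α 1 1 : kˣ) : k) • y) h2
        simp only [smul_smul] at h3
        rw [← Units.val_mul, mul_inv_cancel, Units.val_one, one_smul] at h3
        exact h3
      rw [h0] at h1
      exact hx h1
    have hWtop : W = ⊤ := (eq_bot_or_eq_top W).resolve_left hW
    intro u hu x
    have h1 : x ∈ W := by rw [hWtop]; trivial
    exact h1 u hu
  -- a linear section of `F`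
  choose σ hσ using hπ
  let s : TwAlg α →ₗ[k] TwAlg β := TwAlg.lift α (fun e => TwAlg.of β (σ e))
  have hs : ∀ e, s (TwAlg.of α e) = TwAlg.of β (σ e) := TwAlg.lift_of α _
  have hFs : ∀ b : TwAlg α, F (s b) = b := by
    intro b
    exact TwAlg.eq_of_basis (F.toLinearMap.comp s) LinearMap.id (by
      intro e
      show F (s (TwAlg.of α e)) = TwAlg.of α e
      rw [hs, hF, hσ]) b
  have hsF : ∀ (m : {m : Submodule (TwAlg β) (TwAlg β) // IsCoatom m}) (y : TwAlg β)
      (x : TwAlg β ⧸ m.1), s (F y) • x = y • x := by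
    intro m y x
    refine TwAlg.eq_of_basis (α := β)
      ((((Algebra.lsmul k k (TwAlg β ⧸ m.1)).toLinearMap.flip x).comp s).comp F.toLinearMap)
      ((Algebra.lsmul k k (TwAlg β ⧸ m.1)).toLinearMap.flip x) ?_ y
    intro a
    show s (F (TwAlg.of β a)) • x = TwAlg.of β a • x
    rw [hF, hs]
    have h1 : π ((σ (π a))⁻¹ * a) = 1 := by rw [map_mul, map_inv, hσ, inv_mul_cancel]
    have h2 : TwAlg.of β (σ (π a)) * TwAlg.of β ((σ (π a))⁻¹ * a) =
        ((α 1 1 : kˣ) : k) • TwAlg.of β a := by
      rw [TwAlg.of_mul_of, hβ2 _ _ h1, mul_inv_cancel_left]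
    have h3 := congrArg (fun y => y • x) h2
    simp only [mul_smul, smul_assoc] at h3
    rw [hkerM m _ h1 x, smul_comm] at h3
    have h4 := congrArg (fun y => (((α 1 1)⁻¹ : kˣ) : k) • y) h3
    simp only [smul_smul] at h4
    rw [← Units.val_mul, inv_mul_cancel, Units.val_one, one_smul, one_smul] at h4
    exact h4
  letI inst : ∀ m : {m : Submodule (TwAlg β) (TwAlg β) // IsCoatom m},
      Module (TwAlg α) (TwAlg β ⧸ m.1) := fun m =>
    { smul := fun b x => s b • x
      one_smul := fun x => by
        show s 1 • x = x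
        have := hsF m 1 x
        rwa [map_one, one_smul] at this
      mul_smul := fun b b' x => by
        show s (b * b') • x = s b • s b' • x
        have := hsF m (s b * s b') x
        rwa [map_mul, hFs, hFs, mul_smul] at this
      smul_zero := fun b => by
        show s b • (0 : TwAlg β ⧸ m.1) = 0
        rw [smul_zero]
      smul_add := fun b x y => by
        show s b • (x + y) = s b • x + s b • y
        rw [smul_add]
      add_smul := fun b b' x => by
        show s (b + b') • x = s b • x + s b' • x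
        rw [map_add, add_smul]
      zero_smul := fun x => by
        show s 0 • x = 0
        rw [map_zero, zero_smul] }
  have hsm : ∀ (m : {m : Submodule (TwAlg β) (TwAlg β) // IsCoatom m}) (y : TwAlg β)
      (x : TwAlg β ⧸ m.1), y • x = F y • x := fun m y x => (hsF m y x).symm
  refine lNum_le_of_assign k (fun m => TwAlg β ⧸ m.1) ?_ ?_
  · intro m
    have h1 : IsSimpleModule (TwAlg β) (TwAlg β ⧸ m.1) := isSimpleModule_iff_isCoatom.mpr m.2
    have hnt : Nontrivial (TwAlg β ⧸ m.1) := IsSimpleModule.nontrivial (TwAlg β) _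
    rw [isSimpleModule_iff_toSpanSingleton_surjective]
    refine ⟨hnt, fun x hx y => ?_⟩
    obtain ⟨a, ha⟩ := IsSimpleModule.toSpanSingleton_surjective (TwAlg β) hx y
    refine ⟨F a, ?_⟩
    rw [LinearMap.toSpanSingleton_apply] at ha ⊢
    rw [← ha]
    exact (hsm m a x).symm
  · rintro m m' ⟨e⟩
    refine ⟨{ e with
      map_smul' := fun y x => ?_ }⟩
    show e (y • x) = y • e x
    rw [hsm, map_smul, ← hsm]

/-- The comparison used everywhere: `A` maps onto `E` (kernel a `p`-group) and onto `K`, and the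
two inflated cocycles are cohomologous; then `l(k_β K) ≤ l(k_α E)`. -/
theorem lNum_comp {A E K : Type*} [Group A] [Finite A] [Group E] [Finite E] [Group K] [Finite K]
    (p : ℕ) [Fact p.Prime] [CharP k p] (π : A →* E) (hπ : Function.Surjective π)
    (hker : IsPGroup p π.ker) (ρ : A →* K) (hρ : Function.Surjective ρ) (α : Cocycle E k)
    (β : Cocycle K k) (h : Cocycle.Cohom (β.comap ρ) (α.comap π)) :
    lNum (TwAlg β) ≤ lNum (TwAlg α) := by
  obtain ⟨F, _, hFs⟩ := exists_map_surj β ρ hρ
  have h1 : lNum (TwAlg β) ≤ lNum (TwAlg (β.comap ρ)) :=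
    lNum_le_of_surj k F.toRingHom hFs
  obtain ⟨e⟩ := twAlgEquiv_of_cohom h
  rw [lNum_congr e.toRingEquiv] at h1
  exact h1.trans (lNum_inflate_le p π hπ hker α)

end MNF
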