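import Pool.Agent.W_0649d4.AMaschke

/-! `l(k_α H) ≤ |K : H| l(k_α K)` for subgroups `H ≤ K` of order prime to the characteristic. -/

namespace MNF

open Module

section gen

variable (k : Type*) [Field k] {A B W ι J : Type*} [Ring A] [Ring B] [Algebra k B]
  [AddCommGroup W] [Module k W]

theorem sum_finrank_simple [Module B W] [IsScalarTower k B W] [FiniteDimensional k W]
    [DecidableEq ι] (N : ι → Submodule B W) (T : Finset ι) (hN : ∀ i ∈ T, IsSimpleModule B (N i))
    (hne : ∀ i ∈ T, ∀ j ∈ T, i ≠ j → ¬ Nonempty (N i ≃ₗ[B] N j)) :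
    ∑ i ∈ T, finrank k ((N i).restrictScalars k) =
      finrank k ((T.sup N).restrictScalars k) := by
  induction T using Finset.induction_on with
  | empty =>
    rw [Finset.sum_empty, Finset.sup_empty, Submodule.restrictScalars_bot, finrank_bot]
  | insert i T hi ih =>
    rw [Finset.sum_insert hi, Finset.sup_insert,
      ih (fun j hj => hN j (Finset.mem_insert_of_mem hj))
        (fun j hj l hl => hne j (Finset.mem_insert_of_mem hj) l (Finset.mem_insert_of_mem hl))]
    have hNi := hN i (Finset.mem_insert_self _ _)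
    have h1 : N i ⊓ T.sup N = ⊥ := by
      by_contra h
      have h2 : N i ≤ T.sup N := by
        have h3 := isSimpleModule_iff_isAtom.mp hNi
        rcases h3.le_iff.mp (inf_le_left : N i ⊓ T.sup N ≤ N i) with h4 | h4
        · exact absurd h4 h
        · exact inf_eq_left.mp h4
      rw [Finset.sup_eq_sSup_image] at h2
      have : ∀ m : (N '' (T : Set ι)), IsSimpleModule B m.1 := by
        rintro ⟨_, j, hj, rfl⟩
        exact hN j (Finset.mem_insert_of_mem hj)
      obtain ⟨S, ⟨j, hj, rfl⟩, he⟩ := Submodule.linearEquiv_of_le_sSup (N i) (N '' (T : Set ι)) h2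
      refine hne i (Finset.mem_insert_self _ _) j (Finset.mem_insert_of_mem hj) ?_ he
      rintro rfl
      exact hi hj
    have h5 : (N i ⊔ T.sup N).restrictScalars k =
        (N i).restrictScalars k ⊔ (T.sup N).restrictScalars k :=
      map_sup (Submodule.restrictScalarsLatticeHom k B W) _ _
    have h6 : (N i).restrictScalars k ⊓ (T.sup N).restrictScalars k = ⊥ := by
      rw [← Submodule.restrictScalars_bot k B W, ← h1]
      rfl
    rw [h5, ← Submodule.finrank_sup_add_finrank_inf_eq, h6, finrank_bot, add_zero]

theorem card_le_of_embed [Algebra k A] [Module A W] [IsScalarTower k A W] [IsSimpleModule A W]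
    [Module B W] [IsScalarTower k B W] [FiniteDimensional k W] [DecidableEq ι] [Fintype J]
    (f : B →+* A) (hf : ∀ (b : B) (w : W), b • w = f b • w) (g : J → A)
    (hg : ∀ a : A, ∃ b : J → B, a = ∑ j, g j * f (b j))
    (N : ι → Submodule B W) (T : Finset ι) (hN : ∀ i ∈ T, IsSimpleModule B (N i))
    (hne : ∀ i ∈ T, ∀ j ∈ T, i ≠ j → ¬ Nonempty (N i ≃ₗ[B] N j)) :
    T.card ≤ Fintype.card J := by
  rcases T.eq_empty_or_nonempty with h0 | h0
  · rw [h0]; exact Nat.zero_le _
  obtain ⟨i0, hi0, hmin⟩ := T.exists_min_image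
    (fun i => finrank k ((N i).restrictScalars k)) h0
  have hpos : 0 < finrank k ((N i0).restrictScalars k) := by
    have := hN i0 hi0
    have hnt : Nontrivial (N i0) := IsSimpleModule.nontrivial B _
    have hnt' : Nontrivial ((N i0).restrictScalars k) := hnt
    exact Module.finrank_pos
  have h1 := sum_finrank_simple k N T hN hne
  have h2 : T.card * finrank k ((N i0).restrictScalars k) ≤
      ∑ i ∈ T, finrank k ((N i).restrictScalars k) := by
    rw [← smul_eq_mul]
    exact Finset.card_nsmul_le_sum _ _ _ hmin
  have h3 : finrank k ((T.sup N).restrictScalars k) ≤ finrank k W := Submodule.finrank_le _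
  have h4 : finrank k W ≤ Fintype.card J * finrank k ((N i0).restrictScalars k) := by
    let L : (J → (N i0).restrictScalars k) →ₗ[k] W :=
      ∑ j, (Algebra.lsmul k k W (g j)).comp
        (((N i0).restrictScalars k).subtype.comp (LinearMap.proj j))
    have hL : ∀ x, L x = ∑ j, g j • ((x j : (N i0).restrictScalars k) : W) := by
      intro x
      simp [L, LinearMap.sum_apply]
    have hsurj : Function.Surjective L := by
      intro w
      have := hN i0 hi0
      have hnt : Nontrivial (N i0) := IsSimpleModule.nontrivial B _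
      obtain ⟨⟨x, hx⟩, hx0⟩ := exists_ne (0 : N i0)
      have hx1 : x ≠ 0 := fun h => hx0 (Subtype.ext h)
      obtain ⟨a, ha⟩ := IsSimpleModule.toSpanSingleton_surjective A hx1 w
      rw [LinearMap.toSpanSingleton_apply] at ha
      obtain ⟨b, hb⟩ := hg a
      refine ⟨fun j => ⟨b j • x, (N i0).smul_mem _ hx⟩, ?_⟩
      rw [hL, ← ha, hb, Finset.sum_smul]
      refine Finset.sum_congr rfl fun j _ => ?_
      show g j • (b j • x) = _
      rw [hf, mul_smul]
    have h5 := LinearMap.finrank_le_finrank_of_surjective hsurj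
    rw [Module.finrank_pi_fintype, Finset.sum_const, Finset.card_univ, smul_eq_mul] at h5
    exact h5
  have h5 : T.card * finrank k ((N i0).restrictScalars k) ≤
      Fintype.card J * finrank k ((N i0).restrictScalars k) := by omega
  exact Nat.le_of_mul_le_mul_right h5 hpos

/-- Transfer from `B` to an overring `A` generated by `|J|` elements as a right `B`-module. -/
theorem lNum_le_mul [Algebra k A] [FiniteDimensional k A] [IsSemisimpleRing A]
    [IsSemisimpleRing B] [Fintype J]
    (f : B →ₐ[k] A) (hinj : Function.Injective f) (g : J → A)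
    (hg : ∀ a : A, ∃ b : J → B, a = ∑ j, g j * f (b j)) :
    lNum B ≤ Fintype.card J * lNum A := by
  classical
  letI : ∀ m : {m : Submodule A A // IsCoatom m}, Module B (A ⧸ m.1) :=
    fun m => Module.compHom (A ⧸ m.1) f.toRingHom
  letI : Module B A := Module.compHom A f.toRingHom
  have hsm : ∀ (m : {m : Submodule A A // IsCoatom m}) (b : B) (x : A ⧸ m.1),
      b • x = f b • x := fun m b x => rfl
  have hst : ∀ m : {m : Submodule A A // IsCoatom m}, IsScalarTower k B (A ⧸ m.1) := by
    intro m
    refine ⟨fun c b x => ?_⟩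
    rw [hsm, map_smul, smul_assoc, hsm]
  -- embed every simple module
  have key : ∀ c : Quotient (simpleSetoid B), ∃ (d : Quotient (simpleSetoid A))
      (φ : (B ⧸ c.out.1) →ₗ[B] (A ⧸ d.out.1)), Function.Injective φ := by
    intro c
    have hs : IsSimpleModule B (B ⧸ c.out.1) := isSimpleModule_iff_isCoatom.mpr c.out.2
    obtain ⟨I, ⟨e⟩⟩ := IsSemisimpleRing.exists_linearEquiv_ideal_of_isSimpleModule B (B ⧸ c.out.1)
    have hI : IsSimpleModule B I := IsSimpleModule.congr e.symm
    have hnt : Nontrivial I := IsSimpleModule.nontrivial B _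
    obtain ⟨⟨u, hu⟩, hu0⟩ := exists_ne (0 : I)
    have hu1 : f u ≠ 0 := by
      intro h
      apply hu0
      apply Subtype.ext
      apply hinj
      rw [h]
      exact (map_zero f).symm
    have h1 : f u ∉ (⊥ : Ideal A) := by simpa using hu1
    rw [← IsSemisimpleRing.jacobson_eq_bot A] at h1
    obtain ⟨m, hm, hum⟩ : ∃ m : Submodule A A, IsCoatom m ∧ f u ∉ m := by
      by_contra hcon
      push Not at hcon
      apply h1
      show f u ∈ sInf {m : Submodule A A | IsCoatom m}
      rw [Submodule.mem_sInf]
      exact fun m hm => hcon m hm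
    let d : Quotient (simpleSetoid A) := Quotient.mk _ ⟨m, hm⟩
    obtain ⟨e2⟩ : Nonempty ((A ⧸ m) ≃ₗ[A] (A ⧸ d.out.1)) := by
      have h2 : (simpleSetoid A) d.out ⟨m, hm⟩ := Quotient.exact (Quotient.out_eq d)
      obtain ⟨e3⟩ := h2
      exact ⟨e3.symm⟩
    refine ⟨d, ?_⟩
    let ψ : I →ₗ[B] (A ⧸ d.out.1) :=
      { toFun := fun x => e2 (m.mkQ (f x.1))
        map_add' := fun x y => by
          rw [Submodule.coe_add, map_add, map_add, map_add]
        map_smul' := fun b x => by
          rw [RingHom.id_apply, hsm, ← map_smul, ← map_smul]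
          congr 2
          show f (b * x.1) = f b * f x.1
          rw [map_mul] }
    have hψ : Function.Injective ψ := by
      refine LinearMap.injective_of_ne_zero ?_
      intro h
      have h2 : ψ ⟨u, hu⟩ = 0 := by rw [h]; rfl
      have h3 : e2 (m.mkQ (f u)) = 0 := h2
      rw [LinearEquiv.map_eq_zero_iff, Submodule.mkQ_apply, Submodule.Quotient.mk_eq_zero] at h3
      exact hum h3
    exact ⟨ψ.comp e.toLinearMap, hψ.comp e.injective⟩
  choose D φ hφ using key
  have hfinA := finite_simple k A
  letI := Fintype.ofFinite (Quotient (simpleSetoid A))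
  -- every fibre has at most `|J|` elements
  have hfib : ∀ (T : Finset (Quotient (simpleSetoid B))) (d : Quotient (simpleSetoid A)),
      (T.filter (fun c => D c = d)).card ≤ Fintype.card J := by
    intro T d
    have hsd : IsSimpleModule A (A ⧸ d.out.1) := isSimpleModule_iff_isCoatom.mpr d.out.2
    have hφ' : ∀ c : Quotient (simpleSetoid B), ∃ N : Submodule B (A ⧸ d.out.1),
        D c = d → Nonempty ((B ⧸ c.out.1) ≃ₗ[B] N) := by
      intro c
      by_cases hc : D c = d
      · subst hc
        exact ⟨LinearMap.range (φ c), fun _ => ⟨LinearEquiv.ofInjective (φ c) (hφ c)⟩⟩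
      · exact ⟨⊥, fun h => absurd h hc⟩
    choose N hN using hφ'
    refine card_le_of_embed k (W := A ⧸ d.out.1) f.toRingHom (fun b w => rfl) g hg N _ ?_ ?_
    · intro c hc
      rw [Finset.mem_filter] at hc
      obtain ⟨e⟩ := hN c hc.2
      have hs : IsSimpleModule B (B ⧸ c.out.1) := isSimpleModule_iff_isCoatom.mpr c.out.2
      exact IsSimpleModule.congr e.symm
    · rintro c hc c' hc' hne ⟨e⟩
      rw [Finset.mem_filter] at hc hc'
      obtain ⟨e1⟩ := hN c hc.2
      obtain ⟨e2⟩ := hN c' hc'.2
      apply hne
      have h4 : (simpleSetoid B) c.out c'.out := ⟨(e1.trans e).trans e2.symm⟩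
      rw [← Quotient.out_eq c, ← Quotient.out_eq c']
      exact Quotient.sound h4
  have hT : ∀ T : Finset (Quotient (simpleSetoid B)), T.card ≤
      Fintype.card J * Fintype.card (Quotient (simpleSetoid A)) := by
    intro T
    exact Finset.card_le_mul_card_image_of_maps_to (f := D) (s := T) (t := Finset.univ)
      (fun _ _ => Finset.mem_univ _) _ (fun d _ => hfib T d)
  unfold lNum
  rw [Nat.card_eq_fintype_card (α := Quotient (simpleSetoid A))]
  by_cases hfin : Finite (Quotient (simpleSetoid B))
  · letI := Fintype.ofFinite (Quotient (simpleSetoid B))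
    rw [Nat.card_eq_fintype_card, ← Finset.card_univ]
    exact hT Finset.univ
  · rw [not_finite_iff_infinite] at hfin
    rw [Nat.card_eq_zero_of_infinite]
    exact Nat.zero_le _

end gen

section tw

variable {k : Type*} [Field k]

/-- `l(k_α H) ≤ |K : H| l(k_α K)` for `H ≤ K` of order prime to `char k`. -/
theorem lNum_le_index {E : Type*} [Group E] [Finite E] (α : Cocycle E k) (H K : Subgroup E)
    (h : H ≤ K) (hK : (Nat.card K : k) ≠ 0) :
    lNum (TwAlg (α.comap H.subtype)) ≤ H.relIndex K * lNum (TwAlg (α.comap K.subtype)) := by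
  classical
  have hH : (Nat.card H : k) ≠ 0 := by
    intro h0
    apply hK
    obtain ⟨c, hc⟩ := Subgroup.card_dvd_of_le h
    rw [hc, Nat.cast_mul, h0, zero_mul]
  have hsA := semisimple_of_card (α.comap K.subtype) hK
  have hsB := semisimple_of_card (α.comap H.subtype) hH
  let i : H →* K := Subgroup.inclusion h
  obtain ⟨f, hf⟩ := exists_map (α.comap K.subtype) i
  have hcoc : (α.comap K.subtype).comap i = α.comap H.subtype := rfl
  have hi : Function.Injective i := Subgroup.inclusion_injective h
  -- a left inverse on the coefficients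
  have hinj : Function.Injective f := by
    let r : TwAlg (α.comap K.subtype) →ₗ[k] TwAlg ((α.comap K.subtype).comap i) :=
      TwAlg.lift _ (fun a => if ha : (a : E) ∈ H then TwAlg.of _ (⟨a, ha⟩ : H) else 0)
    have hr : r.comp f.toLinearMap = LinearMap.id := by
      apply TwAlg.lhom_ext
      intro a
      show r (f (TwAlg.of _ a)) = TwAlg.of _ a
      rw [hf]
      show TwAlg.lift _ _ (TwAlg.of _ (i a)) = _
      rw [TwAlg.lift_of, dif_pos (show ((i a : K) : E) ∈ H from a.2)]
      rfl
    intro x y hxy
    have h1 := LinearMap.congr_fun hr x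
    have h2 := LinearMap.congr_fun hr y
    simp only [LinearMap.comp_apply, LinearMap.id_apply] at h1 h2
    rw [← h1, ← h2]
    exact congrArg r hxy
  let U : Subgroup K := H.subgroupOf K
  let _ : Fintype (K ⧸ U) := Fintype.ofFinite _
  let g : (K ⧸ U) → TwAlg (α.comap K.subtype) := fun q => TwAlg.of _ q.out
  have hg : ∀ a : TwAlg (α.comap K.subtype),
      ∃ b : (K ⧸ U) → TwAlg ((α.comap K.subtype).comap i), a = ∑ j, g j * f (b j) := by
    intro a
    let P : Submodule k (TwAlg (α.comap K.subtype)) :=
      { carrier := {a | ∃ b : (K ⧸ U) → TwAlg ((α.comap K.subtype).comap i),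
          a = ∑ j, g j * f (b j)}
        add_mem' := by
          rintro x y ⟨b, rfl⟩ ⟨b', rfl⟩
          refine ⟨b + b', ?_⟩
          rw [← Finset.sum_add_distrib]
          refine Finset.sum_congr rfl fun j _ => ?_
          rw [Pi.add_apply, map_add, mul_add]
        zero_mem' := by
          refine ⟨0, ?_⟩
          symm
          apply Finset.sum_eq_zero
          intro j _
          rw [Pi.zero_apply, map_zero, mul_zero]
        smul_mem' := by
          rintro c x ⟨b, rfl⟩
          refine ⟨c • b, ?_⟩
          rw [Finset.smul_sum]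
          refine Finset.sum_congr rfl fun j _ => ?_
          rw [Pi.smul_apply, map_smul, mul_smul_comm] }
    have hP : ∀ c : K, TwAlg.of _ c ∈ P := by
      intro c
      let q : K ⧸ U := c
      have hq : (q.out)⁻¹ * c ∈ U := by
        have : (q.out : K ⧸ U) = (c : K ⧸ U) := Quotient.out_eq q
        exact QuotientGroup.eq.mp this
      have hq' : (((q.out)⁻¹ * c : K) : E) ∈ H := Subgroup.mem_subgroupOf.mp hq
      let t : H := ⟨_, hq'⟩
      have hit : i t = (q.out)⁻¹ * c := rfl
      refine ⟨Pi.single q (((((α.comap K.subtype) q.out (i t))⁻¹ : kˣ) : k) • TwAlg.of _ t), ?_⟩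
      rw [Finset.sum_eq_single q]
      · rw [Pi.single_eq_same, map_smul, hf, mul_smul_comm]
        show _ = _ • (TwAlg.of _ q.out * TwAlg.of _ (i t))
        rw [TwAlg.of_mul_of, smul_smul, ← Units.val_mul, inv_mul_cancel, Units.val_one, one_smul,
          hit, mul_inv_cancel_left]
      · intro j _ hj
        rw [Pi.single_eq_of_ne hj, map_zero, mul_zero]
      · intro hn
        exact absurd (Finset.mem_univ _) hn
    have hlast : ∀ a, a ∈ P := by
      intro a
      have h1 : P.mkQ = 0 := by
        apply TwAlg.lhom_ext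
        intro c
        rw [Submodule.mkQ_apply, LinearMap.zero_apply, Submodule.Quotient.mk_eq_zero]
        exact hP c
      have h2 := LinearMap.congr_fun h1 a
      rwa [Submodule.mkQ_apply, LinearMap.zero_apply, Submodule.Quotient.mk_eq_zero] at h2
    exact hlast a
  have hsB' : IsSemisimpleRing (TwAlg ((α.comap K.subtype).comap i)) := hsB
  have hmain := lNum_le_mul k f hinj g hg
  have hcard : Fintype.card (K ⧸ U) = H.relIndex K := by
    rw [← Nat.card_eq_fintype_card]
    rfl
  rw [hcard] at hmain
  exact hmain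

end tw

end MNF
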