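import Pool.Agent.W_0649d4.ABasic

/-! TASK AMaschke. Twisted group algebras of groups of order prime to the characteristic. -/

namespace MNF

variable {k : Type*} [Field k]

/-- The unit of `k_α H` attached to `a`. -/
private noncomputable def mUnit {H : Type*} [Group H] (α : Cocycle H k) (a : H) :
    (TwAlg α)ˣ where
  val := TwAlg.of α a
  inv := (((α a a⁻¹ * α 1 1)⁻¹ : kˣ) : k) • TwAlg.of α a⁻¹
  val_inv := by
    rw [mul_smul_comm, TwAlg.of_mul_of, mul_inv_cancel, smul_smul, TwAlg.one_def]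
    congr 1
    rw [← Units.val_mul]
    congr 1
    rw [mul_inv, mul_comm, mul_inv_cancel_left]
  inv_val := by
    have h1 : α a⁻¹ a = α a a⁻¹ := by
      have h := α.cocycle a a⁻¹ a
      rw [mul_inv_cancel, inv_mul_cancel, Cocycle.one_left, Cocycle.one_right α a] at h
      exact (mul_right_cancel h).symm
    rw [smul_mul_assoc, TwAlg.of_mul_of, inv_mul_cancel, smul_smul, TwAlg.one_def, h1]
    congr 1
    rw [← Units.val_mul]
    congr 1
    rw [mul_inv, mul_comm, mul_inv_cancel_left]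

/-- One summand of the average. -/
private noncomputable def mTerm {H : Type*} [Group H] {α : Cocycle H k}
    (p : TwAlg α →ₗ[k] TwAlg α) (w : (TwAlg α)ˣ) : TwAlg α →ₗ[k] TwAlg α :=
  (LinearMap.mulLeft k (w : TwAlg α)) ∘ₗ p ∘ₗ (LinearMap.mulLeft k ((w⁻¹ : (TwAlg α)ˣ) : TwAlg α))

private theorem mTerm_apply {H : Type*} [Group H] {α : Cocycle H k}
    (p : TwAlg α →ₗ[k] TwAlg α) (w : (TwAlg α)ˣ) (x : TwAlg α) :
    mTerm p w x = w * p ((w⁻¹ : (TwAlg α)ˣ) * x) := rfl

private theorem mTerm_smul {H : Type*} [Group H] {α : Cocycle H k}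
    (p : TwAlg α →ₗ[k] TwAlg α) (c : kˣ) (w : (TwAlg α)ˣ) :
    mTerm p (Units.map (algebraMap k (TwAlg α)).toMonoidHom c * w) = mTerm p w := by
  apply LinearMap.ext
  intro x
  rw [mTerm_apply, mTerm_apply, mul_inv_rev, ← map_inv]
  have h1 : ((w⁻¹ * Units.map (algebraMap k (TwAlg α)).toMonoidHom c⁻¹ : (TwAlg α)ˣ) :
      TwAlg α) * x = ((c⁻¹ : kˣ) : k) • (((w⁻¹ : (TwAlg α)ˣ) : TwAlg α) * x) := by
    rw [Units.val_mul]
    change ((w⁻¹ : (TwAlg α)ˣ) : TwAlg α) * algebraMap k (TwAlg α) ((c⁻¹ : kˣ) : k) * x = _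
    rw [← Algebra.commutes, mul_assoc, ← Algebra.smul_def]
  have h2 : ((Units.map (algebraMap k (TwAlg α)).toMonoidHom c * w : (TwAlg α)ˣ) : TwAlg α) =
      (c : k) • (w : TwAlg α) := by
    rw [Units.val_mul]
    change algebraMap k (TwAlg α) (c : k) * (w : TwAlg α) = _
    rw [← Algebra.smul_def]
  rw [h1, h2, map_smul, smul_mul_assoc, mul_smul_comm, smul_smul, ← Units.val_mul,
    mul_inv_cancel, Units.val_one, one_smul]

private theorem mUnit_mul {H : Type*} [Group H] (α : Cocycle H k) (a b : H) :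
    Units.map (algebraMap k (TwAlg α)).toMonoidHom (α a b) * mUnit α (a * b) =
      mUnit α a * mUnit α b := by
  apply Units.ext
  rw [Units.val_mul, Units.val_mul]
  change algebraMap k (TwAlg α) ((α a b : kˣ) : k) * TwAlg.of α (a * b) =
    TwAlg.of α a * TwAlg.of α b
  rw [TwAlg.of_mul_of, ← Algebra.smul_def]

private theorem mTerm_mul {H : Type*} [Group H] {α : Cocycle H k}
    (p : TwAlg α →ₗ[k] TwAlg α) (a b : H) (x : TwAlg α) :
    mTerm p (mUnit α (a * b)) (TwAlg.of α a * x) =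
      TwAlg.of α a * mTerm p (mUnit α b) x := by
  rw [← mTerm_smul p (α a b), mUnit_mul, mTerm_apply, mTerm_apply, mul_inv_rev, Units.val_mul,
    Units.val_mul]
  have h1 : ((((mUnit α b)⁻¹ : (TwAlg α)ˣ) : TwAlg α) * (((mUnit α a)⁻¹ : (TwAlg α)ˣ) :
      TwAlg α)) * (TwAlg.of α a * x) = (((mUnit α b)⁻¹ : (TwAlg α)ˣ) : TwAlg α) * x := by
    have h2 : (((mUnit α a)⁻¹ : (TwAlg α)ˣ) : TwAlg α) * TwAlg.of α a = 1 :=
      (mUnit α a).inv_val
    rw [mul_assoc, ← mul_assoc _ (TwAlg.of α a) x, h2, one_mul]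
  rw [h1, mul_assoc]
  rfl

/-- Maschke for `k_α H`: for a surjection `f : M → N` of modules with `k`-linear section `σ`,
`|H|⁻¹ ∑_h (of h) σ ((of h)⁻¹ ·)` is a module section (`(of h)⁻¹` is a scalar times `of h⁻¹`). -/
theorem semisimple_of_card {H : Type*} [Group H] [Finite H] (α : Cocycle H k)
    (hH : (Nat.card H : k) ≠ 0) : IsSemisimpleRing (TwAlg α) := by
  classical
  let _ := Fintype.ofFinite H
  refine IsSemisimpleModule.mk (toComplementedLattice := ⟨fun N => ?_⟩)
  obtain ⟨p, hp⟩ := LinearMap.exists_leftInverse_of_injective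
    (N.restrictScalars k).subtype (Submodule.ker_subtype _)
  have hp1 : ∀ x ∈ N, ((p x : N.restrictScalars k) : TwAlg α) = x := by
    intro x hx
    have := LinearMap.congr_fun hp ⟨x, hx⟩
    exact congrArg Subtype.val this
  let q : TwAlg α →ₗ[k] TwAlg α := (N.restrictScalars k).subtype ∘ₗ p
  have hq : ∀ x, q x ∈ N := fun x => (p x).2
  have hq1 : ∀ x ∈ N, q x = x := hp1
  let T : TwAlg α →ₗ[k] TwAlg α :=
    ((Fintype.card H : k))⁻¹ • ∑ h : H, mTerm q (mUnit α h)
  have hT : ∀ x, T x = ((Fintype.card H : k))⁻¹ • ∑ h : H, mTerm q (mUnit α h) x := by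
    intro x
    change (((Fintype.card H : k))⁻¹ • ∑ h : H, mTerm q (mUnit α h)) x = _
    rw [LinearMap.smul_apply, LinearMap.sum_apply]
  have hTof : ∀ (a : H) (x : TwAlg α), T (TwAlg.of α a * x) = TwAlg.of α a * T x := by
    intro a x
    rw [hT, hT, mul_smul_comm, Finset.mul_sum]
    congr 1
    rw [← Equiv.sum_comp (Equiv.mulLeft a)]
    refine Finset.sum_congr rfl fun h _ => ?_
    exact mTerm_mul q a h x
  have hTmul : ∀ y x : TwAlg α, T (y * x) = y * T x := by
    intro y x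
    have h1 : T ∘ₗ LinearMap.mulRight k x = LinearMap.mulRight k (T x) := by
      apply TwAlg.lhom_ext
      intro a
      exact hTof a x
    exact LinearMap.congr_fun h1 y
  have hTN : ∀ x, T x ∈ N := by
    intro x
    rw [hT]
    refine N.smul_of_tower_mem _ (N.sum_mem fun h _ => ?_)
    rw [mTerm_apply]
    exact N.smul_mem _ (hq _)
  have hT1 : ∀ x ∈ N, T x = x := by
    intro x hx
    have h1 : ∀ h : H, mTerm q (mUnit α h) x = x := by
      intro h
      have h2 : (((mUnit α h)⁻¹ : (TwAlg α)ˣ) : TwAlg α) * x ∈ N := N.smul_mem _ hx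
      rw [mTerm_apply, hq1 _ h2, ← mul_assoc, Units.mul_inv, one_mul]
    rw [hT, Finset.sum_congr rfl (fun h _ => h1 h), Finset.sum_const, Finset.card_univ,
      ← Nat.cast_smul_eq_nsmul k, smul_smul, inv_mul_cancel₀, one_smul]
    rwa [Nat.card_eq_fintype_card] at hH
  let π : TwAlg α →ₗ[TwAlg α] N :=
    { toFun := fun x => ⟨T x, hTN x⟩
      map_add' := fun x y => Subtype.ext (map_add T x y)
      map_smul' := fun y x => Subtype.ext (hTmul y x) }
  exact ⟨LinearMap.ker π, LinearMap.isCompl_of_proj (f := π) fun x => Subtype.ext (hT1 x x.2)⟩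

theorem zNum_eq_lNum {H : Type*} [Group H] [Finite H] (α : Cocycle H k)
    (hH : (Nat.card H : k) ≠ 0) : zNum (TwAlg α) = lNum (TwAlg α) := by
  have := semisimple_of_card α hH
  unfold zNum lNum
  refine Nat.card_congr (Quotient.congr
    (Equiv.subtypeEquivRight fun m => ⟨fun h => h.1, fun h =>
      ⟨h, Module.projective_of_isSemisimpleRing _ _⟩⟩) ?_)
  intro a b
  rfl

end MNF
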