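import Pool.Agent.W_0649d4.ASteinMod

/-! The core of the twisted Steinberg argument. -/

namespace MNF

open scoped BigOperators

set_option linter.unusedSectionVars false

variable {k : Type*} [Field k] {H : Type*} [Group H] [Finite H] {K : Type*} [Field K] [Fintype K]
  {α : Cocycle H k} {θ : Matrix.SpecialLinearGroup (Fin 2) K →* H} {N : Subgroup H}

namespace Lifts

variable (L : Lifts α θ N)

section mod

variable {M : Type*} [AddCommGroup M] [Module (TwAlg α) M] [Module k M]
  [IsScalarTower k (TwAlg α) M]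

theorem wi_smul_w (x : M) : L.wi • L.w 1 • x = x := by rw [smul_smul, L.wi_mul, one_smul]

theorem w_smul_wi (x : M) : L.w 1 • L.wi • x = x := by rw [smul_smul, L.mul_wi, one_smul]

theorem u_smul_neg (s : K) (x : M) : L.u s • L.u (-s) • x = x := by
  rw [smul_smul, L.u_mul_neg, one_smul]

theorem u_neg_smul (s : K) (x : M) : L.u (-s) • L.u s • x = x := by
  rw [smul_smul, L.u_neg_mul, one_smul]

/-- `w w` preserves stable subspaces. -/
theorem ww_mem [FiniteDimensional k M] {U : Submodule k M} (hU : L.Stable U) {x : M}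
    (hx : x ∈ U) : (L.w 1 * L.w 1) • x ∈ U := by
  -- `wi * wi = wi * w (-1)` maps `U` injectively into itself
  let f : U →ₗ[k] U :=
    { toFun := fun y => ⟨(L.wi * L.w (-1)) • (y : M), hU.1 (-1) y y.2⟩
      map_add' := fun a b => by
        apply Subtype.ext
        show (L.wi * L.w (-1)) • ((a : M) + b) = _
        rw [smul_add]; rfl
      map_smul' := fun c a => by
        apply Subtype.ext
        show (L.wi * L.w (-1)) • (c • (a : M)) = c • ((L.wi * L.w (-1)) • (a : M))
        rw [smul_comm] }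
  have hinj : Function.Injective f := by
    intro a b h
    have h1 : (L.wi * L.w (-1)) • (a : M) = (L.wi * L.w (-1)) • (b : M) := congrArg Subtype.val h
    rw [← L.wi_eq, mul_smul, mul_smul] at h1
    have h2 := congrArg (fun y => L.w 1 • L.w 1 • y) h1
    simp only [L.w_smul_wi] at h2
    exact Subtype.ext h2
  have hsurj : Function.Surjective f := LinearMap.surjective_of_injective hinj
  obtain ⟨y, hy⟩ := hsurj ⟨x, hx⟩
  have h1 : (L.wi * L.w (-1)) • (y : M) = x := congrArg Subtype.val hy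
  rw [← L.wi_eq] at h1
  have h2 : (L.w 1 * L.w 1) • x = y := by
    rw [← h1, smul_smul]
    have h3 : L.w 1 * L.w 1 * (L.wi * L.wi) = 1 := by
      calc L.w 1 * L.w 1 * (L.wi * L.wi) = L.w 1 * (L.w 1 * L.wi) * L.wi := by noncomm_ring
        _ = 1 := by rw [L.mul_wi, mul_one, L.mul_wi]
    rw [h3, one_smul]
  rw [h2]
  exact y.2

/-- `w u(r) w x = u(-r⁻¹) w (wi w(r⁻¹)) (w w) x` for `x` fixed by the `u`'s, `r ≠ 0`. -/
theorem w_u_w [FiniteDimensional k M] {x : M} (hx : (L.w 1 * L.w 1) • x ∈ L.fixU M) (c : Kˣ) :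
    L.w 1 • L.u ((c⁻¹ : Kˣ) : K) • L.w 1 • x =
      (L.u (-(c : K)) * L.w 1) • (L.wi * L.w c) • (L.w 1 * L.w 1) • x := by
  have h1 : L.w 1 * L.u ((c⁻¹ : Kˣ) : K) = L.v (-((c⁻¹ : Kˣ) : K)) * L.w 1 := L.w_one_u _
  rw [smul_smul (L.w 1) (L.u _), h1, L.v_eq, mul_smul, ← mul_smul (L.w 1) (L.w 1)]
  have h2 : (L.u (-(c : K)) * L.w c * L.u (-(c : K))) • (L.w 1 * L.w 1) • x =
      (L.u (-(c : K)) * L.w c) • (L.w 1 * L.w 1) • x := by
    rw [mul_smul, hx]
  rw [h2, smul_smul (L.u (-(c : K)) * L.w 1)]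
  congr 1
  calc L.u (-(c : K)) * L.w c = L.u (-(c : K)) * (1 * L.w c) := by rw [one_mul]
    _ = L.u (-(c : K)) * ((L.w 1 * L.wi) * L.w c) := by rw [L.mul_wi]
    _ = _ := by noncomm_ring

/-- A nonzero stable subspace `U` of the fixed points generates `M`: `M = U + ∑_s u(s) w U`. -/
theorem sup_eq_top [FiniteDimensional k M] [IsSimpleModule (TwAlg α) M]
    (hgen : ∀ g : H, ∃ l, ∃ κ ∈ N, g = θ l * κ) {U : Submodule k M} (hU : L.Stable U)
    (hUX : U ≤ L.fixU M) (hne : U ≠ ⊥) : U ⊔ LinearMap.range (L.PhiU k U) = ⊤ := by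
  classical
  set W := U ⊔ LinearMap.range (L.PhiU k U) with hW
  have hmem : ∀ (s : K) (y : M), y ∈ U → (L.u s * L.w 1) • y ∈ LinearMap.range (L.PhiU k U) := by
    intro s y hy
    refine ⟨Pi.single s ⟨y, hy⟩, ?_⟩
    rw [PhiU_apply, Finset.sum_eq_single s]
    · rw [Pi.single_eq_same]
    · intro t _ ht
      rw [Pi.single_eq_of_ne ht]
      simp
    · intro h; exact absurd (Finset.mem_univ _) h
  -- reduce stability of `W` to generators
  have hstab : ∀ a : TwAlg α, (∀ y ∈ U, a • y ∈ W) →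
      (∀ (s : K), ∀ y ∈ U, a • (L.u s * L.w 1) • y ∈ W) → ∀ x ∈ W, a • x ∈ W := by
    intro a h1 h2 x hx
    rw [hW, Submodule.mem_sup] at hx
    obtain ⟨y, hy, z, ⟨t, rfl⟩, rfl⟩ := hx
    rw [smul_add]
    refine W.add_mem (h1 y hy) ?_
    rw [PhiU_apply, Finset.smul_sum]
    exact W.sum_mem (fun s _ => h2 s _ (t s).2)
  have hWmem1 : ∀ y ∈ U, y ∈ W := fun y hy => Submodule.mem_sup_left hy
  have hWmem2 : ∀ (s : K), ∀ y ∈ U, (L.u s * L.w 1) • y ∈ W :=
    fun s y hy => Submodule.mem_sup_right (hmem s y hy)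
  have hall : ∀ (a : TwAlg α) (x : M), x ∈ W → a • x ∈ W := by
    apply L.stable_of_gen hgen W
    · intro t
      apply hstab
      · intro y hy
        rw [hUX hy t]; exact hWmem1 y hy
      · intro s y hy
        rw [smul_smul, ← mul_assoc, ← L.u_add]
        exact hWmem2 _ y hy
    · apply hstab
      · intro y hy
        have := hWmem2 0 y hy
        rwa [L.u_zero, one_mul] at this
      · intro s y hy
        by_cases hs : s = 0
        · rw [hs, L.u_zero, one_mul, smul_smul]
          exact hWmem1 _ (L.ww_mem hU hy)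
        · let c : Kˣ := (Units.mk0 s hs)⁻¹
          have hc : ((c⁻¹ : Kˣ) : K) = s := by simp [c]
          have h1 := L.w_u_w (hUX (L.ww_mem hU hy)) c
          rw [hc] at h1
          rw [mul_smul, h1]
          exact hWmem2 _ _ (hU.1 c _ (L.ww_mem hU hy))
    · intro κ hκ
      obtain ⟨σ, hσ, hσu⟩ := L.N_u κ hκ
      obtain ⟨c, x, hcx⟩ := L.N_w κ hκ
      apply hstab
      · intro y hy
        exact hWmem1 _ (hU.2 κ hκ y hy)
      · intro s y hy
        have h1 : TwAlg.of α κ • (L.u s * L.w 1) • y =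
            (x : k) • (L.u (σ s) * L.w 1) • (L.wi * L.w c) • TwAlg.of α κ • y := by
          rw [smul_smul, ← mul_assoc, hσu, mul_assoc, hcx, mul_smul_comm, smul_assoc]
          congr 1
          rw [smul_smul, smul_smul]
          congr 1
          calc L.u (σ s) * (L.w c * TwAlg.of α κ)
              = L.u (σ s) * (1 * L.w c * TwAlg.of α κ) := by rw [one_mul]
            _ = L.u (σ s) * ((L.w 1 * L.wi) * L.w c * TwAlg.of α κ) := by rw [L.mul_wi]
            _ = _ := by noncomm_ring
        rw [h1]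
        exact W.smul_mem _ (hWmem2 _ _ (hU.1 c _ (hU.2 κ hκ y hy)))
  -- `W` is a nonzero submodule
  let W' : Submodule (TwAlg α) M :=
    { carrier := W
      zero_mem' := W.zero_mem
      add_mem' := fun ha hb => W.add_mem ha hb
      smul_mem' := fun a x hx => hall a x hx }
  have hW' : W' = ⊤ := by
    rcases eq_bot_or_eq_top W' with h | h
    · exfalso
      apply hne
      rw [Submodule.eq_bot_iff]
      intro y hy
      have h1 : y ∈ W' := hWmem1 y hy
      rw [h] at h1
      exact h1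
    · exact h
  rw [eq_top_iff]
  intro x _
  have h1 : x ∈ W' := by rw [hW']; trivial
  exact h1

/-- Every fixed point is `TT` of something. -/
theorem exists_TT [Module.Projective (TwAlg α) M] (hθ : Function.Injective θ) {x : M}
    (hx : x ∈ L.fixU M) : ∃ m : M, L.TT • m = x := by
  let U : Subgroup H := (uHom θ).range
  have : Fintype U := Fintype.ofFinite U
  obtain ⟨f, hf⟩ := higman α U M
  refine ⟨f x, ?_⟩
  have h1 := hf x
  -- reindex the sum over `U` by `K`
  let e : K ≃ U := Equiv.ofBijective (fun s => ⟨θ (slU K s), ⟨Multiplicative.ofAdd s, rfl⟩⟩) (by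
    constructor
    · intro s t h
      exact slU_injective (hθ (congrArg Subtype.val h))
    · rintro ⟨_, ⟨s, rfl⟩⟩
      exact ⟨Multiplicative.toAdd s, rfl⟩)
  have h2 : ∀ s : K, TwAlg.of α ((e s : U) : H) • f (TwAlg.ofInv α ((e s : U) : H) • x) =
      L.u s • f x := by
    intro s
    have he : ((e s : U) : H) = θ (slU K s) := rfl
    rw [he]
    obtain ⟨c, hc⟩ := L.u_of s
    -- `of = c⁻¹ • u s`, `ofInv = c • u (-s)`
    have h3 : TwAlg.of α (θ (slU K s)) = ((c : k)⁻¹) • L.u s := by
      rw [hc, smul_smul, inv_mul_cancel₀ c.ne_zero, one_smul]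
    have h4 : TwAlg.ofInv α (θ (slU K s)) • x = (c : k) • x := by
      have h5 : L.u s • x = x := hx s
      rw [hc, smul_assoc] at h5
      have h6 : TwAlg.of α (θ (slU K s)) • x = ((c : k)⁻¹) • x := by
        conv_rhs => rw [← h5]
        rw [smul_smul, inv_mul_cancel₀ c.ne_zero, one_smul]
      have h7 := congrArg (fun y => TwAlg.ofInv α (θ (slU K s)) • y) h6
      simp only [smul_smul, TwAlg.ofInv_mul_of, one_smul] at h7
      rw [smul_comm] at h7
      calc TwAlg.ofInv α (θ (slU K s)) • x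
          = (c : k) • ((c : k)⁻¹ • TwAlg.ofInv α (θ (slU K s)) • x) := by
            rw [smul_smul, mul_inv_cancel₀ c.ne_zero, one_smul]
        _ = (c : k) • x := by rw [← h7]
    rw [h4, map_smul, h3, smul_assoc, smul_comm (L.u s), smul_smul, inv_mul_cancel₀ c.ne_zero,
      one_smul]
  rw [← Fintype.sum_equiv e (fun s => L.u s • f x)
    (fun u : U => TwAlg.of α (u : H) • f (TwAlg.ofInv α (u : H) • x)) (fun s => (h2 s).symm)] at h1
  unfold TT
  rw [Finset.sum_smul]
  exact h1

end mod

end Lifts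

end MNF
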