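import Pool.Agent.W_0649d4.SLGen
import Pool.Agent.W_0649d4.ASplit

/-! Lifts of the elements of `SL₂(K)` to the twisted group algebra. -/

namespace MNF

variable {k : Type*} [Field k]

section general

variable {H : Type*} [Group H]

theorem TwAlg.smul_mul_smul_of (α : Cocycle H k) (x y : k) (a b : H) :
    (x • TwAlg.of α a) * (y • TwAlg.of α b) = (x * y * (α a b : k)) • TwAlg.of α (a * b) := by
  rw [smul_mul_smul_comm, TwAlg.of_mul_of, smul_smul]

theorem TwAlg.of_ne_zero (α : Cocycle H k) (a : H) : TwAlg.of α a ≠ 0 := by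
  intro h
  have h1 : (Finsupp.single a (1 : k) : H →₀ k) = 0 := h
  rw [Finsupp.single_eq_zero] at h1
  exact one_ne_zero h1

theorem TwAlg.smul_of_inj (α : Cocycle H k) {a : H} {x y : k}
    (h : x • TwAlg.of α a = y • TwAlg.of α a) : x = y := by
  have h1 : (x - y) • TwAlg.of α a = 0 := by rw [sub_smul, h, sub_self]
  rcases smul_eq_zero.mp h1 with h2 | h2
  · exact sub_eq_zero.mp h2
  · exact absurd h2 (TwAlg.of_ne_zero α a)

/-- Comparison of splittings along a conjugation, for homomorphisms from a `p`-group. -/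
theorem conj_lift [IsAlgClosed k] (p : ℕ) [Fact p.Prime] [CharP k p] (α : Cocycle H k)
    {U : Type*} [Group U] [Finite U] (hU : IsPGroup p U) (f f' : U →* H) (γ γ' : U → kˣ)
    (hγ : ∀ a b, α (f a) (f b) = γ a * γ b * (γ (a * b))⁻¹)
    (hγ' : ∀ a b, α (f' a) (f' b) = γ' a * γ' b * (γ' (a * b))⁻¹)
    (h : H) (hf : ∀ u, h * f u = f' u * h) (u : U) :
    TwAlg.of α h * ((((γ u)⁻¹ : kˣ) : k) • TwAlg.of α (f u)) =
      ((((γ' u)⁻¹ : kˣ) : k) • TwAlg.of α (f' u)) * TwAlg.of α h := by
  -- `of h * of (f u) = c u • of (f' u) * of h`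
  let c : U → kˣ := fun u => α h (f u) * (α (f' u) h)⁻¹
  have hc : ∀ a b, α (f a) (f b) = (c a * γ' a) * (c b * γ' b) * (c (a * b) * γ' (a * b))⁻¹ := by
    intro a b
    have h1 := α.cocycle h (f a) (f b)
    have h2 := α.cocycle (f' a) h (f b)
    have h3 := α.cocycle (f' a) (f' b) h
    rw [hf a] at h1
    rw [hf b] at h2
    have h4 := hγ' a b
    simp only [c, map_mul] at *
    -- h1 : α h (f a) * α (f' a * h) (f b) = α (f a) (f b) * α h (f a * f b)
    -- h2 : α (f' a) h * α (f' a * h) (f b) = α h (f b) * α (f' a) (f' b * h)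
    -- h3 : α (f' a) (f' b) * α (f' a * f' b) h = α (f' b) h * α (f' a) (f' b * h)
    have e1 : α (f a) (f b) = α h (f a) * α (f' a * h) (f b) * (α h (f a * f b))⁻¹ := by
      rw [h1]; simp
    have e2 : α (f' a * h) (f b) = (α (f' a) h)⁻¹ * (α h (f b) * α (f' a) (f' b * h)) := by
      rw [← h2]; simp
    have e3 : α (f' a) (f' b * h) = (α (f' b) h)⁻¹ * (α (f' a) (f' b) * α (f' a * f' b) h) := by
      rw [h3]; simp
    rw [e1, e2, e3, h4]
    apply Units.ext
    simp only [Units.val_mul, Units.val_inv_eq_inv_val, mul_inv_rev, inv_inv]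
    have n1 := (α h (f a)).ne_zero
    have n2 := (α (f' a) h).ne_zero
    have n3 := (α h (f b)).ne_zero
    have n4 := (α (f' b) h).ne_zero
    have n5 := (γ' a).ne_zero
    have n6 := (γ' b).ne_zero
    have n7 := (γ' (a * b)).ne_zero
    have n8 := (α (f' a * f' b) h).ne_zero
    have n9 := (α h (f a * f b)).ne_zero
    field_simp
  have huniq := (pgroup_split p hU (α.comap f)).unique (y₁ := γ) (y₂ := fun u => c u * γ' u)
    (fun a b => hγ a b) (fun a b => hc a b)
  have h5 : γ u = c u * γ' u := congrFun huniq u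
  have h6 : TwAlg.of α h * TwAlg.of α (f u) = ((c u : kˣ) : k) • (TwAlg.of α (f' u) * TwAlg.of α h) := by
    rw [TwAlg.of_mul_of, TwAlg.of_mul_of, smul_smul, hf u]
    congr 1
    simp [c]
  rw [mul_smul_comm, smul_mul_assoc, h6, smul_smul, h5]
  congr 1
  simp

end general

section sl

variable {H : Type*} [Group H] {K : Type*} [Field K]

/-- `s ↦ θ(u(s))` as a homomorphism. -/
def uHom (θ : Matrix.SpecialLinearGroup (Fin 2) K →* H) : Multiplicative K →* H where
  toFun s := θ (slU K (Multiplicative.toAdd s))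
  map_one' := by
    show θ (slU K 0) = 1
    rw [slU_zero, map_one]
  map_mul' s t := by
    show θ (slU K (Multiplicative.toAdd s + Multiplicative.toAdd t)) = _
    rw [slU_add, map_mul]

/-- `s ↦ θ(v(s))` as a homomorphism. -/
def vHom (θ : Matrix.SpecialLinearGroup (Fin 2) K →* H) : Multiplicative K →* H where
  toFun s := θ (slV K (Multiplicative.toAdd s))
  map_one' := by
    show θ (slV K 0) = 1
    rw [slV_zero, map_one]
  map_mul' s t := by
    show θ (slV K (Multiplicative.toAdd s + Multiplicative.toAdd t)) = _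
    rw [slV_add, map_mul]

theorem isPGroup_mul (p : ℕ) [CharP K p] : IsPGroup p (Multiplicative K) := by
  intro g
  refine ⟨1, ?_⟩
  apply Multiplicative.toAdd.injective
  rw [toAdd_pow, pow_one, toAdd_one, nsmul_eq_mul, CharP.cast_eq_zero, zero_mul]

/-- Normalised lifts of the elements of `SL₂(K)` to `k_α H`. -/
structure Lifts (α : Cocycle H k) (θ : Matrix.SpecialLinearGroup (Fin 2) K →* H)
    (N : Subgroup H) where
  u : K → TwAlg α
  v : K → TwAlg α
  w : Kˣ → TwAlg α
  wi : TwAlg α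
  u_of : ∀ s, ∃ c : kˣ, u s = (c : k) • TwAlg.of α (θ (slU K s))
  v_of : ∀ s, ∃ c : kˣ, v s = (c : k) • TwAlg.of α (θ (slV K s))
  w_of : ∀ c, ∃ x : kˣ, w c = (x : k) • TwAlg.of α (θ (slWc c))
  u_add : ∀ s t, u (s + t) = u s * u t
  v_add : ∀ s t, v (s + t) = v s * v t
  u_zero : u 0 = 1
  v_zero : v 0 = 1
  w_eq : ∀ c, w c = u c * v (-((c⁻¹ : Kˣ) : K)) * u c
  wi_mul : wi * w 1 = 1
  mul_wi : w 1 * wi = 1
  w_u : ∀ c s, w c * u s = v (-(s * (c⁻¹ : Kˣ) * (c⁻¹ : Kˣ))) * w c
  N_u : ∀ κ ∈ N, ∃ σ : K → K, Function.Bijective σ ∧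
    ∀ s, TwAlg.of α κ * u s = u (σ s) * TwAlg.of α κ
  N_w : ∀ κ ∈ N, ∃ (c : Kˣ) (x : kˣ),
    TwAlg.of α κ * w 1 = (x : k) • (w c * TwAlg.of α κ)

theorem exists_lifts [IsAlgClosed k] (p : ℕ) [Fact p.Prime] [CharP k p] [Finite K] [CharP K p]
    (α : Cocycle H k) (θ : Matrix.SpecialLinearGroup (Fin 2) K →* H)
    (hθ : Function.Injective θ) (N : Subgroup H)
    (hU : ∀ κ ∈ N, ∀ s, ∃ s', κ * θ (slU K s) * κ⁻¹ = θ (slU K s'))
    (hW : ∀ κ ∈ N, ∃ c, κ * θ (slW K) * κ⁻¹ = θ (slD K c * slW K)) :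
    Nonempty (Lifts α θ N) := by
  have hPG : IsPGroup p (Multiplicative K) := isPGroup_mul p
  obtain ⟨γ, hγ, hγu⟩ := pgroup_split p hPG (α.comap (uHom θ))
  obtain ⟨δ, hδ, hδu⟩ := pgroup_split p hPG (α.comap (vHom θ))

  let u : K → TwAlg α := fun s => ((((γ (Multiplicative.ofAdd s))⁻¹ : kˣ) : k)) • TwAlg.of α (θ (slU K s))
  let v : K → TwAlg α := fun s => ((((δ (Multiplicative.ofAdd s))⁻¹ : kˣ) : k)) • TwAlg.of α (θ (slV K s))
  have hγ' : ∀ s t : K, α (θ (slU K s)) (θ (slU K t)) = γ (Multiplicative.ofAdd s) *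
      γ (Multiplicative.ofAdd t) * (γ (Multiplicative.ofAdd (s + t)))⁻¹ :=
    fun s t => hγ (Multiplicative.ofAdd s) (Multiplicative.ofAdd t)
  have hδ' : ∀ s t : K, α (θ (slV K s)) (θ (slV K t)) = δ (Multiplicative.ofAdd s) *
      δ (Multiplicative.ofAdd t) * (δ (Multiplicative.ofAdd (s + t)))⁻¹ :=
    fun s t => hδ (Multiplicative.ofAdd s) (Multiplicative.ofAdd t)
  have u_add : ∀ s t, u (s + t) = u s * u t := by
    intro s t
    simp only [u]
    rw [TwAlg.smul_mul_smul_of, hγ', slU_add, map_mul]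
    congr 1
    rw [← Units.val_mul, ← Units.val_mul]
    congr 1
    apply Units.ext
    simp only [Units.val_mul, Units.val_inv_eq_inv_val]
    have n1 := (γ (Multiplicative.ofAdd s)).ne_zero
    have n2 := (γ (Multiplicative.ofAdd t)).ne_zero
    have n3 := (γ (Multiplicative.ofAdd (s + t))).ne_zero
    field_simp
  have v_add : ∀ s t, v (s + t) = v s * v t := by
    intro s t
    simp only [v]
    rw [TwAlg.smul_mul_smul_of, hδ', slV_add, map_mul]
    congr 1
    rw [← Units.val_mul, ← Units.val_mul]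
    congr 1
    apply Units.ext
    simp only [Units.val_mul, Units.val_inv_eq_inv_val]
    have n1 := (δ (Multiplicative.ofAdd s)).ne_zero
    have n2 := (δ (Multiplicative.ofAdd t)).ne_zero
    have n3 := (δ (Multiplicative.ofAdd (s + t))).ne_zero
    field_simp
  have u_zero : u 0 = 1 := by
    have h1 := hγ' 0 0
    rw [add_zero, slU_zero, map_one] at h1
    have h2 : γ (Multiplicative.ofAdd 0) = α 1 1 := by rw [h1]; simp
    simp only [u]
    rw [h2, slU_zero, map_one, TwAlg.one_def]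
  have v_zero : v 0 = 1 := by
    have h1 := hδ' 0 0
    rw [add_zero, slV_zero, map_one] at h1
    have h2 : δ (Multiplicative.ofAdd 0) = α 1 1 := by rw [h1]; simp
    simp only [v]
    rw [h2, slV_zero, map_one, TwAlg.one_def]
  have unit_smul : ∀ (a b c : H) (x y z : kˣ), ∃ t : kˣ,
      ((x : k) • TwAlg.of α a) * ((y : k) • TwAlg.of α b) * ((z : k) • TwAlg.of α c) =
        (t : k) • TwAlg.of α (a * b * c) := by
    intro a b c x y z
    refine ⟨x * y * α a b * z * α (a * b) c, ?_⟩
    rw [TwAlg.smul_mul_smul_of, TwAlg.smul_mul_smul_of]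
    simp only [Units.val_mul]
  let w : Kˣ → TwAlg α := fun c => u c * v (-((c⁻¹ : Kˣ) : K)) * u c
  have w_of : ∀ c, ∃ x : kˣ, w c = (x : k) • TwAlg.of α (θ (slWc c)) := by
    intro c
    obtain ⟨t, ht⟩ := unit_smul (θ (slU K c)) (θ (slV K (-((c⁻¹ : Kˣ) : K)))) (θ (slU K c))
      (γ (Multiplicative.ofAdd (c : K)))⁻¹ (δ (Multiplicative.ofAdd (-((c⁻¹ : Kˣ) : K))))⁻¹
      (γ (Multiplicative.ofAdd (c : K)))⁻¹
    refine ⟨t, ?_⟩
    rw [slWc_eq, map_mul, map_mul]
    exact ht
  -- conjugation of `u` by `w c`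
  have conj_of : ∀ (c : Kˣ) (s : K), TwAlg.of α (θ (slWc c)) * u s =
      v (-(s * (c⁻¹ : Kˣ) * (c⁻¹ : Kˣ))) * TwAlg.of α (θ (slWc c)) := by
    intro c s
    let e : Multiplicative K →* Multiplicative K :=
      { toFun := fun s => Multiplicative.ofAdd (-(Multiplicative.toAdd s * (c⁻¹ : Kˣ) * (c⁻¹ : Kˣ)))
        map_one' := by simp
        map_mul' := fun s t => by
          rw [← ofAdd_add]
          congr 1
          rw [toAdd_mul]; ring }
    have h1 := conj_lift p α hPG (uHom θ) ((vHom θ).comp e) γ (fun s => δ (e s))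
      (fun a b => hγ a b) (fun a b => by
        have := hδ (e a) (e b)
        rw [← map_mul] at this
        exact this) (θ (slWc c)) (by
        intro s
        show θ (slWc c) * θ (slU K (Multiplicative.toAdd s)) =
          θ (slV K (-(Multiplicative.toAdd s * (c⁻¹ : Kˣ) * (c⁻¹ : Kˣ)))) * θ (slWc c)
        rw [← map_mul, ← map_mul, slWc_mul_slU]) (Multiplicative.ofAdd s)
    exact h1
  have w_u : ∀ c s, w c * u s = v (-(s * (c⁻¹ : Kˣ) * (c⁻¹ : Kˣ))) * w c := by
    intro c s
    obtain ⟨x, hx⟩ := w_of c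
    rw [hx, smul_mul_assoc, conj_of, mul_smul_comm]
  have inv_of : ∀ (a : H) (x : kˣ), ∃ y : TwAlg α, y * ((x : k) • TwAlg.of α a) = 1 ∧
      ((x : k) • TwAlg.of α a) * y = 1 := by
    intro a x
    refine ⟨(((x * α a a⁻¹ * α 1 1)⁻¹ : kˣ) : k) • TwAlg.of α a⁻¹, ?_, ?_⟩
    · rw [TwAlg.smul_mul_smul_of, inv_mul_cancel, TwAlg.one_def]
      congr 1
      have h1 : α a⁻¹ a = α a a⁻¹ := by
        have h2 := α.cocycle a a⁻¹ a
        rw [mul_inv_cancel, inv_mul_cancel, Cocycle.one_left α a, Cocycle.one_right α a] at h2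
        exact (mul_right_cancel h2).symm
      rw [h1, ← Units.val_mul, ← Units.val_mul]
      congr 1
      simp only [mul_inv_rev]
      apply Units.ext
      simp only [Units.val_mul, Units.val_inv_eq_inv_val]
      have n1 := x.ne_zero
      have n2 := (α a a⁻¹).ne_zero
      have n3 := (α 1 1).ne_zero
      field_simp
    · rw [TwAlg.smul_mul_smul_of, mul_inv_cancel, TwAlg.one_def]
      congr 1
      rw [← Units.val_mul, ← Units.val_mul]
      congr 1
      simp only [mul_inv_rev]
      apply Units.ext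
      simp only [Units.val_mul, Units.val_inv_eq_inv_val]
      have n1 := x.ne_zero
      have n2 := (α a a⁻¹).ne_zero
      have n3 := (α 1 1).ne_zero
      field_simp
  obtain ⟨x1, hx1⟩ := w_of 1
  obtain ⟨wi, hwi1, hwi2⟩ := inv_of (θ (slWc 1)) x1
  refine ⟨{ u := u, v := v, w := w, wi := wi, u_of := fun s => ⟨_, rfl⟩,
            v_of := fun s => ⟨_, rfl⟩, w_of := w_of, u_add := u_add, v_add := v_add,
            u_zero := u_zero, v_zero := v_zero, w_eq := fun c => rfl,
            wi_mul := by rw [hx1]; exact hwi1, mul_wi := by rw [hx1]; exact hwi2,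
            w_u := w_u, N_u := ?_, N_w := ?_ }⟩
  · intro κ hκ
    choose σ hσ using hU κ hκ
    have hadd : ∀ s t, σ (s + t) = σ s + σ t := by
      intro s t
      apply slU_injective
      apply hθ
      rw [← hσ, slU_add, map_mul, slU_add, map_mul, ← hσ, ← hσ]
      group
    have hinj : Function.Injective σ := by
      intro s t h
      apply slU_injective
      apply hθ
      have h1 := hσ s
      rw [h, ← hσ t] at h1
      exact mul_left_cancel (mul_right_cancel h1)
    refine ⟨σ, (Finite.injective_iff_bijective).mp hinj, ?_⟩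
    intro s
    let e : Multiplicative K →* Multiplicative K :=
      { toFun := fun s => Multiplicative.ofAdd (σ (Multiplicative.toAdd s))
        map_one' := by
          have h0 : σ 0 = 0 := by
            have := hadd 0 0
            rw [add_zero] at this
            exact left_eq_add.mp this
          show Multiplicative.ofAdd (σ 0) = 1
          rw [h0]; rfl
        map_mul' := fun s t => by
          rw [← ofAdd_add]
          congr 1
          rw [toAdd_mul, hadd] }
    have h1 := conj_lift p α hPG (uHom θ) ((uHom θ).comp e) γ (fun s => γ (e s))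
      (fun a b => hγ a b) (fun a b => by
        have := hγ (e a) (e b)
        rw [← map_mul] at this
        exact this) κ (by
        intro s
        show κ * θ (slU K (Multiplicative.toAdd s)) = θ (slU K (σ (Multiplicative.toAdd s))) * κ
        rw [← hσ]; group) (Multiplicative.ofAdd s)
    exact h1
  · intro κ hκ
    obtain ⟨c, hc⟩ := hW κ hκ
    obtain ⟨x, hx⟩ := w_of c
    refine ⟨c, x1 * α κ (θ (slWc 1)) * (x * α (θ (slWc c)) κ)⁻¹, ?_⟩
    rw [hx1, hx, mul_smul_comm, smul_mul_assoc, TwAlg.of_mul_of, TwAlg.of_mul_of, smul_smul,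
      smul_smul, smul_smul]
    have h1 : κ * θ (slWc 1) = θ (slWc c) * κ := by
      rw [slWc_one, slWc_eq', ← hc]; group
    rw [h1]
    congr 1
    rw [← Units.val_mul, ← Units.val_mul, ← Units.val_mul]
    congr 1
    apply Units.ext
    simp only [Units.val_mul, Units.val_inv_eq_inv_val, mul_inv_rev]
    have n1 := x.ne_zero
    have n2 := (α (θ (slWc c)) κ).ne_zero
    field_simp

end sl

end MNF
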