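import Pool.Agent.W_0649d4.ASteinLift
import Pool.Agent.W_0649d4.AHigman

/-! The module part of the twisted Steinberg argument. -/

namespace MNF

open scoped BigOperators

set_option linter.unusedSectionVars false

variable {k : Type*} [Field k] {H : Type*} [Group H] [Finite H] {K : Type*} [Field K] [Fintype K]
  {α : Cocycle H k} {θ : Matrix.SpecialLinearGroup (Fin 2) K →* H} {N : Subgroup H}

namespace Lifts

variable (L : Lifts α θ N)

theorem wi_eq : L.wi = L.w (-1) := by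
  have h1 : L.w (-1) * L.w 1 = 1 := by
    rw [L.w_eq, L.w_eq]
    have e1 : -(((-1 : Kˣ)⁻¹ : Kˣ) : K) = 1 := by simp
    have e2 : -(((1 : Kˣ)⁻¹ : Kˣ) : K) = -1 := by simp
    have e3 : ((-1 : Kˣ) : K) = -1 := by simp
    have e4 : ((1 : Kˣ) : K) = 1 := by simp
    rw [e1, e2, e3, e4]
    calc L.u (-1) * L.v 1 * L.u (-1) * (L.u 1 * L.v (-1) * L.u 1)
        = L.u (-1) * L.v 1 * (L.u (-1) * L.u 1) * L.v (-1) * L.u 1 := by noncomm_ring
      _ = L.u (-1) * (L.v 1 * L.v (-1)) * L.u 1 := by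
          rw [← L.u_add, neg_add_cancel, L.u_zero]; noncomm_ring
      _ = 1 := by
          rw [← L.v_add, add_neg_cancel, L.v_zero, mul_one, ← L.u_add, neg_add_cancel, L.u_zero]
  calc L.wi = 1 * L.wi := (one_mul _).symm
    _ = (L.w (-1) * L.w 1) * L.wi := by rw [h1]
    _ = L.w (-1) * (L.w 1 * L.wi) := by rw [mul_assoc]
    _ = L.w (-1) := by rw [L.mul_wi, mul_one]

theorem u_mul_neg (s : K) : L.u s * L.u (-s) = 1 := by
  rw [← L.u_add, add_neg_cancel, L.u_zero]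

theorem u_neg_mul (s : K) : L.u (-s) * L.u s = 1 := by
  rw [← L.u_add, neg_add_cancel, L.u_zero]

theorem w_one_u (s : K) : L.w 1 * L.u s = L.v (-s) * L.w 1 := by
  have h := L.w_u 1 s
  simpa using h

/-- `v(-s) = u(r) w(-r) u(r)`, `r = -s⁻¹`, for `s ≠ 0`: written with the unit `c = s⁻¹`. -/
theorem v_eq (c : Kˣ) : L.v (-((c⁻¹ : Kˣ) : K)) = L.u (-(c : K)) * L.w c * L.u (-(c : K)) := by
  rw [L.w_eq]
  calc L.v (-((c⁻¹ : Kˣ) : K)) = 1 * L.v (-((c⁻¹ : Kˣ) : K)) * 1 := by rw [one_mul, mul_one]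
    _ = (L.u (-(c : K)) * L.u c) * L.v (-((c⁻¹ : Kˣ) : K)) * (L.u c * L.u (-(c : K))) := by
        rw [L.u_neg_mul, L.u_mul_neg]
    _ = _ := by noncomm_ring

/-- `wi * w c` normalises the `u s`. -/
theorem u_wi_w (c : Kˣ) (s : K) :
    L.u s * (L.wi * L.w c) = (L.wi * L.w c) * L.u (s * c * c) := by
  have h1 : L.wi * L.v (-s) = L.u s * L.wi := by
    calc L.wi * L.v (-s) = L.wi * L.v (-s) * (L.w 1 * L.wi) := by rw [L.mul_wi, mul_one]
      _ = L.wi * (L.v (-s) * L.w 1) * L.wi := by noncomm_ring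
      _ = L.wi * (L.w 1 * L.u s) * L.wi := by rw [L.w_one_u]
      _ = (L.wi * L.w 1) * L.u s * L.wi := by noncomm_ring
      _ = L.u s * L.wi := by rw [L.wi_mul, one_mul]
  have h2 := L.w_u c (s * c * c)
  have h3 : s * (c : K) * c * ((c⁻¹ : Kˣ) : K) * ((c⁻¹ : Kˣ) : K) = s := by
    have hc := c.ne_zero
    rw [Units.val_inv_eq_inv_val]
    field_simp
  rw [h3] at h2
  calc L.u s * (L.wi * L.w c) = (L.u s * L.wi) * L.w c := by rw [mul_assoc]
    _ = L.wi * (L.v (-s) * L.w c) := by rw [← h1, mul_assoc]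
    _ = L.wi * (L.w c * L.u (s * c * c)) := by rw [h2]
    _ = _ := (mul_assoc _ _ _).symm

variable (M : Type*) [AddCommGroup M] [Module (TwAlg α) M] [Module k M]
  [IsScalarTower k (TwAlg α) M]

/-- The fixed points of the `u s` in `M`. -/
def fixU : Submodule k M where
  carrier := {x | ∀ s, L.u s • x = x}
  zero_mem' := fun s => smul_zero _
  add_mem' := fun ha hb s => by rw [smul_add, ha s, hb s]
  smul_mem' := fun c x hx s => by rw [smul_comm, hx s]

variable {M}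

theorem mem_fixU {x : M} : x ∈ L.fixU M ↔ ∀ s, L.u s • x = x := Iff.rfl

theorem wi_w_mem {x : M} (hx : x ∈ L.fixU M) (c : Kˣ) : (L.wi * L.w c) • x ∈ L.fixU M := by
  intro s
  rw [smul_smul, L.u_wi_w, mul_smul, hx]

theorem kappa_mem {x : M} (hx : x ∈ L.fixU M) {κ : H} (hκ : κ ∈ N) :
    TwAlg.of α κ • x ∈ L.fixU M := by
  intro s
  obtain ⟨σ, hσ, h⟩ := L.N_u κ hκ
  obtain ⟨t, rfl⟩ := hσ.2 s
  rw [smul_smul, ← h, mul_smul, hx]

/-- Stable subspaces. -/
def Stable (U : Submodule k M) : Prop :=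
  (∀ (c : Kˣ), ∀ x ∈ U, (L.wi * L.w c) • x ∈ U) ∧
    ∀ κ ∈ N, ∀ x ∈ U, TwAlg.of α κ • x ∈ U

/-- The operator `x ↦ ∑_s u(s) x`. -/
noncomputable def TT : TwAlg α := ∑ s : K, L.u s

theorem u_mul_TT (t : K) : L.u t * L.TT = L.TT := by
  unfold TT
  rw [Finset.mul_sum]
  simp_rw [← L.u_add]
  exact Fintype.sum_equiv (Equiv.addLeft t) _ _ (fun s => rfl)

theorem TT_mul_u (t : K) : L.TT * L.u t = L.TT := by
  unfold TT
  rw [Finset.sum_mul]
  simp_rw [← L.u_add]
  exact Fintype.sum_equiv (Equiv.addRight t) _ _ (fun s => rfl)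

theorem TT_smul_mem (x : M) : L.TT • x ∈ L.fixU M := by
  intro s
  rw [smul_smul, L.u_mul_TT]

theorem TT_smul_fix (p : ℕ) [CharP k p] [CharP K p] {x : M}
    (hx : x ∈ L.fixU M) : L.TT • x = 0 := by
  unfold TT
  rw [Finset.sum_smul]
  simp_rw [hx _]
  rw [Finset.sum_const, Finset.card_univ]
  have h1 : ((Fintype.card K : ℕ) : K) = 0 := Nat.cast_card_eq_zero K
  have h2 : p ∣ Fintype.card K := (CharP.cast_eq_zero_iff K p _).mp h1
  have h3 : ((Fintype.card K : ℕ) : k) = 0 := (CharP.cast_eq_zero_iff k p _).mpr h2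
  rw [← Nat.cast_smul_eq_nsmul k, h3, zero_smul]

variable (k) in
/-- The map `(x_s) ↦ ∑_s u(s) w x_s` on a subspace `U`. -/
noncomputable def PhiU (U : Submodule k M) : (K → U) →ₗ[k] M :=
  ∑ s : K, ((Algebra.lsmul k k M (L.u s * L.w 1)).comp U.subtype).comp (LinearMap.proj s)

theorem PhiU_apply (U : Submodule k M) (x : K → U) :
    L.PhiU k U x = ∑ s : K, (L.u s * L.w 1) • (x s : M) := by
  unfold PhiU
  rw [LinearMap.sum_apply]
  rfl

/-- The sum over a constant tuple. -/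
theorem PhiU_const (U : Submodule k M) (x : U) :
    L.PhiU k U (fun _ => x) = (L.TT * L.w 1) • (x : M) := by
  rw [PhiU_apply]
  unfold TT
  rw [Finset.sum_mul, Finset.sum_smul]

theorem TT_PhiU (U : Submodule k M) (x : K → U) :
    L.TT • L.PhiU k U x = (L.TT * L.w 1) • ((∑ s, x s : U) : M) := by
  rw [PhiU_apply, Finset.smul_sum]
  simp_rw [smul_smul, ← mul_assoc, L.TT_mul_u]
  rw [← Finset.smul_sum]
  simp

/-- A subspace stable under the generators is an `A`-submodule. -/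
theorem stable_of_gen (hgen : ∀ g : H, ∃ l, ∃ κ ∈ N, g = θ l * κ) (W : Submodule k M)
    (hu : ∀ s, ∀ x ∈ W, L.u s • x ∈ W) (hw : ∀ x ∈ W, L.w 1 • x ∈ W)
    (hκ : ∀ κ ∈ N, ∀ x ∈ W, TwAlg.of α κ • x ∈ W) (a : TwAlg α) (x : M) (hx : x ∈ W) :
    a • x ∈ W := by
  -- the set of good group elements
  have hmul : ∀ g h : H, (∀ x ∈ W, TwAlg.of α g • x ∈ W) → (∀ x ∈ W, TwAlg.of α h • x ∈ W) →
      ∀ x ∈ W, TwAlg.of α (g * h) • x ∈ W := by
    intro g h hg hh x hx
    have h1 := hg _ (hh x hx)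
    rw [smul_smul, TwAlg.of_mul_of, smul_assoc] at h1
    have h2 := W.smul_mem ((α g h : k)⁻¹) h1
    rwa [smul_smul, inv_mul_cancel₀ (α g h).ne_zero, one_smul] at h2
  have hone : ∀ x ∈ W, TwAlg.of α (1 : H) • x ∈ W := by
    intro x hx
    have h1 : TwAlg.of α (1 : H) = ((α 1 1 : kˣ) : k) • (1 : TwAlg α) := by
      rw [TwAlg.one_def, smul_smul, ← Units.val_mul, mul_inv_cancel, Units.val_one, one_smul]
    rw [h1, smul_assoc, one_smul]
    exact W.smul_mem _ hx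
  have hpow : ∀ g : H, (∀ x ∈ W, TwAlg.of α g • x ∈ W) → ∀ n : ℕ,
      ∀ x ∈ W, TwAlg.of α (g ^ n) • x ∈ W := by
    intro g hg n
    induction n with
    | zero => rw [pow_zero]; exact hone
    | succ n ih => rw [pow_succ]; exact hmul _ _ ih hg
  have hinv : ∀ g : H, (∀ x ∈ W, TwAlg.of α g • x ∈ W) → ∀ x ∈ W, TwAlg.of α g⁻¹ • x ∈ W := by
    intro g hg
    have h1 : g⁻¹ = g ^ (orderOf g - 1) := by
      rw [inv_eq_iff_mul_eq_one, ← pow_succ', Nat.sub_add_cancel (orderOf_pos g),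
        pow_orderOf_eq_one]
    rw [h1]
    exact hpow g hg _
  have hsmul : ∀ (g : H) (c : kˣ), (∀ x ∈ W, ((c : k) • TwAlg.of α g) • x ∈ W) →
      ∀ x ∈ W, TwAlg.of α g • x ∈ W := by
    intro g c h x hx
    have h1 := W.smul_mem ((c : k)⁻¹) (h x hx)
    rwa [smul_assoc, smul_smul, inv_mul_cancel₀ c.ne_zero, one_smul] at h1
  have hSL : ∀ l : Matrix.SpecialLinearGroup (Fin 2) K, ∀ x ∈ W, TwAlg.of α (θ l) • x ∈ W := by
    intro l
    have hl : l ∈ Subgroup.closure ({g | ∃ s, g = slU K s} ∪ {slW K}) := by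
      rw [sl_gen]; exact Subgroup.mem_top _
    induction hl using Subgroup.closure_induction with
    | mem y hy =>
      rcases hy with ⟨s, rfl⟩ | hy
      · obtain ⟨c, hc⟩ := L.u_of s
        apply hsmul _ c
        rw [← hc]
        exact hu s
      · have hy' : y = slW K := hy
        rw [hy', ← slWc_one]
        obtain ⟨c, hc⟩ := L.w_of 1
        apply hsmul _ c
        rw [← hc]
        exact hw
    | one => rw [map_one]; exact hone
    | mul a b _ _ ha hb => rw [map_mul]; exact hmul _ _ ha hb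
    | inv a _ ha => rw [map_inv]; exact hinv _ ha
  have hall : ∀ g : H, ∀ x ∈ W, TwAlg.of α g • x ∈ W := by
    intro g
    obtain ⟨l, κ, hκN, rfl⟩ := hgen g
    exact hmul _ _ (hSL l) (hκ κ hκN)
  -- linear combinations
  let f : TwAlg α →ₗ[k] (M ⧸ W) := W.mkQ.comp ((Algebra.lsmul k k M).toLinearMap.flip x)
  have hf : f = 0 := by
    apply TwAlg.lhom_ext
    intro g
    show W.mkQ (TwAlg.of α g • x) = 0
    rw [Submodule.mkQ_apply, Submodule.Quotient.mk_eq_zero]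
    exact hall g x hx
  have h1 : f a = 0 := by rw [hf]; rfl
  have h2 : W.mkQ (a • x) = 0 := h1
  rwa [Submodule.mkQ_apply, Submodule.Quotient.mk_eq_zero] at h2

end Lifts

end MNF
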