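import Pool.Agent.W_0649d4.ASteinCore

/-! Relations on the fixed points in the twisted Steinberg argument. -/

namespace MNF

open scoped BigOperators

set_option linter.unusedSectionVars false

variable {k : Type*} [Field k] {H : Type*} [Group H] [Finite H] {K : Type*} [Field K] [Fintype K]
  {α : Cocycle H k} {θ : Matrix.SpecialLinearGroup (Fin 2) K →* H} {N : Subgroup H}

namespace Lifts

variable (L : Lifts α θ N)

section mod

variable {M : Type*} [AddCommGroup M] [Module (TwAlg α) M] [Module k M]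
  [IsScalarTower k (TwAlg α) M]

theorem p_smul (p : ℕ) [CharP k p] (m : M) : (p : ℤ) • m = 0 := by
  rw [← Int.cast_smul_eq_zsmul k]
  simp

theorem fixU_ne_bot (p : ℕ) [Fact p.Prime] [CharP k p] [CharP K p] [Nontrivial M] :
    L.fixU M ≠ ⊥ := by
  let act : DistribMulAction (Multiplicative K) M :=
    { smul := fun s x => L.u (Multiplicative.toAdd s) • x
      one_smul := fun x => by
        show L.u 0 • x = x
        rw [L.u_zero, one_smul]
      mul_smul := fun s t x => by
        show L.u (Multiplicative.toAdd s + Multiplicative.toAdd t) • x = _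
        rw [L.u_add, mul_smul]; rfl
      smul_zero := fun s => smul_zero _
      smul_add := fun s x y => smul_add _ _ _ }
  obtain ⟨m, hm, h⟩ := @exists_fixed (Multiplicative K) _ _ p _ (isPGroup_mul p) M _ act
    (p_smul (k := k) p) _
  intro h0
  have h1 : m ∈ L.fixU M := fun s => h (Multiplicative.ofAdd s)
  rw [h0] at h1
  exact hm h1

theorem fixU_stable : L.Stable (L.fixU M) :=
  ⟨fun c _ hx => L.wi_w_mem hx c, fun _ hκ _ hx => L.kappa_mem hx hκ⟩

variable [FiniteDimensional k M] [IsSimpleModule (TwAlg α) M] [Module.Projective (TwAlg α) M]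

theorem exists_const (p : ℕ) [CharP k p] [CharP K p] (hθ : Function.Injective θ)
    (hgen : ∀ g : H, ∃ l, ∃ κ ∈ N, g = θ l * κ) {U : Submodule k M} (hU : L.Stable U)
    (hUX : U ≤ L.fixU M) (hne : U ≠ ⊥) {x : M} (hx : x ∈ L.fixU M) :
    ∃ y ∈ U, (L.TT * L.w 1) • y = x := by
  obtain ⟨m, rfl⟩ := L.exists_TT hθ hx
  have h1 : m ∈ U ⊔ LinearMap.range (L.PhiU k U) := by
    rw [L.sup_eq_top hgen hU hUX hne]; trivial
  rw [Submodule.mem_sup] at h1
  obtain ⟨y, hy, z, ⟨t, rfl⟩, rfl⟩ := h1
  refine ⟨_, (∑ s, t s : U).2, ?_⟩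
  rw [smul_add, L.TT_smul_fix p (hUX hy), zero_add, L.TT_PhiU]

theorem stable_eq (p : ℕ) [CharP k p] [CharP K p] (hθ : Function.Injective θ)
    (hgen : ∀ g : H, ∃ l, ∃ κ ∈ N, g = θ l * κ) {U : Submodule k M} (hU : L.Stable U)
    (hUX : U ≤ L.fixU M) (hne : U ≠ ⊥) : U = L.fixU M := by
  apply Submodule.eq_of_le_of_finrank_le hUX
  have h1 : L.fixU M ≤ U.map (Algebra.lsmul k k M (L.TT * L.w 1)) := by
    intro x hx
    obtain ⟨y, hy, h⟩ := L.exists_const p hθ hgen hU hUX hne hx
    exact ⟨y, hy, h⟩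
  exact (Submodule.finrank_mono h1).trans (Submodule.finrank_map_le _ _)

/-- `y ↦ TT w y` as a map of the fixed points. -/
noncomputable def phi : L.fixU M →ₗ[k] L.fixU M :=
  { toFun := fun y => ⟨(L.TT * L.w 1) • (y : M), by rw [mul_smul]; exact L.TT_smul_mem _⟩
    map_add' := fun a b => by
      apply Subtype.ext
      show (L.TT * L.w 1) • ((a : M) + b) = _
      rw [smul_add]; rfl
    map_smul' := fun c a => by
      apply Subtype.ext
      show (L.TT * L.w 1) • (c • (a : M)) = c • ((L.TT * L.w 1) • (a : M))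
      rw [smul_comm] }

theorem phi_injective (p : ℕ) [Fact p.Prime] [CharP k p] [CharP K p] (hθ : Function.Injective θ)
    (hgen : ∀ g : H, ∃ l, ∃ κ ∈ N, g = θ l * κ) :
    Function.Injective (L.phi (M := M)) := by
  have hnt : Nontrivial M := IsSimpleModule.nontrivial (TwAlg α) M
  rw [LinearMap.injective_iff_surjective]
  intro x
  obtain ⟨y, hy, h⟩ := L.exists_const p hθ hgen L.fixU_stable le_rfl (L.fixU_ne_bot p) x.2
  exact ⟨⟨y, hy⟩, Subtype.ext h⟩

theorem Phi_surjective (p : ℕ) [Fact p.Prime] [CharP k p] [CharP K p]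
    (hθ : Function.Injective θ) (hgen : ∀ g : H, ∃ l, ∃ κ ∈ N, g = θ l * κ) :
    Function.Surjective (L.PhiU k (L.fixU M)) := by
  have hnt : Nontrivial M := IsSimpleModule.nontrivial (TwAlg α) M
  rw [← LinearMap.range_eq_top, eq_top_iff,
    ← L.sup_eq_top hgen L.fixU_stable le_rfl (L.fixU_ne_bot (M := M) p)]
  apply sup_le _ le_rfl
  intro x hx
  obtain ⟨y, hy, h⟩ := L.exists_const p hθ hgen L.fixU_stable le_rfl (L.fixU_ne_bot p) hx
  exact ⟨fun _ => ⟨y, hy⟩, by rw [L.PhiU_const]; exact h⟩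

theorem Phi_shift (f : K → L.fixU M) (t : K) :
    L.PhiU k (L.fixU M) (fun s => f (s - t)) = L.u t • L.PhiU k (L.fixU M) f := by
  rw [PhiU_apply, PhiU_apply, Finset.smul_sum]
  apply Fintype.sum_equiv (Equiv.subRight t)
  intro s
  rw [smul_smul, ← mul_assoc, ← L.u_add]
  simp

theorem Phi_injective (p : ℕ) [Fact p.Prime] [CharP k p] [CharP K p]
    (hθ : Function.Injective θ) (hgen : ∀ g : H, ∃ l, ∃ κ ∈ N, g = θ l * κ) :
    Function.Injective (L.PhiU k (L.fixU M)) := by
  rw [← LinearMap.ker_eq_bot]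
  by_contra hne
  set V := LinearMap.ker (L.PhiU k (L.fixU M)) with hV
  have hnt : Nontrivial V := Submodule.nontrivial_iff_ne_bot.mpr hne
  let act : DistribMulAction (Multiplicative K) V :=
    { smul := fun t f => ⟨fun s => (f : K → L.fixU M) (s - Multiplicative.toAdd t), by
        have h1 := L.Phi_shift (f : K → L.fixU M) (Multiplicative.toAdd t)
        rw [LinearMap.mem_ker, h1, (LinearMap.mem_ker.mp f.2), smul_zero]⟩
      one_smul := fun f => by
        apply Subtype.ext
        funext s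
        show (f : K → L.fixU M) (s - 0) = _
        rw [sub_zero]
      mul_smul := fun s t f => by
        apply Subtype.ext
        funext r
        show (f : K → L.fixU M) (r - (Multiplicative.toAdd s + Multiplicative.toAdd t)) =
          (f : K → L.fixU M) (r - Multiplicative.toAdd s - Multiplicative.toAdd t)
        rw [sub_sub]
      smul_zero := fun s => rfl
      smul_add := fun s x y => rfl }
  obtain ⟨f, hf, h⟩ := @exists_fixed (Multiplicative K) _ _ p _ (isPGroup_mul p) V _ act (by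
    intro m
    rw [← Int.cast_smul_eq_zsmul k]
    simp) _
  have hconst : ∀ s, (f : K → L.fixU M) s = (f : K → L.fixU M) 0 := by
    intro s
    have h1 := congrArg (fun g : V => (g : K → L.fixU M) s) (h (Multiplicative.ofAdd s))
    have h2 : (f : K → L.fixU M) (s - s) = (f : K → L.fixU M) s := h1
    rw [sub_self] at h2
    exact h2.symm
  have h2 : L.PhiU k (L.fixU M) (fun _ => (f : K → L.fixU M) 0) = 0 := by
    have h3 : (fun _ => (f : K → L.fixU M) 0) = (f : K → L.fixU M) := by
      funext s; exact (hconst s).symm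
    rw [h3]
    exact f.2
  rw [L.PhiU_const] at h2
  have h4 : L.phi ((f : K → L.fixU M) 0) = 0 := Subtype.ext h2
  have h5 : (f : K → L.fixU M) 0 = 0 := by
    apply L.phi_injective p hθ hgen
    rw [h4, map_zero]
  apply hf
  apply Subtype.ext
  funext s
  rw [hconst s, h5]
  rfl

/-- The relations on the fixed points. -/
theorem relations (p : ℕ) [Fact p.Prime] [CharP k p] [CharP K p] (hθ : Function.Injective θ)
    (hgen : ∀ g : H, ∃ l, ∃ κ ∈ N, g = θ l * κ) {x : M} (hx : x ∈ L.fixU M) :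
    (L.TT * L.w 1) • x = -x ∧ (L.w 1 * L.w 1) • x = x ∧ ∀ c : Kˣ, (L.wi * L.w c) • x = x := by
  classical
  have hnt : Nontrivial M := IsSimpleModule.nontrivial (TwAlg α) M
  -- `x = TT w y`, `y' = w w y`, `y' = TT w z`
  obtain ⟨y, hy, hxy⟩ :=
    L.exists_const p hθ hgen L.fixU_stable le_rfl (L.fixU_ne_bot (M := M) p) hx
  have hy' : (L.w 1 * L.w 1) • y ∈ L.fixU M := L.ww_mem L.fixU_stable hy
  set y' := (L.w 1 * L.w 1) • y with hy'def
  obtain ⟨z, hz, hyz⟩ :=
    L.exists_const p hθ hgen L.fixU_stable le_rfl (L.fixU_ne_bot (M := M) p) hy'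
  -- expansion of `w x`
  let g : K → L.fixU M := fun r => ⟨z, hz⟩ + (if h : r = 0 then 0 else
    ⟨(L.wi * L.w (-(Units.mk0 r h))) • y', L.wi_w_mem hy' _⟩)
  have h1 : L.w 1 • x = L.PhiU k (L.fixU M) g := by
    have e1 : L.w 1 • x = ∑ s : K, L.w 1 • L.u s • L.w 1 • y := by
      rw [← hxy]
      unfold TT
      rw [Finset.sum_mul, Finset.sum_smul, Finset.smul_sum]
      simp_rw [mul_smul]
    have e2 : L.PhiU k (L.fixU M) g = y' + ∑ r : K, (L.u r * L.w 1) •
        (((if h : r = 0 then 0 else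
          ⟨(L.wi * L.w (-(Units.mk0 r h))) • y', L.wi_w_mem hy' _⟩ : L.fixU M)) : M) := by
      rw [PhiU_apply]
      simp only [g, Submodule.coe_add, smul_add, Finset.sum_add_distrib]
      congr 1
      rw [← Finset.sum_smul, ← Finset.sum_mul]
      exact hyz
    rw [e1, e2, ← Finset.add_sum_erase _ _ (Finset.mem_univ (0 : K)),
      ← Finset.add_sum_erase (Finset.univ) (fun r : K => (L.u r * L.w 1) •
        (((if h : r = 0 then 0 else
          ⟨(L.wi * L.w (-(Units.mk0 r h))) • y', L.wi_w_mem hy' _⟩ : L.fixU M)) : M))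
        (Finset.mem_univ (0 : K))]
    have e3 : L.w 1 • L.u 0 • L.w 1 • y = y' := by
      rw [L.u_zero, one_smul, smul_smul]
    have e4 : (L.u 0 * L.w 1) • (((if h : (0 : K) = 0 then 0 else
          ⟨(L.wi * L.w (-(Units.mk0 0 h))) • y', L.wi_w_mem hy' _⟩ : L.fixU M)) : M) = 0 := by
      rw [dif_pos rfl]
      simp
    rw [e3, e4, zero_add]
    congr 1
    -- the bijection `s ↦ -s⁻¹` of the nonzero elements
    refine Finset.sum_nbij' (fun s => -s⁻¹) (fun s => -s⁻¹) ?_ ?_ ?_ ?_ ?_
    · intro s hs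
      rw [Finset.mem_erase] at hs ⊢
      exact ⟨neg_ne_zero.mpr (inv_ne_zero hs.1), Finset.mem_univ _⟩
    · intro s hs
      rw [Finset.mem_erase] at hs ⊢
      exact ⟨neg_ne_zero.mpr (inv_ne_zero hs.1), Finset.mem_univ _⟩
    · intro s hs
      simp
    · intro s hs
      simp
    · intro s hs
      rw [Finset.mem_erase] at hs
      have hs0 := hs.1
      let c : Kˣ := (Units.mk0 s hs0)⁻¹
      have hc : ((c⁻¹ : Kˣ) : K) = s := by simp [c]
      have e5 := L.w_u_w hy' c
      rw [hc] at e5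
      rw [e5]
      have hne : -s⁻¹ ≠ 0 := neg_ne_zero.mpr (inv_ne_zero hs0)
      rw [dif_neg hne]
      have e6 : -(Units.mk0 (-s⁻¹) hne) = c := by
        apply Units.ext
        simp [c]
      have e7 : (-(c : K)) = -s⁻¹ := by simp [c]
      show (L.u (-(c : K)) * L.w 1) • (L.wi * L.w c) • y' = (L.u (-s⁻¹) * L.w 1) •
        ((L.wi * L.w (-(Units.mk0 (-s⁻¹) hne))) • y')
      rw [e6, e7]
  have h2 : L.w 1 • x = L.PhiU k (L.fixU M) (Pi.single 0 ⟨x, hx⟩) := by
    rw [PhiU_apply, Finset.sum_eq_single 0]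
    · rw [Pi.single_eq_same, L.u_zero, one_mul]
    · intro t _ ht
      rw [Pi.single_eq_of_ne ht]
      simp
    · intro h; exact absurd (Finset.mem_univ _) h
  have h3 : (Pi.single 0 ⟨x, hx⟩ : K → L.fixU M) = g :=
    L.Phi_injective p hθ hgen (h2.symm.trans h1)
  have h4 : x = z := by
    have := congrFun h3 0
    rw [Pi.single_eq_same] at this
    simp only [g, dif_pos] at this
    rw [add_zero] at this
    exact congrArg Subtype.val this
  have h5 : ∀ c : Kˣ, (L.wi * L.w c) • y' = -x := by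
    intro c
    have hc : (-(c : K)) ≠ 0 := neg_ne_zero.mpr c.ne_zero
    have := congrFun h3 (-(c : K))
    rw [Pi.single_eq_of_ne hc] at this
    simp only [g, dif_neg hc] at this
    have e6 : -(Units.mk0 (-(c : K)) hc) = c := by
      apply Units.ext
      simp
    rw [e6] at this
    have e7 := congrArg Subtype.val this
    simp only [Submodule.coe_add] at e7
    have e8 : (0 : M) = z + (L.wi * L.w c) • y' := e7
    rw [← h4] at e8
    exact (neg_eq_of_add_eq_zero_right e8.symm).symm
  have h6 : y' = -x := by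
    have := h5 1
    rwa [L.wi_mul, one_smul] at this
  have h7 : ∀ c : Kˣ, (L.wi * L.w c) • x = x := by
    intro c
    have := h5 c
    rw [h6, smul_neg, neg_inj] at this
    exact this
  have h8 : (L.TT * L.w 1) • x = -x := by
    rw [← h6, h4]; exact hyz
  refine ⟨h8, ?_, h7⟩
  -- `y = - x`
  have h9 : y = -x := by
    have e1 : L.phi ⟨y, hy⟩ = L.phi (-⟨x, hx⟩) := by
      apply Subtype.ext
      show (L.TT * L.w 1) • y = (L.TT * L.w 1) • (-x)
      rw [hxy, smul_neg, h8, neg_neg]
    exact congrArg Subtype.val (L.phi_injective p hθ hgen e1)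
  have h10 : (L.w 1 * L.w 1) • y = -x := h6
  rw [h9, smul_neg, neg_inj] at h10
  exact h10

end mod

end Lifts

end MNF
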