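import Pool.Agent.W_0649d4.ASteinRel

/-! The twisted Steinberg argument: conclusion. -/

namespace MNF

open scoped BigOperators

set_option linter.unusedSectionVars false

variable {k : Type*} [Field k]

namespace Lifts

section modB

variable {H : Type*} [Group H] [Finite H] {K : Type*} [Field K] [Fintype K]
  {α : Cocycle H k} {θ : Matrix.SpecialLinearGroup (Fin 2) K →* H} {N : Subgroup H}
  (L : Lifts α θ N)
  {M : Type*} [AddCommGroup M] [Module (TwAlg α) M] [Module k M]
  [IsScalarTower k (TwAlg α) M]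
  {M' : Type*} [AddCommGroup M'] [Module (TwAlg α) M'] [Module k M']
  [IsScalarTower k (TwAlg α) M']
  (ι : TwAlg (α.comap N.subtype) →ₐ[k] TwAlg α)

theorem iota_mem (hι : ∀ a, ι (TwAlg.of _ a) = TwAlg.of α (N.subtype a))
    (b : TwAlg (α.comap N.subtype)) {x : M} (hx : x ∈ L.fixU M) : ι b • x ∈ L.fixU M := by
  let f : TwAlg (α.comap N.subtype) →ₗ[k] (M ⧸ L.fixU M) :=
    (L.fixU M).mkQ.comp (((Algebra.lsmul k k M).toLinearMap.flip x).comp ι.toLinearMap)
  have hf : f = 0 := by
    apply TwAlg.lhom_ext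
    intro g
    show (L.fixU M).mkQ (ι (TwAlg.of _ g) • x) = 0
    rw [Submodule.mkQ_apply, Submodule.Quotient.mk_eq_zero, hι]
    exact L.kappa_mem hx g.2
  have h1 : f b = 0 := by rw [hf]; rfl
  have h2 : (L.fixU M).mkQ (ι b • x) = 0 := h1
  rwa [Submodule.mkQ_apply, Submodule.Quotient.mk_eq_zero] at h2

/-- The fixed points as a module over `k_α N`. -/
@[reducible] noncomputable def modB (hι : ∀ a, ι (TwAlg.of _ a) = TwAlg.of α (N.subtype a)) :
    Module (TwAlg (α.comap N.subtype)) (L.fixU M) where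
  smul b x := ⟨ι b • (x : M), L.iota_mem ι hι b x.2⟩
  one_smul x := by
    apply Subtype.ext
    show ι 1 • (x : M) = x
    rw [map_one, one_smul]
  mul_smul a b x := by
    apply Subtype.ext
    show ι (a * b) • (x : M) = ι a • ι b • (x : M)
    rw [map_mul, mul_smul]
  smul_zero a := by
    apply Subtype.ext
    show ι a • (0 : M) = 0
    rw [smul_zero]
  smul_add a x y := by
    apply Subtype.ext
    show ι a • ((x : M) + y) = ι a • (x : M) + ι a • (y : M)
    rw [smul_add]
  add_smul a b x := by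
    apply Subtype.ext
    show ι (a + b) • (x : M) = ι a • (x : M) + ι b • (x : M)
    rw [map_add, add_smul]
  zero_smul x := by
    apply Subtype.ext
    show ι 0 • (x : M) = 0
    rw [map_zero, zero_smul]

theorem modB_simple [FiniteDimensional k M] [IsSimpleModule (TwAlg α) M]
    [Module.Projective (TwAlg α) M] (p : ℕ) [Fact p.Prime] [CharP k p] [CharP K p]
    (hθ : Function.Injective θ) (hgen : ∀ g : H, ∃ l, ∃ κ ∈ N, g = θ l * κ)
    (hι : ∀ a, ι (TwAlg.of _ a) = TwAlg.of α (N.subtype a)) :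
    @IsSimpleModule (TwAlg (α.comap N.subtype)) _ (L.fixU M) _ (L.modB ι hι) := by
  letI := L.modB (M := M) ι hι
  have hnt : Nontrivial M := IsSimpleModule.nontrivial (TwAlg α) M
  have hX : Nontrivial (L.fixU M) :=
    Submodule.nontrivial_iff_ne_bot.mpr (L.fixU_ne_bot p)
  have hsm : ∀ (b : TwAlg (α.comap N.subtype)) (x : L.fixU M), ((b • x : L.fixU M) : M) =
      ι b • (x : M) := fun b x => rfl
  have key : ∀ U : Submodule (TwAlg (α.comap N.subtype)) (L.fixU M), U = ⊥ ∨ U = ⊤ := by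
    intro U
    by_cases hU : U = ⊥
    · exact Or.inl hU
    · right
      let U' : Submodule k M :=
        { carrier := {x | ∃ h : x ∈ L.fixU M, (⟨x, h⟩ : L.fixU M) ∈ U}
          zero_mem' := ⟨(L.fixU M).zero_mem, U.zero_mem⟩
          add_mem' := by
            rintro a b ⟨ha, ha'⟩ ⟨hb, hb'⟩
            exact ⟨(L.fixU M).add_mem ha hb, U.add_mem ha' hb'⟩
          smul_mem' := by
            rintro c a ⟨ha, ha'⟩
            refine ⟨(L.fixU M).smul_mem c ha, ?_⟩
            have h1 := U.smul_mem (c • (1 : TwAlg (α.comap N.subtype))) ha'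
            have h2 : ((c • (1 : TwAlg (α.comap N.subtype))) • (⟨a, ha⟩ : L.fixU M) : L.fixU M) =
                ⟨c • a, (L.fixU M).smul_mem c ha⟩ := by
              apply Subtype.ext
              rw [hsm, map_smul, map_one, smul_assoc, one_smul]
            rwa [h2] at h1 }
      have hst : L.Stable U' := by
        constructor
        · rintro c x ⟨hx, hx'⟩
          have h1 := (L.relations p hθ hgen hx).2.2 c
          rw [h1]
          exact ⟨hx, hx'⟩
        · rintro κ hκ x ⟨hx, hx'⟩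
          refine ⟨L.kappa_mem hx hκ, ?_⟩
          have h1 := U.smul_mem (TwAlg.of _ (⟨κ, hκ⟩ : N)) hx'
          have h2 : ((TwAlg.of _ (⟨κ, hκ⟩ : N) : TwAlg (α.comap N.subtype)) •
              (⟨x, hx⟩ : L.fixU M) : L.fixU M) = ⟨TwAlg.of α κ • x, L.kappa_mem hx hκ⟩ := by
            apply Subtype.ext
            rw [hsm, hι]
            rfl
          rwa [h2] at h1
      have hle : U' ≤ L.fixU M := fun x hx => hx.1
      have hne : U' ≠ ⊥ := by
        intro h0
        apply hU
        rw [Submodule.eq_bot_iff]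
        intro x hx
        have h1 : (x : M) ∈ U' := ⟨x.2, hx⟩
        rw [h0] at h1
        exact Subtype.ext h1
      have heq := L.stable_eq p hθ hgen hst hle hne
      rw [eq_top_iff]
      intro x _
      have h1 : (x : M) ∈ U' := by rw [heq]; exact x.2
      exact h1.2
  exact @IsSimpleModule.mk _ _ _ _ _ ⟨key⟩

/-- `M ≃ K → fixU M`. -/
noncomputable def phiEquiv [FiniteDimensional k M] [IsSimpleModule (TwAlg α) M]
    [Module.Projective (TwAlg α) M] (p : ℕ) [Fact p.Prime] [CharP k p] [CharP K p]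
    (hθ : Function.Injective θ) (hgen : ∀ g : H, ∃ l, ∃ κ ∈ N, g = θ l * κ) :
    (K → L.fixU M) ≃ₗ[k] M :=
  LinearEquiv.ofBijective (L.PhiU k (L.fixU M))
    ⟨L.Phi_injective p hθ hgen, L.Phi_surjective p hθ hgen⟩

theorem exists_equiv [FiniteDimensional k M] [IsSimpleModule (TwAlg α) M]
    [Module.Projective (TwAlg α) M] [FiniteDimensional k M'] [IsSimpleModule (TwAlg α) M']
    [Module.Projective (TwAlg α) M'] (p : ℕ) [Fact p.Prime] [CharP k p] [CharP K p]
    (hθ : Function.Injective θ) (hgen : ∀ g : H, ∃ l, ∃ κ ∈ N, g = θ l * κ)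
    (e : L.fixU M ≃ₗ[k] L.fixU M')
    (he : ∀ κ (hκ : κ ∈ N) (x : L.fixU M),
      (e ⟨TwAlg.of α κ • (x : M), L.kappa_mem x.2 hκ⟩ : M') = TwAlg.of α κ • (e x : M')) :
    Nonempty (M ≃ₗ[TwAlg α] M') := by
  classical
  let Φ : M ≃ₗ[k] M' := (L.phiEquiv p hθ hgen).symm.trans
    ((LinearEquiv.piCongrRight (fun _ : K => e)).trans (L.phiEquiv p hθ hgen))
  have hΦ : ∀ f : K → L.fixU M, Φ (L.PhiU k (L.fixU M) f) =
      L.PhiU k (L.fixU M') (fun s => e (f s)) := by
    intro f
    have h1 : (L.phiEquiv p hθ hgen).symm (L.PhiU k (L.fixU M) f) = f := by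
      rw [LinearEquiv.symm_apply_eq]; rfl
    show (L.phiEquiv p hθ hgen) ((LinearEquiv.piCongrRight (fun _ : K => e))
      ((L.phiEquiv p hθ hgen).symm (L.PhiU k (L.fixU M) f))) = _
    rw [h1]
    rfl
  have hsingle : ∀ (M₁ : Type _) [AddCommGroup M₁] [Module (TwAlg α) M₁] [Module k M₁]
      [IsScalarTower k (TwAlg α) M₁] (s : K) (x : L.fixU M₁),
      L.PhiU k (L.fixU M₁) (Pi.single s x) = (L.u s * L.w 1) • (x : M₁) := by
    intro M₁ _ _ _ _ s x
    rw [PhiU_apply, Finset.sum_eq_single s]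
    · rw [Pi.single_eq_same]
    · intro t _ ht
      rw [Pi.single_eq_of_ne ht]
      simp
    · intro h; exact absurd (Finset.mem_univ _) h
  have hsingle' : ∀ (s : K) (x : L.fixU M'),
      L.PhiU k (L.fixU M') (Pi.single s x) = (L.u s * L.w 1) • (x : M') := by
    intro s x
    rw [PhiU_apply, Finset.sum_eq_single s]
    · rw [Pi.single_eq_same]
    · intro t _ ht
      rw [Pi.single_eq_of_ne ht]
      simp
    · intro h; exact absurd (Finset.mem_univ _) h
  have hΦs : ∀ (s : K) (x : L.fixU M), Φ ((L.u s * L.w 1) • (x : M)) =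
      (L.u s * L.w 1) • (e x : M') := by
    intro s x
    rw [← hsingle M, hΦ, ← hsingle']
    congr 1
    funext t
    by_cases ht : t = s
    · subst ht
      rw [Pi.single_eq_same, Pi.single_eq_same]
    · rw [Pi.single_eq_of_ne ht, Pi.single_eq_of_ne ht, map_zero]
  have hΦx : ∀ x : L.fixU M, Φ (x : M) = (e x : M') := by
    intro x
    have h1 := (L.relations p hθ hgen x.2).1
    have h2 := (L.relations p hθ hgen (e x).2).1
    have h3 : (x : M) = -(L.PhiU k (L.fixU M) (fun _ => x)) := by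
      rw [L.PhiU_const, h1, neg_neg]
    rw [h3, map_neg, hΦ, L.PhiU_const, h2, neg_neg]
  -- the graph
  let W : Submodule k (M × M') :=
    { carrier := {q | Φ q.1 = q.2}
      zero_mem' := map_zero _
      add_mem' := by
        intro a b ha hb
        show Φ (a.1 + b.1) = a.2 + b.2
        rw [map_add, show Φ a.1 = a.2 from ha, show Φ b.1 = b.2 from hb]
      smul_mem' := by
        intro c a ha
        show Φ (c • a.1) = c • a.2
        rw [map_smul, show Φ a.1 = a.2 from ha] }
  -- it suffices to check the action on the elements `u s w x`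
  have hred : ∀ a : TwAlg α, (∀ (s : K) (x : L.fixU M), Φ (a • (L.u s * L.w 1) • (x : M)) =
      a • (L.u s * L.w 1) • (e x : M')) → ∀ q ∈ W, a • q ∈ W := by
    intro a ha q hq
    have hq' : Φ q.1 = q.2 := hq
    show Φ (a • q.1) = a • q.2
    obtain ⟨f, hf⟩ := L.Phi_surjective (M := M) p hθ hgen q.1
    rw [← hq', ← hf, hΦ, PhiU_apply, PhiU_apply, Finset.smul_sum, Finset.smul_sum, map_sum]
    exact Finset.sum_congr rfl (fun s _ => ha s (f s))
  have hall : ∀ (a : TwAlg α) (q : M × M'), q ∈ W → a • q ∈ W := by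
    apply L.stable_of_gen hgen W
    · intro t
      apply hred
      intro s x
      rw [smul_smul, smul_smul, ← mul_assoc, ← L.u_add, hΦs]
    · apply hred
      intro s x
      by_cases hs : s = 0
      · have h1 := (L.relations p hθ hgen x.2).2.1
        have h2 := (L.relations p hθ hgen (e x).2).2.1
        rw [hs, L.u_zero, one_mul, smul_smul, smul_smul, h1, h2, hΦx]
      · let c : Kˣ := (Units.mk0 s hs)⁻¹
        have hc : ((c⁻¹ : Kˣ) : K) = s := by simp [c]
        have h1 := L.w_u_w (L.ww_mem L.fixU_stable x.2) c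
        have h2 := L.w_u_w (L.ww_mem L.fixU_stable (e x).2) c
        rw [hc, (L.relations p hθ hgen x.2).2.1, (L.relations p hθ hgen x.2).2.2 c] at h1
        rw [hc, (L.relations p hθ hgen (e x).2).2.1, (L.relations p hθ hgen (e x).2).2.2 c] at h2
        rw [mul_smul, mul_smul, h1, h2, hΦs]
    · intro κ hκ
      obtain ⟨σ, hσ, hσu⟩ := L.N_u κ hκ
      obtain ⟨c, y, hcy⟩ := L.N_w κ hκ
      apply hred
      intro s x
      have h0 : TwAlg.of α κ * (L.u s * L.w 1) =
          (y : k) • ((L.u (σ s) * L.w 1) * ((L.wi * L.w c) * TwAlg.of α κ)) := by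
        rw [← mul_assoc, hσu, mul_assoc, hcy, mul_smul_comm]
        congr 1
        calc L.u (σ s) * (L.w c * TwAlg.of α κ)
            = L.u (σ s) * (1 * L.w c * TwAlg.of α κ) := by rw [one_mul]
          _ = L.u (σ s) * ((L.w 1 * L.wi) * L.w c * TwAlg.of α κ) := by rw [L.mul_wi]
          _ = _ := by noncomm_ring
      have h1 : TwAlg.of α κ • (L.u s * L.w 1) • (x : M) =
          (y : k) • (L.u (σ s) * L.w 1) • (TwAlg.of α κ • (x : M)) := by
        rw [smul_smul, h0, smul_assoc, mul_smul, mul_smul (L.wi * L.w c),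
          (L.relations p hθ hgen (L.kappa_mem x.2 hκ)).2.2 c]
      have h2 : TwAlg.of α κ • (L.u s * L.w 1) • (e x : M') =
          (y : k) • (L.u (σ s) * L.w 1) • (TwAlg.of α κ • (e x : M')) := by
        rw [smul_smul, h0, smul_assoc, mul_smul, mul_smul (L.wi * L.w c),
          (L.relations p hθ hgen (L.kappa_mem (e x).2 hκ)).2.2 c]
      rw [h1, h2, map_smul]
      congr 1
      have h3 := hΦs (σ s) ⟨TwAlg.of α κ • (x : M), L.kappa_mem x.2 hκ⟩
      rw [he κ hκ x] at h3
      exact h3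
  refine ⟨{ Φ with
    map_smul' := fun a x => ?_ }⟩
  have h1 := hall a (x, Φ x) (show Φ x = Φ x from rfl)
  exact h1

end modB

end Lifts

theorem zNum_le_steinberg [IsAlgClosed k] (p : ℕ) [Fact p.Prime] [CharP k p] (K : Type) [Field K]
    [Finite K] [CharP K p] {H : Type*} [Group H] [Finite H] (α : Cocycle H k)
    (θ : Matrix.SpecialLinearGroup (Fin 2) K →* H) (hθ : Function.Injective θ) (N : Subgroup H)
    (hgen : ∀ g : H, ∃ l, ∃ κ ∈ N, g = θ l * κ)
    (hU : ∀ κ ∈ N, ∀ s, ∃ s', κ * θ (slU K s) * κ⁻¹ = θ (slU K s'))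
    (hW : ∀ κ ∈ N, ∃ c, κ * θ (slW K) * κ⁻¹ = θ (slD K c * slW K)) :
    zNum (TwAlg α) ≤ lNum (TwAlg (α.comap N.subtype)) := by
  haveI : Fintype K := Fintype.ofFinite K
  obtain ⟨L⟩ := exists_lifts p α θ hθ N hU hW
  obtain ⟨ι, hι⟩ := exists_map α N.subtype
  letI : ∀ m : {m : Submodule (TwAlg α) (TwAlg α) // IsCoatom m ∧
      Module.Projective (TwAlg α) (TwAlg α ⧸ m)},
      Module (TwAlg (α.comap N.subtype)) (L.fixU (TwAlg α ⧸ m.1)) :=
    fun m => L.modB ι hι
  refine zNum_le_of_assign k (fun m => L.fixU (TwAlg α ⧸ m.1)) ?_ ?_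
  · intro m
    haveI : IsSimpleModule (TwAlg α) (TwAlg α ⧸ m.1) := isSimpleModule_iff_isCoatom.mpr m.2.1
    haveI := m.2.2
    exact L.modB_simple ι p hθ hgen hι
  · rintro m m' ⟨e⟩
    haveI : IsSimpleModule (TwAlg α) (TwAlg α ⧸ m.1) := isSimpleModule_iff_isCoatom.mpr m.2.1
    haveI := m.2.2
    haveI : IsSimpleModule (TwAlg α) (TwAlg α ⧸ m'.1) := isSimpleModule_iff_isCoatom.mpr m'.2.1
    haveI := m'.2.2
    have hsm : ∀ (m : {m : Submodule (TwAlg α) (TwAlg α) // IsCoatom m ∧
        Module.Projective (TwAlg α) (TwAlg α ⧸ m)}) (b : TwAlg (α.comap N.subtype))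
        (x : L.fixU (TwAlg α ⧸ m.1)), ((b • x : L.fixU (TwAlg α ⧸ m.1)) : TwAlg α ⧸ m.1) =
        ι b • (x : TwAlg α ⧸ m.1) := fun m b x => rfl
    have hk : ∀ (m : {m : Submodule (TwAlg α) (TwAlg α) // IsCoatom m ∧
        Module.Projective (TwAlg α) (TwAlg α ⧸ m)}) (c : k) (x : L.fixU (TwAlg α ⧸ m.1)),
        c • x = (c • (1 : TwAlg (α.comap N.subtype))) • x := by
      intro m c x
      apply Subtype.ext
      rw [hsm, map_smul, map_one, smul_assoc, one_smul]
      rfl
    let e' : L.fixU (TwAlg α ⧸ m.1) ≃ₗ[k] L.fixU (TwAlg α ⧸ m'.1) :=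
      { e with
        map_smul' := fun c x => by
          show e (c • x) = c • e x
          rw [hk, map_smul, ← hk] }
    refine L.exists_equiv p hθ hgen e' ?_
    intro κ hκ x
    have h1 : (⟨TwAlg.of α κ • (x : TwAlg α ⧸ m.1), L.kappa_mem x.2 hκ⟩ :
        L.fixU (TwAlg α ⧸ m.1)) =
        (TwAlg.of (α.comap N.subtype) (⟨κ, hκ⟩ : N)) • x := by
      apply Subtype.ext
      rw [hsm, hι]
      rfl
    show (e ⟨TwAlg.of α κ • (x : TwAlg α ⧸ m.1), L.kappa_mem x.2 hκ⟩ : TwAlg α ⧸ m'.1) = _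
    rw [h1, map_smul, hsm, hι]
    rfl

end MNF
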