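import Mathlib

/-! TASK BCount. Three counting lemmas on finite groups. -/

namespace MNF

open scoped BigOperators

/-- (Gallagher) For `N` normal in `S`, `g ∈ S`: `∑_{n ∈ N} |C_N(g n)| ≤ |N| c(N)`.
Proof: the sum is the number of pairs `(m, n)`, `m, n ∈ N`, with `m` commuting with `g n`, i.e.
`∑_{m ∈ N} |C_S(m) ∩ g N|`, and `C_S(m) ∩ g N` is empty or a coset of `C_N(m)`; and
`∑_m |C_N(m)| = |N| c(N)`. -/
theorem sum_card_coset {S : Type*} [Group S] [Finite S] (N : Subgroup S) [N.Normal] [Fintype N]
    (g : S) : ∑ n : N, Nat.card {m : N // (m : S) * (g * n) = (g * n) * m} ≤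
      Nat.card N * Nat.card (ConjClasses N) := by
  classical
  rw [← Nat.card_sigma (β := fun n : N => {m : N // (m : S) * (g * n) = (g * n) * m}),
    mul_comm, ← card_comm_eq_card_conjClasses_mul_card N]
  let c : N → N := fun m =>
    if h : ∃ n : N, (m : S) * (g * n) = (g * n) * m then h.choose else 1
  have hc : ∀ m n : N, (m : S) * (g * n) = (g * n) * m → (m : S) * (g * c m) = (g * c m) * m := by
    intro m n h
    have h' : ∃ n : N, (m : S) * (g * n) = (g * n) * m := ⟨n, h⟩
    simp only [c, dif_pos h']
    exact h'.choose_spec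
  refine Nat.card_le_card_of_injective
    (fun p : (n : N) × {m : N // (m : S) * (g * n) = (g * n) * m} =>
      (⟨(p.2.1, (c p.2.1)⁻¹ * p.1), by
        obtain ⟨n, m, hm⟩ := p
        have h1 := hc m n hm
        show m * ((c m)⁻¹ * n) = ((c m)⁻¹ * n) * m
        apply Subtype.ext
        push_cast
        have h2 : Commute (m : S) (g * n) := hm
        have h3 : Commute (m : S) (g * c m) := h1
        have h4 := (h3.inv_right).mul_right h2
        have h5 : (g * (c m : S))⁻¹ * (g * n) = ((c m : S))⁻¹ * n := by group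
        rw [h5] at h4
        exact h4⟩ : {p : N × N // Commute p.1 p.2})) ?_
  rintro ⟨n, m, hm⟩ ⟨n', m', hm'⟩ h
  have h1 : (m, (c m)⁻¹ * n) = (m', (c m')⁻¹ * n') := congrArg Subtype.val h
  have h2 : m = m' := congrArg Prod.fst h1
  subst h2
  have h3 : (c m)⁻¹ * n = (c m)⁻¹ * n' := congrArg Prod.snd h1
  have h4 : n = n' := mul_left_cancel h3
  subst h4
  rfl

/-- (Coprime action) `|A^H| = |Lin(A)^H|`. Proof: `N a = ∏_h h • a` maps `A` onto `A^H`
(`a ∈ A^H` gives `N a = a^|H|` and `|H|` is invertible modulo the exponent). `χ ↦ χ ∘ N` is a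
bijection `Hom(A^H, ℂˣ) → Hom(A, ℂˣ)^H` (injective as `N` is onto; if `χ` is `H`-invariant,
`χ ∘ N = χ^|H|`). And `|Hom(B, ℂˣ)| = |B|` for finite abelian `B`. -/
theorem card_fixed_dual {A H : Type*} [CommGroup A] [Finite A] [Group H] [Finite H]
    [MulDistribMulAction H A] (hc : Nat.Coprime (Nat.card H) (Nat.card A)) :
    Nat.card {a : A // ∀ h : H, h • a = a} =
      Nat.card {χ : A →* ℂˣ // ∀ (h : H) (a : A), χ (h • a) = χ a} := by
  classical
  haveI : Fintype H := Fintype.ofFinite H
  let B : Subgroup A :=
    { carrier := {a | ∀ h : H, h • a = a}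
      mul_mem' := fun {a b} ha hb h => by rw [smul_mul', ha h, hb h]
      one_mem' := fun h => smul_one h
      inv_mem' := fun {a} ha h => by rw [smul_inv', ha h] }
  have hB : Nat.card {a : A // ∀ h : H, h • a = a} = Nat.card B := rfl
  let Nm : A →* B :=
    { toFun := fun a => ⟨∏ h : H, h • a, fun k => by
        rw [Finset.smul_prod']
        refine Fintype.prod_equiv (Equiv.mulLeft k) _ _ fun h => ?_
        rw [smul_smul, Equiv.coe_mulLeft]⟩
      map_one' := Subtype.ext (by simp)
      map_mul' := fun a b => Subtype.ext (by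
        show ∏ h : H, h • (a * b) = (∏ h : H, h • a) * ∏ h : H, h • b
        rw [← Finset.prod_mul_distrib]
        exact Finset.prod_congr rfl fun h _ => smul_mul' h a b) }
  have hNB : ∀ b : B, Nm (b : A) = b ^ Nat.card H := by
    intro b
    apply Subtype.ext
    show ∏ h : H, h • (b : A) = ((b ^ Nat.card H : B) : A)
    rw [Finset.prod_congr rfl fun h _ => b.2 h, Finset.prod_const, Finset.card_univ,
      Nat.card_eq_fintype_card]
    rfl
  have hcB : (Nat.card B).Coprime (Nat.card H) :=
    (Nat.Coprime.coprime_dvd_right (Subgroup.card_subgroup_dvd_card B) hc).symm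
  have hsurj : Function.Surjective Nm := by
    intro b
    obtain ⟨c, hc'⟩ := (powCoprime hcB).surjective b
    refine ⟨(c : A), ?_⟩
    rw [hNB]
    exact hc'
  have hdual : Nat.card (B →* ℂˣ) = Nat.card B :=
    CommGroup.card_monoidHom_of_hasEnoughRootsOfUnity B ℂ
  have hdualA : Nat.card (A →* ℂˣ) = Nat.card A :=
    CommGroup.card_monoidHom_of_hasEnoughRootsOfUnity A ℂ
  have hcA : (Nat.card (A →* ℂˣ)).Coprime (Nat.card H) := by
    rw [hdualA]
    exact hc.symm
  rw [hB, ← hdual]
  refine Nat.card_congr (Equiv.ofBijective (fun χ : B →* ℂˣ =>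
    (⟨χ.comp Nm, fun k a => by
      show χ (Nm (k • a)) = χ (Nm a)
      congr 1
      apply Subtype.ext
      show ∏ h : H, h • (k • a) = ∏ h : H, h • a
      refine Fintype.prod_equiv (Equiv.mulRight k) _ _ fun h => ?_
      rw [smul_smul, Equiv.coe_mulRight]⟩ :
      {χ : A →* ℂˣ // ∀ (h : H) (a : A), χ (h • a) = χ a})) ⟨?_, ?_⟩)
  · intro χ χ' h
    have h1 : χ.comp Nm = χ'.comp Nm := congrArg Subtype.val h
    ext b
    obtain ⟨a, rfl⟩ := hsurj b
    exact congrArg Units.val (DFunLike.congr_fun h1 a)
  · rintro ⟨ψ, hψ⟩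
    obtain ⟨φ, hφ⟩ := (powCoprime hcA).surjective ψ
    have hφ' : φ ^ Nat.card H = ψ := hφ
    have hφinv : ∀ (h : H) (a : A), φ (h • a) = φ a := by
      intro h a
      let φ' : A →* ℂˣ := φ.comp (MulDistribMulAction.toMonoidHom A h)
      have h1 : (powCoprime hcA) φ' = (powCoprime hcA) φ := by
        show φ' ^ Nat.card H = φ ^ Nat.card H
        ext x
        have h2 : (φ ^ Nat.card H) (h • x) = (φ ^ Nat.card H) x := by rw [hφ']; exact hψ h x
        exact congrArg Units.val h2
      have h2 := (powCoprime hcA).injective h1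
      exact DFunLike.congr_fun h2 a
    refine ⟨φ.comp B.subtype, ?_⟩
    apply Subtype.ext
    show (φ.comp B.subtype).comp Nm = ψ
    rw [← hφ']
    ext a
    congr 1
    show φ (∏ h : H, h • a) = (φ a) ^ Nat.card H
    rw [map_prod, Finset.prod_congr rfl fun h _ => hφinv h a, Finset.prod_const, Finset.card_univ,
      Nat.card_eq_fintype_card]

private theorem fixed_card_eq {E T : Type*} [Group E] [Fintype (Subgroup E)] [Fintype T]
    [MulAction E T] [DecidableEq (Subgroup E)] [DecidableEq T]
    [DecidablePred fun K : Subgroup E × Subgroup E => K.1 ≤ K.2] (H : Subgroup E) :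
    Nat.card {x : T // ∀ e ∈ H, e • x = x} =
      ∑ K ∈ Finset.univ.filter (fun K => (H, K).1 ≤ (H, K).2),
        (Finset.univ.filter fun x : T => MulAction.stabilizer E x = K).card := by
  classical
  rw [Nat.card_eq_fintype_card, Fintype.card_subtype]
  rw [Finset.card_eq_sum_card_fiberwise (f := fun x : T => MulAction.stabilizer E x)
    (t := Finset.univ.filter (fun K => (H, K).1 ≤ (H, K).2))]
  · refine Finset.sum_congr rfl fun K hK => ?_
    rw [Finset.mem_filter] at hK
    congr 1
    ext x
    simp only [Finset.mem_filter, Finset.mem_univ, true_and]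
    constructor
    · exact fun h => h.2
    · intro h
      refine ⟨fun e he => ?_, h⟩
      have h1 : e ∈ MulAction.stabilizer E x := by
        rw [h]
        exact hK.2 he
      exact h1
  · intro x hx
    have hx' : ∀ e ∈ H, e • x = x := by simpa using hx
    simp only [Finset.coe_filter, Finset.mem_univ, true_and, Set.mem_ofPred_eq]
    intro e he
    exact hx' e he

/-- (Marks) If all subgroups of `E` have the same number of fixed points on `X` and `Y`, then
`∑_x f (Stab x) = ∑_y f (Stab y)` for every function `f` of subgroups. Proof: the number of points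
with stabiliser exactly `H` is the same for `X` and `Y` (downward induction on `H`, or Moebius
inversion). -/
theorem sum_stab_eq {E X Y : Type*} [Group E] [Finite E] [Fintype X] [Fintype Y] [MulAction E X]
    [MulAction E Y]
    (h : ∀ H : Subgroup E, Nat.card {x : X // ∀ e ∈ H, e • x = x} =
      Nat.card {y : Y // ∀ e ∈ H, e • y = y}) (f : Subgroup E → ℚ) :
    ∑ x : X, f (MulAction.stabilizer E x) = ∑ y : Y, f (MulAction.stabilizer E y) := by
  classical
  haveI : Fintype (Subgroup E) := Fintype.ofFinite _
  have key : ∀ H : Subgroup E,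
      (Finset.univ.filter fun x : X => MulAction.stabilizer E x = H).card =
        (Finset.univ.filter fun y : Y => MulAction.stabilizer E y = H).card := by
    intro H
    induction H using WellFoundedGT.induction with
    | ind H ih =>
      have h1 := h H
      rw [fixed_card_eq, fixed_card_eq] at h1
      have e : (Finset.univ.filter fun K : Subgroup E => (H, K).1 ≤ (H, K).2) =
          insert H (Finset.univ.filter fun K : Subgroup E => H < K) := by
        ext K
        simp only [Finset.mem_filter, Finset.mem_univ, true_and, Finset.mem_insert]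
        constructor
        · intro hK
          rcases eq_or_lt_of_le hK with h2 | h2
          · exact Or.inl h2.symm
          · exact Or.inr h2
        · rintro (rfl | h2)
          · exact le_rfl
          · exact h2.le
      rw [e, Finset.sum_insert (by simp), Finset.sum_insert (by simp),
        Finset.sum_congr rfl fun K hK => ih K (Finset.mem_filter.1 hK).2] at h1
      exact Nat.add_right_cancel h1
  rw [← Finset.sum_fiberwise' Finset.univ (fun x : X => MulAction.stabilizer E x) f,
    ← Finset.sum_fiberwise' Finset.univ (fun y : Y => MulAction.stabilizer E y) f]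
  refine Finset.sum_congr rfl fun K _ => ?_
  rw [Finset.sum_const, Finset.sum_const, key K]

/-- Orbit sums: if `f` is invariant under conjugation and `Z` is a set of representatives of the
orbits, `|E| ∑_{z ∈ Z} f (Stab z) = ∑_x |Stab x| f (Stab x)`. -/
theorem sum_transversal {E X : Type*} [Group E] [Finite E] [Fintype X] [MulAction E X]
    (f : Subgroup E → ℚ)
    (hf : ∀ (H : Subgroup E) (g : E), f (H.map (MulAut.conj g).toMonoidHom) = f H)
    (Z : Finset X) (hZ : ∀ x : X, ∃! z, z ∈ Z ∧ ∃ e : E, e • x = z) :
    (Nat.card E : ℚ) * ∑ z ∈ Z, f (MulAction.stabilizer E z) =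
      ∑ x : X, (Nat.card (MulAction.stabilizer E x) : ℚ) * f (MulAction.stabilizer E x) := by
  classical
  choose r hr1 hr2 using hZ
  have hr3 : ∀ x z, z ∈ Z → (∃ e : E, e • x = z) → r x = z := fun x z hz he =>
    (hr2 x z ⟨hz, he⟩).symm
  have hconj : ∀ (x : X) (e : E),
      (Nat.card (MulAction.stabilizer E (e • x)) : ℚ) * f (MulAction.stabilizer E (e • x)) =
      (Nat.card (MulAction.stabilizer E x) : ℚ) * f (MulAction.stabilizer E x) := by
    intro x e
    rw [MulAction.stabilizer_smul_eq_stabilizer_map_conj, hf,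
      Subgroup.card_map_of_injective (MulAut.conj e).injective]
  rw [← Finset.sum_fiberwise_of_maps_to (s := Finset.univ) (t := Z) (g := r)
    (fun x _ => (hr1 x).1), Finset.mul_sum]
  refine Finset.sum_congr rfl fun z hz => ?_
  have h1 : ∀ x ∈ Finset.univ.filter (fun x => r x = z),
      (Nat.card (MulAction.stabilizer E x) : ℚ) * f (MulAction.stabilizer E x) =
      (Nat.card (MulAction.stabilizer E z) : ℚ) * f (MulAction.stabilizer E z) := by
    intro x hx
    rw [Finset.mem_filter] at hx
    obtain ⟨e, he⟩ := (hr1 x).2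
    rw [hx.2] at he
    rw [← he, hconj]
  rw [Finset.sum_congr rfl h1, Finset.sum_const, nsmul_eq_mul]
  have h2 : ((Finset.univ.filter fun x => r x = z) : Set X) = MulAction.orbit E z := by
    ext x
    simp only [Finset.coe_filter, Finset.mem_univ, true_and, Set.mem_ofPred_eq]
    rw [MulAction.mem_orbit_iff]
    constructor
    · intro h
      obtain ⟨e, he⟩ := (hr1 x).2
      rw [h] at he
      exact ⟨e⁻¹, by rw [← he, inv_smul_smul]⟩
    · rintro ⟨e, rfl⟩
      exact hr3 _ _ hz ⟨e⁻¹, inv_smul_smul _ _⟩
  have h3 : (Finset.univ.filter fun x => r x = z).card = (MulAction.orbit E z).ncard := by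
    rw [← Set.ncard_coe_finset, h2]
  rw [h3, ← MulAction.index_stabilizer, ← mul_assoc, ← Nat.cast_mul, mul_comm
    (MulAction.stabilizer E z).index, Subgroup.card_mul_index]

end MNF
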