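import Pool.Agent.W_0649d4.Iface
import Pool.Agent.W_0649d4.AIndex
import Pool.Agent.W_0649d4.BCount

/-! TASK BBudget (blueprint, section BUD). -/

namespace MNF

open scoped BigOperators

private theorem card_map_mul {A B : Type*} [Group A] [Group B] (f : A →* B) (K : Subgroup A) :
    Nat.card (K.map f) * Nat.card (f.ker ⊓ K : Subgroup A) = Nat.card K := by
  rw [← Subgroup.relIndex_ker, ← Subgroup.inf_relIndex_right, ← Subgroup.relIndex_bot_left K,
    ← Subgroup.relIndex_bot_left (f.ker ⊓ K), mul_comm]
  exact Subgroup.relIndex_mul_relIndex _ _ _ bot_le inf_le_right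

private theorem card_sup_mul {A : Type*} [Group A] (N C : Subgroup A) [N.Normal] :
    Nat.card (N ⊔ C : Subgroup A) * Nat.card (N ⊓ C : Subgroup A) = Nat.card N * Nat.card C := by
  have h1 : Nat.card N * N.relIndex C = Nat.card (N ⊔ C : Subgroup A) := by
    rw [← Subgroup.relIndex_sup_left (H := C) (K := N), ← Subgroup.relIndex_bot_left N,
      ← Subgroup.relIndex_bot_left (N ⊔ C)]
    exact Subgroup.relIndex_mul_relIndex _ _ _ bot_le le_sup_left
  have h2 : Nat.card (N ⊓ C : Subgroup A) * N.relIndex C = Nat.card C := by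
    rw [← Subgroup.inf_relIndex_right, ← Subgroup.relIndex_bot_left (N ⊓ C),
      ← Subgroup.relIndex_bot_left C]
    exact Subgroup.relIndex_mul_relIndex _ _ _ bot_le inf_le_right
  rw [← h1, ← h2]
  ring

variable {G : Type*} [Group G] [Finite G] {S : Subgroup G} (F : FusionSystem S)
  {k : Type*} [Field k]

/-- `l(k_α U)` for a subgroup `U` of `Out_F(S)`. -/
private noncomputable def lE (α : ∀ P : Subgroup G, Cocycle (F.Out P) k)
    (U : Subgroup (F.Out S)) : ℕ := lNum (TwAlg ((α S).comap U.subtype))

private theorem lE_conj (α : ∀ P : Subgroup G, Cocycle (F.Out P) k) (U : Subgroup (F.Out S))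
    (g : F.Out S) : lE F α (U.map (MulAut.conj g).toMonoidHom) = lE F α U :=
  lNum_conj (α S) U g

private theorem mem_aStab {y : S} {a : F.aut S} : a ∈ aStab F y ↔ (a : MulAut S) y = y := Iff.rfl

private theorem aStab_conj (y : S) (a : F.aut S) :
    aStab F ((a : MulAut S) y) = (aStab F y).map (MulAut.conj a).toMonoidHom := by
  ext b
  constructor
  · intro hb
    refine ⟨a⁻¹ * b * a, ?_, ?_⟩
    · show ((a⁻¹ * b * a : F.aut S) : MulAut S) y = y
      have hb' : (b : MulAut S) ((a : MulAut S) y) = (a : MulAut S) y := hb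
      show (a : MulAut S)⁻¹ ((b : MulAut S) ((a : MulAut S) y)) = y
      rw [hb', MulAut.inv_apply_self]
    · show a * (a⁻¹ * b * a) * a⁻¹ = b
      group
  · rintro ⟨c, hc, rfl⟩
    have hc' : (c : MulAut S) y = y := hc
    show (a : MulAut S) ((c : MulAut S) ((a : MulAut S)⁻¹ ((a : MulAut S) y))) = (a : MulAut S) y
    rw [MulAut.inv_apply_self, hc']

private theorem elStab_conj (y : S) (a : F.aut S) :
    elStab F ((a : MulAut S) y) =
      (elStab F y).map (MulAut.conj (QuotientGroup.mk a : F.Out S)).toMonoidHom := by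
  unfold elStab
  rw [aStab_conj, Subgroup.map_map, Subgroup.map_map]
  congr 1

theorem AConj.lam_eq (α : ∀ P : Subgroup G, Cocycle (F.Out P) k) {y y' : S} (h : AConj F y y') :
    lam F α y = lam F α y' := by
  obtain ⟨a, rfl⟩ := h
  show lE F α (elStab F y) = lE F α (elStab F ((a : MulAut S) y))
  rw [elStab_conj, lE_conj]

theorem AConj.nIdx_eq {y y' : S} (h : AConj F y y') : nIdx S y = nIdx S y' := by
  obtain ⟨a, rfl⟩ := h
  unfold nIdx
  rw [← Subgroup.index_map_equiv (commutator S ⊔ Subgroup.centralizer {y}) (a : MulAut S)]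
  congr 1
  rw [Subgroup.map_sup]
  congr 1
  · have h1 : (commutator S).Characteristic := by
      unfold commutator
      infer_instance
    exact Subgroup.characteristic_iff_map_eq.1 h1 (a : MulAut S)
  · ext z
    rw [Subgroup.mem_map, Subgroup.mem_centralizer_iff]
    constructor
    · rintro ⟨x, hx, rfl⟩ w hw
      rw [Set.mem_singleton_iff] at hw
      subst hw
      have h2 := Subgroup.mem_centralizer_iff.1 hx y rfl
      show (a : MulAut S) y * (a : MulAut S) x = (a : MulAut S) x * (a : MulAut S) y
      rw [← map_mul, ← map_mul, h2]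
    · intro hz
      refine ⟨(a : MulAut S)⁻¹ z, ?_, MulAut.apply_inv_self _ _ _⟩
      rw [Subgroup.mem_centralizer_iff]
      intro w hw
      rw [Set.mem_singleton_iff] at hw
      subst hw
      apply (a : MulAut S).injective
      rw [map_mul, map_mul, MulAut.apply_inv_self]
      exact hz _ rfl

theorem AConj.symm {y y' : S} (h : AConj F y y') : AConj F y' y := by
  obtain ⟨a, rfl⟩ := h
  exact ⟨a⁻¹, MulAut.inv_apply_self _ _ _⟩

theorem AConj.trans {y y' y'' : S} (h : AConj F y y') (h' : AConj F y' y'') : AConj F y y'' := by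
  obtain ⟨a, rfl⟩ := h
  obtain ⟨b, rfl⟩ := h'
  exact ⟨b * a, rfl⟩

/-! ### Orders -/

/-- Conjugation as a map to `Aut_F(S)`. -/
private def kap : S →* F.aut S where
  toFun s := ⟨MulAut.conj s, Or.inr (F.conj_mem (s : G) (MulAut.conj s) s.2 le_rfl
    (fun _ => rfl))⟩
  map_one' := Subtype.ext (map_one _)
  map_mul' a b := Subtype.ext (map_mul _ a b)

private theorem kap_apply (s x : S) : ((kap F s : F.aut S) : MulAut S) x = s * x * s⁻¹ := rfl

private theorem ker_kap : (kap F).ker = Subgroup.center S := by
  ext s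
  rw [MonoidHom.mem_ker, Subgroup.mem_center_iff]
  constructor
  · intro h x
    have h1 := kap_apply F s x
    rw [h] at h1
    have h2 : x = s * x * s⁻¹ := h1
    rw [eq_mul_inv_iff_mul_eq] at h2
    exact h2
  · intro h
    apply Subtype.ext
    ext x
    rw [kap_apply, ← h x, mul_inv_cancel_right]
    rfl

private theorem range_kap (K : Subgroup S) : K.map (kap F) ≤ F.inn S := by
  rintro _ ⟨s, _, rfl⟩
  exact Subgroup.mem_subgroupOf.2 ⟨s, rfl⟩

private theorem exists_kap {a : F.aut S} (ha : a ∈ F.inn S) : ∃ s, kap F s = a := by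
  obtain ⟨s, hs⟩ := Subgroup.mem_subgroupOf.1 ha
  exact ⟨s, Subtype.ext hs⟩

private theorem card_inn :
    Nat.card (F.inn S) * Nat.card (Subgroup.center S) = Nat.card S := by
  have h1 := card_map_mul (kap F) ⊤
  have h2 : (⊤ : Subgroup S).map (kap F) = F.inn S := by
    apply le_antisymm (range_kap F ⊤)
    intro a ha
    obtain ⟨s, rfl⟩ := exists_kap F ha
    exact ⟨s, trivial, rfl⟩
  rw [h2, ker_kap, inf_top_eq, Subgroup.card_top] at h1
  exact h1

private theorem card_inner (y : S) :
    Nat.card (F.inn S ⊓ aStab F y : Subgroup (F.aut S)) * Nat.card (Subgroup.center S) =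
      Nat.card (Subgroup.centralizer ({y} : Set S)) := by
  have h1 := card_map_mul (kap F) (Subgroup.centralizer ({y} : Set S))
  have h2 : (Subgroup.centralizer ({y} : Set S)).map (kap F) = F.inn S ⊓ aStab F y := by
    apply le_antisymm
    · refine le_inf (range_kap F _) ?_
      rintro _ ⟨s, hs, rfl⟩
      show ((kap F s : F.aut S) : MulAut S) y = y
      rw [kap_apply, ← Subgroup.mem_centralizer_iff.1 hs y rfl, mul_inv_cancel_right]
    · rintro a ⟨ha, hay⟩
      obtain ⟨s, rfl⟩ := exists_kap F ha
      refine ⟨s, ?_, rfl⟩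
      have h3 : s * y * s⁻¹ = y := hay
      show s ∈ Subgroup.centralizer ({y} : Set S)
      rw [Subgroup.mem_centralizer_iff]
      intro w hw
      rw [Set.mem_singleton_iff] at hw
      subst hw
      rw [mul_inv_eq_iff_eq_mul] at h3
      exact h3.symm
  have h3 : (kap F).ker ⊓ Subgroup.centralizer ({y} : Set S) = Subgroup.center S := by
    rw [ker_kap]
    exact inf_eq_left.2 (Subgroup.center_le_centralizer _)
  rw [h2, h3] at h1
  exact h1

private theorem card_aStab (y : S) :
    Nat.card (elStab F y) * Nat.card (F.inn S ⊓ aStab F y : Subgroup (F.aut S)) =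
      Nat.card (aStab F y) := by
  have h1 := card_map_mul (QuotientGroup.mk' (F.inn S)) (aStab F y)
  rw [QuotientGroup.ker_mk'] at h1
  exact h1

private theorem order_identity (y : S) :
    Nat.card (aStab F y) * nIdx S y * (Nat.card (F.Out S) * Nat.card (commutator S)) =
      Nat.card (F.aut S) * (Nat.card (elStab F y) *
        Nat.card (commutator S ⊓ Subgroup.centralizer ({y} : Set S) : Subgroup S)) := by
  have h1 := card_aStab F y
  have h2 := card_inner F y
  have h3 := card_inn F
  have h4 : Nat.card (F.aut S) = Nat.card (F.Out S) * Nat.card (F.inn S) :=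
    Subgroup.card_eq_card_quotient_mul_card_subgroup _
  have h5 := card_sup_mul (commutator S) (Subgroup.centralizer ({y} : Set S))
  have h6 : Nat.card (commutator S ⊔ Subgroup.centralizer ({y} : Set S) : Subgroup S) * nIdx S y =
      Nat.card S := Subgroup.card_mul_index _
  have hz : 0 < Nat.card (Subgroup.center S) := Nat.card_pos
  have hu : 0 < Nat.card (commutator S ⊔ Subgroup.centralizer ({y} : Set S) : Subgroup S) :=
    Nat.card_pos
  apply Nat.eq_of_mul_eq_mul_right hz
  calc Nat.card (aStab F y) * nIdx S y * (Nat.card (F.Out S) * Nat.card (commutator S)) *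
        Nat.card (Subgroup.center S)
      = Nat.card (elStab F y) * nIdx S y * Nat.card (F.Out S) * (Nat.card (commutator S) *
        (Nat.card (F.inn S ⊓ aStab F y : Subgroup (F.aut S)) *
          Nat.card (Subgroup.center S))) := by rw [← h1]; ring
    _ = Nat.card (elStab F y) * nIdx S y * Nat.card (F.Out S) *
        (Nat.card (commutator S ⊔ Subgroup.centralizer ({y} : Set S) : Subgroup S) *
        Nat.card (commutator S ⊓ Subgroup.centralizer ({y} : Set S) : Subgroup S)) := by
          rw [h2, h5]
    _ = Nat.card (elStab F y) * Nat.card (F.Out S) *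
        Nat.card (commutator S ⊓ Subgroup.centralizer ({y} : Set S) : Subgroup S) *
        (Nat.card (commutator S ⊔ Subgroup.centralizer ({y} : Set S) : Subgroup S) *
          nIdx S y) := by ring
    _ = _ := by rw [h6, ← h3, h4]; ring

/-! ### Actions of `Out_F(S)` -/

private noncomputable def rho0 : F.aut S →* MulAut (Abelianization S) where
  toFun a := (a : MulAut S).abelianizationCongr
  map_one' := by
    ext x
    obtain ⟨x, rfl⟩ := QuotientGroup.mk_surjective x
    rfl
  map_mul' a b := by
    ext x
    obtain ⟨x, rfl⟩ := QuotientGroup.mk_surjective x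
    rfl

private noncomputable def rho : F.Out S →* MulAut (Abelianization S) :=
  QuotientGroup.lift (F.inn S) (rho0 F) (by
    intro a ha
    obtain ⟨s, rfl⟩ := exists_kap F ha
    rw [MonoidHom.mem_ker]
    ext x
    obtain ⟨x, rfl⟩ := QuotientGroup.mk_surjective x
    show Abelianization.of (s * x * s⁻¹) = Abelianization.of x
    rw [map_mul, map_mul, mul_comm (Abelianization.of s), mul_assoc, ← map_mul, mul_inv_cancel,
      map_one, mul_one])

private noncomputable def sig0 : F.aut S →* Equiv.Perm (S →* ℂˣ) where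
  toFun a := ⟨fun μ => μ.comp ((a : MulAut S)⁻¹ : MulAut S).toMonoidHom,
    fun μ => μ.comp (a : MulAut S).toMonoidHom,
    fun μ => by
      ext y
      show ((μ ((a : MulAut S)⁻¹ ((a : MulAut S) y)) : ℂˣ) : ℂ) = μ y
      rw [MulAut.inv_apply_self],
    fun μ => by
      ext y
      show ((μ ((a : MulAut S) ((a : MulAut S)⁻¹ y)) : ℂˣ) : ℂ) = μ y
      rw [MulAut.apply_inv_self]⟩
  map_one' := rfl
  map_mul' a b := by
    ext μ y
    rfl

private noncomputable def sig : F.Out S →* Equiv.Perm (S →* ℂˣ) :=
  QuotientGroup.lift (F.inn S) (sig0 F) (by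
    intro a ha
    obtain ⟨s, rfl⟩ := exists_kap F ha
    rw [MonoidHom.mem_ker]
    ext μ y
    show ((μ (((kap F s : F.aut S) : MulAut S)⁻¹ y) : ℂˣ) : ℂ) = μ y
    have h1 : y = s * (((kap F s : F.aut S) : MulAut S)⁻¹ y) * s⁻¹ := by
      rw [← kap_apply, MulAut.apply_inv_self]
    conv_rhs => rw [h1]
    rw [map_mul, map_mul, mul_comm (μ s), mul_assoc, ← map_mul, mul_inv_cancel, map_one, mul_one])

private noncomputable abbrev abAct : MulDistribMulAction (F.Out S) (Abelianization S) :=
  MulDistribMulAction.compHom _ (rho F)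

private noncomputable abbrev chAct : MulAction (F.Out S) (S →* ℂˣ) :=
  MulAction.compHom _ (sig F)

section act

attribute [local instance] abAct chAct

private theorem ab_smul (a : F.aut S) (y : S) :
    ((QuotientGroup.mk a : F.Out S) • (Abelianization.of y : Abelianization S)) =
      Abelianization.of ((a : MulAut S) y) := rfl

private theorem ch_smul (a : F.aut S) (μ : S →* ℂˣ) (y : S) :
    ((QuotientGroup.mk a : F.Out S) • μ) y = μ ((a : MulAut S)⁻¹ y) := rfl

private theorem finite_ch : Finite (S →* ℂˣ) := by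
  have h1 : Finite (Abelianization S →* ℂˣ) :=
    Finite.of_equiv (Abelianization S)
      (CommGroup.monoidHom_mulEquiv_of_hasEnoughRootsOfUnity (Abelianization S) ℂ).some.toEquiv.symm
  exact Finite.of_equiv _ (Abelianization.lift (G := S) (A := ℂˣ)).symm

private theorem card_fix (hcop : Nat.Coprime (Nat.card (F.Out S)) (Nat.card S))
    (H : Subgroup (F.Out S)) :
    Nat.card {x : Abelianization S // ∀ e ∈ H, e • x = x} =
      Nat.card {μ : S →* ℂˣ // ∀ e ∈ H, e • μ = μ} := by
  have hc : Nat.Coprime (Nat.card H) (Nat.card (Abelianization S)) :=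
    (hcop.coprime_dvd_left (Subgroup.card_subgroup_dvd_card H)).coprime_dvd_right
      (Subgroup.card_quotient_dvd_card (commutator S))
  have h1 := card_fixed_dual (A := Abelianization S) (H := H) hc
  refine (Nat.card_congr (Equiv.subtypeEquivRight fun x => ?_)).trans
    (h1.trans (Nat.card_congr ((Abelianization.lift (G := S) (A := ℂˣ)).symm.subtypeEquiv
      fun χ => ?_)))
  · exact ⟨fun h e => h e e.2, fun h e he => h ⟨e, he⟩⟩
  · constructor
    · intro h e he
      obtain ⟨a, rfl⟩ := QuotientGroup.mk_surjective e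
      ext y
      rw [ch_smul]
      have h2 := h ⟨_, he⟩ (Abelianization.of ((a : MulAut S)⁻¹ y))
      have h3 : ((⟨QuotientGroup.mk a, he⟩ : H) • (Abelianization.of ((a : MulAut S)⁻¹ y) :
          Abelianization S)) = Abelianization.of y := by
        show ((QuotientGroup.mk a : F.Out S) • (Abelianization.of ((a : MulAut S)⁻¹ y) :
          Abelianization S)) = Abelianization.of y
        rw [ab_smul, MulAut.apply_inv_self]
      rw [h3] at h2
      exact congrArg Units.val h2.symm
    · rintro h ⟨e, he⟩ x
      obtain ⟨a, rfl⟩ := QuotientGroup.mk_surjective e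
      obtain ⟨y, rfl⟩ := QuotientGroup.mk_surjective x
      have h2 := h _ he
      have h3 := DFunLike.congr_fun h2 ((a : MulAut S) y)
      rw [ch_smul, MulAut.inv_apply_self] at h3
      exact h3.symm

private theorem linStab_eq (μ : S →* ℂˣ) :
    MulAction.stabilizer (F.Out S) μ = linStab F μ := by
  ext e
  obtain ⟨a, rfl⟩ := QuotientGroup.mk_surjective e
  have key : ∀ b : F.aut S, ((QuotientGroup.mk b : F.Out S) • μ = μ ↔
      ∀ y : S, μ ((b : MulAut S) y) = μ y) := by
    intro b
    constructor
    · intro h y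
      have h3 := DFunLike.congr_fun h ((b : MulAut S) y)
      rw [ch_smul, MulAut.inv_apply_self] at h3
      exact h3.symm
    · intro h
      ext y
      rw [ch_smul]
      have h3 := h ((b : MulAut S)⁻¹ y)
      rw [MulAut.apply_inv_self] at h3
      exact congrArg Units.val h3.symm
  rw [MulAction.mem_stabilizer_iff]
  constructor
  · intro h
    exact ⟨a, (key a).1 h, rfl⟩
  · rintro ⟨b, hb, hba⟩
    have hb' : ∀ y : S, μ ((b : MulAut S) y) = μ y := hb
    have hba' : (QuotientGroup.mk b : F.Out S) = QuotientGroup.mk a := hba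
    rw [← hba']
    exact (key b).2 hb'

private theorem ch_transversal {Z : Finset (S →* ℂˣ)} (hZ : IsLinTransversal F Z) :
    ∀ μ : S →* ℂˣ, ∃! ν, ν ∈ Z ∧ ∃ e : F.Out S, e • μ = ν := by
  intro μ
  have key : ∀ ν : S →* ℂˣ, (∃ e : F.Out S, e • μ = ν) ↔
      ∃ a : F.aut S, ∀ y : S, ν y = μ ((a : MulAut S) y) := by
    intro ν
    constructor
    · rintro ⟨e, rfl⟩
      obtain ⟨a, rfl⟩ := QuotientGroup.mk_surjective e
      exact ⟨a⁻¹, fun y => rfl⟩
    · rintro ⟨a, ha⟩
      refine ⟨QuotientGroup.mk a⁻¹, ?_⟩
      ext y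
      rw [ch_smul, ha]
      show ((μ (((a : MulAut S)⁻¹)⁻¹ y) : ℂˣ) : ℂ) = μ ((a : MulAut S) y)
      rw [inv_inv]
  obtain ⟨ν, ⟨h1, h2⟩, h3⟩ := hZ μ
  refine ⟨ν, ⟨h1, (key ν).2 h2⟩, ?_⟩
  rintro ν' ⟨h4, h5⟩
  exact h3 ν' ⟨h4, (key ν').1 h5⟩

private theorem elStab_le (y : S) : elStab F y ≤
    MulAction.stabilizer (F.Out S) (Abelianization.of y : Abelianization S) := by
  rintro _ ⟨a, ha, rfl⟩
  rw [MulAction.mem_stabilizer_iff]
  have ha' : (a : MulAut S) y = y := ha
  show (QuotientGroup.mk a : F.Out S) • (Abelianization.of y : Abelianization S) = _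
  rw [ab_smul, ha']

/-- `|E_a| l(E_a)`. -/
private noncomputable def LL (α : ∀ P : Subgroup G, Cocycle (F.Out P) k) (U : Subgroup (F.Out S)) :
    ℕ := Nat.card U * lE F α U

private theorem sum_LL [Fintype (Abelianization S)] (p : ℕ) [Fact p.Prime] [CharP k p]
    (hS : IsPGroup p S) (hout : ¬ p ∣ Nat.card (F.Out S))
    (α : ∀ P : Subgroup G, Cocycle (F.Out P) k) (Z : Finset (S →* ℂˣ))
    (hZ : IsLinTransversal F Z) :
    ∑ a : Abelianization S, LL F α (MulAction.stabilizer (F.Out S) a) =
      Nat.card (F.Out S) * mTop F α Z := by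
  classical
  haveI := finite_ch (S := S)
  haveI : Fintype (S →* ℂˣ) := Fintype.ofFinite _
  have hcop : Nat.Coprime (Nat.card (F.Out S)) (Nat.card S) := by
    obtain ⟨n, hn⟩ := IsPGroup.iff_card.1 hS
    rw [hn]
    exact (((Nat.Prime.coprime_iff_not_dvd Fact.out).2 hout).symm).pow_right n
  have h1 := sum_stab_eq (E := F.Out S) (X := Abelianization S) (Y := S →* ℂˣ)
    (card_fix F hcop) (fun U => (LL F α U : ℚ))
  have h2 := sum_transversal (E := F.Out S) (X := S →* ℂˣ) (fun U => (lE F α U : ℚ))
    (fun U g => by rw [lE_conj]) Z (ch_transversal F hZ)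
  have h3 : (∑ a : Abelianization S, LL F α (MulAction.stabilizer (F.Out S) a) : ℕ) =
      ((Nat.card (F.Out S) * mTop F α Z : ℕ) : ℚ) := by
    push_cast
    rw [h1]
    have h4 : ∑ μ : S →* ℂˣ, (LL F α (MulAction.stabilizer (F.Out S) μ) : ℚ) =
        ∑ μ : S →* ℂˣ, (Nat.card (MulAction.stabilizer (F.Out S) μ) : ℚ) *
          (lE F α (MulAction.stabilizer (F.Out S) μ) : ℚ) := by
      refine Finset.sum_congr rfl fun μ _ => ?_
      unfold LL
      push_cast
      rfl
    rw [h4, ← h2]
    congr 1
    unfold mTop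
    push_cast
    refine Finset.sum_congr rfl fun μ _ => ?_
    rw [linStab_eq]
    have h5 : (Nat.card (linStab F μ) : k) ≠ 0 := by
      rw [Ne, CharP.cast_eq_zero_iff k p]
      exact fun h => hout (h.trans (Subgroup.card_subgroup_dvd_card _))
    rw [zNum_eq_lNum _ h5]
    rfl
  exact_mod_cast h3

private theorem sum_fibre [Fintype S] [DecidableEq (Abelianization S)] (g : S) :
    ∑ z ∈ Finset.univ.filter (fun z : S => (Abelianization.of z : Abelianization S) =
      Abelianization.of g),
      Nat.card (commutator S ⊓ Subgroup.centralizer ({z} : Set S) : Subgroup S) ≤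
      Nat.card (commutator S) * Nat.card (ConjClasses (commutator S)) := by
  classical
  haveI : Fintype (commutator S) := Fintype.ofFinite _
  refine le_trans (le_of_eq ?_) (sum_card_coset (commutator S) g)
  symm
  refine Finset.sum_bij (fun n _ => g * (n : S)) ?_ ?_ ?_ ?_
  · intro n _
    rw [Finset.mem_filter]
    refine ⟨Finset.mem_univ _, ?_⟩
    have h1 : (QuotientGroup.mk (g * (n : S)) : S ⧸ commutator S) = QuotientGroup.mk g := by
      rw [QuotientGroup.eq]
      have : (g * (n : S))⁻¹ * g = (n : S)⁻¹ := by group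
      rw [this]
      exact inv_mem n.2
    exact h1
  · intro n _ n' _ h
    exact Subtype.ext (mul_left_cancel h)
  · intro z hz
    rw [Finset.mem_filter] at hz
    have h1 : (QuotientGroup.mk g : S ⧸ commutator S) = QuotientGroup.mk z := hz.2.symm
    rw [QuotientGroup.eq] at h1
    exact ⟨⟨g⁻¹ * z, h1⟩, Finset.mem_univ _, mul_inv_cancel_left g z⟩
  · intro n _
    refine Nat.card_congr ⟨fun m => ⟨(m.1 : S), m.1.2, ?_⟩, fun m => ⟨⟨m.1, m.2.1⟩, ?_⟩,
      fun m => rfl, fun m => rfl⟩
    · show (m.1 : S) ∈ Subgroup.centralizer ({g * (n : S)} : Set S)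
      rw [Subgroup.mem_centralizer_iff]
      intro w hw
      rw [Set.mem_singleton_iff] at hw
      rw [hw]
      exact m.2.symm
    · exact (Subgroup.mem_centralizer_iff.1 m.2.2 _ rfl).symm

private theorem orbit_card [Fintype S] [DecidablePred fun z : S × S => AConj F z.1 z.2] (y : S) :
    (Finset.univ.filter fun z => AConj F (y, z).1 (y, z).2).card * Nat.card (aStab F y) =
      Nat.card (F.aut S) := by
  have h1 := MulAction.index_stabilizer (F.aut S) y
  have h2 : MulAction.stabilizer (F.aut S) y = aStab F y := rfl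
  have h3 : ((Finset.univ.filter fun z => AConj F (y, z).1 (y, z).2 : Finset S) : Set S) =
      MulAction.orbit (F.aut S) y := by
    ext z
    simp only [Finset.coe_filter, Finset.mem_univ, true_and, Set.mem_ofPred_eq]
    rfl
  rw [← Set.ncard_coe_finset, h3, ← h1, h2, mul_comm]
  exact Subgroup.card_mul_index _

/-- `∑_{y ∈ Y} n(y) λ(y) ≤ c([S,S]) m(F, α, d)` for pairwise non `Aut_F(S)`-conjugate `y ∈ Y`. -/
theorem budget (p : ℕ) [Fact p.Prime] [CharP k p] (hS : IsPGroup p S)
    (hout : ¬ p ∣ Nat.card (F.Out S)) (α : ∀ P : Subgroup G, Cocycle (F.Out P) k) (Y : Finset S)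
    (hY : ∀ y ∈ Y, ∀ y' ∈ Y, AConj F y y' → y = y') (Z : Finset (S →* ℂˣ))
    (hZ : IsLinTransversal F Z) :
    ∑ y ∈ Y, nIdx S y * lam F α y ≤ Nat.card (ConjClasses (commutator S)) * mTop F α Z := by
  classical
  haveI : Fintype S := Fintype.ofFinite _
  haveI : Fintype (Abelianization S) := Fintype.ofFinite _
  -- Step A
  have hA : Nat.card (F.aut S) * ∑ y ∈ Y, nIdx S y * lam F α y ≤
      ∑ z : S, Nat.card (aStab F z) * nIdx S z * lam F α z := by
    have h1 : ∀ y ∈ Y, Nat.card (F.aut S) * (nIdx S y * lam F α y) =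
        ∑ z ∈ Finset.univ.filter (fun z => AConj F (y, z).1 (y, z).2),
          Nat.card (aStab F z) * nIdx S z * lam F α z := by
      intro y _
      have h2 : ∀ z ∈ Finset.univ.filter (fun z => AConj F (y, z).1 (y, z).2),
          Nat.card (aStab F z) * nIdx S z * lam F α z =
            Nat.card (aStab F y) * nIdx S y * lam F α y := by
        intro z hz
        have hz' : AConj F y z := (Finset.mem_filter.1 hz).2
        rw [AConj.lam_eq F α hz', AConj.nIdx_eq F hz']
        obtain ⟨a, rfl⟩ := hz'
        rw [aStab_conj, Subgroup.card_map_of_injective (MulAut.conj a).injective]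
      rw [Finset.sum_congr rfl h2, Finset.sum_const, smul_eq_mul, ← orbit_card F y]
      ring
    rw [Finset.mul_sum, Finset.sum_congr rfl h1, ← Finset.sum_biUnion]
    · exact Finset.sum_le_sum_of_subset (Finset.subset_univ _)
    · intro y hy y' hy' hne
      rw [Function.onFun, Finset.disjoint_left]
      intro z hz hz'
      have h3 : AConj F y z := (Finset.mem_filter.1 hz).2
      have h4 : AConj F y' z := (Finset.mem_filter.1 hz').2
      exact hne (hY y hy y' hy' (AConj.trans F h3 (AConj.symm F h4)))
  -- Step C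
  have hC : ∀ z : S, Nat.card (elStab F z) * lam F α z ≤
      LL F α (MulAction.stabilizer (F.Out S) (Abelianization.of z : Abelianization S)) := by
    intro z
    have h1 := lNum_le_index (α S) (elStab F z)
      (MulAction.stabilizer (F.Out S) (Abelianization.of z : Abelianization S))
      (elStab_le F z) (by
        rw [Ne, CharP.cast_eq_zero_iff k p]
        exact fun h => hout (h.trans (Subgroup.card_subgroup_dvd_card _)))
    have h2 : Nat.card (elStab F z) * (elStab F z).relIndex
        (MulAction.stabilizer (F.Out S) (Abelianization.of z : Abelianization S)) =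
        Nat.card (MulAction.stabilizer (F.Out S) (Abelianization.of z : Abelianization S)) := by
      rw [← Subgroup.relIndex_bot_left (elStab F z), ← Subgroup.relIndex_bot_left
        (MulAction.stabilizer (F.Out S) (Abelianization.of z : Abelianization S))]
      exact Subgroup.relIndex_mul_relIndex _ _ _ bot_le (elStab_le F z)
    unfold LL
    rw [← h2, mul_assoc]
    exact Nat.mul_le_mul_left _ h1
  -- Step D
  have hD : ∑ z : S, Nat.card (commutator S ⊓ Subgroup.centralizer ({z} : Set S) : Subgroup S) *
      LL F α (MulAction.stabilizer (F.Out S) (Abelianization.of z : Abelianization S)) ≤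
      (Nat.card (commutator S) * Nat.card (ConjClasses (commutator S))) *
        ∑ a : Abelianization S, LL F α (MulAction.stabilizer (F.Out S) a) := by
    rw [← Finset.sum_fiberwise Finset.univ (fun z : S => (Abelianization.of z : Abelianization S)),
      Finset.mul_sum]
    refine Finset.sum_le_sum fun a _ => ?_
    obtain ⟨g, rfl⟩ : ∃ g : S, (Abelianization.of g : Abelianization S) = a :=
      QuotientGroup.mk_surjective a
    have h1 : ∀ z ∈ Finset.univ.filter (fun z : S => (Abelianization.of z : Abelianization S) =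
        (Abelianization.of g : Abelianization S)),
        Nat.card (commutator S ⊓ Subgroup.centralizer ({z} : Set S) : Subgroup S) *
        LL F α (MulAction.stabilizer (F.Out S) (Abelianization.of z : Abelianization S)) =
        Nat.card (commutator S ⊓ Subgroup.centralizer ({z} : Set S) : Subgroup S) *
        LL F α (MulAction.stabilizer (F.Out S) (Abelianization.of g : Abelianization S)) := by
      intro z hz
      rw [(Finset.mem_filter.1 hz).2]
    rw [Finset.sum_congr rfl h1, ← Finset.sum_mul]
    exact Nat.mul_le_mul_right _ (sum_fibre g)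
  have hE := sum_LL F p hS hout α Z hZ
  have hpos : 0 < Nat.card (F.aut S) * (Nat.card (F.Out S) * Nat.card (commutator S)) :=
    Nat.mul_pos Nat.card_pos (Nat.mul_pos Nat.card_pos Nat.card_pos)
  refine Nat.le_of_mul_le_mul_left ?_ hpos
  calc Nat.card (F.aut S) * (Nat.card (F.Out S) * Nat.card (commutator S)) *
        ∑ y ∈ Y, nIdx S y * lam F α y
      = (Nat.card (F.Out S) * Nat.card (commutator S)) *
        (Nat.card (F.aut S) * ∑ y ∈ Y, nIdx S y * lam F α y) := by ring
    _ ≤ (Nat.card (F.Out S) * Nat.card (commutator S)) *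
        ∑ z : S, Nat.card (aStab F z) * nIdx S z * lam F α z := Nat.mul_le_mul_left _ hA
    _ = ∑ z : S, Nat.card (F.aut S) *
        (Nat.card (commutator S ⊓ Subgroup.centralizer ({z} : Set S) : Subgroup S) *
          (Nat.card (elStab F z) * lam F α z)) := by
        rw [Finset.mul_sum]
        refine Finset.sum_congr rfl fun z _ => ?_
        have h1 := order_identity F z
        calc Nat.card (F.Out S) * Nat.card (commutator S) *
              (Nat.card (aStab F z) * nIdx S z * lam F α z)
            = Nat.card (aStab F z) * nIdx S z *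
              (Nat.card (F.Out S) * Nat.card (commutator S)) * lam F α z := by ring
          _ = _ := by rw [h1]; ring
    _ ≤ ∑ z : S, Nat.card (F.aut S) *
        (Nat.card (commutator S ⊓ Subgroup.centralizer ({z} : Set S) : Subgroup S) *
          LL F α (MulAction.stabilizer (F.Out S) (Abelianization.of z : Abelianization S))) :=
        Finset.sum_le_sum fun z _ => Nat.mul_le_mul_left _ (Nat.mul_le_mul_left _ (hC z))
    _ ≤ Nat.card (F.aut S) * ((Nat.card (commutator S) *
        Nat.card (ConjClasses (commutator S))) *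
        ∑ a : Abelianization S, LL F α (MulAction.stabilizer (F.Out S) a)) := by
        rw [← Finset.mul_sum]
        exact Nat.mul_le_mul_left _ hD
    _ = Nat.card (F.aut S) * (Nat.card (F.Out S) * Nat.card (commutator S)) *
        (Nat.card (ConjClasses (commutator S)) * mTop F α Z) := by
        rw [hE]
        ring

end act

end MNF
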