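import Pool.Agent.W_0649d4.CBasic

/-! TASK CAlperin. The Alperin-Goldschmidt fusion theorem (blueprint, section ALP). -/

namespace MNF

section aux

variable {G : Type*} [Group G]

open scoped Pointwise in
/-- Conjugates of `p`-subgroups are contained in a given Sylow subgroup. -/
theorem CAlperin_sylow {M : Type*} [Group M] [Finite M] (p : ℕ) [Fact p.Prime] (T : Subgroup M)
    (hT : IsPGroup p T) (hi : ¬ p ∣ T.index) (B : Subgroup M) (hB : IsPGroup p B) :
    ∃ a : M, ∀ b ∈ B, a * b * a⁻¹ ∈ T := by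
  obtain ⟨Q, hQ⟩ := hB.exists_le_sylow
  obtain ⟨g, hg⟩ := MulAction.exists_smul_eq M Q (hT.toSylow hi)
  refine ⟨g, fun b hb => ?_⟩
  have h1 : g * b * g⁻¹ ∈ (g • Q : Sylow p M) := by
    have h2 : (MulAut.conj g) • b ∈ (MulAut.conj g) • (Q : Subgroup M) :=
      Subgroup.smul_mem_pointwise_smul b (MulAut.conj g) (Q : Subgroup M) (hQ hb)
    exact h2
  rw [hg] at h1
  exact h1

/-- Restriction of an isomorphism of subgroups. -/
theorem CAlperin_res {P Q P' : Subgroup G} (φ : P ≃* Q) (h : P' ≤ P) :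
    ∃ (Q' : Subgroup G) (ψ : P' ≃* Q'), Q' ≤ Q ∧ ∀ x : P', (ψ x : G) = φ ⟨x, h x.2⟩ := by
  let f : P' →* G := (Q.subtype.comp φ.toMonoidHom).comp (Subgroup.inclusion h)
  have hf : Function.Injective f := by
    intro x y hxy
    have h1 : φ (Subgroup.inclusion h x) = φ (Subgroup.inclusion h y) := Subtype.ext hxy
    have h2 := φ.injective h1
    exact Subgroup.inclusion_injective h h2
  refine ⟨f.range, MonoidHom.ofInjective hf, ?_, fun x => rfl⟩
  rintro y ⟨x, rfl⟩
  exact (φ (Subgroup.inclusion h x)).2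

/-- Conjugation by an element which normalizes `P`. -/
def cjP (P : Subgroup G) (u : G) (hu : ∀ x, x ∈ P ↔ u * x * u⁻¹ ∈ P) : MulAut P where
  toFun x := ⟨u * x * u⁻¹, (hu x).mp x.2⟩
  invFun x := ⟨u⁻¹ * x * u, (hu _).mpr (by
    have e : u * (u⁻¹ * (x : G) * u) * u⁻¹ = x := by group
    rw [e]; exact x.2)⟩
  left_inv x := Subtype.ext (by simp [mul_assoc])
  right_inv x := Subtype.ext (by simp [mul_assoc])
  map_mul' x y := Subtype.ext (by simp [mul_assoc])

theorem cjP_coe (P : Subgroup G) (u : G) (hu : ∀ x, x ∈ P ↔ u * x * u⁻¹ ∈ P) (x : P) :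
    (cjP P u hu x : G) = u * x * u⁻¹ := rfl

/-- `Aut_S(P)` is a `p`-group. -/
theorem CAlperin_autS_pGroup {S : Subgroup G} {p : ℕ} (hS : IsPGroup p S) (P : Subgroup G) :
    IsPGroup p (autS S P) := by
  rintro ⟨φ, s, hs, h⟩
  obtain ⟨k, hk⟩ := hS ⟨s, hs⟩
  refine ⟨k, ?_⟩
  have hk' : s ^ (p ^ k) = 1 := congrArg Subtype.val hk
  apply Subtype.ext
  have hpow : ∀ (n : ℕ) (x : P), ((φ ^ n) x : G) = s ^ n * x * (s ^ n)⁻¹ := by
    intro n
    induction n with
    | zero => intro x; simp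
    | succ n ih =>
      intro x
      rw [pow_succ', MulAut.mul_apply, h, ih, pow_succ']
      group
  change φ ^ (p ^ k) = 1
  ext x
  rw [hpow, hk']
  simp

end aux

variable {G : Type*} [Group G] {S : Subgroup G} (F : FusionSystem S)

theorem Gen.res {p : ℕ} {F : FusionSystem S} {R R' : Subgroup G} {ψ : R ≃* R'} (h : Gen F p ψ) :
    ∀ {P P' : Subgroup G} (χ : P ≃* P') (hPR : P ≤ R), (∀ x : P, (χ x : G) = ψ ⟨x, hPR x.2⟩) →
      Gen F p χ := by
  induction h with
  | base φ R hP ψ hψ hR h =>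
    intro P P' χ hPR hχ
    refine Gen.base χ R (hPR.trans hP) ψ hψ hR (fun x => ?_)
    rw [hχ x, h]
  | trans h1 h2 ih1 ih2 =>
    rename_i P Q R φ ψ
    intro P1 R1 χ hP1 hχ
    obtain ⟨Q1, φ1, hQ1, hφ1⟩ := CAlperin_res φ hP1
    have k1 : Gen F p φ1 := ih1 φ1 hP1 hφ1
    have k2 : Gen F p (φ1.symm.trans χ) := by
      refine ih2 _ hQ1 (fun y => ?_)
      have e1 : ((φ1.symm.trans χ) y : G) = χ (φ1.symm y) := rfl
      rw [e1, hχ]
      have e2 : (φ ⟨(φ1.symm y : P1), hP1 (φ1.symm y).2⟩ : G) = y := by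
        rw [← hφ1, MulEquiv.apply_symm_apply]
      have e3 : φ ⟨(φ1.symm y : P1), hP1 (φ1.symm y).2⟩ = ⟨(y : G), hQ1 y.2⟩ := Subtype.ext e2
      rw [MulEquiv.trans_apply, e3]
    have k3 : χ = φ1.trans (φ1.symm.trans χ) := by
      ext x
      simp
    rw [k3]
    exact Gen.trans k1 k2

theorem Gen.symm' {p : ℕ} {F : FusionSystem S} {P Q : Subgroup G} {φ : P ≃* Q} (h : Gen F p φ) :
    Gen F p φ.symm := by
  induction h with
  | base φ R hP ψ hψ hR h =>
    rename_i P Q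
    have hQ : Q ≤ R := by
      intro y hy
      have h1 := h (φ.symm ⟨y, hy⟩)
      rw [MulEquiv.apply_symm_apply] at h1
      have h2 : y = (ψ ⟨(φ.symm ⟨y, hy⟩ : P), hP (φ.symm ⟨y, hy⟩).2⟩ : G) := h1
      rw [h2]
      exact (ψ _).2
    refine Gen.base φ.symm R hQ ψ.symm (F.symm_mem hψ) hR (fun y => ?_)
    have h1 := h (φ.symm y)
    rw [MulEquiv.apply_symm_apply] at h1
    have h2 : (⟨(y : G), hQ y.2⟩ : R) = ψ ⟨(φ.symm y : P), hP (φ.symm y).2⟩ := Subtype.ext h1
    rw [h2, MulEquiv.symm_apply_apply]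
  | trans h1 h2 ih1 ih2 => exact Gen.trans ih2 ih1

/-- Conjugations by elements of `S` are in `Gen`. -/
theorem Gen.conj' {p : ℕ} {F : FusionSystem S} {P Q : Subgroup G} {φ : P ≃* Q} (hP : P ≤ S)
    {s : G} (hs : s ∈ S) (h : ∀ x : P, (φ x : G) = s * x * s⁻¹) : Gen F p φ := by
  refine Gen.base φ S hP (MulAut.conj ⟨s, hs⟩) ?_ (Or.inl rfl) (fun x => ?_)
  · exact F.conj_mem s _ hs le_rfl (fun x => by simp [MulAut.conj_apply])
  · rw [h x]
    simp [MulAut.conj_apply]

theorem CAlperin_mem_aut {P : Subgroup G} (h : P ≤ S) {φ : P ≃* P} (hφ : φ ∈ F.iso P P) :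
    (φ : MulAut P) ∈ F.aut P := (F.mem_aut h φ).mpr hφ

variable [Finite G]

theorem CAlperin_card_lt {P R : Subgroup G} (h : P ≤ R) {u : G} (hu : u ∈ R) (huP : u ∉ P) :
    Nat.card P < Nat.card R := by
  by_contra hcon
  push Not at hcon
  have := Subgroup.eq_of_le_of_card_ge h hcon
  rw [this] at huP
  exact huP hu

/-- An isomorphism onto a fully centralized subgroup which extends to some element `u` of
`N_S(P) \ P` is in `Gen` (by induction). -/
theorem CAlperin_ext {p : ℕ} (hF : F.Saturated p) {P P' : Subgroup G} (χ : P ≃* P')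
    (hχ : χ ∈ F.iso P P') (hfc : F.FullyCentralized P')
    (ih : ∀ (R R' : Subgroup G) (ψ : R ≃* R'), ψ ∈ F.iso R R' → Nat.card P < Nat.card R →
      Gen F p ψ) {u v : G} (hu : u ∈ nS S P) (huP : u ∉ P) (hv : v ∈ S)
    (h : ∀ (x : P) (hx : u * x * u⁻¹ ∈ P), (χ ⟨u * x * u⁻¹, hx⟩ : G) = v * χ x * v⁻¹) :
    Gen F p χ := by
  have hPS : P ≤ S := F.le_left hχ
  have hP'S : P' ≤ S := F.le_right hχ
  let R : Subgroup G :=
    { carrier := {g | g ∈ nS S P ∧ ∃ h ∈ S, ∀ (x : P) (hx : g * x * g⁻¹ ∈ P),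
        (χ ⟨g * x * g⁻¹, hx⟩ : G) = h * χ x * h⁻¹}
      one_mem' := by
        refine ⟨one_mem _, 1, S.one_mem, fun x hx => ?_⟩
        have e : (⟨1 * (x : G) * 1⁻¹, hx⟩ : P) = x := Subtype.ext (by simp)
        rw [e]; simp
      mul_mem' := by
        rintro g1 g2 ⟨hg1, h1, hh1, k1⟩ ⟨hg2, h2, hh2, k2⟩
        refine ⟨mul_mem hg1 hg2, h1 * h2, S.mul_mem hh1 hh2, fun x hx => ?_⟩
        have m2 : g2 * (x : G) * g2⁻¹ ∈ P := ((mem_nS.mp hg2).2 x).mp x.2
        have e : (⟨g1 * g2 * (x : G) * (g1 * g2)⁻¹, hx⟩ : P) =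
            ⟨g1 * ((⟨g2 * (x : G) * g2⁻¹, m2⟩ : P) : G) * g1⁻¹, by
              have : g1 * (g2 * (x : G) * g2⁻¹) * g1⁻¹ = g1 * g2 * (x : G) * (g1 * g2)⁻¹ := by
                group
              rw [this]; exact hx⟩ := Subtype.ext (by
              change g1 * g2 * (x : G) * (g1 * g2)⁻¹ = g1 * (g2 * (x : G) * g2⁻¹) * g1⁻¹
              group)
        rw [e, k1, k2]
        group
      inv_mem' := by
        rintro g ⟨hg, h1, hh1, k1⟩
        refine ⟨inv_mem hg, h1⁻¹, S.inv_mem hh1, fun x hx => ?_⟩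
        have m1 : g * (g⁻¹ * (x : G) * g⁻¹⁻¹) * g⁻¹ ∈ P := by
          have : g * (g⁻¹ * (x : G) * g⁻¹⁻¹) * g⁻¹ = x := by group
          rw [this]; exact x.2
        have k2 := k1 ⟨g⁻¹ * (x : G) * g⁻¹⁻¹, hx⟩ m1
        have e : (⟨g * ((⟨g⁻¹ * (x : G) * g⁻¹⁻¹, hx⟩ : P) : G) * g⁻¹, m1⟩ : P) = x :=
          Subtype.ext (by
            change g * (g⁻¹ * (x : G) * g⁻¹⁻¹) * g⁻¹ = x
            group)
        rw [e] at k2
        rw [k2]
        group }
  have hPR : P ≤ R := by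
    intro q hq
    refine ⟨le_nS hPS hq, (χ ⟨q, hq⟩ : G), hP'S (χ ⟨q, hq⟩).2, fun x hx => ?_⟩
    have e : (⟨q * (x : G) * q⁻¹, hx⟩ : P) = ⟨q, hq⟩ * x * ⟨q, hq⟩⁻¹ := Subtype.ext rfl
    rw [e, map_mul, map_mul, map_inv]
    rfl
  have hRS : R ≤ S := fun g hg => (mem_nS.mp hg.1).1
  have huR : u ∈ R := ⟨hu, v, hv, h⟩
  obtain ⟨R', ψ, hψ, hψχ⟩ := hF.extend P P' R χ hPR hχ hfc hRS (by
    rintro g ⟨hg, h1, hh1, k1⟩
    exact ⟨h1, hh1, fun x => ⟨((mem_nS.mp hg).2 x).mp x.2, k1 x _⟩⟩)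
  exact (ih R R' ψ hψ (CAlperin_card_lt hPR huR huP)).res χ hPR (fun x => (hψχ x).symm)

/-- Fully normalized conjugates exist. -/
theorem CAlperin_exists_fn {P : Subgroup G} (hP : P ≤ S) :
    ∃ Q : Subgroup G, F.Conj P Q ∧ F.FullyNormalized Q := by
  obtain ⟨Q, hQ, hmax⟩ := Set.exists_max_image {Q : Subgroup G | F.Conj P Q}
    (fun Q => Nat.card (nS S Q)) (Set.toFinite _) ⟨P, FusionSystem.Conj.refl F hP⟩
  exact ⟨Q, hQ, fun Q' hQ' => hmax Q' (FusionSystem.Conj.trans hQ hQ')⟩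

theorem CAlperin_conj_card {P Q : Subgroup G} (h : F.Conj P Q) : Nat.card P = Nat.card Q := by
  obtain ⟨φ, -⟩ := h
  exact Nat.card_congr φ.toEquiv

theorem CAlperin_index {p : ℕ} (hF : F.Saturated p) {Q : Subgroup G} (hQ : Q ≤ S)
    (hfn : F.FullyNormalized Q) : ¬ p ∣ ((autS S Q).subgroupOf (F.aut Q)).index :=
  (hF.sylow Q hQ hfn).2

/-- Isomorphisms onto fully normalized subgroups. -/
theorem CAlperin_to_fn (p : ℕ) [Fact p.Prime] (hS : IsPGroup p S) (hF : F.Saturated p)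
    {P P' : Subgroup G} (hPS : P < S) (hfn : F.FullyNormalized P') (hPP' : F.Conj P P')
    (ih : ∀ (R R' : Subgroup G) (ψ : R ≃* R'), ψ ∈ F.iso R R' → Nat.card P < Nat.card R →
      Gen F p ψ) : ∃ χ : P ≃* P', χ ∈ F.iso P P' ∧ Gen F p χ := by
  obtain ⟨χ0, hχ0⟩ := hPP'
  have hP'S : P' ≤ S := F.le_right hχ0
  obtain ⟨u, hu, huP⟩ := SetLike.exists_of_lt (lt_nS hS hPS)
  have huS : u ∈ S := (mem_nS.mp hu).1
  have huN := (mem_nS.mp hu).2
  set c : MulAut P := cjP P u huN with hc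
  have hciso : c ∈ F.iso P P := F.conj_mem u c huS hPS.le (fun x => rfl)
  have hcS : c ∈ autS S P := ⟨u, huS, fun x => rfl⟩
  set γ : MulAut P' := MulAut.congr χ0 c with hγ
  have hγiso : γ ∈ F.iso P' P' := F.trans_mem (F.symm_mem hχ0) (F.trans_mem hciso hχ0)
  have hγaut : γ ∈ F.aut P' := Or.inr hγiso
  obtain ⟨k, hk⟩ := CAlperin_autS_pGroup hS P ⟨c, hcS⟩
  have hck : c ^ (p ^ k) = 1 := congrArg Subtype.val hk
  have hγk : γ ^ (p ^ k) = 1 := by rw [hγ, ← map_pow, hck, map_one]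
  have hB : IsPGroup p (Subgroup.zpowers (⟨γ, hγaut⟩ : F.aut P')) := by
    rintro ⟨b, n, hn⟩
    refine ⟨k, Subtype.ext ?_⟩
    change b ^ (p ^ k) = 1
    have h1 : (⟨γ, hγaut⟩ : F.aut P') ^ (p ^ k) = 1 := Subtype.ext hγk
    rw [← hn]
    change ((⟨γ, hγaut⟩ : F.aut P') ^ n) ^ (p ^ k) = 1
    rw [← zpow_natCast, ← zpow_mul, mul_comm, zpow_mul, zpow_natCast, h1, one_zpow]
  obtain ⟨a, ha⟩ := CAlperin_sylow p ((autS S P').subgroupOf (F.aut P'))
    ((CAlperin_autS_pGroup hS P').comap_subtype) (CAlperin_index F hF hP'S hfn) _ hB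
  obtain ⟨v, hv, hva⟩ := Subgroup.mem_subgroupOf.mp (ha _ (Subgroup.mem_zpowers _))
  have haiso : (a : MulAut P') ∈ F.iso P' P' := (F.mem_aut hP'S _).mp a.2
  refine ⟨χ0.trans (a : MulAut P'), F.trans_mem hχ0 haiso, ?_⟩
  refine CAlperin_ext F hF (χ0.trans (a : MulAut P')) (F.trans_mem hχ0 haiso)
    (hF.sylow P' hP'S hfn).1 ih hu huP hv (fun x hx => ?_)
  have h1 := hva ((a : MulAut P') (χ0 x))
  have h2 : ((((a * ⟨γ, hγaut⟩ * a⁻¹ : F.aut P') : MulAut P')) ((a : MulAut P') (χ0 x))) =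
      (a : MulAut P') (χ0 (c x)) := by
    change (a : MulAut P') (γ ((a : MulAut P')⁻¹ ((a : MulAut P') (χ0 x)))) = _
    rw [MulAut.inv_apply_self]
    congr 1
    change χ0 (c (χ0.symm (χ0 x))) = χ0 (c x)
    rw [MulEquiv.symm_apply_apply]
  rw [h2] at h1
  exact h1

/-- Automorphisms of fully normalized subgroups. -/
theorem CAlperin_aut (p : ℕ) [Fact p.Prime] (hS : IsPGroup p S) (hF : F.Saturated p)
    {Q : Subgroup G} (hQS : Q < S) (hfn : F.FullyNormalized Q)
    (ih : ∀ (R R' : Subgroup G) (ψ : R ≃* R'), ψ ∈ F.iso R R' → Nat.card Q < Nat.card R →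
      Gen F p ψ) (β : Q ≃* Q) (hβ : β ∈ F.iso Q Q) : Gen F p β := by
  have hfc : F.FullyCentralized Q := (hF.sylow Q hQS.le hfn).1
  by_cases hC : cS S Q ≤ Q
  swap
  · -- extend to the centralizer
    obtain ⟨u, hu, huQ⟩ := SetLike.not_le_iff_exists.mp hC
    refine CAlperin_ext F hF β hβ hfc ih (cS_le_nS hu) huQ S.one_mem (fun x hx => ?_)
    have e : (⟨u * (x : G) * u⁻¹, hx⟩ : Q) = x := Subtype.ext (by
      change u * (x : G) * u⁻¹ = x
      rw [← (mem_cS.mp hu).2 x x.2, mul_inv_cancel_right])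
    rw [e]; simp
  by_contra hcon
  -- `Q` is centric
  have hcentric : F.Centric Q := by
    refine ⟨hQS.le, ?_⟩
    rintro Q' ⟨φ, hφ⟩
    let D : Subgroup G := ((cS S Q).subgroupOf Q).map (Q'.subtype.comp φ.toMonoidHom)
    have hD : D ≤ cS S Q' := by
      rintro y ⟨z, hz, rfl⟩
      rw [mem_cS]
      refine ⟨F.le_right hφ (φ z).2, fun x hx => ?_⟩
      have h1 := (mem_cS.mp (Subgroup.mem_subgroupOf.mp hz)).2 (φ.symm ⟨x, hx⟩)
        (φ.symm ⟨x, hx⟩).2
      have h2 : φ.symm ⟨x, hx⟩ * z = z * φ.symm ⟨x, hx⟩ := Subtype.ext h1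
      have h3 := congrArg φ h2
      rw [map_mul, map_mul, MulEquiv.apply_symm_apply] at h3
      exact congrArg Subtype.val h3
    have hcard : Nat.card D = Nat.card (cS S Q) := by
      have h1 : Nat.card D = Nat.card ((cS S Q).subgroupOf Q) := by
        refine (Nat.card_congr (Subgroup.equivMapOfInjective _ _ ?_).toEquiv).symm
        intro x y hxy
        exact φ.injective (Subtype.ext hxy)
      rw [h1]
      exact Nat.card_congr (Subgroup.subgroupOfEquivOfLe hC).toEquiv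
    have hle : Nat.card (cS S Q') ≤ Nat.card D := by
      rw [hcard]; exact hfc Q' ⟨φ, hφ⟩
    have heq : D = cS S Q' := Subgroup.eq_of_le_of_card_ge hD hle
    rw [← heq]
    rintro y ⟨z, hz, rfl⟩
    exact (φ z).2
  -- the subgroup of the automorphisms in `Gen`
  let H : Subgroup (F.aut Q) :=
    { carrier := {b | Gen F p ((b : MulAut Q) : Q ≃* Q)}
      one_mem' := Gen.conj' (s := 1) hQS.le S.one_mem (fun x => by simp)
      mul_mem' := fun {a b} ha hb => Gen.trans (φ := ((b : MulAut Q) : Q ≃* Q)) hb ha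
      inv_mem' := fun {a} ha => Gen.symm' ha }
  have hAH : (autS S Q).subgroupOf (F.aut Q) ≤ H := by
    intro b hb
    obtain ⟨s, hs, h⟩ := Subgroup.mem_subgroupOf.mp hb
    exact Gen.conj' hQS.le hs h
  have hIA : F.inn Q ≤ (autS S Q).subgroupOf (F.aut Q) := by
    intro b hb
    obtain ⟨y, hy⟩ := Subgroup.mem_subgroupOf.mp hb
    refine Subgroup.mem_subgroupOf.mpr ?_
    rw [← hy]
    exact conj_mem_autS hQS.le y
  set π := QuotientGroup.mk' (F.inn Q) with hπ
  have hπs : Function.Surjective π := QuotientGroup.mk'_surjective _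
  have hker : π.ker = F.inn Q := QuotientGroup.ker_mk' _
  set M : Subgroup (F.Out Q) := H.map π with hM
  set T : Subgroup (F.Out Q) := ((autS S Q).subgroupOf (F.aut Q)).map π with hT
  have hTM : T ≤ M := Subgroup.map_mono hAH
  have hmemM : ∀ b : F.aut Q, π b ∈ M → b ∈ H := by
    rintro b ⟨c, hc, hcb⟩
    have h1 : c⁻¹ * b ∈ F.inn Q := by
      rw [← hker, MonoidHom.mem_ker, map_mul, map_inv, hcb, inv_mul_cancel]
    have h2 : b = c * (c⁻¹ * b) := by group
    rw [h2]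
    exact H.mul_mem hc (hAH (hIA h1))
  have hTp : IsPGroup p T := ((CAlperin_autS_pGroup hS Q).comap_subtype).map π
  have hTi : ¬ p ∣ T.index := by
    rw [hT, Subgroup.index_map_eq _ hπs (by rw [hker]; exact hIA)]
    exact CAlperin_index F hF hQS.le hfn
  have hess : F.Essential p Q := by
    refine ⟨hcentric, hfn, M, ?_, ?_, ?_⟩
    · intro htop
      have h1 : π ⟨β, CAlperin_mem_aut F hQS.le hβ⟩ ∈ M := by rw [htop]; exact Subgroup.mem_top _
      exact hcon (hmemM _ h1)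
    · -- `p` divides `|M|`
      obtain ⟨u, hu, huQ⟩ := SetLike.exists_of_lt (lt_nS hS hQS)
      have huS : u ∈ S := (mem_nS.mp hu).1
      have huN := (mem_nS.mp hu).2
      have hc1 : cjP Q u huN ∈ autS S Q := ⟨u, huS, fun x => rfl⟩
      have hc2 : cjP Q u huN ∈ F.aut Q := autS_le_aut F hQS.le hc1
      have hne : π ⟨cjP Q u huN, hc2⟩ ≠ 1 := by
        intro h1
        rw [← MonoidHom.mem_ker, hker] at h1
        obtain ⟨y, hy⟩ := Subgroup.mem_subgroupOf.mp h1
        have h2 : (y : G)⁻¹ * u ∈ cS S Q := by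
          rw [mem_cS]
          refine ⟨S.mul_mem (S.inv_mem (hQS.le y.2)) huS, fun x hx => ?_⟩
          have h3 : (MulAut.conj y ⟨x, hx⟩ : G) = u * x * u⁻¹ := by
            rw [hy]; rfl
          have h4 : (y : G) * x * (y : G)⁻¹ = u * x * u⁻¹ := by
            rw [← h3]; simp [MulAut.conj_apply]
          calc x * ((y : G)⁻¹ * u) = (y : G)⁻¹ * ((y : G) * x * (y : G)⁻¹) * u := by group
            _ = (y : G)⁻¹ * (u * x * u⁻¹) * u := by rw [h4]
            _ = (y : G)⁻¹ * u * x := by group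
        have h3 : (y : G) * ((y : G)⁻¹ * u) ∈ Q := Q.mul_mem y.2 (hC h2)
        rw [mul_inv_cancel_left] at h3
        exact huQ h3
      have hmem : π ⟨cjP Q u huN, hc2⟩ ∈ T := ⟨_, Subgroup.mem_subgroupOf.mpr hc1, rfl⟩
      have hTne : T ≠ ⊥ := by
        intro hbot
        rw [hbot] at hmem
        exact hne (Subgroup.mem_bot.mp hmem)
      have h5 : p ∣ Nat.card T := by
        have : Nontrivial T := (Subgroup.nontrivial_iff_ne_bot T).mpr hTne
        obtain ⟨n, hn0, hn⟩ := hTp.nontrivial_iff_card.mp inferInstance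
        rw [hn]
        exact dvd_pow_self p hn0.ne'
      exact h5.trans (Subgroup.card_dvd_of_le hTM)
    · intro g hg hdvd
      apply hg
      -- an element of order `p`
      obtain ⟨t, ht⟩ := exists_prime_orderOf_dvd_card' p hdvd
      have ht1 : (t : F.Out Q) ∈ M := t.2.1
      obtain ⟨m, hm, hmt⟩ := t.2.2
      have hmt' : g * m * g⁻¹ = (t : F.Out Q) := hmt
      have htp : (t : F.Out Q) ^ p = 1 := by
        have := pow_orderOf_eq_one t
        rw [ht] at this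
        exact congrArg Subtype.val this
      have htne : (t : F.Out Q) ≠ 1 := by
        intro h1
        have h2 : t = 1 := Subtype.ext h1
        rw [h2, orderOf_one] at ht
        exact (Fact.out : p.Prime).one_lt.ne ht
      have hmp : m ^ p = 1 := by
        have h1 : (g * m * g⁻¹) ^ p = 1 := by rw [hmt']; exact htp
        rw [conj_pow] at h1
        exact conj_eq_one_iff.mp h1
      have hzp : ∀ (b : M), b ^ p = 1 → IsPGroup p (Subgroup.zpowers b) := by
        rintro b hb ⟨c, n, hn⟩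
        refine ⟨1, Subtype.ext ?_⟩
        change c ^ (p ^ 1) = 1
        rw [← hn, pow_one]
        change (b ^ n) ^ p = 1
        rw [← zpow_natCast, ← zpow_mul, mul_comm, zpow_mul, zpow_natCast, hb, one_zpow]
      have hTiM : ¬ p ∣ (T.subgroupOf M).index := by
        intro h1
        apply hTi
        rw [← Subgroup.relIndex_mul_index hTM]
        exact Dvd.dvd.mul_right h1 _
      obtain ⟨a, ha⟩ := CAlperin_sylow p (T.subgroupOf M) (hTp.comap_subtype) hTiM
        (Subgroup.zpowers ⟨(t : F.Out Q), ht1⟩) (hzp _ (Subtype.ext htp))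
      obtain ⟨b, hb⟩ := CAlperin_sylow p (T.subgroupOf M) (hTp.comap_subtype) hTiM
        (Subgroup.zpowers ⟨m, hm⟩) (hzp _ (Subtype.ext hmp))
      have ha1 : (a : F.Out Q) * (t : F.Out Q) * (a : F.Out Q)⁻¹ ∈ T :=
        Subgroup.mem_subgroupOf.mp (ha _ (Subgroup.mem_zpowers _))
      have hb1 : (b : F.Out Q) * m * (b : F.Out Q)⁻¹ ∈ T :=
        Subgroup.mem_subgroupOf.mp (hb _ (Subgroup.mem_zpowers _))
      -- `γ τ' γ⁻¹ = τ`
      set γ : F.Out Q := (a : F.Out Q) * g * (b : F.Out Q)⁻¹ with hγ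
      have hγg : γ ∈ M → g ∈ M := by
        intro h1
        have h2 : g = (a : F.Out Q)⁻¹ * γ * (b : F.Out Q) := by rw [hγ]; group
        rw [h2]
        exact M.mul_mem (M.mul_mem (M.inv_mem a.2) h1) b.2
      apply hγg
      obtain ⟨cu, hcu, hcu'⟩ := hb1
      obtain ⟨cv, hcv, hcv'⟩ := ha1
      obtain ⟨δ, hδ⟩ := hπs γ
      rw [← hδ]
      refine ⟨δ, ?_, rfl⟩
      obtain ⟨u, huS, huu⟩ := Subgroup.mem_subgroupOf.mp hcu
      obtain ⟨v, hvS, hvv⟩ := Subgroup.mem_subgroupOf.mp hcv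
      have hrel : γ * ((b : F.Out Q) * m * (b : F.Out Q)⁻¹) * γ⁻¹ =
          (a : F.Out Q) * (t : F.Out Q) * (a : F.Out Q)⁻¹ := by
        rw [← hmt', hγ]; group
      rw [← hcu', ← hcv', ← hδ, ← map_mul, ← map_inv, ← map_mul] at hrel
      have hinn : cv⁻¹ * (δ * cu * δ⁻¹) ∈ F.inn Q := by
        rw [← hker, MonoidHom.mem_ker, map_mul, map_inv, hrel, inv_mul_cancel]
      obtain ⟨y, hy⟩ := Subgroup.mem_subgroupOf.mp hinn
      have hδiso : ((δ : MulAut Q) : Q ≃* Q) ∈ F.iso Q Q := (F.mem_aut hQS.le _).mp δ.2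
      have huN : ∀ x, x ∈ Q ↔ u * x * u⁻¹ ∈ Q := by
        intro x
        constructor
        · intro hx
          have := huu ⟨x, hx⟩
          have h1 : u * x * u⁻¹ = ((cu : MulAut Q) ⟨x, hx⟩ : G) := this.symm
          rw [h1]; exact ((cu : MulAut Q) ⟨x, hx⟩).2
        · intro hx
          have h1 := huu ((cu : MulAut Q)⁻¹ ⟨u * x * u⁻¹, hx⟩)
          rw [MulAut.apply_inv_self] at h1
          have h2 : u * x * u⁻¹ = u * ((cu : MulAut Q)⁻¹ ⟨u * x * u⁻¹, hx⟩ : G) * u⁻¹ := h1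
          have h3 : x = ((cu : MulAut Q)⁻¹ ⟨u * x * u⁻¹, hx⟩ : G) :=
            mul_left_cancel (mul_right_cancel h2)
          rw [h3]
          exact ((cu : MulAut Q)⁻¹ ⟨u * x * u⁻¹, hx⟩).2
      have huQ : u ∉ Q := by
        intro hu
        have h1 : cu ∈ F.inn Q := by
          refine Subgroup.mem_subgroupOf.mpr ⟨⟨u, hu⟩, ?_⟩
          ext x
          rw [huu x]
          simp [MulAut.conj_apply]
        rw [← hker, MonoidHom.mem_ker, hcu'] at h1
        have h2 : m = 1 := conj_eq_one_iff.mp h1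
        rw [h2] at hmt'
        apply htne
        rw [← hmt']
        simp
      refine CAlperin_ext F hF ((δ : MulAut Q) : Q ≃* Q) hδiso hfc ih (u := u)
        (v := v * (y : G)) (mem_nS.mpr ⟨huS, huN⟩) huQ (S.mul_mem hvS (hQS.le y.2))
        (fun x hx => ?_)
      have e1 : (⟨u * (x : G) * u⁻¹, hx⟩ : Q) = (cu : MulAut Q) x := Subtype.ext (huu x).symm
      have e2 : (δ : MulAut Q) ((cu : MulAut Q) x) =
          (cv : MulAut Q) ((MulAut.conj y) ((δ : MulAut Q) x)) := by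
        rw [hy]
        change _ = (cv : MulAut Q) ((cv : MulAut Q)⁻¹ ((δ : MulAut Q) ((cu : MulAut Q)
          ((δ : MulAut Q)⁻¹ ((δ : MulAut Q) x)))))
        rw [MulAut.apply_inv_self, MulAut.inv_apply_self]
      change ((δ : MulAut Q) ⟨u * (x : G) * u⁻¹, hx⟩ : G) = _
      rw [e1, e2, hvv]
      simp only [MulAut.conj_apply, Subgroup.coe_mul, Subgroup.coe_inv]
      group
  exact hcon (Gen.base β Q le_rfl β hβ (Or.inr hess) (fun x => rfl))

/-- Induction on `|S : P|`.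
(1) `P = S`: base. (2) `P < S`: choose a fully normalized conjugate `P'` of `P` and an isomorphism
`P ≃ P'` extending to `N_S(P)` (Sylow in `Aut_F(P')`), so it suffices to treat automorphisms of
fully normalized subgroups `Q < S`. (3) If `C_S(Q)` is not contained in `Q`, then every
automorphism extends to `Q C_S(Q) > Q`: induction. (4) Otherwise `Q` is centric; let `H` be the
subgroup of `Aut_F(Q)` generated by the `β` with `β Aut_S(Q) β⁻¹ ∩ Aut_S(Q) > Inn(Q)`; such `β`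
extend to `N_β > Q`: induction. If `H ≠ Aut_F(Q)` then `H / Inn(Q)` is strongly `p`-embedded in
`Out_F(Q)`, so `Q` is essential: base. -/
theorem alperin (p : ℕ) [Fact p.Prime] (hS : IsPGroup p S) (hF : F.Saturated p)
    {P Q : Subgroup G} (φ : P ≃* Q) (hφ : φ ∈ F.iso P Q) : Gen F p φ := by
  have key : ∀ (n : ℕ) (P Q : Subgroup G) (φ : P ≃* Q), Nat.card S - Nat.card P = n →
      φ ∈ F.iso P Q → Gen F p φ := by
    intro n
    induction n using Nat.strong_induction_on with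
    | _ n ih0 =>
      intro P Q φ hn hφ
      have hPS : P ≤ S := F.le_left hφ
      have hQS : Q ≤ S := F.le_right hφ
      have hcPQ : Nat.card P = Nat.card Q := Nat.card_congr φ.toEquiv
      have hcPS : Nat.card P ≤ Nat.card S := Subgroup.card_le_of_le hPS
      have ih : ∀ (R R' : Subgroup G) (ψ : R ≃* R'), ψ ∈ F.iso R R' → Nat.card P < Nat.card R →
          Gen F p ψ := by
        intro R R' ψ hψ hlt
        have h1 : Nat.card R ≤ Nat.card S := Subgroup.card_le_of_le (F.le_left hψ)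
        exact ih0 (Nat.card S - Nat.card R) (by omega) R R' ψ rfl hψ
      by_cases hP : P = S
      · subst hP
        have hQ : Q = P := Subgroup.eq_of_le_of_card_ge hQS hcPQ.le
        subst hQ
        exact Gen.base φ Q le_rfl φ hφ (Or.inl rfl) (fun x => rfl)
      · have hPlt : P < S := lt_of_le_of_ne hPS hP
        have hQlt : Q < S := by
          refine lt_of_le_of_ne hQS (fun h => hP ?_)
          refine Subgroup.eq_of_le_of_card_ge hPS ?_
          rw [hcPQ, h]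
        obtain ⟨P', hPP', hfn⟩ := CAlperin_exists_fn F hPS
        have hQP' : F.Conj Q P' := FusionSystem.Conj.trans ⟨φ.symm, F.symm_mem hφ⟩ hPP'
        have hc' : Nat.card P = Nat.card P' := CAlperin_conj_card F hPP'
        obtain ⟨χ, hχ, hχG⟩ := CAlperin_to_fn F p hS hF hPlt hfn hPP' ih
        obtain ⟨χ', hχ', hχG'⟩ := CAlperin_to_fn F p hS hF hQlt hfn hQP' (by
          rw [← hcPQ]; exact ih)
        have hP'lt : P' < S := by
          refine lt_of_le_of_ne (F.le_right hχ) (fun h => hP ?_)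
          refine Subgroup.eq_of_le_of_card_ge hPS ?_
          rw [hc', h]
        have hβ : χ.symm.trans (φ.trans χ') ∈ F.iso P' P' :=
          F.trans_mem (F.symm_mem hχ) (F.trans_mem hφ hχ')
        have hβG := CAlperin_aut F p hS hF hP'lt hfn (by rw [← hc']; exact ih) _ hβ
        have hfin := Gen.trans hχG (Gen.trans hβG hχG'.symm')
        have e : χ.trans ((χ.symm.trans (φ.trans χ')).trans χ'.symm) = φ := by
          ext x
          simp
        rw [e] at hfin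
        exact hfin
  exact key _ P Q φ rfl hφ

end MNF
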