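import Pool.Agent.W_0649d4.Iface

/-! Basic facts on fusion systems. -/

namespace MNF

variable {G : Type*} [Group G] {S : Subgroup G} (F : FusionSystem S)

theorem FusionSystem.le_right {P Q : Subgroup G} {φ : P ≃* Q} (h : φ ∈ F.iso P Q) : Q ≤ S :=
  F.le_left (F.symm_mem h)

theorem FusionSystem.refl_mem {P : Subgroup G} (h : P ≤ S) : MulEquiv.refl P ∈ F.iso P P :=
  F.conj_mem 1 _ S.one_mem h (fun x => by simp)

theorem FusionSystem.Conj.refl {P : Subgroup G} (h : P ≤ S) : F.Conj P P := ⟨_, F.refl_mem h⟩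

theorem FusionSystem.Conj.symm {F : FusionSystem S} {P Q : Subgroup G} (h : F.Conj P Q) :
    F.Conj Q P := by
  obtain ⟨φ, hφ⟩ := h
  exact ⟨φ.symm, F.symm_mem hφ⟩

theorem FusionSystem.Conj.trans {F : FusionSystem S} {P Q R : Subgroup G} (h : F.Conj P Q)
    (h' : F.Conj Q R) : F.Conj P R := by
  obtain ⟨φ, hφ⟩ := h
  obtain ⟨ψ, hψ⟩ := h'
  exact ⟨φ.trans ψ, F.trans_mem hφ hψ⟩

theorem FusionSystem.mem_aut {P : Subgroup G} (h : P ≤ S) (φ : MulAut P) :
    φ ∈ F.aut P ↔ φ ∈ F.iso P P := by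
  constructor
  · rintro (rfl | h1)
    · exact F.refl_mem h
    · exact h1
  · exact fun h1 => Or.inr h1

theorem autS_le_aut {P : Subgroup G} (h : P ≤ S) : autS S P ≤ F.aut P := by
  rintro φ ⟨s, hs, h1⟩
  exact Or.inr (F.conj_mem s φ hs h h1)

/-- Inner automorphisms are in `Aut_S(P)`. -/
theorem conj_mem_autS {P : Subgroup G} (h : P ≤ S) (y : P) : MulAut.conj y ∈ autS S P := by
  refine ⟨(y : G), h y.2, fun x => ?_⟩
  simp [MulAut.conj_apply]

/-- Isomorphisms of `F` preserve commutation. -/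
theorem map_cS {P Q : Subgroup G} {φ : P ≃* Q} (_hφ : φ ∈ F.iso P Q) (x : P)
    (y : P) : ((y : G) * x = x * y) ↔ ((φ y : G) * φ x = φ x * φ y) := by
  constructor
  · intro h
    have h1 : y * x = x * y := Subtype.ext h
    have h2 := congrArg φ h1
    rw [map_mul, map_mul] at h2
    exact congrArg Subtype.val h2
  · intro h
    have h1 : φ y * φ x = φ x * φ y := Subtype.ext h
    rw [← map_mul, ← map_mul] at h1
    exact congrArg Subtype.val (φ.injective h1)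

theorem mem_cS {P : Subgroup G} {g : G} : g ∈ cS S P ↔ g ∈ S ∧ ∀ x ∈ P, x * g = g * x := by
  unfold cS
  rw [Subgroup.mem_inf, Subgroup.mem_centralizer_iff]
  exact Iff.rfl

theorem mem_cS_zpowers {x g : G} : g ∈ cS S (Subgroup.zpowers x) ↔ g ∈ S ∧ x * g = g * x := by
  rw [mem_cS]
  constructor
  · rintro ⟨h1, h2⟩
    exact ⟨h1, h2 x (Subgroup.mem_zpowers x)⟩
  · rintro ⟨h1, h2⟩
    refine ⟨h1, ?_⟩
    rintro y ⟨n, rfl⟩
    exact (Commute.zpow_left (show Commute x g from h2) n)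

theorem mem_nS {P : Subgroup G} {g : G} :
    g ∈ nS S P ↔ g ∈ S ∧ ∀ x, x ∈ P ↔ g * x * g⁻¹ ∈ P := by
  unfold nS
  rw [Subgroup.mem_inf, Subgroup.mem_normalizer_iff]

theorem le_nS {P : Subgroup G} (h : P ≤ S) : P ≤ nS S P :=
  le_inf h Subgroup.le_normalizer

theorem cS_le_nS {P : Subgroup G} : cS S P ≤ nS S P := by
  intro g hg
  rw [mem_cS] at hg
  rw [mem_nS]
  refine ⟨hg.1, fun x => ?_⟩
  constructor
  · intro hx
    rw [← hg.2 x hx, mul_inv_cancel_right]; exact hx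
  · intro hx
    have h1 := hg.2 _ hx
    have h2 : g * x * g⁻¹ = x := by
      have h3 : g⁻¹ * (g * x * g⁻¹ * g) = g⁻¹ * (g * (g * x * g⁻¹)) := by rw [h1]
      have h4 : x = g * x * g⁻¹ := by
        calc x = g⁻¹ * (g * x * g⁻¹ * g) := by group
          _ = g⁻¹ * (g * (g * x * g⁻¹)) := h3
          _ = g * x * g⁻¹ := by group
      exact h4.symm
    rwa [h2] at hx

theorem cS_anti {P Q : Subgroup G} (h : P ≤ Q) : cS S Q ≤ cS S P := by
  intro g hg
  rw [mem_cS] at hg ⊢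
  exact ⟨hg.1, fun x hx => hg.2 x (h hx)⟩

/-- Overgroups of centric subgroups are centric. -/
theorem FusionSystem.Centric.mono {F : FusionSystem S} {Q R : Subgroup G} (h : F.Centric Q)
    (hQR : Q ≤ R) (hR : R ≤ S) : F.Centric R := by
  refine ⟨hR, ?_⟩
  rintro R' ⟨φ, hφ⟩
  obtain ⟨Q', ψ, hψ, hψφ⟩ := F.exists_res hφ hQR
  have hQ'R' : Q' ≤ R' := by
    intro y hy
    have h1 := hψφ (ψ.symm ⟨y, hy⟩)
    rw [MulEquiv.apply_symm_apply] at h1
    have h2 : y = (φ ⟨(ψ.symm ⟨y, hy⟩ : Q), hQR (ψ.symm ⟨y, hy⟩).2⟩ : G) := h1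
    rw [h2]
    exact (φ _).2
  exact (cS_anti hQ'R').trans ((h.2 Q' ⟨ψ, hψ⟩).trans hQ'R')

/-- Centric is invariant under `F`-conjugation. -/
theorem FusionSystem.Centric.conj {F : FusionSystem S} {Q R : Subgroup G} (h : F.Centric Q)
    (hQR : F.Conj Q R) : F.Centric R := by
  refine ⟨?_, fun R' hR' => h.2 R' (hQR.trans hR')⟩
  obtain ⟨φ, hφ⟩ := hQR
  exact F.le_right hφ

/-- The image of a subgroup under an isomorphism of `F` defined on a larger one. -/
theorem exists_res_le {P Q P' : Subgroup G} {φ : P ≃* Q} (hφ : φ ∈ F.iso P Q) (h : P' ≤ P) :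
    ∃ (Q' : Subgroup G) (ψ : P' ≃* Q'), ψ ∈ F.iso P' Q' ∧ Q' ≤ Q ∧
      ∀ x : P', (ψ x : G) = φ ⟨x, h x.2⟩ := by
  obtain ⟨Q', ψ, hψ, h1⟩ := F.exists_res hφ h
  refine ⟨Q', ψ, hψ, ?_, h1⟩
  intro y hy
  have h2 := h1 (ψ.symm ⟨y, hy⟩)
  rw [MulEquiv.apply_symm_apply] at h2
  have h3 : y = (φ ⟨(ψ.symm ⟨y, hy⟩ : P'), h (ψ.symm ⟨y, hy⟩).2⟩ : G) := h2
  rw [h3]
  exact (φ _).2

/-- A `p`-group which is properly contained grows in the normalizer. -/
theorem lt_nS [Finite G] {p : ℕ} [Fact p.Prime] (hS : IsPGroup p S) {P : Subgroup G} (h : P < S) :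
    P < nS S P := by
  refine lt_of_le_of_ne (le_nS h.le) ?_
  intro heq
  have hnil : Group.IsNilpotent S := hS.isNilpotent
  have h1 := (Group.normalizerCondition_of_isNilpotent (G := S))
  have h2 : P.subgroupOf S < ⊤ := by
    rw [lt_top_iff_ne_top]
    intro h3
    rw [Subgroup.subgroupOf_eq_top] at h3
    exact absurd h3 (not_le_of_gt h)
  have h3 := h1 _ h2
  apply not_le_of_gt h3
  intro x hx
  rw [Subgroup.mem_normalizer_iff] at hx
  rw [Subgroup.mem_subgroupOf, heq, mem_nS]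
  refine ⟨x.2, fun y => ?_⟩
  constructor
  · intro hy
    have := (hx ⟨y, h.le hy⟩).mp (Subgroup.mem_subgroupOf.mpr hy)
    exact Subgroup.mem_subgroupOf.mp this
  · intro hy
    have hyS : y ∈ S := by
      have h4 : (x : G) * y * (x : G)⁻¹ ∈ S := h.le hy
      have h5 : y = (x : G)⁻¹ * ((x : G) * y * (x : G)⁻¹) * x := by group
      rw [h5]
      exact S.mul_mem (S.mul_mem (S.inv_mem x.2) h4) x.2
    have := (hx ⟨y, hyS⟩).mpr (Subgroup.mem_subgroupOf.mpr hy)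
    exact Subgroup.mem_subgroupOf.mp this

end MNF
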