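import Pool.Agent.W_0649d4.CCase
import Pool.Agent.W_0649d4.ASteinberg

/-! TASK CBoundA (blueprint, section BDA). -/

set_option linter.unusedSectionVars false

namespace MNF

attribute [local instance] DataA.field DataA.finite DataA.char

namespace CBA

variable {G : Type*} [Group G] [Finite G] {S : Subgroup G} {F : FusionSystem S} {p : ℕ}
  {Q : Subgroup G} (D : DataA F p Q)

/-- The element of `V` attached to a vector. -/
def nn (w : Fin 2 → D.K) : Q := (D.ν (Multiplicative.ofAdd w) : Q)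

theorem nn_mem (w : Fin 2 → D.K) : nn D w ∈ D.V := (D.ν _).2

theorem nn_inj {w w' : Fin 2 → D.K} (h : nn D w = nn D w') : w = w' := by
  have h1 := D.ν.injective (Subtype.ext h)
  exact Multiplicative.ofAdd.injective h1

theorem nn_zero : nn D 0 = 1 := by
  unfold nn
  rw [ofAdd_zero, map_one]
  rfl

theorem nn_add (w w' : Fin 2 → D.K) : nn D (w + w') = nn D w * nn D w' := by
  unfold nn
  rw [ofAdd_add, map_mul]
  rfl

theorem nn_neg (w : Fin 2 → D.K) : nn D (-w) = (nn D w)⁻¹ := by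
  rw [eq_inv_iff_mul_eq_one, ← nn_add, neg_add_cancel, nn_zero]

theorem exists_nn {v : Q} (hv : v ∈ D.V) : ∃ w, nn D w = v := by
  refine ⟨Multiplicative.toAdd (D.ν.symm ⟨v, hv⟩), ?_⟩
  unfold nn
  rw [ofAdd_toAdd, MulEquiv.apply_symm_apply]

theorem act_nn (g : Matrix.SpecialLinearGroup (Fin 2) D.K) (w : Fin 2 → D.K) :
    D.θ g (nn D w) = nn D (Matrix.mulVec g.1 w) := D.act g w

theorem map_V {a : MulAut Q} (ha : a ∈ F.aut Q) {v : Q} (hv : v ∈ D.V) : a v ∈ D.V := by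
  rw [← D.com] at hv ⊢
  have h1 : comQ F p Q ≤ (comQ F p Q).comap a.toMonoidHom := by
    unfold comQ
    rw [Subgroup.closure_le]
    rintro c ⟨b, hb, y, rfl⟩
    apply Subgroup.subset_closure
    refine ⟨a * b * a⁻¹, ?_, a y, ?_⟩
    · rw [D.pgen] at hb ⊢
      exact D.normal a ha b hb
    · change a (b y * y⁻¹) = a (b (a⁻¹ (a y))) * (a y)⁻¹
      rw [map_mul, map_inv, MulAut.inv_apply_self]
  exact h1 hv

theorem map_C {a : MulAut Q} (ha : a ∈ F.aut Q) {c : Q} (hc : c ∈ D.C) : a c ∈ D.C := by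
  rw [← D.fix] at hc ⊢
  intro b hb
  have h1 : a⁻¹ * b * a ∈ pGen F p Q := by
    rw [D.pgen] at hb ⊢
    have := D.normal a⁻¹ (inv_mem ha) b hb
    rwa [inv_inv] at this
  have h2 := hc _ h1
  have h3 : a⁻¹ (b (a c)) = c := h2
  have h4 := congrArg a h3
  rwa [MulAut.apply_inv_self] at h4

theorem map_V_iff {a : MulAut Q} (ha : a ∈ F.aut Q) {v : Q} : a v ∈ D.V ↔ v ∈ D.V := by
  refine ⟨fun h => ?_, map_V D ha⟩
  have := map_V D (inv_mem ha) h
  rwa [MulAut.inv_apply_self] at this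

/-- The line `K e_1`. -/
def line : Set Q := {v | ∃ r : D.K, v = nn D ![r, 0]}

theorem mem_line {s : D.K} (hs : s ≠ 0) {v : Q} :
    v ∈ line D ↔ v ∈ D.V ∧ D.θ (slU D.K s) v = v := by
  constructor
  · rintro ⟨r, rfl⟩
    refine ⟨nn_mem D _, ?_⟩
    rw [act_nn]
    congr 1
    ext i
    fin_cases i <;> simp [slU, Matrix.mulVec, dotProduct, Fin.sum_univ_two]
  · rintro ⟨hv, h⟩
    obtain ⟨w, rfl⟩ := exists_nn D hv
    rw [act_nn] at h
    have h1 := congrFun (nn_inj D h) 0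
    simp only [slU, Matrix.mulVec, dotProduct, Fin.sum_univ_two, Matrix.of_apply,
      Matrix.cons_val', Matrix.cons_val_zero, Matrix.cons_val_one] at h1
    have h2 : w 1 = 0 := by
      have h3 : s * w 1 = 0 := by linear_combination h1
      exact (mul_eq_zero.1 h3).resolve_left hs
    refine ⟨w 0, ?_⟩
    congr 1
    ext i
    fin_cases i
    · rfl
    · exact h2

theorem exists_conj {a : MulAut Q} (ha : a ∈ F.aut Q)
    (g : Matrix.SpecialLinearGroup (Fin 2) D.K) : ∃ g', a * D.θ g * a⁻¹ = D.θ g' := by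
  obtain ⟨g', hg'⟩ := D.normal a ha (D.θ g) ⟨g, rfl⟩
  exact ⟨g', hg'.symm⟩

theorem conj_apply {a : MulAut Q} {g g' : Matrix.SpecialLinearGroup (Fin 2) D.K}
    (h : a * D.θ g * a⁻¹ = D.θ g') (v : Q) : D.θ g' (a v) = a (D.θ g v) := by
  rw [← h]
  change a (D.θ g (a⁻¹ (a v))) = _
  rw [MulAut.inv_apply_self]

theorem e1_ne : (![1, 0] : Fin 2 → D.K) ≠ 0 := by
  intro h
  exact one_ne_zero (congrFun h 0)

theorem exists_slU {c : MulAut Q} (hc : c ∈ F.aut Q) (h : c (nn D ![1, 0]) ∈ line D) (s : D.K) :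
    ∃ s', c * D.θ (slU D.K s) * c⁻¹ = D.θ (slU D.K s') := by
  obtain ⟨r, hr⟩ := h
  have hr0 : r ≠ 0 := by
    rintro rfl
    have h1 : (![0, 0] : Fin 2 → D.K) = 0 := by
      ext i; fin_cases i <;> rfl
    rw [h1, nn_zero] at hr
    have h2 : nn D ![1, 0] = 1 := c.injective (hr.trans (map_one c).symm)
    rw [← nn_zero D] at h2
    exact e1_ne D (nn_inj D h2)
  obtain ⟨g', hg'⟩ := exists_conj D hc (slU D.K s)
  have h1 := conj_apply D hg' (nn D ![1, 0])
  rw [act_nn D (slU D.K s)] at h1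
  have h2 : Matrix.mulVec (slU D.K s).1 ![1, 0] = ![1, 0] := by
    ext i
    fin_cases i <;> simp [slU, Matrix.mulVec, dotProduct, Fin.sum_univ_two]
  rw [h2, hr, act_nn] at h1
  have h3 := nn_inj D h1
  have h4 := congrFun h3 0
  have h5 := congrFun h3 1
  simp only [Matrix.mulVec, dotProduct, Fin.sum_univ_two, Matrix.cons_val_zero,
    Matrix.cons_val_one, mul_zero, add_zero] at h4 h5
  have h00 : g'.1 0 0 = 1 := by
    have : (g'.1 0 0 - 1) * r = 0 := by linear_combination h4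
    exact sub_eq_zero.1 ((mul_eq_zero.1 this).resolve_right hr0)
  have h10 : g'.1 1 0 = 0 := (mul_eq_zero.1 h5).resolve_right hr0
  have hdet := g'.2
  rw [Matrix.det_fin_two, h00, h10] at hdet
  have h11 : g'.1 1 1 = 1 := by linear_combination hdet
  refine ⟨g'.1 0 1, ?_⟩
  rw [hg']
  congr 1
  ext i j
  fin_cases i <;> fin_cases j
  · exact h00
  · rfl
  · exact h10
  · exact h11

theorem line_iff {c : MulAut Q} (hc : c ∈ F.aut Q)
    (h : ∀ s, ∃ s', c * D.θ (slU D.K s) * c⁻¹ = D.θ (slU D.K s')) (v : Q) :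
    c v ∈ line D ↔ v ∈ line D := by
  obtain ⟨s', hs'⟩ := h 1
  have hs0 : s' ≠ 0 := by
    rintro rfl
    have h1 : slU D.K 0 = 1 := by
      ext i j
      fin_cases i <;> fin_cases j <;> rfl
    rw [h1, map_one, mul_inv_eq_one] at hs'
    have h2 : D.θ (slU D.K 1) = 1 := by
      rw [← mul_left_cancel_iff (a := c), hs', mul_one]
    have h3 : slU D.K 1 = 1 := D.inj (by rw [h2, map_one])
    have h4 := congrArg (fun g : Matrix.SpecialLinearGroup (Fin 2) D.K => g.1 0 1) h3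
    have h5 : (1 : D.K) = 0 := h4
    exact one_ne_zero h5
  rw [mem_line D hs0, mem_line D (one_ne_zero), map_V_iff D hc, conj_apply D hs']
  constructor
  · rintro ⟨h1, h2⟩
    exact ⟨h1, c.injective h2⟩
  · rintro ⟨h1, h2⟩
    exact ⟨h1, by rw [h2]⟩

theorem exists_sl {z : Fin 2 → D.K} (hz : z ≠ 0) :
    ∃ g : Matrix.SpecialLinearGroup (Fin 2) D.K, Matrix.mulVec g.1 ![1, 0] = z := by
  by_cases h : z 0 = 0
  · have h1 : z 1 ≠ 0 := by
      intro h1
      apply hz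
      ext i
      fin_cases i
      · exact h
      · exact h1
    refine ⟨⟨!![0, -(z 1)⁻¹; z 1, 0], by rw [Matrix.det_fin_two_of]; field_simp; ring⟩, ?_⟩
    ext i
    fin_cases i
    · simp [Matrix.mulVec, dotProduct, Fin.sum_univ_two, h]
    · simp [Matrix.mulVec, dotProduct, Fin.sum_univ_two]
  · refine ⟨⟨!![z 0, 0; z 1, (z 0)⁻¹], by rw [Matrix.det_fin_two_of]; field_simp; ring⟩, ?_⟩
    ext i
    fin_cases i
    · simp [Matrix.mulVec, dotProduct, Fin.sum_univ_two]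
    · simp [Matrix.mulVec, dotProduct, Fin.sum_univ_two]

theorem exists_decomp {a : MulAut Q} (ha : a ∈ F.aut Q) :
    ∃ (l : Matrix.SpecialLinearGroup (Fin 2) D.K) (c : MulAut Q), c ∈ F.aut Q ∧
      a = D.θ l * c ∧ c (nn D ![0, 1]) = nn D ![0, 1] ∧ ∀ v, c v ∈ line D ↔ v ∈ line D := by
  have hθ : ∀ g, D.θ g ∈ F.aut Q := fun g => D.range_le ⟨g, rfl⟩
  obtain ⟨z, hz⟩ := exists_nn D (map_V D ha (nn_mem D ![1, 0]))
  have hz0 : z ≠ 0 := by
    rintro rfl
    rw [nn_zero] at hz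
    have h2 : nn D ![1, 0] = 1 := a.injective (hz.symm.trans (map_one a).symm)
    rw [← nn_zero D] at h2
    exact e1_ne D (nn_inj D h2)
  obtain ⟨g, hg⟩ := exists_sl D hz0
  -- first correction
  have hb : D.θ g⁻¹ * a ∈ F.aut Q := mul_mem (hθ _) ha
  have hb1 : (D.θ g⁻¹ * a) (nn D ![1, 0]) = nn D ![1, 0] := by
    change D.θ g⁻¹ (a (nn D ![1, 0])) = _
    rw [← hz, ← hg, ← act_nn]
    change (D.θ g⁻¹ * D.θ g) _ = _
    rw [← map_mul, inv_mul_cancel, map_one]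
    rfl
  set b := D.θ g⁻¹ * a with hbdef
  have hbl := line_iff D hb (exists_slU D hb (by rw [hb1]; exact ⟨1, rfl⟩))
  obtain ⟨w, hw⟩ := exists_nn D (map_V D hb (nn_mem D ![0, 1]))
  have ht : w 1 ≠ 0 := by
    intro h0
    have h1 : b (nn D ![0, 1]) ∈ line D := by
      rw [← hw]
      refine ⟨w 0, ?_⟩
      congr 1
      ext i
      fin_cases i
      · rfl
      · exact h0
    rw [hbl] at h1
    obtain ⟨r, hr⟩ := h1
    have h2 := congrFun (nn_inj D hr) 1
    exact one_ne_zero h2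
  let h : Matrix.SpecialLinearGroup (Fin 2) D.K :=
    ⟨!![w 1, -(w 0); 0, (w 1)⁻¹], by rw [Matrix.det_fin_two_of]; field_simp; ring⟩
  have hc : D.θ h * b ∈ F.aut Q := mul_mem (hθ _) hb
  have hc1 : (D.θ h * b) (nn D ![1, 0]) ∈ line D := by
    change D.θ h (b (nn D ![1, 0])) ∈ _
    rw [hb1, act_nn]
    refine ⟨w 1, ?_⟩
    congr 1
    ext i
    fin_cases i <;> simp [h, Matrix.mulVec, dotProduct, Fin.sum_univ_two]
  have hc2 : (D.θ h * b) (nn D ![0, 1]) = nn D ![0, 1] := by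
    change D.θ h (b (nn D ![0, 1])) = _
    rw [← hw, act_nn]
    congr 1
    ext i
    fin_cases i
    · simp only [h, Matrix.mulVec, dotProduct, Fin.sum_univ_two, Matrix.of_apply,
        Matrix.cons_val', Matrix.cons_val_zero, Matrix.cons_val_one, Fin.zero_eta]
      simp
      ring
    · simp only [h, Matrix.mulVec, dotProduct, Fin.sum_univ_two, Matrix.of_apply,
        Matrix.cons_val', Matrix.cons_val_zero, Matrix.cons_val_one, Fin.mk_one]
      simp [ht]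
  refine ⟨g * h⁻¹, D.θ h * b, hc, ?_, hc2, line_iff D hc (exists_slU D hc hc1)⟩
  rw [← mul_assoc, ← map_mul, inv_mul_cancel_right, hbdef, ← mul_assoc, ← map_mul,
    mul_inv_cancel, map_one, one_mul]

theorem exists_slW {c : MulAut Q} (hc : c ∈ F.aut Q) (hc2 : c (nn D ![0, 1]) = nn D ![0, 1])
    (hl : ∀ v, c v ∈ line D ↔ v ∈ line D) :
    ∃ t : D.Kˣ, c * D.θ (slW D.K) * c⁻¹ = D.θ (slD D.K t * slW D.K) := by
  obtain ⟨g, hg⟩ := exists_conj D hc (slW D.K)
  obtain ⟨r, hr⟩ := (hl (nn D ![1, 0])).2 ⟨1, rfl⟩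
  have hr0 : r ≠ 0 := by
    rintro rfl
    have h1 : (![0, 0] : Fin 2 → D.K) = 0 := by
      ext i; fin_cases i <;> rfl
    rw [h1, nn_zero] at hr
    have h2 : nn D ![1, 0] = 1 := c.injective (hr.trans (map_one c).symm)
    rw [← nn_zero D] at h2
    exact e1_ne D (nn_inj D h2)
  -- the second column
  have h1 := conj_apply D hg (nn D ![0, 1])
  have hw2 : Matrix.mulVec (slW D.K).1 ![0, 1] = ![1, 0] := by
    ext i
    fin_cases i <;> simp [slW, Matrix.mulVec, dotProduct, Fin.sum_univ_two]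
  rw [hc2, act_nn, act_nn, hw2, hr] at h1
  have h2 := nn_inj D h1
  have h01 := congrFun h2 0
  have h11 := congrFun h2 1
  simp only [Matrix.mulVec, dotProduct, Fin.sum_univ_two, Matrix.cons_val_zero,
    Matrix.cons_val_one, mul_zero, mul_one, zero_add] at h01 h11
  -- the first column: `g ^ 2 = -1` on `e_1`
  have hw1 : Matrix.mulVec (slW D.K).1 ![1, 0] = -![0, 1] := by
    ext i
    fin_cases i <;> simp [slW, Matrix.mulVec, dotProduct, Fin.sum_univ_two]
  have h3 := conj_apply D hg (nn D ![1, 0])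
  rw [hr, act_nn, act_nn, hw1, nn_neg, map_inv, hc2, ← nn_neg] at h3
  have h4 := nn_inj D h3
  have h00 := congrFun h4 0
  have h10 := congrFun h4 1
  simp only [Matrix.mulVec, dotProduct, Fin.sum_univ_two, Matrix.cons_val_zero,
    Matrix.cons_val_one, mul_zero, add_zero, Pi.neg_apply, neg_zero] at h00 h10
  have h00' : g.1 0 0 = 0 := (mul_eq_zero.1 h00).resolve_right hr0
  have h10' : g.1 1 0 = -r⁻¹ := by
    field_simp
    exact h10
  refine ⟨Units.mk0 r hr0, ?_⟩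
  rw [hg]
  congr 1
  ext i j
  rw [Matrix.SpecialLinearGroup.coe_mul]
  fin_cases i <;> fin_cases j
  · simp [slD, slW, Matrix.mul_apply, Fin.sum_univ_two, h00']
  · simp [slD, slW, Matrix.mul_apply, Fin.sum_univ_two, h01]
  · simp [slD, slW, Matrix.mul_apply, Fin.sum_univ_two, h10']
  · simp [slD, slW, Matrix.mul_apply, Fin.sum_univ_two, h11]

include D in
/-- The quotient map to `Out_F(Q)` is injective. -/
theorem out_inj {a b : F.aut Q} (h : (QuotientGroup.mk a : F.Out Q) = QuotientGroup.mk b) :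
    a = b := by
  rw [QuotientGroup.eq] at h
  obtain ⟨y, hy⟩ := Subgroup.mem_subgroupOf.1 h
  have h1 : (MulAut.conj y : MulAut Q) = 1 := by
    ext z
    have h2 := D.comm y y.2 z z.2
    change ((y : G) * z * (y : G)⁻¹) = z
    rw [h2, mul_inv_cancel_right]
  have h2 : a⁻¹ * b = 1 := Subtype.ext (by rw [← hy, h1]; rfl)
  exact inv_mul_eq_one.1 h2

/-- `SL_2(K) → Out_F(Q)`. -/
def toOut : Matrix.SpecialLinearGroup (Fin 2) D.K →* F.Out Q :=
  (QuotientGroup.mk' (F.inn Q)).comp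
    (D.θ.codRestrict (F.aut Q) (fun g => D.range_le ⟨g, rfl⟩))

theorem toOut_apply (g : Matrix.SpecialLinearGroup (Fin 2) D.K) :
    toOut D g = QuotientGroup.mk ⟨D.θ g, D.range_le ⟨g, rfl⟩⟩ := rfl

theorem toOut_injective : Function.Injective (toOut D) := by
  intro g g' h
  rw [toOut_apply, toOut_apply] at h
  exact D.inj (congrArg Subtype.val (out_inj D h))

theorem mk_conj (a : F.aut Q) {g g' : Matrix.SpecialLinearGroup (Fin 2) D.K}
    (h : (a : MulAut Q) * D.θ g * (a : MulAut Q)⁻¹ = D.θ g') :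
    (QuotientGroup.mk a : F.Out Q) * toOut D g * (QuotientGroup.mk a : F.Out Q)⁻¹ =
      toOut D g' := by
  rw [toOut_apply, toOut_apply, ← QuotientGroup.mk_mul, ← QuotientGroup.mk_inv,
    ← QuotientGroup.mk_mul]
  congr 1
  exact Subtype.ext h

theorem pow_p_eq_one [Fact p.Prime] {g : Matrix.SpecialLinearGroup (Fin 2) D.K}
    {w : Fin 2 → D.K} (hw : w ≠ 0) (h : Matrix.mulVec g.1 w = w) : g ^ p = 1 := by
  have h0 := congrFun h 0
  have h1 := congrFun h 1
  simp only [Matrix.mulVec, dotProduct, Fin.sum_univ_two] at h0 h1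
  have hdet := g.2
  rw [Matrix.det_fin_two] at hdet
  have hk : (g.1 0 0 - 1) * (g.1 1 1 - 1) - g.1 0 1 * g.1 1 0 = 0 := by
    by_cases hw0 : w 0 = 0
    · have hw1 : w 1 ≠ 0 := by
        intro hw1
        apply hw
        ext i
        fin_cases i
        · exact hw0
        · exact hw1
      have : ((g.1 0 0 - 1) * (g.1 1 1 - 1) - g.1 0 1 * g.1 1 0) * w 1 = 0 := by
        linear_combination (g.1 0 0 - 1) * h1 - g.1 1 0 * h0
      exact (mul_eq_zero.1 this).resolve_right hw1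
    · have : ((g.1 0 0 - 1) * (g.1 1 1 - 1) - g.1 0 1 * g.1 1 0) * w 0 = 0 := by
        linear_combination (g.1 1 1 - 1) * h0 - g.1 0 1 * h1
      exact (mul_eq_zero.1 this).resolve_right hw0
  have htr : g.1 0 0 + g.1 1 1 = 2 := by linear_combination hdet - hk
  have hsq : (g.1 - 1) ^ 2 = 0 := by
    rw [sq]
    ext i j
    fin_cases i <;> fin_cases j
    · simp [Matrix.mul_apply, Fin.sum_univ_two]
      linear_combination -hk + (g.1 0 0 - 1) * htr
    · simp [Matrix.mul_apply, Fin.sum_univ_two]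
      linear_combination g.1 0 1 * htr
    · simp [Matrix.mul_apply, Fin.sum_univ_two]
      linear_combination g.1 1 0 * htr
    · simp [Matrix.mul_apply, Fin.sum_univ_two]
      linear_combination -hk + (g.1 1 1 - 1) * htr
  have hp2 : 2 ≤ p := (Fact.out : p.Prime).two_le
  have hzero : (g.1 - 1) ^ p = 0 := by
    obtain ⟨m, rfl⟩ := Nat.exists_eq_add_of_le hp2
    rw [pow_add, hsq, zero_mul]
  have hsub : (g.1 - 1) ^ p = g.1 ^ p - 1 ^ p := sub_pow_char_of_commute p (Commute.one_right g.1)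
  rw [hzero, one_pow] at hsub
  apply Subtype.ext
  rw [Matrix.SpecialLinearGroup.coe_pow]
  exact (sub_eq_zero.1 hsub.symm)

/-- Elements of `Aut_F(Q)` which are restrictions of elements of `Aut_F(S)` normalise
`Aut_S(Q)`. -/
theorem conj_autS (hQS : Q ≤ S) {b : MulAut Q} {ψ : MulAut S}
    (h : ∀ z : Q, (b z : G) = ψ ⟨z, hQS z.2⟩) :
    ∀ t ∈ autS S Q, b * t * b⁻¹ ∈ autS S Q := by
  rintro t ⟨s, hs, ht⟩
  refine ⟨(ψ ⟨s, hs⟩ : G), (ψ ⟨s, hs⟩).2, fun x => ?_⟩
  show (b (t (b⁻¹ x)) : G) = _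
  rw [h (t (b⁻¹ x))]
  have h1 : (⟨(t (b⁻¹ x) : Q), hQS (t (b⁻¹ x)).2⟩ : S) =
      ⟨s, hs⟩ * ⟨(b⁻¹ x : Q), hQS (b⁻¹ x).2⟩ * (⟨s, hs⟩)⁻¹ := Subtype.ext (ht (b⁻¹ x))
  rw [h1, map_mul, map_mul, map_inv]
  have h2 : (ψ ⟨(b⁻¹ x : Q), hQS (b⁻¹ x).2⟩ : G) = x := by
    rw [← h (b⁻¹ x)]
    have h3 : b (b⁻¹ x) = x := MulAut.apply_inv_self Q b x
    exact congrArg Subtype.val h3
  show (ψ ⟨s, hs⟩ : G) * ψ ⟨(b⁻¹ x : Q), hQS (b⁻¹ x).2⟩ * (ψ ⟨s, hs⟩ : G)⁻¹ = _
  rw [h2]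

/-- The components in `C` and `V` of a fixed element are fixed. -/
theorem fixed_parts {b : MulAut Q} (hb : b ∈ F.aut Q) {c v : Q} (hc : c ∈ D.C) (hv : v ∈ D.V)
    (h : b (c * v) = c * v) : b c = c ∧ b v = v := by
  rw [map_mul] at h
  have h1 : c⁻¹ * b c = v * (b v)⁻¹ := by
    rw [inv_mul_eq_iff_eq_mul, ← mul_assoc, ← h, mul_inv_cancel_right]
  have h2 : c⁻¹ * b c ∈ D.V ⊓ D.C := by
    refine ⟨?_, D.C.mul_mem (D.C.inv_mem hc) (map_C D hb hc)⟩
    rw [h1]
    exact D.V.mul_mem hv (D.V.inv_mem (map_V D hb hv))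
  rw [D.inf, Subgroup.mem_bot] at h2
  have h3 : b c = c := (inv_mul_eq_one.1 h2).symm
  refine ⟨h3, ?_⟩
  rw [h3] at h
  exact mul_left_cancel h

theorem exists_parts (x : Q) : ∃ c ∈ D.C, ∃ w, x = c * nn D w := by
  have h1 : x ∈ D.V ⊔ D.C := by rw [D.sup]; exact Subgroup.mem_top x
  have hN : D.C.Normal := by
    refine ⟨fun c hc g => ?_⟩
    have h2 : g * c * g⁻¹ = c := by
      have h3 : g * c = c * g := Subtype.ext (D.comm g g.2 c c.2)
      rw [h3, mul_inv_cancel_right]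
    rw [h2]
    exact hc
  obtain ⟨v, hv, c, hc, rfl⟩ := Subgroup.mem_sup_of_normal_right.1 h1
  obtain ⟨w, rfl⟩ := exists_nn D hv
  exact ⟨c, hc, w, Subtype.ext (D.comm _ (nn D w).2 _ c.2)⟩

/-- Elements of `C_S(y)`, `y = c * nn e_2`, which normalise `Q` are in `Q`. -/
theorem cS_eq (hQE : F.Essential p Q) (hS : IsPGroup p S) [Fact p.Prime] {c : Q} (hc : c ∈ D.C) :
    cS S (Subgroup.zpowers ((c * nn D ![0, 1] : Q) : G)) = Q := by
  have hQS : Q ≤ S := hQE.1.1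
  set y : Q := c * nn D ![0, 1] with hy
  have hle : Q ≤ cS S (Subgroup.zpowers (y : G)) := by
    intro z hz
    rw [mem_cS_zpowers]
    exact ⟨hQS hz, D.comm _ y.2 _ hz⟩
  by_contra hne
  have hlt : Q < cS S (Subgroup.zpowers (y : G)) := lt_of_le_of_ne hle (fun h => hne h.symm)
  have hR : IsPGroup p (cS S (Subgroup.zpowers (y : G))) :=
    hS.to_le inf_le_left
  have h1 := lt_nS hR hlt
  obtain ⟨g, hg, hgQ⟩ := SetLike.exists_of_lt h1
  rw [mem_nS] at hg
  obtain ⟨hg1, hg2⟩ := hg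
  rw [mem_cS_zpowers] at hg1
  -- conjugation by g on Q
  let a : MulAut Q := MulEquiv.mk' ((MulAut.conj g).toEquiv.subtypeEquiv (fun z => hg2 z))
    (fun z z' => by apply Subtype.ext; simp)
  have ha : ∀ z : Q, (a z : G) = g * z * g⁻¹ := fun z => rfl
  have haS : a ∈ autS S Q := ⟨g, hg1.1, ha⟩
  obtain ⟨s, hs⟩ := (D.sylow a).1 haS
  have hay : a y = y := by
    apply Subtype.ext
    rw [ha, ← hg1.2, mul_inv_cancel_right]
  have haF : a ∈ F.aut Q := autS_le_aut F hQS haS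
  have h2 := (fixed_parts D haF hc (nn_mem D _) hay).2
  rw [hs, act_nn] at h2
  have h3 := congrFun (nn_inj D h2) 0
  have hs0 : s = 0 := by
    simpa [slU, Matrix.mulVec, dotProduct, Fin.sum_univ_two] using h3
  have h4 : slU D.K s = 1 := by
    rw [hs0]
    ext i j
    fin_cases i <;> fin_cases j <;> rfl
  rw [h4, map_one] at hs
  apply hgQ
  apply hQE.1.2 Q (FusionSystem.Conj.refl F hQS)
  rw [mem_cS]
  refine ⟨hg1.1, fun z hz => ?_⟩
  have h5 := ha ⟨z, hz⟩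
  rw [hs] at h5
  have h6 : z = g * z * g⁻¹ := h5
  calc z * g = (g * z * g⁻¹) * g := by rw [← h6]
    _ = g * z := by group

end CBA

variable {G : Type*} [Group G] [Finite G] {S : Subgroup G} (F : FusionSystem S)
  {k : Type*} [Field k] [IsAlgClosed k]

theorem bound_A (p : ℕ) [Fact p.Prime] [CharP k p] (hS : IsPGroup p S) (hF : F.Saturated p)
    (hE : NoCentricBelow F p) (α : ∀ P : Subgroup G, Cocycle (F.Out P) k) (hα : Compatible F α)
    {Q : Subgroup G} (hQ : F.Essential p Q) (hA : TypeA F p Q) (x : S) (hxQ : (x : G) ∈ Q)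
    (hz : zNum (TwAlg (centFam F α x Q)) ≠ 0) :
    (⟨x, hxQ⟩ : Q) ∈ fixQ F p Q ∧
    ∃ (y : S) (hy : (y : G) ∈ Q), (⟨x, hxQ⟩ : Q)⁻¹ * ⟨y, hy⟩ ∈ comQ F p Q ∧
      cS S (Subgroup.zpowers (y : G)) = Q ∧
      zNum (TwAlg (centFam F α x Q)) ≤ lam F α y := by
  classical
  obtain ⟨D⟩ := exists_dataA F p hS hF hQ hA
  have hQS : Q ≤ S := hQ.1.1
  have hxc : ∀ y ∈ Q, y * (x : G) = x * y := fun y hy => D.comm y hy x hxQ
  obtain ⟨hmem, hzN⟩ := zNum_centFam F α x hQS hxQ hxc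
  -- (1) `x` is in `C`
  have hxC : (⟨x, hxQ⟩ : Q) ∈ D.C := by
    by_contra hxC
    apply hz
    rw [hzN]
    obtain ⟨c, hc, w, hxw⟩ := CBA.exists_parts D ⟨x, hxQ⟩
    have hw : w ≠ 0 := by
      rintro rfl
      rw [CBA.nn_zero, mul_one] at hxw
      exact hxC (by rw [hxw]; exact hc)
    have hfix : ∀ g, D.θ g ⟨x, hxQ⟩ = ⟨x, hxQ⟩ ↔ Matrix.mulVec g.1 w = w := by
      intro g
      rw [hxw, map_mul, D.triv g c hc, CBA.act_nn]
      constructor
      · intro h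
        exact CBA.nn_inj D (mul_left_cancel h)
      · intro h
        rw [h]
    have hH : ∀ g, CBA.toOut D g ∈ (F.centOut x Q).range ↔ Matrix.mulVec g.1 w = w := by
      intro g
      rw [hmem, ← hfix]
      constructor
      · rintro ⟨a, ha, hag⟩
        rw [CBA.toOut_apply] at hag
        have h1 := CBA.out_inj D hag
        rw [h1] at ha
        exact Subtype.ext ha
      · intro h
        exact ⟨⟨D.θ g, D.range_le ⟨g, rfl⟩⟩, congrArg Subtype.val h, rfl⟩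
    have hnormal : (CBA.toOut D).range.Normal := by
      refine ⟨?_⟩
      rintro _ ⟨g, rfl⟩ o
      obtain ⟨a, rfl⟩ := QuotientGroup.mk_surjective o
      obtain ⟨g', hg'⟩ := CBA.exists_conj D a.2 g
      exact ⟨g', (CBA.mk_conj D a hg').symm⟩
    have hnormal' := hnormal.subgroupOf (F.centOut x Q).range
    refine zNum_eq_zero p _ ((CBA.toOut D).range.subgroupOf (F.centOut x Q).range) ?_ ?_
    · intro u
      obtain ⟨g, hg⟩ := Subgroup.mem_subgroupOf.1 u.2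
      refine ⟨1, ?_⟩
      have h1 : Matrix.mulVec g.1 w = w := (hH g).1 (by rw [hg]; exact u.1.2)
      have h2 := CBA.pow_p_eq_one D hw h1
      apply Subtype.ext
      apply Subtype.ext
      rw [pow_one]
      change ((u : (F.centOut x Q).range) : F.Out Q) ^ p = 1
      rw [← hg, ← map_pow, h2, map_one]
    · intro hbot
      let g : Matrix.SpecialLinearGroup (Fin 2) D.K :=
        ⟨!![1 - w 0 * w 1, w 0 * w 0; -(w 1 * w 1), 1 + w 0 * w 1], by
          rw [Matrix.det_fin_two_of]; ring⟩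
      have hg : Matrix.mulVec g.1 w = w := by
        ext i
        fin_cases i
        · simp [g, Matrix.mulVec, dotProduct, Fin.sum_univ_two]
          ring
        · simp [g, Matrix.mulVec, dotProduct, Fin.sum_univ_two]
          ring
      have h1 : (⟨CBA.toOut D g, (hH g).2 hg⟩ : (F.centOut x Q).range) ∈
          (CBA.toOut D).range.subgroupOf (F.centOut x Q).range :=
        Subgroup.mem_subgroupOf.2 ⟨g, rfl⟩
      rw [hbot, Subgroup.mem_bot] at h1
      have h2 : CBA.toOut D g = 1 := congrArg Subtype.val h1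
      have h3 : g = 1 := CBA.toOut_injective D (h2.trans (map_one _).symm)
      have h4 : w 0 * w 0 = 0 :=
        congrArg (fun g : Matrix.SpecialLinearGroup (Fin 2) D.K => g.1 0 1) h3
      have h5 : -(w 1 * w 1) = 0 :=
        congrArg (fun g : Matrix.SpecialLinearGroup (Fin 2) D.K => g.1 1 0) h3
      apply hw
      ext i
      fin_cases i
      · exact mul_self_eq_zero.1 h4
      · exact mul_self_eq_zero.1 (neg_eq_zero.1 h5)
  refine ⟨by rw [D.fix]; exact hxC, ?_⟩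
  -- (2) the element `y`
  let e2 : Q := CBA.nn D ![0, 1]
  let y : S := ⟨(x : G) * e2, S.mul_mem x.2 (hQS e2.2)⟩
  have hyQ : (y : G) ∈ Q := Q.mul_mem hxQ e2.2
  have hyeq : (⟨y, hyQ⟩ : Q) = ⟨x, hxQ⟩ * e2 := rfl
  have hyc : cS S (Subgroup.zpowers (y : G)) = Q := CBA.cS_eq D hQ hS hxC
  refine ⟨y, hyQ, ?_, hyc, ?_⟩
  · rw [hyeq, inv_mul_cancel_left, D.com]
    exact CBA.nn_mem D _
  -- (3) the group `N`
  let N0 : Subgroup (F.aut Q) :=
    { carrier := {c | ((c : MulAut Q) ⟨x, hxQ⟩ = ⟨x, hxQ⟩ ∧ (c : MulAut Q) e2 = e2) ∧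
        ∀ v, (c : MulAut Q) v ∈ CBA.line D ↔ v ∈ CBA.line D}
      one_mem' := ⟨⟨rfl, rfl⟩, fun v => Iff.rfl⟩
      mul_mem' := by
        rintro a b ⟨⟨ha1, ha2⟩, ha3⟩ ⟨⟨hb1, hb2⟩, hb3⟩
        refine ⟨⟨?_, ?_⟩, fun v => ?_⟩
        · show (a : MulAut Q) ((b : MulAut Q) _) = _
          rw [hb1, ha1]
        · show (a : MulAut Q) ((b : MulAut Q) _) = _
          rw [hb2, ha2]
        · show (a : MulAut Q) ((b : MulAut Q) v) ∈ _ ↔ _
          rw [ha3, hb3]
      inv_mem' := by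
        rintro a ⟨⟨ha1, ha2⟩, ha3⟩
        have hinv : ∀ v, (a : MulAut Q) (((a⁻¹ : F.aut Q) : MulAut Q) v) = v :=
          fun v => MulAut.apply_inv_self Q (a : MulAut Q) v
        refine ⟨⟨?_, ?_⟩, fun v => ?_⟩
        · apply (a : MulAut Q).injective
          rw [hinv, ha1]
        · apply (a : MulAut Q).injective
          rw [hinv, ha2]
        · rw [← ha3, hinv] }
  let N : Subgroup (F.Out Q) := N0.map (QuotientGroup.mk' (F.inn Q))
  have hN : ∀ o ∈ N, ∃ c : F.aut Q, (((c : MulAut Q) ⟨x, hxQ⟩ = ⟨x, hxQ⟩ ∧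
      (c : MulAut Q) e2 = e2) ∧ ∀ v, (c : MulAut Q) v ∈ CBA.line D ↔ v ∈ CBA.line D) ∧
      (QuotientGroup.mk c : F.Out Q) = o := by
    rintro o ⟨c, hc, hco⟩
    exact ⟨c, hc, hco⟩
  have hN' : ∀ c : F.aut Q, (((c : MulAut Q) ⟨x, hxQ⟩ = ⟨x, hxQ⟩ ∧
      (c : MulAut Q) e2 = e2) ∧ ∀ v, (c : MulAut Q) v ∈ CBA.line D ↔ v ∈ CBA.line D) →
      (QuotientGroup.mk c : F.Out Q) ∈ N := fun c hc => ⟨c, hc, rfl⟩
  have hNH : N ≤ (F.centOut x Q).range := by
    intro o ho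
    obtain ⟨c, hc, hco⟩ := hN o ho
    rw [hmem]
    exact ⟨c, congrArg Subtype.val hc.1.1, hco⟩
  have hL : ∀ g, CBA.toOut D g ∈ (F.centOut x Q).range := by
    intro g
    rw [hmem]
    refine ⟨⟨D.θ g, D.range_le ⟨g, rfl⟩⟩, ?_, rfl⟩
    exact congrArg Subtype.val (D.triv g _ hxC)
  have hUline : CBA.nn D ![1, 0] ∈ CBA.line D := ⟨1, rfl⟩
  -- (4) the Steinberg bound
  have hst : zNum (TwAlg ((α Q).comap (F.centOut x Q).range.subtype)) ≤
      lNum (TwAlg (((α Q).comap (F.centOut x Q).range.subtype).comap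
        (N.subgroupOf (F.centOut x Q).range).subtype)) := by
    refine zNum_le_steinberg p D.K _ ((CBA.toOut D).codRestrict _ hL) ?_ _ ?_ ?_ ?_
    · intro g g' h
      exact CBA.toOut_injective D (congrArg Subtype.val h)
    · rintro ⟨o, ho⟩
      obtain ⟨a, hax, hao⟩ := (hmem o).1 ho
      obtain ⟨l, c, hc, hac, hc2, hc3⟩ := CBA.exists_decomp D a.2
      have hcx : c ⟨x, hxQ⟩ = ⟨x, hxQ⟩ := by
        have h1 : (a : MulAut Q) ⟨x, hxQ⟩ = ⟨x, hxQ⟩ := Subtype.ext hax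
        rw [hac] at h1
        have h2 : D.θ l (c ⟨x, hxQ⟩) = D.θ l ⟨x, hxQ⟩ := by
          rw [D.triv l _ hxC]
          exact h1
        exact (D.θ l).injective h2
      have hcN : (QuotientGroup.mk (⟨c, hc⟩ : F.aut Q) : F.Out Q) ∈ N :=
        hN' ⟨c, hc⟩ ⟨⟨hcx, hc2⟩, hc3⟩
      refine ⟨l, ⟨_, hNH hcN⟩, Subgroup.mem_subgroupOf.2 hcN, ?_⟩
      apply Subtype.ext
      show o = CBA.toOut D l * QuotientGroup.mk (⟨c, hc⟩ : F.aut Q)
      rw [← hao, CBA.toOut_apply, ← QuotientGroup.mk_mul]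
      congr 1
      exact Subtype.ext hac
    · rintro κ hκ s
      obtain ⟨c, hc, hco⟩ := hN _ (Subgroup.mem_subgroupOf.1 hκ)
      obtain ⟨s', hs'⟩ := CBA.exists_slU D c.2 ((hc.2 _).2 hUline) s
      refine ⟨s', Subtype.ext ?_⟩
      have h1 := CBA.mk_conj D c hs'
      rw [hco] at h1
      exact h1
    · rintro κ hκ
      obtain ⟨c, hc, hco⟩ := hN _ (Subgroup.mem_subgroupOf.1 hκ)
      obtain ⟨t, ht⟩ := CBA.exists_slW D c.2 hc.1.2 hc.2
      refine ⟨t, Subtype.ext ?_⟩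
      have h1 := CBA.mk_conj D c ht
      rw [hco] at h1
      exact h1
  -- (5) from `N.subgroupOf H` to `N`
  have htr : lNum (TwAlg (((α Q).comap (F.centOut x Q).range.subtype).comap
        (N.subgroupOf (F.centOut x Q).range).subtype)) ≤
      lNum (TwAlg ((α Q).comap N.subtype)) := by
    let π := (Subgroup.subgroupOfEquivOfLe hNH).toMonoidHom
    have hπ : Function.Bijective π := (Subgroup.subgroupOfEquivOfLe hNH).bijective
    have hker : IsPGroup p π.ker := by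
      rw [(MonoidHom.ker_eq_bot_iff π).2 hπ.1]
      exact IsPGroup.of_bot
    refine lNum_comp p π hπ.2 hker (MonoidHom.id _) (fun z => ⟨z, rfl⟩) _ _ ⟨fun _ => 1, ?_⟩
    intro a b
    simp only [mul_one, inv_one]
    rfl
  -- (6) the comparison with `λ(y)`
  rw [hzN]
  have hQiff : ∀ z : G, z ∈ Q ↔ z ∈ S ∧ (y : G) * z = z * y := by
    intro z
    have h1 := mem_cS_zpowers (S := S) (x := (y : G)) (g := z)
    rwa [hyc] at h1
  have hstab : ∀ a : F.aut S, (a : MulAut S) y = y → ∀ z : S, (z : G) ∈ Q →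
      ((a : MulAut S) z : G) ∈ Q := by
    intro a hay z hz'
    rw [hQiff] at hz' ⊢
    refine ⟨((a : MulAut S) z).2, ?_⟩
    have h1 : y * z = z * y := Subtype.ext hz'.2
    have h2 := congrArg (a : MulAut S) h1
    rw [map_mul, map_mul, hay] at h2
    exact congrArg Subtype.val h2
  refine hst.trans (htr.trans (lNum_le_lam F p hS α hα y hQ.1 (fun a ha => hstab a ha) N ?_ ?_))
  · intro a ha
    have hay : (a : MulAut S) y = y := ha
    have haS : (a : MulAut S) ∈ F.iso S S := (F.mem_aut le_rfl _).1 a.2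
    obtain ⟨Q', ψ, hψ, hψa⟩ := F.exists_res haS hQS
    have hQ' : Q' = Q := by
      refine Subgroup.eq_of_le_of_card_ge ?_ (Nat.card_congr ψ.toEquiv).le
      intro q hq
      have h1 := hψa (ψ.symm ⟨q, hq⟩)
      rw [MulEquiv.apply_symm_apply] at h1
      have h2 : q = ((a : MulAut S) ⟨(ψ.symm ⟨q, hq⟩ : Q), hQS (ψ.symm ⟨q, hq⟩).2⟩ : G) := h1
      rw [h2]
      exact hstab a hay _ (ψ.symm ⟨q, hq⟩).2
    subst hQ'
    have hψF : (ψ : MulAut Q') ∈ F.aut Q' := (F.mem_aut hQS _).2 hψ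
    refine ⟨⟨ψ, hψF⟩, hψa, hN' _ ?_⟩
    have hψy : ψ (⟨x, hxQ⟩ * e2) = ⟨x, hxQ⟩ * e2 := by
      apply Subtype.ext
      rw [hψa]
      exact congrArg Subtype.val hay
    obtain ⟨h1, h2⟩ := CBA.fixed_parts D hψF hxC (CBA.nn_mem D _) hψy
    refine ⟨⟨h1, h2⟩, CBA.line_iff D hψF ?_⟩
    intro s
    have h3 : (ψ : MulAut Q') * D.θ (slU D.K s) * (ψ : MulAut Q')⁻¹ ∈ autS S Q' :=
      CBA.conj_autS hQS hψa _ ((D.sylow _).2 ⟨s, rfl⟩)
    exact (D.sylow _).1 h3
  · intro o ho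
    obtain ⟨c, hc, hco⟩ := hN o ho
    have hcF : (c : MulAut Q) ∈ F.iso Q Q := (F.mem_aut hQS _).1 c.2
    have hnlt := essential_lt_nS F p hS hF hQ
    have hfc : F.FullyCentralized Q := (hF.sylow Q hQS hQ.2.1).1
    obtain ⟨R', ψ, hψ, hψc⟩ := hF.extend Q Q (nS S Q) c (le_nS hQS) hcF hfc inf_le_left (by
      intro g hg
      rw [mem_nS] at hg
      let a : MulAut Q := MulEquiv.mk' ((MulAut.conj g).toEquiv.subtypeEquiv (fun z => hg.2 z))
        (fun z z' => by apply Subtype.ext; simp)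
      have haS : a ∈ autS S Q := ⟨g, hg.1, fun z => rfl⟩
      obtain ⟨s, hs⟩ := (D.sylow a).1 haS
      obtain ⟨s', hs'⟩ := CBA.exists_slU D c.2 ((hc.2 _).2 hUline) s
      obtain ⟨h, hh, hhs⟩ := (D.sylow _).2 ⟨s', rfl⟩
      refine ⟨h, hh, fun z => ⟨(hg.2 z).1 z.2, ?_⟩⟩
      have h1 : (⟨g * z * g⁻¹, (hg.2 z).1 z.2⟩ : Q) = a z := rfl
      rw [h1, hs, ← CBA.conj_apply D hs', hhs])
    have hPc : F.Centric (nS S Q) := hQ.1.mono (le_nS hQS) inf_le_left
    have hPE : ¬ F.Essential p (nS S Q) := fun h =>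
      hnlt.ne (hE _ h Q hQ.1 (le_nS hQS))
    obtain ⟨χ, hχ, hχψ⟩ := ext_of_not_essential F p hS hF hE ψ hψ hPc hPE
    have hres : ∀ z : Q, ((c : MulAut Q) z : G) = χ ⟨z, hQS z.2⟩ := by
      intro z
      rw [← hψc z, hχψ]
    refine ⟨⟨χ, (F.mem_aut le_rfl _).2 hχ⟩, ?_, c, hres, hco⟩
    show χ y = y
    apply Subtype.ext
    have h1 := hres ⟨y, hyQ⟩
    rw [hyeq, map_mul, hc.1.1, hc.1.2] at h1
    exact h1.symm

end MNF
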