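import Pool.Agent.W_0649d4.CTypeAData

/-! TASK CTypeB: structure of essential subgroups of type (B) (blueprint, section TB). -/

namespace MNF

variable {G : Type*} [Group G] [Finite G] {S : Subgroup G} (F : FusionSystem S)

/-- Data for type (B). `e : Q → F_p²` is the quotient map modulo the centre, `ρ` the action of
`Out_F(Q)`; `Out_S(Q)` corresponds to the upper unipotent matrices. -/
structure DataB (F : FusionSystem S) (p : ℕ) [Fact p.Prime] (Q : Subgroup G) where
  e : Q →* Multiplicative (Fin 2 → ZMod p)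
  ρ : F.Out Q →* Matrix.GeneralLinearGroup (Fin 2) (ZMod p)
  surj : Function.Surjective e
  ker : e.ker = Subgroup.center Q
  inj : Function.Injective ρ
  act : ∀ (a : F.aut Q) (q : Q), Multiplicative.toAdd (e ((a : MulAut Q) q)) =
    Matrix.mulVec (ρ (QuotientGroup.mk a)).1 (Multiplicative.toAdd (e q))
  sl : ∀ g : Matrix.SpecialLinearGroup (Fin 2) (ZMod p), ∃ o, (ρ o).1 = g.1
  sylow : ∀ a : F.aut Q, (a : MulAut Q) ∈ autS S Q ↔ ∃ s, (ρ (QuotientGroup.mk a)).1 = (slU (ZMod p) s).1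
  /-- an automorphism acting with determinant one acts trivially on the centre -/
  cent : ∀ a : F.aut Q, (ρ (QuotientGroup.mk a)).1.det = 1 → ∀ z ∈ Subgroup.center Q,
    (a : MulAut Q) z = z
  /-- `Z(Q) = Z(S)` -/
  center : ∀ z : Q, z ∈ Subgroup.center Q ↔ ∀ s ∈ S, (s : G) * z = z * s
  card : Nat.card (Subgroup.center Q) = p
  /-- commutators with a noncentral element fill the centre -/
  fill : ∀ y : Q, y ∉ Subgroup.center Q → ∀ z ∈ Subgroup.center Q, ∃ q : Q, q * y * q⁻¹ = y * z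

section

section Extra

variable {Q : Type*} [Group Q] [Finite Q] {p : ℕ} [Fact p.Prime]

private theorem tb_center (h3 : Nat.card Q = p ^ 3) (hn : ¬ ∀ x y : Q, x * y = y * x) :
    Nat.card (Subgroup.center Q) = p := by
  have hp := (Fact.out : p.Prime)
  have hQ : IsPGroup p Q := IsPGroup.of_card h3
  have hnt : Nontrivial Q := by
    rw [← Finite.one_lt_card_iff_nontrivial, h3]
    exact Nat.one_lt_pow (by norm_num) hp.one_lt
  have hc : Nontrivial (Subgroup.center Q) := hQ.center_nontrivial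
  have hdvd : Nat.card (Subgroup.center Q) ∣ p ^ 3 := by
    rw [← h3]; exact Subgroup.card_subgroup_dvd_card _
  obtain ⟨k, hk, hk2⟩ := (Nat.dvd_prime_pow hp).1 hdvd
  have hmul := Subgroup.card_eq_card_quotient_mul_card_subgroup (Subgroup.center Q)
  rw [h3, hk2] at hmul
  have hcomm : IsCyclic (Q ⧸ Subgroup.center Q) → False := by
    intro hcyc
    apply hn
    intro x y
    exact commutative_of_cyclic_center_quotient (QuotientGroup.mk' (Subgroup.center Q))
      (by rw [QuotientGroup.ker_mk']) x y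
  interval_cases k
  · exfalso
    have := Finite.one_lt_card_iff_nontrivial.2 hc
    rw [hk2] at this
    simp at this
  · simpa using hk2
  · exfalso
    apply hcomm
    have h1 : Nat.card (Q ⧸ Subgroup.center Q) = p := by
      have h2 : p * p ^ 2 = Nat.card (Q ⧸ Subgroup.center Q) * p ^ 2 := by
        rw [← hmul]; ring
      exact (Nat.eq_of_mul_eq_mul_right (pow_pos hp.pos 2) h2).symm
    exact isCyclic_of_prime_card h1
  · exfalso
    apply hcomm
    have h1 : Nat.card (Q ⧸ Subgroup.center Q) = 1 := by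
      have h2 : 1 * p ^ 3 = Nat.card (Q ⧸ Subgroup.center Q) * p ^ 3 := by
        rw [← hmul]; ring
      exact (Nat.eq_of_mul_eq_mul_right (pow_pos hp.pos 3) h2).symm
    have : Subsingleton (Q ⧸ Subgroup.center Q) := (Nat.card_eq_one_iff_unique.1 h1).1
    infer_instance

private theorem tb_quot (h3 : Nat.card Q = p ^ 3) (hn : ¬ ∀ x y : Q, x * y = y * x) :
    Nat.card (Q ⧸ Subgroup.center Q) = p ^ 2 := by
  have hp := (Fact.out : p.Prime)
  have hmul := Subgroup.card_eq_card_quotient_mul_card_subgroup (Subgroup.center Q)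
  rw [h3, tb_center h3 hn] at hmul
  have h2 : p ^ 2 * p = Nat.card (Q ⧸ Subgroup.center Q) * p := by
    rw [← hmul]; ring
  exact (Nat.eq_of_mul_eq_mul_right hp.pos h2).symm

private theorem tb_comm (h3 : Nat.card Q = p ^ 3) (hn : ¬ ∀ x y : Q, x * y = y * x) (x y : Q) :
    x * y * x⁻¹ * y⁻¹ ∈ Subgroup.center Q := by
  have h1 := IsPGroup.commutative_of_card_eq_prime_sq (tb_quot h3 hn)
  have h2 := h1 (QuotientGroup.mk x) (QuotientGroup.mk y)
  rw [← QuotientGroup.eq_one_iff]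
  simp only [QuotientGroup.mk_mul, QuotientGroup.mk_inv]
  rw [h2]
  group

private theorem tb_pow (h3 : Nat.card Q = p ^ 3) (hn : ¬ ∀ x y : Q, x * y = y * x) (x : Q) :
    x ^ p ∈ Subgroup.center Q := by
  have hp := (Fact.out : p.Prime)
  have hq := tb_quot h3 hn
  rw [← QuotientGroup.eq_one_iff, QuotientGroup.mk_pow]
  rw [← orderOf_dvd_iff_pow_eq_one]
  have h1 : orderOf (QuotientGroup.mk x : Q ⧸ Subgroup.center Q) ∣ p ^ 2 := by
    rw [← hq]; exact orderOf_dvd_natCard _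
  obtain ⟨k, hk, hk2⟩ := (Nat.dvd_prime_pow hp).1 h1
  interval_cases k
  · rw [hk2]; simp
  · rw [hk2]; simp
  · exfalso
    have hcyc : IsCyclic (Q ⧸ Subgroup.center Q) :=
      isCyclic_of_orderOf_eq_card (QuotientGroup.mk x) (by rw [hk2, hq])
    apply hn
    intro x y
    exact commutative_of_cyclic_center_quotient (QuotientGroup.mk' (Subgroup.center Q))
      (by rw [QuotientGroup.ker_mk']) x y

/-- `q ↦ [q, y]` as a homomorphism into the centre. -/
private def tbk0 (hc : ∀ x y : Q, x * y * x⁻¹ * y⁻¹ ∈ Subgroup.center Q) (y : Q) :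
    Q →* Subgroup.center Q where
  toFun x := ⟨x * y * x⁻¹ * y⁻¹, hc x y⟩
  map_one' := by
    apply Subtype.ext
    simp
  map_mul' a b := by
    apply Subtype.ext
    have h1 := (Subgroup.mem_center_iff.1 (hc b y)) a
    change a * b * y * (a * b)⁻¹ * y⁻¹ = (a * y * a⁻¹ * y⁻¹) * (b * y * b⁻¹ * y⁻¹)
    have h2 := (Subgroup.mem_center_iff.1 (hc b y)) (a * y * a⁻¹ * y⁻¹)
    rw [h2]
    calc a * b * y * (a * b)⁻¹ * y⁻¹ = a * (b * y * b⁻¹ * y⁻¹) * (y * a⁻¹ * y⁻¹) := by group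
      _ = (b * y * b⁻¹ * y⁻¹) * a * (y * a⁻¹ * y⁻¹) := by rw [h1]
      _ = (b * y * b⁻¹ * y⁻¹) * (a * y * a⁻¹ * y⁻¹) := by group

private theorem tb_fill (h3 : Nat.card Q = p ^ 3) (hn : ¬ ∀ x y : Q, x * y = y * x) (y : Q)
    (hy : y ∉ Subgroup.center Q) (z : Q) (hz : z ∈ Subgroup.center Q) :
    ∃ q : Q, q * y * q⁻¹ = y * z := by
  have hp := (Fact.out : p.Prime)
  let κ := tbk0 (tb_comm h3 hn) y
  have : Fact (Nat.card (Subgroup.center Q)).Prime := ⟨by rw [tb_center h3 hn]; exact hp⟩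
  rcases Subgroup.eq_bot_or_eq_top_of_prime_card κ.range with h | h
  · exfalso
    apply hy
    rw [Subgroup.mem_center_iff]
    intro g
    have h1 : κ g ∈ κ.range := ⟨g, rfl⟩
    rw [h, Subgroup.mem_bot] at h1
    have h2 : g * y * g⁻¹ * y⁻¹ = 1 := congrArg Subtype.val h1
    have h4 : g * y * g⁻¹ = y := mul_inv_eq_one.1 h2
    exact mul_inv_eq_iff_eq_mul.1 h4
  · have h1 : (⟨z, hz⟩ : Subgroup.center Q) ∈ κ.range := by rw [h]; trivial
    obtain ⟨q, hq⟩ := h1
    refine ⟨q, ?_⟩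
    have h2 : q * y * q⁻¹ * y⁻¹ = z := congrArg Subtype.val hq
    have h4 : q * y * q⁻¹ = z * y := mul_inv_eq_iff_eq_mul.1 h2
    rw [h4, ← (Subgroup.mem_center_iff.1 hz) y]

end Extra

section Extra2

variable {Q : Type*} [Group Q] [Finite Q] {p : ℕ} [Fact p.Prime]

/-- an additive group of order `p²` and exponent `p` -/
private theorem tb_lin {V : Type*} [AddCommGroup V] [Module (ZMod p) V] [Finite V]
    (hV : Nat.card V = p ^ 2) (v : V) (hv : v ≠ 0) :
    ∃ f : V ≃+ (Fin 2 → ZMod p), f v = ![1, 0] := by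
  have hpp := (Fact.out : p.Prime)
  have hfin : Module.Finite (ZMod p) V := Module.Finite.of_finite
  have hfr : Module.finrank (ZMod p) V = 2 := by
    have h1 := Module.natCard_eq_pow_finrank (K := ZMod p) (V := V)
    rw [hV, Nat.card_zmod] at h1
    exact (Nat.pow_right_injective hpp.two_le h1).symm
  let g : V ≃ₗ[ZMod p] (Fin 2 → ZMod p) := LinearEquiv.ofFinrankEq _ _ (by rw [hfr]; simp)
  have hw : g v ≠ 0 := by
    intro h; exact hv (g.map_eq_zero_iff.1 h)
  set w := g v with hwdef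
  -- an invertible matrix with first column `w`
  obtain ⟨P, hP, hPw⟩ : ∃ P : Matrix (Fin 2) (Fin 2) (ZMod p), P.det ≠ 0 ∧ P.mulVec ![1, 0] = w := by
    by_cases h0 : w 0 = 0
    · have h1 : w 1 ≠ 0 := by
        intro h1
        apply hw
        funext i
        fin_cases i
        · exact h0
        · exact h1
      refine ⟨!![w 0, 1; w 1, 0], ?_, ?_⟩
      · rw [Matrix.det_fin_two_of]; simpa using h1
      · funext i
        fin_cases i <;> simp [Matrix.mulVec, dotProduct, Fin.sum_univ_two]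
    · refine ⟨!![w 0, 0; w 1, 1], ?_, ?_⟩
      · rw [Matrix.det_fin_two_of]; simpa using h0
      · funext i
        fin_cases i <;> simp [Matrix.mulVec, dotProduct, Fin.sum_univ_two]
  have hu : IsUnit P.det := isUnit_iff_ne_zero.2 hP
  have hinv : P⁻¹.mulVec w = ![1, 0] := by
    rw [← hPw, Matrix.mulVec_mulVec, Matrix.nonsing_inv_mul _ hu, Matrix.one_mulVec]
  let h : (Fin 2 → ZMod p) ≃+ (Fin 2 → ZMod p) :=
    { toFun := fun x => P⁻¹.mulVec x
      invFun := fun x => P.mulVec x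
      left_inv := fun x => by
        change P.mulVec (P⁻¹.mulVec x) = x
        rw [Matrix.mulVec_mulVec, Matrix.mul_nonsing_inv _ hu, Matrix.one_mulVec]
      right_inv := fun x => by
        change P⁻¹.mulVec (P.mulVec x) = x
        rw [Matrix.mulVec_mulVec, Matrix.nonsing_inv_mul _ hu, Matrix.one_mulVec]
      map_add' := fun x y => Matrix.mulVec_add _ _ _ }
  refine ⟨g.toAddEquiv.trans h, ?_⟩
  exact hinv

private theorem tb_e (hq : Nat.card (Q ⧸ Subgroup.center Q) = p ^ 2)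
    (hc : ∀ x y : Q, x * y * x⁻¹ * y⁻¹ ∈ Subgroup.center Q)
    (hpw : ∀ x : Q, x ^ p ∈ Subgroup.center Q) (x : Q) (hx : x ∉ Subgroup.center Q) :
    ∃ e : Q →* Multiplicative (Fin 2 → ZMod p), Function.Surjective e ∧
      e.ker = Subgroup.center Q ∧ Multiplicative.toAdd (e x) = ![1, 0] := by
  let _ : CommGroup (Q ⧸ Subgroup.center Q) :=
    { (inferInstance : Group (Q ⧸ Subgroup.center Q)) with
      mul_comm := by
        intro a b
        obtain ⟨a, rfl⟩ := QuotientGroup.mk_surjective a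
        obtain ⟨b, rfl⟩ := QuotientGroup.mk_surjective b
        rw [← QuotientGroup.mk_mul, ← QuotientGroup.mk_mul]
        have h1 := (QuotientGroup.eq_one_iff (N := Subgroup.center Q) _).2 (hc a b)
        have h2 : (QuotientGroup.mk (a * b) : Q ⧸ Subgroup.center Q) =
            QuotientGroup.mk (a * b * a⁻¹ * b⁻¹) * QuotientGroup.mk (b * a) := by
          rw [← QuotientGroup.mk_mul]
          congr 1
          group
        rw [h2, h1, one_mul] }
  let _ : Module (ZMod p) (Additive (Q ⧸ Subgroup.center Q)) := AddCommGroup.zmodModule (by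
      intro v
      obtain ⟨q, hq'⟩ := QuotientGroup.mk_surjective (Additive.toMul v)
      have h1 : (Additive.toMul v) ^ p = 1 := by
        rw [← hq', ← QuotientGroup.mk_pow]
        exact (QuotientGroup.eq_one_iff _).2 (hpw q)
      exact h1)
  obtain ⟨f, hf⟩ := tb_lin (p := p) (V := Additive (Q ⧸ Subgroup.center Q)) hq
    (Additive.ofMul (QuotientGroup.mk x)) (by
      intro h
      apply hx
      rw [← QuotientGroup.eq_one_iff]
      exact h)
  let e : Q →* Multiplicative (Fin 2 → ZMod p) :=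
    { toFun := fun q => Multiplicative.ofAdd (f (Additive.ofMul (QuotientGroup.mk q)))
      map_one' := by
        change Multiplicative.ofAdd (f 0) = 1
        rw [map_zero]; rfl
      map_mul' := fun a b => by
        change Multiplicative.ofAdd (f (Additive.ofMul (QuotientGroup.mk a) +
          Additive.ofMul (QuotientGroup.mk b))) = _
        rw [map_add]; rfl }
  refine ⟨e, ?_, ?_, hf⟩
  · intro v
    obtain ⟨w, hw⟩ := f.surjective (Multiplicative.toAdd v)
    obtain ⟨q, hq'⟩ := QuotientGroup.mk_surjective (Additive.toMul w)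
    refine ⟨q, ?_⟩
    change Multiplicative.ofAdd (f (Additive.ofMul (QuotientGroup.mk q))) = v
    rw [hq']
    change Multiplicative.ofAdd (f w) = v
    rw [hw]; rfl
  · ext q
    rw [MonoidHom.mem_ker, ← QuotientGroup.eq_one_iff (N := Subgroup.center Q)]
    constructor
    · intro h
      have h1 : f (Additive.ofMul (QuotientGroup.mk q)) = 0 := h
      exact f.map_eq_zero_iff.1 h1
    · intro h
      change Multiplicative.ofAdd (f (Additive.ofMul (QuotientGroup.mk q))) = 1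
      rw [h]
      change Multiplicative.ofAdd (f 0) = 1
      rw [map_zero]; rfl

end Extra2

section Mat

variable {Q : Type*} [Group Q] {p : ℕ} [Fact p.Prime]
  (e : Q →* Multiplicative (Fin 2 → ZMod p)) (hs : Function.Surjective e)

private theorem tb_map_center (a : MulAut Q) {z : Q} (hz : z ∈ Subgroup.center Q) :
    a z ∈ Subgroup.center Q := by
  rw [Subgroup.mem_center_iff] at hz ⊢
  intro g
  have h1 := congrArg a (hz (a.symm g))
  rw [map_mul, map_mul, MulEquiv.apply_symm_apply] at h1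
  exact h1

private theorem tb_mat_ext {A B : Matrix (Fin 2) (Fin 2) (ZMod p)}
    (h : ∀ v, A.mulVec v = B.mulVec v) : A = B := by
  ext i j
  have := congrFun (h (Pi.single j 1)) i
  simpa using this

private noncomputable def tbLift (v : Fin 2 → ZMod p) : Q := (hs (Multiplicative.ofAdd v)).choose

private theorem tbLift_spec (v : Fin 2 → ZMod p) :
    Multiplicative.toAdd (e (tbLift e hs v)) = v :=
  congrArg Multiplicative.toAdd (hs (Multiplicative.ofAdd v)).choose_spec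

/-- every element is `l₀^i l₁^j z` -/
private theorem tb_form (hk : e.ker = Subgroup.center Q) {l0 l1 : Q}
    (h0 : Multiplicative.toAdd (e l0) = ![1, 0]) (h1 : Multiplicative.toAdd (e l1) = ![0, 1])
    (q : Q) : ∃ z ∈ Subgroup.center Q, q = l0 ^ (Multiplicative.toAdd (e q) 0).val *
      l1 ^ (Multiplicative.toAdd (e q) 1).val * z := by
  set n0 := (Multiplicative.toAdd (e q) 0).val
  set n1 := (Multiplicative.toAdd (e q) 1).val
  refine ⟨(l0 ^ n0 * l1 ^ n1)⁻¹ * q, ?_, by group⟩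
  rw [← hk, MonoidHom.mem_ker]
  have h2 : Multiplicative.toAdd (e (l0 ^ n0 * l1 ^ n1)) = Multiplicative.toAdd (e q) := by
    rw [map_mul, map_pow, map_pow, toAdd_mul, toAdd_pow, toAdd_pow, h0, h1]
    funext i
    fin_cases i <;> simp [n0, n1]
  have h3 : e (l0 ^ n0 * l1 ^ n1) = e q := Multiplicative.toAdd.injective h2
  rw [map_mul, map_inv, h3, inv_mul_cancel]

private noncomputable def tbMat (a : MulAut Q) : Matrix (Fin 2) (Fin 2) (ZMod p) :=
  Matrix.of fun i j => Multiplicative.toAdd (e (a (tbLift e hs (Pi.single j 1)))) i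

private theorem tbMat_spec (hk : e.ker = Subgroup.center Q) (a : MulAut Q) (q : Q) :
    Multiplicative.toAdd (e (a q)) = (tbMat e hs a).mulVec (Multiplicative.toAdd (e q)) := by
  have h0 : Multiplicative.toAdd (e (tbLift e hs (Pi.single 0 1))) = ![1, 0] := by
    rw [tbLift_spec]
    funext i
    fin_cases i <;> simp
  have h1 : Multiplicative.toAdd (e (tbLift e hs (Pi.single 1 1))) = ![0, 1] := by
    rw [tbLift_spec]
    funext i
    fin_cases i <;> simp
  obtain ⟨z, hz, hq⟩ := tb_form e hk h0 h1 q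
  have hz' : e (a z) = 1 := by
    rw [← MonoidHom.mem_ker, hk]
    exact tb_map_center a hz
  have h2 : Multiplicative.toAdd (e (a q)) =
      (Multiplicative.toAdd (e q) 0).val • Multiplicative.toAdd (e (a (tbLift e hs (Pi.single 0 1))))
      + (Multiplicative.toAdd (e q) 1).val •
        Multiplicative.toAdd (e (a (tbLift e hs (Pi.single 1 1)))) := by
    conv_lhs => rw [hq]
    rw [map_mul a, map_mul a, map_pow a, map_pow a, map_mul e, map_mul e, map_pow e, map_pow e,
      hz', mul_one, toAdd_mul, toAdd_pow, toAdd_pow]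
  have hval : ∀ (c : ZMod p) (x : Fin 2 → ZMod p) (i : Fin 2), (c.val • x) i = c * x i := by
    intro c x i
    rw [Pi.smul_apply, nsmul_eq_mul, ZMod.natCast_zmod_val]
  rw [h2]
  funext i
  simp only [Matrix.mulVec, dotProduct, Fin.sum_univ_two, tbMat, Matrix.of_apply, Pi.add_apply,
    hval]
  ring

private theorem tbMat_unique (hk : e.ker = Subgroup.center Q) (a : MulAut Q)
    (A : Matrix (Fin 2) (Fin 2) (ZMod p))
    (h : ∀ q, Multiplicative.toAdd (e (a q)) = A.mulVec (Multiplicative.toAdd (e q))) :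
    tbMat e hs a = A := by
  apply tb_mat_ext
  intro v
  obtain ⟨q, hq⟩ := hs (Multiplicative.ofAdd v)
  have h1 : Multiplicative.toAdd (e q) = v := congrArg Multiplicative.toAdd hq
  rw [← h1, ← h, tbMat_spec e hs hk]

/-- the matrix of an automorphism, as a homomorphism -/
private noncomputable def tbM (hk : e.ker = Subgroup.center Q) :
    MulAut Q →* Matrix (Fin 2) (Fin 2) (ZMod p) where
  toFun := tbMat e hs
  map_one' := tbMat_unique e hs hk 1 1 (fun q => by rw [Matrix.one_mulVec]; rfl)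
  map_mul' a b := tbMat_unique e hs hk (a * b) _ (fun q => by
    rw [← Matrix.mulVec_mulVec, ← tbMat_spec e hs hk, ← tbMat_spec e hs hk]; rfl)

/-- `q ↦ [q, y]` as a homomorphism into the centre. -/
private def tbk (hc : ∀ x y : Q, x * y * x⁻¹ * y⁻¹ ∈ Subgroup.center Q) (y : Q) :
    Q →* Q where
  toFun x := x * y * x⁻¹ * y⁻¹
  map_one' := by simp
  map_mul' a b := by
    have h1 := (Subgroup.mem_center_iff.1 (hc b y)) a
    have h2 := (Subgroup.mem_center_iff.1 (hc b y)) (a * y * a⁻¹ * y⁻¹)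
    rw [h2]
    calc a * b * y * (a * b)⁻¹ * y⁻¹ = a * (b * y * b⁻¹ * y⁻¹) * (y * a⁻¹ * y⁻¹) := by group
      _ = (b * y * b⁻¹ * y⁻¹) * a * (y * a⁻¹ * y⁻¹) := by rw [h1]
      _ = (b * y * b⁻¹ * y⁻¹) * (a * y * a⁻¹ * y⁻¹) := by group

private theorem tbk_center (hc : ∀ x y : Q, x * y * x⁻¹ * y⁻¹ ∈ Subgroup.center Q) (y z : Q)
    (hz : z ∈ Subgroup.center Q) : tbk hc y z = 1 := by
  change z * y * z⁻¹ * y⁻¹ = 1
  rw [← (Subgroup.mem_center_iff.1 hz) y]
  group

private theorem tbk_inv (hc : ∀ x y : Q, x * y * x⁻¹ * y⁻¹ ∈ Subgroup.center Q) (x y : Q) :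
    tbk hc y x = (tbk hc x y)⁻¹ := by
  change x * y * x⁻¹ * y⁻¹ = (y * x * y⁻¹ * x⁻¹)⁻¹
  group

private theorem tbk_self (hc : ∀ x y : Q, x * y * x⁻¹ * y⁻¹ ∈ Subgroup.center Q) (x : Q) :
    tbk hc x x = 1 := by
  change x * x * x⁻¹ * x⁻¹ = 1
  group

private theorem tb_c_ne (hk : e.ker = Subgroup.center Q) {l0 l1 : Q}
    (h0 : Multiplicative.toAdd (e l0) = ![1, 0]) (h1 : Multiplicative.toAdd (e l1) = ![0, 1]) :
    l0 * l1 * l0⁻¹ * l1⁻¹ ≠ 1 := by
  intro h
  have hcom : l0 * l1 = l1 * l0 := by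
    have := mul_inv_eq_one.1 h
    exact mul_inv_eq_iff_eq_mul.1 this
  have hmem : l0 ∈ Subgroup.center Q := by
    rw [Subgroup.mem_center_iff]
    intro q
    obtain ⟨z, hz, hq⟩ := tb_form e hk h0 h1 q
    set n0 := (Multiplicative.toAdd (e q) 0).val
    set n1 := (Multiplicative.toAdd (e q) 1).val
    have hz' := (Subgroup.mem_center_iff.1 hz) l0
    have c1 : Commute l0 l1 := hcom
    have c2 : Commute l0 z := hz'
    have c3 : Commute l0 (l0 ^ n0 * l1 ^ n1 * z) :=
      (((Commute.refl l0).pow_right n0).mul_right (c1.pow_right n1)).mul_right c2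
    rw [hq]
    exact c3.eq.symm
  rw [← hk, MonoidHom.mem_ker] at hmem
  rw [hmem] at h0
  have := congrFun h0 0
  simp at this

/-- an automorphism which is trivial modulo the centre is inner -/
private theorem tb_inner (hk : e.ker = Subgroup.center Q)
    (hf : ∀ y : Q, y ∉ Subgroup.center Q → ∀ z ∈ Subgroup.center Q, ∃ q : Q, q * y * q⁻¹ = y * z)
    (hcen : ∀ c : Q, c ∈ Subgroup.center Q → c ≠ 1 → ∀ z ∈ Subgroup.center Q, ∃ n : ℕ, z = c ^ n)
    (hc : ∀ x y : Q, x * y * x⁻¹ * y⁻¹ ∈ Subgroup.center Q)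
    (a : MulAut Q) (ha : tbMat e hs a = 1) : ∃ q, a = MulAut.conj q := by
  obtain ⟨u, hu⟩ := hs (Multiplicative.ofAdd ![1, 0])
  obtain ⟨v, hv⟩ := hs (Multiplicative.ofAdd ![0, 1])
  have hu' : Multiplicative.toAdd (e u) = ![1, 0] := congrArg Multiplicative.toAdd hu
  have hv' : Multiplicative.toAdd (e v) = ![0, 1] := congrArg Multiplicative.toAdd hv
  have hae : ∀ q, e (a q) = e q := by
    intro q
    have h1 := tbMat_spec e hs hk a q
    rw [ha, Matrix.one_mulVec] at h1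
    exact Multiplicative.toAdd.injective h1
  have hz : ∀ q, ∃ z ∈ Subgroup.center Q, a q = q * z := by
    intro q
    refine ⟨q⁻¹ * a q, ?_, by group⟩
    rw [← hk, MonoidHom.mem_ker, map_mul, map_inv, hae, inv_mul_cancel]
  obtain ⟨z1, hz1, hau⟩ := hz u
  obtain ⟨z2, hz2, hav⟩ := hz v
  have hun : u ∉ Subgroup.center Q := by
    intro h
    rw [← hk, MonoidHom.mem_ker] at h
    rw [h] at hu'
    have := congrFun hu' 0
    simp at this
  have hvn : v ∉ Subgroup.center Q := by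
    intro h
    rw [← hk, MonoidHom.mem_ker] at h
    rw [h] at hv'
    have := congrFun hv' 1
    simp at this
  -- conjugation by a power of `u`
  obtain ⟨q1, hq1⟩ := hf v hvn z2 hz2
  obtain ⟨y1, hy1, hf1⟩ := tb_form e hk hu' hv' q1
  set i := (Multiplicative.toAdd (e q1) 0).val
  set j := (Multiplicative.toAdd (e q1) 1).val
  have hi : u ^ i * v * (u ^ i)⁻¹ = v * z2 := by
    rw [← hq1, hf1]
    have c1 : y1 * v = v * y1 := ((Subgroup.mem_center_iff.1 hy1) v).symm
    have c2 : v ^ j * v = v * v ^ j := (Commute.refl v).pow_left j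
    calc u ^ i * v * (u ^ i)⁻¹ = u ^ i * (v * v ^ j) * (v ^ j)⁻¹ * (u ^ i)⁻¹ := by group
      _ = u ^ i * (v ^ j * v) * (v ^ j)⁻¹ * (u ^ i)⁻¹ := by rw [c2]
      _ = u ^ i * v ^ j * (v * y1) * y1⁻¹ * (v ^ j)⁻¹ * (u ^ i)⁻¹ := by group
      _ = u ^ i * v ^ j * (y1 * v) * y1⁻¹ * (v ^ j)⁻¹ * (u ^ i)⁻¹ := by rw [c1]
      _ = u ^ i * v ^ j * y1 * v * (u ^ i * v ^ j * y1)⁻¹ := by group
  obtain ⟨q2, hq2⟩ := hf u hun z1 hz1
  obtain ⟨y2, hy2, hf2⟩ := tb_form e hk hu' hv' q2
  set i' := (Multiplicative.toAdd (e q2) 0).val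
  set j' := (Multiplicative.toAdd (e q2) 1).val
  have cz1 : ∀ g, g * z1 = z1 * g := Subgroup.mem_center_iff.1 hz1
  have hj : v ^ j' * u * (v ^ j')⁻¹ = u * z1 := by
    have c1 : y2 * u = u * y2 := ((Subgroup.mem_center_iff.1 hy2) u).symm
    have h3 : u ^ i' * (v ^ j' * u * (v ^ j')⁻¹) * (u ^ i')⁻¹ = u * z1 := by
      rw [← hq2, hf2]
      calc u ^ i' * (v ^ j' * u * (v ^ j')⁻¹) * (u ^ i')⁻¹
          = u ^ i' * v ^ j' * (u * y2) * y2⁻¹ * (v ^ j')⁻¹ * (u ^ i')⁻¹ := by group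
        _ = u ^ i' * v ^ j' * (y2 * u) * y2⁻¹ * (v ^ j')⁻¹ * (u ^ i')⁻¹ := by rw [c1]
        _ = u ^ i' * v ^ j' * y2 * u * (u ^ i' * v ^ j' * y2)⁻¹ := by group
    have c2 : u ^ i' * u = u * u ^ i' := (Commute.refl u).pow_left i'
    calc v ^ j' * u * (v ^ j')⁻¹
        = (u ^ i')⁻¹ * (u ^ i' * (v ^ j' * u * (v ^ j')⁻¹) * (u ^ i')⁻¹) * u ^ i' := by group
      _ = (u ^ i')⁻¹ * (u * z1) * u ^ i' := by rw [h3]
      _ = (u ^ i')⁻¹ * u * (z1 * u ^ i') := by group
      _ = (u ^ i')⁻¹ * u * (u ^ i' * z1) := by rw [← cz1]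
      _ = (u ^ i')⁻¹ * (u * u ^ i') * z1 := by group
      _ = (u ^ i')⁻¹ * (u ^ i' * u) * z1 := by rw [c2]
      _ = u * z1 := by group
  set w := u ^ i * v ^ j' with hw
  have hwu : w * u * w⁻¹ = u * z1 := by
    have c2 : u ^ i * u = u * u ^ i := (Commute.refl u).pow_left i
    calc w * u * w⁻¹ = u ^ i * (v ^ j' * u * (v ^ j')⁻¹) * (u ^ i)⁻¹ := by rw [hw]; group
      _ = u ^ i * (u * z1) * (u ^ i)⁻¹ := by rw [hj]
      _ = u ^ i * u * (z1 * (u ^ i)⁻¹) := by group
      _ = u ^ i * u * ((u ^ i)⁻¹ * z1) := by rw [← cz1]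
      _ = (u ^ i * u) * (u ^ i)⁻¹ * z1 := by group
      _ = (u * u ^ i) * (u ^ i)⁻¹ * z1 := by rw [c2]
      _ = u * z1 := by group
  have hwv : w * v * w⁻¹ = v * z2 := by
    have c2 : v ^ j' * v = v * v ^ j' := (Commute.refl v).pow_left j'
    calc w * v * w⁻¹ = u ^ i * (v ^ j' * v) * (v ^ j')⁻¹ * (u ^ i)⁻¹ := by rw [hw]; group
      _ = u ^ i * (v * v ^ j') * (v ^ j')⁻¹ * (u ^ i)⁻¹ := by rw [c2]
      _ = u ^ i * v * (u ^ i)⁻¹ := by group
      _ = v * z2 := hi
  have haz : ∀ z ∈ Subgroup.center Q, a z = z := by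
    intro z hz
    obtain ⟨n, hn⟩ := hcen _ (hc u v) (tb_c_ne e hk hu' hv') z hz
    have h4 : a (u * v * u⁻¹ * v⁻¹) = u * v * u⁻¹ * v⁻¹ := by
      rw [map_mul, map_mul, map_mul, map_inv, map_inv, hau, hav]
      have c3 : ∀ g, g * z2 = z2 * g := Subgroup.mem_center_iff.1 hz2
      calc u * z1 * (v * z2) * (u * z1)⁻¹ * (v * z2)⁻¹
          = u * (z1 * v) * z2 * z1⁻¹ * u⁻¹ * z2⁻¹ * v⁻¹ := by group
        _ = u * (v * z1) * z2 * z1⁻¹ * u⁻¹ * z2⁻¹ * v⁻¹ := by rw [← cz1]
        _ = u * v * (z1 * z2) * z1⁻¹ * u⁻¹ * z2⁻¹ * v⁻¹ := by group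
        _ = u * v * (z2 * z1) * z1⁻¹ * u⁻¹ * z2⁻¹ * v⁻¹ := by rw [c3]
        _ = u * v * (z2 * u⁻¹) * z2⁻¹ * v⁻¹ := by group
        _ = u * v * (u⁻¹ * z2) * z2⁻¹ * v⁻¹ := by rw [← c3]
        _ = u * v * u⁻¹ * v⁻¹ := by group
    rw [hn, map_pow, h4]
  refine ⟨w, ?_⟩
  ext q
  obtain ⟨z, hz, hq⟩ := tb_form e hk hu' hv' q
  set n0 := (Multiplicative.toAdd (e q) 0).val
  set n1 := (Multiplicative.toAdd (e q) 1).val
  rw [hq, map_mul, map_mul, map_pow, map_pow, haz z hz, hau, hav, map_mul, map_mul, map_pow,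
    map_pow, MulAut.conj_apply, MulAut.conj_apply, MulAut.conj_apply, hwu, hwv,
    (Subgroup.mem_center_iff.1 hz) w, mul_inv_cancel_right]

/-- an automorphism of determinant one is trivial on the centre -/
private theorem tb_det (hk : e.ker = Subgroup.center Q)
    (hcen : ∀ c : Q, c ∈ Subgroup.center Q → c ≠ 1 → ∀ z ∈ Subgroup.center Q, ∃ n : ℕ, z = c ^ n)
    (hcp : ∀ z ∈ Subgroup.center Q, z ^ p = 1)
    (hc : ∀ x y : Q, x * y * x⁻¹ * y⁻¹ ∈ Subgroup.center Q)
    (a : MulAut Q) (ha : (tbMat e hs a).det = 1) (z : Q) (hz : z ∈ Subgroup.center Q) :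
    a z = z := by
  obtain ⟨u, hu⟩ := hs (Multiplicative.ofAdd ![1, 0])
  obtain ⟨v, hv⟩ := hs (Multiplicative.ofAdd ![0, 1])
  have hu' : Multiplicative.toAdd (e u) = ![1, 0] := congrArg Multiplicative.toAdd hu
  have hv' : Multiplicative.toAdd (e v) = ![0, 1] := congrArg Multiplicative.toAdd hv
  obtain ⟨z1, hz1, hau⟩ := tb_form e hk hu' hv' (a u)
  obtain ⟨z2, hz2, hav⟩ := tb_form e hk hu' hv' (a v)
  rw [tbMat_spec e hs hk, hu'] at hau
  rw [tbMat_spec e hs hk, hv'] at hav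
  set A := tbMat e hs a with hA
  have e00 : (A.mulVec ![1, 0]) 0 = A 0 0 := by simp [Matrix.mulVec, dotProduct, Fin.sum_univ_two]
  have e10 : (A.mulVec ![1, 0]) 1 = A 1 0 := by simp [Matrix.mulVec, dotProduct, Fin.sum_univ_two]
  have e01 : (A.mulVec ![0, 1]) 0 = A 0 1 := by simp [Matrix.mulVec, dotProduct, Fin.sum_univ_two]
  have e11 : (A.mulVec ![0, 1]) 1 = A 1 1 := by simp [Matrix.mulVec, dotProduct, Fin.sum_univ_two]
  rw [e00, e10] at hau
  rw [e01, e11] at hav
  set i := (A 0 0).val with hi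
  set k := (A 1 0).val with hk'
  set j := (A 0 1).val with hj
  set l := (A 1 1).val with hl
  set c := u * v * u⁻¹ * v⁻¹ with hcdef
  have hcc : c ∈ Subgroup.center Q := hc u v
  have k1 : tbk hc v u = c := rfl
  have k2 : tbk hc u v = c⁻¹ := by rw [tbk_inv, k1]
  have k3 : tbk hc (a v) u = c ^ l := by
    rw [tbk_inv, hav, map_mul, map_mul, map_pow, map_pow, tbk_center hc u z2 hz2, tbk_self, k2,
      one_pow, one_mul, mul_one, inv_pow, inv_inv]
  have k4 : tbk hc (a v) v = (c ^ j)⁻¹ := by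
    rw [tbk_inv, hav, map_mul, map_mul, map_pow, map_pow, tbk_center hc v z2 hz2, tbk_self, k1,
      one_pow, mul_one, mul_one]
  have k5 : a c = c ^ ((i : ℤ) * l - j * k) := by
    have h1 : a c = tbk hc (a v) (a u) := by
      rw [hcdef, map_mul, map_mul, map_mul, map_inv, map_inv]
      rfl
    rw [h1, hau, map_mul, map_mul, map_pow, map_pow, tbk_center hc _ z1 hz1, k3, k4, mul_one,
      inv_pow, ← pow_mul, ← pow_mul, sub_eq_add_neg, zpow_add, zpow_neg]
    congr 1
    · rw [mul_comm l i]; exact_mod_cast rfl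
    · rw [← Nat.cast_mul, zpow_natCast]
  have k6 : a c = c := by
    have h1 : ((((i : ℤ) * l - j * k : ℤ)) : ZMod p) = ((1 : ℤ) : ZMod p) := by
      push_cast
      rw [hi, hk', hj, hl, ZMod.natCast_zmod_val, ZMod.natCast_zmod_val, ZMod.natCast_zmod_val,
        ZMod.natCast_zmod_val, ← Matrix.det_fin_two]
      exact ha
    rw [ZMod.intCast_eq_intCast_iff_dvd_sub] at h1
    obtain ⟨m, hm⟩ := h1
    have h2 : (i : ℤ) * l - j * k = 1 - p * m := by linarith
    rw [k5, h2, sub_eq_add_neg, zpow_add, zpow_one, zpow_neg, zpow_mul, zpow_natCast,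
      hcp c hcc, one_zpow, inv_one, mul_one]
  obtain ⟨n, hn⟩ := hcen _ hcc (tb_c_ne e hk hu' hv') z hz
  rw [hn, map_pow, k6]

end Mat

/-! ### conjugation on a subgroup -/

section Conj

variable {G : Type*} [Group G]

private def tbConj {Q : Subgroup G} (g : G) (h : ∀ x, x ∈ Q ↔ g * x * g⁻¹ ∈ Q) : MulAut Q :=
  MulEquiv.mk' ((MulAut.conj g).toEquiv.subtypeEquiv (fun x => h x)) (by
    intro a b
    apply Subtype.ext
    simp)

private theorem tbConj_apply {Q : Subgroup G} (g : G) (h : ∀ x, x ∈ Q ↔ g * x * g⁻¹ ∈ Q) (x : Q) :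
    (tbConj g h x : G) = g * x * g⁻¹ := rfl

private theorem tb_autS_isPGroup [Finite G] {S : Subgroup G} {p : ℕ} (hS : IsPGroup p S)
    (Q : Subgroup G) : IsPGroup p (autS S Q) := by
  rintro ⟨φ, s, hs, h⟩
  obtain ⟨n, hn⟩ := hS ⟨s, hs⟩
  refine ⟨n, ?_⟩
  have h1 : ∀ k : ℕ, ∀ x : Q, (((φ ^ k : MulAut Q)) x : G) = s ^ k * x * (s ^ k)⁻¹ := by
    intro k
    induction k with
    | zero => intro x; simp
    | succ k ih =>
      intro x
      rw [pow_succ, MulAut.mul_apply, ih, h, pow_succ]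
      group
  apply Subtype.ext
  ext x
  change (((φ ^ (p ^ n) : MulAut Q)) x : G) = x
  have h2 : s ^ (p ^ n) = 1 := congrArg Subtype.val hn
  rw [h1, h2]
  simp

end Conj

/-- upper unipotent matrices: powers -/
private theorem tb_slU_pow {p : ℕ} [Fact p.Prime] (s : ZMod p) (n : ℕ) :
    (slU (ZMod p) s).1 ^ n = (slU (ZMod p) (n * s)).1 := by
  induction n with
  | zero => simp [slU, Matrix.one_fin_two]
  | succ n ih =>
    rw [pow_succ, ih]
    simp only [slU, Matrix.mul_fin_two]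
    ext i j
    fin_cases i <;> fin_cases j <;> simp
    ring

private theorem tb_pow_eq_one {p : ℕ} [Fact p.Prime] {x : ZMod p} {n : ℕ} (h : x ^ p ^ n = 1) :
    x = 1 := by
  rwa [ZMod.pow_card_pow] at h

/-- an upper triangular matrix of `p`-power order is unipotent -/
private theorem tb_unip {p : ℕ} [Fact p.Prime] {A : Matrix (Fin 2) (Fin 2) (ZMod p)}
    (h10 : A 1 0 = 0) {n : ℕ} (h : A ^ p ^ n = 1) : ∃ s, A = (slU (ZMod p) s).1 := by
  have hpow : ∀ k : ℕ, (A ^ k) 1 0 = 0 ∧ (A ^ k) 0 0 = A 0 0 ^ k ∧ (A ^ k) 1 1 = A 1 1 ^ k := by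
    intro k
    induction k with
    | zero => simp
    | succ k ih =>
      obtain ⟨i1, i2, i3⟩ := ih
      rw [pow_succ]
      simp only [Matrix.mul_apply, Fin.sum_univ_two, i1, i2, i3, h10]
      refine ⟨by ring, by ring, by ring⟩
  obtain ⟨-, h2, h3⟩ := hpow (p ^ n)
  rw [h] at h2 h3
  have h4 : A 0 0 = 1 := tb_pow_eq_one (by rw [← h2]; simp)
  have h5 : A 1 1 = 1 := tb_pow_eq_one (by rw [← h3]; simp)
  refine ⟨A 0 1, ?_⟩
  ext i j
  fin_cases i <;> fin_cases j <;> simp [slU, h4, h5, h10]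

section Main

variable {G : Type*} [Group G] [Finite G] {S : Subgroup G} (F : FusionSystem S)

/-- the basis adapted to `Aut_S(Q)` -/
private theorem tb_basis {p : ℕ} [Fact p.Prime] (hS : IsPGroup p S) {Q : Subgroup G}
    (h3 : Nat.card Q = p ^ 3) (hn : ¬ ∀ x y : Q, x * y = y * x) :
    ∃ (e : Q →* Multiplicative (Fin 2 → ZMod p)) (hs : Function.Surjective e)
      (_ : e.ker = Subgroup.center Q), ∀ a ∈ autS S Q, ∃ s, tbMat e hs a = (slU (ZMod p) s).1 := by
  have hp := (Fact.out : p.Prime)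
  have hc := tb_comm h3 hn
  -- some element outside the centre
  obtain ⟨x0, hx0⟩ : ∃ x : Q, x ∉ Subgroup.center Q := by
    by_contra hcon
    push Not at hcon
    apply hn
    intro x y
    exact (Subgroup.mem_center_iff.1 (hcon y)) x
  obtain ⟨e0, hs0, hk0, -⟩ := tb_e (tb_quot h3 hn) hc (tb_pow h3 hn) x0 hx0
  let _ : MulAction (autS S Q) (Fin 2 → ZMod p) :=
    { smul := fun a v => (tbMat e0 hs0 (a : MulAut Q)).mulVec v
      one_smul := fun v => by
        change (tbM e0 hs0 hk0 1).mulVec v = v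
        rw [map_one, Matrix.one_mulVec]
      mul_smul := fun a b v => by
        change (tbM e0 hs0 hk0 ((a : MulAut Q) * b)).mulVec v =
          (tbM e0 hs0 hk0 (a : MulAut Q)).mulVec ((tbM e0 hs0 hk0 (b : MulAut Q)).mulVec v)
        rw [map_mul, Matrix.mulVec_mulVec] }
  have hfix0 : (0 : Fin 2 → ZMod p) ∈ MulAction.fixedPoints (autS S Q) (Fin 2 → ZMod p) := by
    intro a
    change (tbMat e0 hs0 (a : MulAut Q)).mulVec 0 = 0
    rw [Matrix.mulVec_zero]
  have hpd : p ∣ Nat.card (Fin 2 → ZMod p) := by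
    rw [Nat.card_fun, Nat.card_zmod]
    simp [pow_two]
  obtain ⟨w, hw, hw0⟩ := (tb_autS_isPGroup hS Q).exists_fixed_point_of_prime_dvd_card_of_fixed_point
    (Fin 2 → ZMod p) hpd hfix0
  obtain ⟨x, hx⟩ := hs0 (Multiplicative.ofAdd w)
  have hxc : x ∉ Subgroup.center Q := by
    intro h
    rw [← hk0, MonoidHom.mem_ker, hx] at h
    exact hw0 (congrArg Multiplicative.toAdd h).symm
  obtain ⟨e, hs, hk, hex⟩ := tb_e (tb_quot h3 hn) hc (tb_pow h3 hn) x hxc
  refine ⟨e, hs, hk, ?_⟩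
  intro a ha
  have h1 : e (a x) = e x := by
    have h2 : e0 (a x) = e0 x := by
      apply Multiplicative.toAdd.injective
      rw [tbMat_spec e0 hs0 hk0, hx]
      exact hw ⟨a, ha⟩
    have h4 : x⁻¹ * a x ∈ Subgroup.center Q := by
      rw [← hk0, MonoidHom.mem_ker, map_mul, map_inv, h2, inv_mul_cancel]
    rw [← hk, MonoidHom.mem_ker, map_mul, map_inv] at h4
    exact (inv_mul_eq_one.1 h4).symm
  have h5 := tbMat_spec e hs hk a x
  rw [h1, hex] at h5
  obtain ⟨n, hn'⟩ := (tb_autS_isPGroup hS Q) ⟨a, ha⟩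
  have h6 : a ^ p ^ n = 1 := congrArg Subtype.val hn'
  have h7 : tbMat e hs a ^ p ^ n = 1 := by
    have := congrArg (tbM e hs hk) h6
    rw [map_pow, map_one] at this
    exact this
  refine tb_unip ?_ h7
  have h8 := congrFun h5 1
  simp [Matrix.mulVec, dotProduct, Fin.sum_univ_two] at h8
  exact h8.symm



/-- the image of the action of `Out_F(Q)` contains `SL₂(p)` -/
private theorem tb_sl {O : Type*} [Group O] {p : ℕ} [Fact p.Prime]
    (ρ : O →* Matrix.GeneralLinearGroup (Fin 2) (ZMod p)) (hU : ∀ s, ∃ o, (ρ o).1 = (slU (ZMod p) s).1)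
    (o : O) (ho : (ρ o).1 1 0 ≠ 0) (g : Matrix.SpecialLinearGroup (Fin 2) (ZMod p)) :
    ∃ o, (ρ o).1 = g.1 := by
  let K : Subgroup (Matrix.SpecialLinearGroup (Fin 2) (ZMod p)) :=
    { carrier := {g | ∃ o, (ρ o).1 = g.1}
      one_mem' := ⟨1, by simp⟩
      mul_mem' := by
        rintro a b ⟨x, hx⟩ ⟨y, hy⟩
        refine ⟨x * y, ?_⟩
        rw [map_mul]
        change (ρ x).1 * (ρ y).1 = a.1 * b.1
        rw [hx, hy]
      inv_mem' := by
        rintro a ⟨x, hx⟩
        refine ⟨x⁻¹, ?_⟩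
        rw [map_inv]
        have h1 : (ρ x)⁻¹.1 * (ρ x).1 = 1 := by
          rw [← Units.val_mul, inv_mul_cancel, Units.val_one]
        have h2 : (a⁻¹).1 * a.1 = 1 := by
          have := congrArg Subtype.val (inv_mul_cancel a)
          exact this
        have h3 : a.1 * (a⁻¹).1 = 1 := by
          have := congrArg Subtype.val (mul_inv_cancel a)
          exact this
        rw [hx] at h1
        calc (ρ x)⁻¹.1 = (ρ x)⁻¹.1 * (a.1 * (a⁻¹).1) := by rw [h3, Matrix.mul_one]
          _ = ((ρ x)⁻¹.1 * a.1) * (a⁻¹).1 := by rw [Matrix.mul_assoc]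
          _ = (a⁻¹).1 := by rw [h1, Matrix.one_mul] }
  set A := (ρ o).1 with hA
  set a := A 0 0
  set b := A 0 1
  set c := A 1 0
  set d := A 1 1
  have hdet : a * d - b * c ≠ 0 := by
    rw [← Matrix.det_fin_two]
    exact ((Matrix.isUnit_iff_isUnit_det _).1 (ρ o).isUnit).ne_zero
  obtain ⟨o1, ho1⟩ := hU (-(a / c))
  obtain ⟨o2, ho2⟩ := hU (-(d / c))
  have hn : (ρ (o1 * o * o2)).1 = !![0, -((a * d - b * c) / c); c, 0] := by
    rw [map_mul, map_mul]
    change (ρ o1).1 * (ρ o).1 * (ρ o2).1 = _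
    rw [ho1, ho2, ← hA, Matrix.eta_fin_two A]
    simp only [slU, Matrix.mul_fin_two]
    ext i j
    fin_cases i <;> fin_cases j <;> simp <;> (try field_simp) <;> (try ring)
  have hV : ∀ t, slV (ZMod p) t ∈ K := by
    intro t
    obtain ⟨o3, ho3⟩ := hU (-(t * (a * d - b * c) / c ^ 2))
    refine ⟨(o1 * o * o2) * o3 * (o1 * o * o2)⁻¹, ?_⟩
    have h1 : (ρ (o1 * o * o2)).1 * (ρ o3).1 = (slV (ZMod p) t).1 * (ρ (o1 * o * o2)).1 := by
      rw [hn, ho3]
      simp only [slU, slV, Matrix.mul_fin_two]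
      ext i j
      fin_cases i <;> fin_cases j <;> simp <;> (try field_simp) <;> (try ring)
    rw [map_mul, map_mul, map_inv]
    change (ρ (o1 * o * o2)).1 * (ρ o3).1 * ((ρ (o1 * o * o2))⁻¹).1 = _
    rw [h1, Matrix.mul_assoc, ← Units.val_mul, mul_inv_cancel, Units.val_one, Matrix.mul_one]
  have hUK : ∀ s, slU (ZMod p) s ∈ K := hU
  have htop : K = ⊤ := by
    rw [← top_le_iff, ← sl_closure (ZMod p), Subgroup.closure_le]
    rintro x (⟨s, rfl⟩ | ⟨s, rfl⟩)
    · exact hUK s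
    · exact hV s
  have : g ∈ K := by rw [htop]; trivial
  exact this

/-- an essential subgroup of type (B): `Out` is not upper triangular -/
private theorem tb_not_upper {O : Type*} [Group O] [Finite O] {p : ℕ} [Fact p.Prime]
    (ρ : O →* Matrix.GeneralLinearGroup (Fin 2) (ZMod p)) (hρ : Function.Injective ρ)
    (hM : ∃ M : Subgroup O, M ≠ ⊤ ∧ p ∣ Nat.card M ∧
      ∀ g : O, g ∉ M → ¬ p ∣ Nat.card ↥(M ⊓ M.map (MulAut.conj g).toMonoidHom)) :
    ∃ o, (ρ o).1 1 0 ≠ 0 := by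
  by_contra hall
  push Not at hall
  obtain ⟨M, hM1, hM2, hM3⟩ := hM
  obtain ⟨g, hg⟩ : ∃ g, g ∉ M := by
    by_contra hcon
    push Not at hcon
    exact hM1 (eq_top_iff.2 fun x _ => hcon x)
  obtain ⟨x, hx⟩ := exists_prime_orderOf_dvd_card' p hM2
  have hxo : orderOf (x : O) = p := by rw [Subgroup.orderOf_coe]; exact hx
  have hxp : (x : O) ^ p = 1 := by rw [← hxo]; exact pow_orderOf_eq_one _
  have hx1 : (x : O) ≠ 1 := by
    intro h
    rw [h, orderOf_one] at hxo
    exact (Fact.out : p.Prime).one_lt.ne hxo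
  have hU : ∀ y : O, y ^ p = 1 → ∃ s, (ρ y).1 = (slU (ZMod p) s).1 := by
    intro y hy
    refine tb_unip (hall y) (n := 1) ?_
    rw [pow_one, ← Units.val_pow_eq_pow_val, ← map_pow, hy, map_one, Units.val_one]
  obtain ⟨s0, hs0⟩ := hU x hxp
  have hs00 : s0 ≠ 0 := by
    rintro rfl
    apply hx1
    apply hρ
    rw [map_one]
    apply Units.ext
    rw [hs0]
    simp [slU, Matrix.one_fin_two]
  have hgen : ∀ y : O, y ^ p = 1 → y ∈ M := by
    intro y hy
    obtain ⟨s, hs⟩ := hU y hy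
    have : y = (x : O) ^ (s / s0).val := by
      apply hρ
      rw [map_pow]
      apply Units.ext
      rw [Units.val_pow_eq_pow_val, hs0, hs, tb_slU_pow, ZMod.natCast_zmod_val,
        div_mul_cancel₀ _ hs00]
    rw [this]
    exact pow_mem x.2 _
  apply hM3 g hg
  have hmem : (x : O) ∈ M ⊓ M.map (MulAut.conj g).toMonoidHom := by
    refine ⟨x.2, ⟨g⁻¹ * x * g, hgen _ ?_, ?_⟩⟩
    · have h1 : (g⁻¹ * x * g) = MulAut.conj g⁻¹ x := by simp [MulAut.conj_apply]
      rw [h1, ← map_pow, hxp, map_one]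
    · change g * (g⁻¹ * x * g) * g⁻¹ = x
      group
  have h2 : orderOf (⟨x, hmem⟩ : ↥(M ⊓ M.map (MulAut.conj g).toMonoidHom)) = p := by
    rw [← Subgroup.orderOf_coe]; exact hxo
  rw [← h2]
  exact orderOf_dvd_natCard _

theorem exists_dataB (p : ℕ) [Fact p.Prime] (hS : IsPGroup p S) (hF : F.Saturated p)
    {Q : Subgroup G} (hQ : F.Essential p Q) (h : TypeB p Q) : Nonempty (DataB F p Q) := by
  have hp := (Fact.out : p.Prime)
  obtain ⟨h3, hn0⟩ := h
  have hn : ¬ ∀ x y : Q, x * y = y * x := by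
    intro hcon
    apply hn0
    intro x hx y hy
    exact congrArg Subtype.val (hcon ⟨x, hx⟩ ⟨y, hy⟩)
  have hQS : Q ≤ S := hQ.1.1
  have hcs : cS S Q ≤ Q := hQ.1.2 Q (FusionSystem.Conj.refl F hQS)
  have hc := tb_comm h3 hn
  have hcard := tb_center h3 hn
  have hfill := tb_fill h3 hn
  have hcen : ∀ c : Q, c ∈ Subgroup.center Q → c ≠ 1 → ∀ z ∈ Subgroup.center Q,
      ∃ n : ℕ, z = c ^ n := by
    intro c hc1 hc2 z hz
    have h1 := mem_powers_of_prime_card (G := Subgroup.center Q) (p := p) hcard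
      (g := ⟨c, hc1⟩) (g' := ⟨z, hz⟩) (by
        intro h; exact hc2 (congrArg Subtype.val h))
    obtain ⟨n, hn⟩ := h1
    exact ⟨n, (congrArg Subtype.val hn).symm⟩
  have hcp : ∀ z ∈ Subgroup.center Q, z ^ p = 1 := by
    intro z hz
    have h1 : (⟨z, hz⟩ : Subgroup.center Q) ^ p = 1 := by
      rw [← hcard]; exact pow_card_eq_one'
    exact congrArg Subtype.val h1
  obtain ⟨e, hs, hk, hT⟩ := tb_basis hS h3 hn
  let ρ0 : F.aut Q →* Matrix.GeneralLinearGroup (Fin 2) (ZMod p) :=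
    ((tbM e hs hk).comp (F.aut Q).subtype).toHomUnits
  have hρ0 : ∀ a : F.aut Q, (ρ0 a).1 = tbMat e hs (a : MulAut Q) := fun a => rfl
  have hinn : ∀ y : Q, tbMat e hs (MulAut.conj y) = 1 := by
    intro y
    refine tbMat_unique e hs hk _ 1 (fun q => ?_)
    have h1 : e (y * q * y⁻¹) = e q := by
      rw [map_mul, map_mul, map_inv, mul_comm (e y), mul_inv_cancel_right]
    rw [Matrix.one_mulVec, MulAut.conj_apply, h1]
  have hker : ∀ a ∈ F.inn Q, ρ0 a = 1 := by
    intro a ha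
    obtain ⟨y, hy⟩ := Subgroup.mem_subgroupOf.1 ha
    apply Units.ext
    rw [hρ0, Units.val_one]
    have : (a : MulAut Q) = MulAut.conj y := hy.symm
    rw [this, hinn]
  let ρ : F.Out Q →* Matrix.GeneralLinearGroup (Fin 2) (ZMod p) :=
    QuotientGroup.lift (F.inn Q) ρ0 hker
  have hρ : ∀ a : F.aut Q, (ρ (QuotientGroup.mk a)).1 = tbMat e hs (a : MulAut Q) := fun a => rfl
  have hinner : ∀ a : MulAut Q, tbMat e hs a = 1 → a ∈ (MulAut.conj (G := Q)).range := by
    intro a ha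
    obtain ⟨q, hq⟩ := tb_inner e hs hk hfill hcen hc a ha
    exact ⟨q, hq.symm⟩
  have hinj : Function.Injective ρ := by
    rw [injective_iff_map_eq_one]
    intro o ho
    obtain ⟨a, rfl⟩ := QuotientGroup.mk_surjective o
    rw [QuotientGroup.eq_one_iff]
    refine Subgroup.mem_subgroupOf.2 (hinner _ ?_)
    rw [← hρ, ho, Units.val_one]
  -- a nontrivial element of `Aut_S(Q)`
  obtain ⟨g, hg, hgQ⟩ : ∃ g ∈ nS S Q, g ∉ Q := by
    have := essential_lt_nS F p hS hF hQ
    exact Set.exists_of_ssubset this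
  obtain ⟨hgS, hgn⟩ := mem_nS.1 hg
  have hgaut : tbConj g hgn ∈ autS S Q := ⟨g, hgS, fun x => rfl⟩
  obtain ⟨s0, hs0⟩ := hT _ hgaut
  have hs00 : s0 ≠ 0 := by
    rintro rfl
    have h1 : tbMat e hs (tbConj g hgn) = 1 := by
      rw [hs0]; simp [slU, Matrix.one_fin_two]
    obtain ⟨q, hq⟩ := hinner _ h1
    apply hgQ
    have h2 : (q : G)⁻¹ * g ∈ cS S Q := by
      rw [mem_cS]
      refine ⟨S.mul_mem (S.inv_mem (hQS q.2)) hgS, ?_⟩
      intro x hx
      have h4 := congrArg (fun φ : MulAut Q => ((φ ⟨x, hx⟩ : Q) : G)) hq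
      have h5 : (q : G) * x * (q : G)⁻¹ = g * x * g⁻¹ := h4
      calc x * ((q : G)⁻¹ * g) = (q : G)⁻¹ * ((q : G) * x * (q : G)⁻¹) * g := by group
        _ = (q : G)⁻¹ * (g * x * g⁻¹) * g := by rw [h5]
        _ = (q : G)⁻¹ * g * x := by group
    have h6 : g = (q : G) * ((q : G)⁻¹ * g) := by group
    rw [h6]
    exact Q.mul_mem q.2 (hcs h2)
  have hallU : ∀ s, ∃ t ∈ autS S Q, tbMat e hs t = (slU (ZMod p) s).1 := by
    intro s
    refine ⟨tbConj g hgn ^ (s / s0).val, pow_mem hgaut _, ?_⟩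
    have h1 : tbMat e hs (tbConj g hgn ^ (s / s0).val) =
        tbMat e hs (tbConj g hgn) ^ (s / s0).val := by
      have := map_pow (tbM e hs hk) (tbConj g hgn) (s / s0).val
      exact this
    rw [h1, hs0, tb_slU_pow, ZMod.natCast_zmod_val, div_mul_cancel₀ _ hs00]
  have hsylow : ∀ a : F.aut Q, (a : MulAut Q) ∈ autS S Q ↔
      ∃ s, (ρ (QuotientGroup.mk a)).1 = (slU (ZMod p) s).1 := by
    intro a
    constructor
    · intro ha
      rw [hρ]
      exact hT _ ha
    · rintro ⟨s, hsa⟩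
      rw [hρ] at hsa
      obtain ⟨t, ht, hts⟩ := hallU s
      have h1 : tbMat e hs (t⁻¹ * (a : MulAut Q)) = 1 := by
        have h2 : tbM e hs hk (t⁻¹ * (a : MulAut Q)) = 1 := by
          rw [map_mul]
          have h4 : tbM e hs hk (a : MulAut Q) = tbM e hs hk t := by
            change tbMat e hs (a : MulAut Q) = tbMat e hs t
            rw [hsa, hts]
          rw [h4, ← map_mul, inv_mul_cancel, map_one]
        exact h2
      obtain ⟨q, hq⟩ := hinner _ h1
      have h5 : (a : MulAut Q) = t * MulAut.conj q := by rw [hq]; group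
      rw [h5]
      exact mul_mem ht (conj_mem_autS hQS q)
  have hρU : ∀ s, ∃ o, (ρ o).1 = (slU (ZMod p) s).1 := by
    intro s
    obtain ⟨t, ht, hts⟩ := hallU s
    exact ⟨QuotientGroup.mk ⟨t, autS_le_aut F hQS ht⟩, hts⟩
  have hfinO : Finite (F.Out Q) := inferInstance
  obtain ⟨o, ho⟩ := tb_not_upper ρ hinj hQ.2.2
  refine ⟨⟨e, ρ, hs, hk, hinj, fun a q => tbMat_spec e hs hk _ q, tb_sl ρ hρU o ho, hsylow,
    fun a ha z hz => tb_det e hs hk hcen hcp hc _ ha z hz, ?_, hcard, hfill⟩⟩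
  · intro z
    constructor
    · -- `Z(Q) ≤ Z(S)`
      intro hz
      have hnt : Nontrivial S := by
        have : Nontrivial Q := by
          rw [← Finite.one_lt_card_iff_nontrivial, h3]
          exact Nat.one_lt_pow (by norm_num) hp.one_lt
        obtain ⟨q, hq⟩ := exists_ne (1 : Q)
        refine ⟨⟨⟨q, hQS q.2⟩, 1, ?_⟩⟩
        intro hcon
        have h5 : (q : G) = 1 := congrArg (Subtype.val : S → G) hcon
        exact hq (Subtype.ext h5)
      have hcS : Nontrivial (Subgroup.center S) := hS.center_nontrivial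
      obtain ⟨w, hw⟩ := exists_ne (1 : Subgroup.center S)
      have hwc : ∀ s ∈ S, s * ((w : S) : G) = ((w : S) : G) * s := by
        intro s hs'
        have := (Subgroup.mem_center_iff.1 w.2) ⟨s, hs'⟩
        exact congrArg Subtype.val this
      have hwQ : ((w : S) : G) ∈ Q := by
        apply hcs
        rw [mem_cS]
        exact ⟨(w : S).2, fun x hx => hwc x (hQS hx)⟩
      have hwC : (⟨((w : S) : G), hwQ⟩ : Q) ∈ Subgroup.center Q := by
        rw [Subgroup.mem_center_iff]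
        intro q
        exact Subtype.ext (hwc q (hQS q.2))
      obtain ⟨n, hn'⟩ := hcen ⟨((w : S) : G), hwQ⟩ hwC (by
        intro h
        apply hw
        apply Subtype.ext
        apply Subtype.ext
        have h5 : ((w : S) : G) = 1 := congrArg (Subtype.val : Q → G) h
        exact h5) z hz
      intro s hs'
      have hzG : (z : G) = ((w : S) : G) ^ n := congrArg Subtype.val hn'
      rw [hzG]
      exact ((show Commute s ((w : S) : G) from hwc s hs').pow_right n).eq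
    · intro hz
      rw [Subgroup.mem_center_iff]
      intro q
      exact Subtype.ext (hz q (hQS q.2))

/-- the case where `R` contains an element over `e₁` -/
private theorem tb_noCentric (p : ℕ) [Fact p.Prime] (hS : IsPGroup p S) (hF : F.Saturated p)
    {Q : Subgroup G} (hQ : F.Essential p Q) (D : DataB F p Q) {R : Subgroup G} (hR : F.Centric R)
    (hRQ : R ≤ Q) (hne : R ≠ Q) (v0 : Q) (hv0 : (v0 : G) ∈ R)
    (he : Multiplicative.toAdd (D.e v0) = ![1, 0]) : False := by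
  have hQS : Q ≤ S := hQ.1.1
  have hRS : R ≤ S := hRQ.trans hQS
  have hRc : cS S R ≤ R := hR.2 R (FusionSystem.Conj.refl F hRS)
  have hZ : ∀ z ∈ Subgroup.center Q, (z : G) ∈ R := by
    intro z hz
    apply hRc
    rw [mem_cS]
    refine ⟨hQS z.2, fun x hx => ?_⟩
    exact congrArg Subtype.val ((Subgroup.mem_center_iff.1 hz) ⟨x, hRQ hx⟩)
  have hsame : ∀ x y : Q, D.e x = D.e y → ∃ z ∈ Subgroup.center Q, y = x * z := by
    intro x y hxy
    refine ⟨x⁻¹ * y, ?_, by group⟩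
    rw [← D.ker, MonoidHom.mem_ker, map_mul, map_inv, hxy, inv_mul_cancel]
  have hx1 : ∀ x : Q, (x : G) ∈ R → Multiplicative.toAdd (D.e x) 1 = 0 := by
    intro x hx
    by_contra hx1
    apply hne
    refine le_antisymm hRQ ?_
    intro y hy
    set x0 := Multiplicative.toAdd (D.e x) 0 with hx0
    set x1 := Multiplicative.toAdd (D.e x) 1 with hx1'
    set y0 := Multiplicative.toAdd (D.e ⟨y, hy⟩) 0 with hy0
    set y1 := Multiplicative.toAdd (D.e ⟨y, hy⟩) 1 with hy1
    obtain ⟨z, hz, hyz⟩ := hsame (v0 ^ (y0 - x0 * (y1 / x1)).val * x ^ (y1 / x1).val) ⟨y, hy⟩ (by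
      apply Multiplicative.toAdd.injective
      rw [map_mul, map_pow, map_pow, toAdd_mul, toAdd_pow, toAdd_pow, he]
      have hval : ∀ (c : ZMod p) (x : Fin 2 → ZMod p) (i : Fin 2), (c.val • x) i = c * x i := by
        intro c x i
        rw [Pi.smul_apply, nsmul_eq_mul, ZMod.natCast_zmod_val]
      funext i
      rw [Pi.add_apply, hval, hval]
      fin_cases i
      · change (y0 - x0 * (y1 / x1)) * 1 + (y1 / x1) * x0 = y0
        ring
      · change (y0 - x0 * (y1 / x1)) * 0 + (y1 / x1) * x1 = y1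
        rw [mul_zero, zero_add, div_mul_cancel₀ _ hx1])
    have hyG : y = (v0 : G) ^ (y0 - x0 * (y1 / x1)).val * (x : G) ^ (y1 / x1).val * (z : G) :=
      congrArg Subtype.val hyz
    rw [hyG]
    exact R.mul_mem (R.mul_mem (R.pow_mem hv0 _) (R.pow_mem hx _)) (hZ z hz)
  obtain ⟨g, hg, hgQ⟩ : ∃ g ∈ nS S Q, g ∉ Q := by
    have := essential_lt_nS F p hS hF hQ
    exact Set.exists_of_ssubset this
  obtain ⟨hgS, hgn⟩ := mem_nS.1 hg
  have hgaut : tbConj g hgn ∈ autS S Q := ⟨g, hgS, fun x => rfl⟩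
  obtain ⟨s, hs⟩ := (D.sylow ⟨tbConj g hgn, autS_le_aut F hQS hgaut⟩).1 hgaut
  have hact := D.act ⟨tbConj g hgn, autS_le_aut F hQS hgaut⟩ v0
  rw [hs, he] at hact
  have hev : D.e v0 = D.e (tbConj g hgn v0) := by
    apply Multiplicative.toAdd.injective
    rw [he]
    refine Eq.trans ?_ hact.symm
    funext i
    fin_cases i <;> simp [slU, Matrix.mulVec, dotProduct, Fin.sum_univ_two]
  obtain ⟨z, hz, hzv⟩ := hsame _ _ hev
  have hv0c : v0 ∉ Subgroup.center Q := by
    intro h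
    rw [← D.ker, MonoidHom.mem_ker] at h
    rw [h] at he
    have := congrFun he 0
    simp at this
  obtain ⟨q, hq⟩ := D.fill v0 hv0c z⁻¹ ((Subgroup.center Q).inv_mem hz)
  have hzS := (D.center z).1 hz
  have hzG : g * v0 * g⁻¹ = v0 * z := congrArg Subtype.val hzv
  have hqG : (q : G) * v0 * (q : G)⁻¹ = v0 * (z : G)⁻¹ := congrArg Subtype.val hq
  have hgoal : (q : G) * g ∈ cS S R := by
    rw [mem_cS]
    refine ⟨S.mul_mem (hQS q.2) hgS, ?_⟩
    have hcomm : ((q : G) * g) * v0 = v0 * ((q : G) * g) := by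
      have h1 : (q : G) * g * v0 * ((q : G) * g)⁻¹ = v0 := by
        calc (q : G) * g * v0 * ((q : G) * g)⁻¹ = (q : G) * (g * v0 * g⁻¹) * (q : G)⁻¹ := by group
          _ = (q : G) * (v0 * z) * (q : G)⁻¹ := by rw [hzG]
          _ = (q : G) * v0 * (z * (q : G)⁻¹) := by group
          _ = (q : G) * v0 * ((q : G)⁻¹ * z) := by rw [← hzS _ (S.inv_mem (hQS q.2))]
          _ = ((q : G) * v0 * (q : G)⁻¹) * z := by group
          _ = v0 * (z : G)⁻¹ * z := by rw [hqG]
          _ = v0 := by group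
      exact mul_inv_eq_iff_eq_mul.1 h1
    intro x hx
    obtain ⟨z', hz', hxz⟩ := hsame (v0 ^ (Multiplicative.toAdd (D.e ⟨x, hRQ hx⟩) 0).val)
      ⟨x, hRQ hx⟩ (by
      apply Multiplicative.toAdd.injective
      rw [map_pow, toAdd_pow, he]
      funext i
      fin_cases i
      · simp
      · simp [hx1 ⟨x, hRQ hx⟩ hx])
    have hxG : x = (v0 : G) ^ (Multiplicative.toAdd (D.e ⟨x, hRQ hx⟩) 0).val * (z' : G) :=
      congrArg Subtype.val hxz
    have c1 : Commute ((q : G) * g) (v0 : G) := hcomm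
    have c2 : Commute ((q : G) * g) (z' : G) :=
      (D.center z').1 hz' _ (S.mul_mem (hQS q.2) hgS)
    have c3 : Commute ((q : G) * g)
        ((v0 : G) ^ (Multiplicative.toAdd (D.e ⟨x, hRQ hx⟩) 0).val * (z' : G)) :=
      (c1.pow_right _).mul_right c2
    rw [← hxG] at c3
    exact c3.eq.symm
  apply hgQ
  have h6 : g = (q : G)⁻¹ * ((q : G) * g) := by group
  rw [h6]
  exact Q.mul_mem (Q.inv_mem q.2) (hRQ (hRc hgoal))

/-- `SL₂` is transitive on nonzero vectors -/
private theorem tb_trans {p : ℕ} [Fact p.Prime] (w : Fin 2 → ZMod p) (hw : w ≠ 0) :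
    ∃ g : Matrix.SpecialLinearGroup (Fin 2) (ZMod p), g.1.mulVec w = ![1, 0] := by
  by_cases h0 : w 0 = 0
  · have h1 : w 1 ≠ 0 := by
      intro h1
      apply hw
      funext i
      fin_cases i
      · exact h0
      · exact h1
    refine ⟨⟨!![0, (w 1)⁻¹; -(w 1), 0], ?_⟩, ?_⟩
    · rw [Matrix.det_fin_two_of]
      field_simp
      ring
    · funext i
      fin_cases i <;> simp [Matrix.mulVec, dotProduct, Fin.sum_univ_two, h0, h1]
  · refine ⟨⟨!![(w 0)⁻¹, 0; -(w 1), w 0], ?_⟩, ?_⟩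
    · rw [Matrix.det_fin_two_of]
      field_simp
      ring
    · funext i
      fin_cases i
      · simp [Matrix.mulVec, dotProduct, Fin.sum_univ_two, h0]
      · simp [Matrix.mulVec, dotProduct, Fin.sum_univ_two, h0]
        ring

/-- No centric subgroup lies properly in an essential subgroup of type (B): such an `R` has order
`p²`, contains `Z(Q)`, and is conjugate under `Aut_F(Q)` to `R₀ = e⁻¹(F_p e₁)`, which is centralized
by some element of `N_S(Q) \ Q`. -/
theorem noCentricBelow_typeB (p : ℕ) [Fact p.Prime] (hS : IsPGroup p S) (hF : F.Saturated p)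
    {Q : Subgroup G} (hQ : F.Essential p Q) (h : TypeB p Q) {R : Subgroup G} (hR : F.Centric R)
    (hRQ : R ≤ Q) : R = Q := by
  by_contra hne
  obtain ⟨D⟩ := exists_dataB F p hS hF hQ h
  have hQS : Q ≤ S := hQ.1.1
  have hRc : cS S R ≤ R := hR.2 R (FusionSystem.Conj.refl F (hRQ.trans hQS))
  -- an element of `R` outside the centre
  obtain ⟨r, hrR, hrc⟩ : ∃ r : Q, (r : G) ∈ R ∧ r ∉ Subgroup.center Q := by
    by_contra hcon
    push Not at hcon
    apply hne
    refine le_antisymm hRQ ?_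
    intro y hy
    apply hRc
    rw [mem_cS]
    refine ⟨hQS hy, fun x hx => ?_⟩
    have h1 := (Subgroup.mem_center_iff.1 (hcon ⟨x, hRQ hx⟩ hx)) ⟨y, hy⟩
    exact (congrArg Subtype.val h1).symm
  have her : Multiplicative.toAdd (D.e r) ≠ 0 := by
    intro h0
    apply hrc
    rw [← D.ker, MonoidHom.mem_ker]
    exact Multiplicative.toAdd.injective h0
  obtain ⟨g, hg⟩ := tb_trans _ her
  obtain ⟨o, ho⟩ := D.sl g
  obtain ⟨a, rfl⟩ := QuotientGroup.mk_surjective o
  have haiso : (a : MulAut Q) ∈ F.iso Q Q := (F.mem_aut hQS _).1 a.2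
  obtain ⟨R', ψ, hψ, hR'Q, hψa⟩ := exists_res_le F haiso hRQ
  have hR' : F.Centric R' := hR.conj ⟨ψ, hψ⟩
  have hne' : R' ≠ Q := by
    intro heq
    apply hne
    refine Subgroup.eq_of_le_of_card_ge hRQ ?_
    rw [← heq]
    exact (Nat.card_congr ψ.toEquiv).ge
  have hmem : (((a : MulAut Q) r : Q) : G) ∈ R' := by
    have h1 := hψa ⟨r, hrR⟩
    have h2 : (ψ ⟨r, hrR⟩ : G) = ((a : MulAut Q) r : Q) := h1
    rw [← h2]
    exact (ψ _).2
  refine tb_noCentric F p hS hF hQ D hR' hR'Q hne' ((a : MulAut Q) r) hmem ?_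
  rw [D.act a r, ho, hg]

/-- `C_S(x) = Q` is impossible for an essential `Q` of type (B): `x` would be in
`Z(Q) = Z(S)`. -/
theorem typeB_cS_ne (p : ℕ) [Fact p.Prime] (hS : IsPGroup p S) (hF : F.Saturated p)
    {Q : Subgroup G} (hQ : F.Essential p Q) (h : TypeB p Q) (x : S) :
    cS S (Subgroup.zpowers (x : G)) ≠ Q := by
  intro heq
  obtain ⟨D⟩ := exists_dataB F p hS hF hQ h
  have hQS : Q ≤ S := hQ.1.1
  have hxQ : (x : G) ∈ Q := by
    rw [← heq, mem_cS_zpowers]
    exact ⟨x.2, rfl⟩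
  have hxc : (⟨x, hxQ⟩ : Q) ∈ Subgroup.center Q := by
    rw [Subgroup.mem_center_iff]
    intro q
    have hq : (q : G) ∈ cS S (Subgroup.zpowers (x : G)) := by rw [heq]; exact q.2
    exact Subtype.ext (mem_cS_zpowers.1 hq).2.symm
  have hall := (D.center _).1 hxc
  have hSQ : S ≤ Q := by
    intro s hs
    rw [← heq, mem_cS_zpowers]
    exact ⟨hs, (hall s hs).symm⟩
  have h1 := essential_lt_nS F p hS hF hQ
  have h2 : nS S Q ≤ S := inf_le_left
  exact absurd (h2.trans hSQ) (not_le_of_gt h1)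

end Main

end

end MNF
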