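import Pool.Agent.W_0649d4.CCase
import Pool.Agent.W_0649d4.ASteinberg
import Pool.Agent.W_0649d4.AIndex
import Pool.Agent.W_0649d4.CTypeB

/-! TASK CBoundB (blueprint, section BDB). -/

namespace MNF

/-! ### Matrices -/

section CBBmat

variable {K : Type*} [Field K]

private theorem CBB_dg_mul (c d : K) :
    (!![c, 0; 0, 1] : Matrix (Fin 2) (Fin 2) K) * !![d, 0; 0, 1] = !![c * d, 0; 0, 1] := by
  ext i j
  fin_cases i <;> fin_cases j <;> simp [Matrix.mul_apply, Fin.sum_univ_two]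

/-- The group of the matrices `diag(d, 1)`. -/
private def CBB_dg (K : Type*) [Field K] : Kˣ →* Matrix.GeneralLinearGroup (Fin 2) K where
  toFun d := ⟨!![(d : K), 0; 0, 1], !![((d⁻¹ : Kˣ) : K), 0; 0, 1],
    by rw [CBB_dg_mul, Units.mul_inv]; exact Matrix.one_fin_two.symm,
    by rw [CBB_dg_mul, Units.inv_mul]; exact Matrix.one_fin_two.symm⟩
  map_one' := Units.ext (by
    show (!![((1 : Kˣ) : K), 0; 0, 1] : Matrix (Fin 2) (Fin 2) K) = 1
    rw [Units.val_one]; exact Matrix.one_fin_two.symm)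
  map_mul' c d := Units.ext (by
    show (!![((c * d : Kˣ) : K), 0; 0, 1] : Matrix (Fin 2) (Fin 2) K) =
      !![(c : K), 0; 0, 1] * !![(d : K), 0; 0, 1]
    rw [CBB_dg_mul, Units.val_mul])

private theorem CBB_dg_val (d : Kˣ) : (CBB_dg K d).1 = !![(d : K), 0; 0, 1] := rfl

private theorem CBB_dgU (d : Kˣ) (s : K) : (CBB_dg K d).1 * (slU K s).1 =
    (slU K (d * s)).1 * (CBB_dg K d).1 := by
  rw [CBB_dg_val]
  show (!![(d : K), 0; 0, 1] : Matrix (Fin 2) (Fin 2) K) * !![1, s; 0, 1] =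
    !![1, d * s; 0, 1] * !![(d : K), 0; 0, 1]
  ext i j
  fin_cases i <;> fin_cases j <;> simp [Matrix.mul_apply, Fin.sum_univ_two]

private theorem CBB_dgW (d : Kˣ) : (CBB_dg K d).1 * (slW K).1 =
    (slD K d * slW K).1 * (CBB_dg K d).1 := by
  rw [CBB_dg_val]
  show (!![(d : K), 0; 0, 1] : Matrix (Fin 2) (Fin 2) K) * !![0, 1; -1, 0] =
    (!![(d : K), 0; 0, ((d⁻¹ : Kˣ) : K)] * !![0, 1; -1, 0]) * !![(d : K), 0; 0, 1]
  ext i j
  fin_cases i <;> fin_cases j <;> simp [Matrix.mul_apply, Fin.sum_univ_two]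

/-- `A = g diag(det A, 1)` with `g` in `SL₂`. -/
private theorem CBB_factor (A : Matrix.GeneralLinearGroup (Fin 2) K) :
    ∃ (g : Matrix.SpecialLinearGroup (Fin 2) K) (d : Kˣ), A.1 = g.1 * (CBB_dg K d).1 := by
  have hu : IsUnit A.1.det := (Matrix.isUnit_iff_isUnit_det A.1).mp A.isUnit
  obtain ⟨d, hd⟩ := hu
  refine ⟨⟨A.1 * !![((d⁻¹ : Kˣ) : K), 0; 0, 1], ?_⟩, d, ?_⟩
  · rw [Matrix.det_mul, ← hd, Matrix.det_fin_two_of]
    simp
  · rw [CBB_dg_val]
    show A.1 = A.1 * !![((d⁻¹ : Kˣ) : K), 0; 0, 1] * !![(d : K), 0; 0, 1]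
    rw [Matrix.mul_assoc, CBB_dg_mul, Units.inv_mul]
    have h1 : (!![(1 : K), 0; 0, 1] : Matrix (Fin 2) (Fin 2) K) = 1 := Matrix.one_fin_two.symm
    rw [h1, Matrix.mul_one]

/-- A matrix fixing `e₂` and normalising an upper unipotent matrix in the upper unipotent group is
diagonal. -/
private theorem CBB_mat_N (A : Matrix.GeneralLinearGroup (Fin 2) K)
    (h2 : A.1.mulVec ![0, 1] = ![0, 1]) (s : K)
    (h1 : A.1 * (slU K 1).1 = (slU K s).1 * A.1) : ∃ d : Kˣ, CBB_dg K d = A := by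
  have e01 : A.1 0 1 = 0 := by
    have := congrFun h2 0
    simpa [Matrix.mulVec, dotProduct, Fin.sum_univ_two] using this
  have e11 : A.1 1 1 = 1 := by
    have := congrFun h2 1
    simpa [Matrix.mulVec, dotProduct, Fin.sum_univ_two] using this
  have e10 : A.1 1 0 = 0 := by
    have h3 : (A.1 * (!![1, 1; 0, 1] : Matrix (Fin 2) (Fin 2) K)) 1 1 =
        ((!![1, s; 0, 1] : Matrix (Fin 2) (Fin 2) K) * A.1) 1 1 := congrFun (congrFun h1 1) 1
    simp only [Matrix.mul_apply, Fin.sum_univ_two] at h3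
    simpa [e11] using h3
  have hu : IsUnit A.1.det := (Matrix.isUnit_iff_isUnit_det A.1).mp A.isUnit
  have hd : A.1.det = A.1 0 0 := by
    rw [Matrix.det_fin_two, e01, e11, e10]
    ring
  rw [hd] at hu
  obtain ⟨d, hd⟩ := hu
  refine ⟨d, Units.ext ?_⟩
  rw [CBB_dg_val]
  ext i j
  fin_cases i <;> fin_cases j <;> simp [e01, e11, e10, hd]

end CBBmat

/-! ### A nilpotent group is not the product of its derived group and a proper subgroup -/

private theorem CBB_frattini {P : Type*} [Group P] [Finite P] {p : ℕ} [Fact p.Prime]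
    (hP : IsPGroup p P) (C : Subgroup P) (hC : C ≠ ⊤) : commutator P ⊔ C ≠ ⊤ := by
  have hnil : Group.IsNilpotent P := hP.isNilpotent
  obtain ⟨W, hW, hCW⟩ := (eq_top_or_exists_le_coatom C).resolve_left hC
  have hWn : W.Normal := Subgroup.NormalizerCondition.normal_of_coatom W
    (Group.normalizerCondition_of_isNilpotent (G := P)) hW
  intro htop
  have htop2 : commutator P ⊔ W = ⊤ := top_le_iff.1 (htop ▸ sup_le_sup_left hCW _)
  have hnt : Nontrivial (P ⧸ W) := QuotientGroup.nontrivial_iff.2 hW.1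
  have hsol : Group.IsSolvable (P ⧸ W) := inferInstance
  have h1 : commutator (P ⧸ W) < ⊤ :=
    Group.IsSolvable.commutator_lt_top_of_nontrivial (P ⧸ W)
  refine h1.ne (top_le_iff.1 ?_)
  have h2 : (⊤ : Subgroup P).map (QuotientGroup.mk' W) = ⊤ := by
    rw [← MonoidHom.range_eq_map]
    exact MonoidHom.range_eq_top.2 (QuotientGroup.mk'_surjective W)
  rw [← h2, ← htop2, Subgroup.map_sup]
  refine sup_le ?_ ?_
  · rw [commutator_def, Subgroup.map_commutator]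
    exact Subgroup.commutator_mono le_top le_top
  · rw [Subgroup.map_le_iff_le_comap]
    intro w hw
    rw [Subgroup.mem_comap]
    have : (QuotientGroup.mk' W) w = 1 := (QuotientGroup.eq_one_iff w).2 hw
    rw [this]
    exact one_mem _

/-! ### The element `y` and its centralizer -/

section CBBdata

set_option linter.unusedSectionVars false

variable {G : Type*} [Group G] [Finite G] {S : Subgroup G} {F : FusionSystem S}

private theorem CBB_cS_le {p : ℕ} {Q : Subgroup G} (hQ : F.Essential p Q) : cS S Q ≤ Q :=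
  hQ.1.2 Q (FusionSystem.Conj.refl F hQ.1.1)

private theorem CBB_card {p : ℕ} [Fact p.Prime] {Q : Subgroup G} (hQ : F.Essential p Q)
    (D : DataB F p Q) : Nat.card (Subgroup.center S) = p := by
  rw [← D.card]
  have hQS : Q ≤ S := hQ.1.1
  have h1 : ∀ x : S, x ∈ Subgroup.center S → (x : G) ∈ Q := by
    intro x hx
    refine CBB_cS_le hQ (mem_cS.2 ⟨x.2, fun q hq => ?_⟩)
    exact congrArg Subtype.val (Subgroup.mem_center_iff.1 hx ⟨q, hQS hq⟩)
  refine Nat.card_congr ⟨fun x => ⟨⟨x.1.1, h1 x.1 x.2⟩, (D.center _).2 fun s hs =>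
      congrArg Subtype.val (Subgroup.mem_center_iff.1 x.2 ⟨s, hs⟩)⟩,
    fun z => ⟨⟨z.1.1, hQS z.1.2⟩, Subgroup.mem_center_iff.2 fun s =>
      Subtype.ext ((D.center z.1).1 z.2 s.1 s.2)⟩, fun x => rfl, fun z => rfl⟩

variable {p : ℕ} [Fact p.Prime] {Q : Subgroup G} (D : DataB F p Q)

private theorem CBB_exists_y : ∃ y : Q, Multiplicative.toAdd (D.e y) = ![0, 1] := by
  obtain ⟨y, hy⟩ := D.surj (Multiplicative.ofAdd ![0, 1])
  exact ⟨y, by rw [hy]; rfl⟩

private theorem CBB_e_one {y : Q} (h : y ∈ Subgroup.center Q) :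
    Multiplicative.toAdd (D.e y) = 0 := by
  rw [← D.ker, MonoidHom.mem_ker] at h
  rw [h]
  rfl

private theorem CBB_mem_center {y : Q} (h : Multiplicative.toAdd (D.e y) = 0) :
    y ∈ Subgroup.center Q := by
  rw [← D.ker, MonoidHom.mem_ker]
  exact Multiplicative.toAdd.injective h

private theorem CBB_not_center {y : Q} (hy : Multiplicative.toAdd (D.e y) = ![0, 1]) :
    y ∉ Subgroup.center Q := by
  intro h
  rw [CBB_e_one D h] at hy
  have := congrFun hy 1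
  simp at this

private theorem CBB_e_mul (a b : Q) : Multiplicative.toAdd (D.e (a * b)) =
    Multiplicative.toAdd (D.e a) + Multiplicative.toAdd (D.e b) := by
  rw [map_mul]
  rfl

private theorem CBB_e_inv (a : Q) : Multiplicative.toAdd (D.e a⁻¹) =
    - Multiplicative.toAdd (D.e a) := by
  rw [map_inv]
  rfl

private theorem CBB_e_pow (a : Q) (n : ℕ) : Multiplicative.toAdd (D.e (a ^ n)) =
    (n : ZMod p) • Multiplicative.toAdd (D.e a) := by
  rw [map_pow, toAdd_pow, Nat.cast_smul_eq_nsmul]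

/-- An element of `Q` is a product of powers and a central element. -/
private theorem CBB_span (r a b : Q) (s t : ZMod p)
    (h : Multiplicative.toAdd (D.e r) = s • Multiplicative.toAdd (D.e a) +
      t • Multiplicative.toAdd (D.e b)) :
    ∃ z ∈ Subgroup.center Q, r = a ^ s.val * b ^ t.val * z := by
  refine ⟨(a ^ s.val * b ^ t.val)⁻¹ * r, CBB_mem_center D ?_, by group⟩
  rw [CBB_e_mul, CBB_e_inv, CBB_e_mul, CBB_e_pow, CBB_e_pow, h, ZMod.natCast_zmod_val,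
    ZMod.natCast_zmod_val]
  exact neg_add_cancel _

private theorem CBB_comm {y : Q} (hy : Multiplicative.toAdd (D.e y) = ![0, 1]) {q : Q}
    (hq : q * y = y * q) : Multiplicative.toAdd (D.e q) 0 = 0 := by
  by_contra hne
  refine CBB_not_center D hy (Subgroup.mem_center_iff.2 fun r => ?_)
  set a := Multiplicative.toAdd (D.e q) with ha
  set c := Multiplicative.toAdd (D.e r) with hc
  obtain ⟨z, hz, hr⟩ := CBB_span D r q y (c 0 * (a 0)⁻¹) (c 1 - c 0 * (a 0)⁻¹ * a 1) (by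
    rw [← ha, ← hc, hy]
    ext i
    fin_cases i
    · simp [hne]
    · simp)
  have hz' : z * y = y * z := (Subgroup.mem_center_iff.1 hz y).symm
  have h1 : Commute q y := hq
  have h2 : Commute z y := hz'
  have h3 : Commute r y := by
    rw [hr]
    exact ((h1.pow_left _).mul_left ((Commute.refl y).pow_left _)).mul_left h2
  exact h3

private theorem CBB_comm' {y : Q} (hy : Multiplicative.toAdd (D.e y) = ![0, 1]) {q : Q}
    (hq : Multiplicative.toAdd (D.e q) 0 = 0) : q * y = y * q := by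
  obtain ⟨z, hz, hr⟩ := CBB_span D q 1 y 0 (Multiplicative.toAdd (D.e q) 1) (by
    rw [hy]
    ext i
    fin_cases i
    · simp [hq]
    · simp)
  have hz' : z * y = y * z := (Subgroup.mem_center_iff.1 hz y).symm
  have h2 : Commute z y := hz'
  have h3 : Commute q y := by
    rw [hr]
    exact (((Commute.one_left y).pow_left _).mul_left ((Commute.refl y).pow_left _)).mul_left h2
  exact h3

/-- Conjugation by an element of `N_S(Q)`. -/
private theorem CBB_nS (hQ : F.Essential p Q) {g : G} (hg : g ∈ nS S Q) :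
    ∃ t : F.aut Q, (t : MulAut Q) ∈ autS S Q ∧ (∀ x : Q, ((t : MulAut Q) x : G) = g * x * g⁻¹) ∧
      ∃ s, (D.ρ (QuotientGroup.mk t)).1 = (slU (ZMod p) s).1 ∧ (s = 0 → g ∈ Q) := by
  have hg' := mem_nS.1 hg
  let t : MulAut Q := MulEquiv.mk' ((MulAut.conj g).toEquiv.subtypeEquiv (fun x => hg'.2 x)) (by
    intro a b
    apply Subtype.ext
    simp)
  have ht : ∀ x : Q, (t x : G) = g * x * g⁻¹ := fun x => rfl
  have htS : t ∈ autS S Q := ⟨g, hg'.1, ht⟩
  have htF : t ∈ F.aut Q := autS_le_aut F hQ.1.1 htS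
  obtain ⟨s, hs⟩ := (D.sylow ⟨t, htF⟩).1 htS
  refine ⟨⟨t, htF⟩, htS, ht, s, hs, ?_⟩
  intro hs0
  have h1 : D.ρ (QuotientGroup.mk ⟨t, htF⟩) = 1 := by
    refine Units.ext ?_
    rw [hs, hs0]
    show (!![1, 0; 0, 1] : Matrix (Fin 2) (Fin 2) (ZMod p)) = 1
    exact Matrix.one_fin_two.symm
  have h2 : (QuotientGroup.mk (⟨t, htF⟩ : F.aut Q) : F.Out Q) = 1 :=
    D.inj (h1.trans (map_one _).symm)
  rw [QuotientGroup.eq_one_iff] at h2
  obtain ⟨q, hq⟩ := Subgroup.mem_subgroupOf.1 h2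
  have h3 : ∀ x : Q, g * x * g⁻¹ = q * x * (q : G)⁻¹ := by
    intro x
    rw [← ht x]
    have h4 : MulAut.conj q x = t x := by rw [hq]
    rw [← h4, MulAut.conj_apply]
    rfl
  have h5 : (q : G)⁻¹ * g ∈ Q := by
    refine CBB_cS_le hQ (mem_cS.2 ⟨S.mul_mem (S.inv_mem (hQ.1.1 q.2)) hg'.1, fun x hx => ?_⟩)
    have h6 := h3 ⟨x, hx⟩
    have h7 : g * x = q * x * (q : G)⁻¹ * g := by
      calc g * x = (g * x * g⁻¹) * g := by group
        _ = _ := by rw [h6]
    calc x * ((q : G)⁻¹ * g) = (q : G)⁻¹ * (q * x * (q : G)⁻¹ * g) := by group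
      _ = (q : G)⁻¹ * (g * x) := by rw [← h7]
      _ = (q : G)⁻¹ * g * x := by group
  have h8 : g = q * ((q : G)⁻¹ * g) := by group
  rw [h8]
  exact Q.mul_mem q.2 h5

private theorem CBB_u_e2 (s : ZMod p) : (slU (ZMod p) s).1.mulVec ![0, 1] = ![s, 1] := by
  show (!![1, s; 0, 1] : Matrix (Fin 2) (Fin 2) (ZMod p)).mulVec ![0, 1] = ![s, 1]
  ext i
  fin_cases i <;> simp [Matrix.mulVec, dotProduct, Fin.sum_univ_two]

/-- Elements of `N_S(Q)` which map `y` to an element commuting with `y` are in `Q`. -/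
private theorem CBB_nS_mem (hQ : F.Essential p Q) {y : Q}
    (hy : Multiplicative.toAdd (D.e y) = ![0, 1]) {g : G} (hg : g ∈ nS S Q)
    (hgy : (g * y * g⁻¹) * y = y * (g * y * g⁻¹)) : g ∈ Q := by
  obtain ⟨t, -, ht, s, hs, hs0⟩ := CBB_nS D hQ hg
  apply hs0
  have h1 := D.act t y
  rw [hs, hy, CBB_u_e2] at h1
  have h2 : (t : MulAut Q) y * y = y * (t : MulAut Q) y := by
    apply Subtype.ext
    show ((t : MulAut Q) y : G) * y = y * ((t : MulAut Q) y : G)
    rw [ht]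
    exact hgy
  have h3 := CBB_comm D hy h2
  rw [h1] at h3
  simpa using h3

include D in
/-- `Q` normalises `C_S(y)`. -/
private theorem CBB_norm (hQ : F.Essential p Q) (y : Q) {q g : G} (hq : q ∈ Q)
    (hg : g ∈ cS S (Subgroup.zpowers (y : G))) :
    q * g * q⁻¹ ∈ cS S (Subgroup.zpowers (y : G)) := by
  have hQS : Q ≤ S := hQ.1.1
  rw [mem_cS_zpowers] at hg ⊢
  refine ⟨S.mul_mem (S.mul_mem (hQS hq) hg.1) (S.inv_mem (hQS hq)), ?_⟩
  set q' : Q := ⟨q, hq⟩ with hq'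
  have hz : y⁻¹ * (q'⁻¹ * y * q') ∈ Subgroup.center Q := by
    apply CBB_mem_center D
    rw [CBB_e_mul, CBB_e_inv, CBB_e_mul, CBB_e_mul, CBB_e_inv]
    abel
  have h1 := (D.center _).1 hz g hg.1
  have h2 : g * ((y : G)⁻¹ * (q⁻¹ * y * q)) = ((y : G)⁻¹ * (q⁻¹ * y * q)) * g := h1
  have h3 : g * (q⁻¹ * y * q) = (q⁻¹ * y * q) * g := by
    calc g * (q⁻¹ * y * q) = (g * y) * ((y : G)⁻¹ * (q⁻¹ * y * q)) := by group
      _ = (y * g) * ((y : G)⁻¹ * (q⁻¹ * y * q)) := by rw [← hg.2]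
      _ = y * (g * ((y : G)⁻¹ * (q⁻¹ * y * q))) := by group
      _ = y * (((y : G)⁻¹ * (q⁻¹ * y * q)) * g) := by rw [h2]
      _ = (q⁻¹ * y * q) * g := by group
  calc (y : G) * (q * g * q⁻¹) = q * ((q⁻¹ * y * q) * g) * q⁻¹ := by group
    _ = q * (g * (q⁻¹ * y * q)) * q⁻¹ := by rw [h3]
    _ = q * g * q⁻¹ * y := by group

/-- The product `C_S(y) Q`. -/
private def CBB_prod (C Q : Subgroup G) (h : ∀ q ∈ Q, ∀ g ∈ C, q * g * q⁻¹ ∈ C) :
    Subgroup G where
  carrier := {x | ∃ c ∈ C, ∃ q ∈ Q, x = c * q}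
  one_mem' := ⟨1, C.one_mem, 1, Q.one_mem, by simp⟩
  mul_mem' := by
    rintro _ _ ⟨c, hc, q, hq, rfl⟩ ⟨c', hc', q', hq', rfl⟩
    exact ⟨c * (q * c' * q⁻¹), C.mul_mem hc (h q hq c' hc'), q * q', Q.mul_mem hq hq', by group⟩
  inv_mem' := by
    rintro _ ⟨c, hc, q, hq, rfl⟩
    refine ⟨q⁻¹ * c⁻¹ * q⁻¹⁻¹, h q⁻¹ (Q.inv_mem hq) c⁻¹ (C.inv_mem hc), q⁻¹, Q.inv_mem hq, ?_⟩
    group

private theorem CBB_cS_y_le (hS : IsPGroup p S) (hQ : F.Essential p Q) {y : Q}
    (hy : Multiplicative.toAdd (D.e y) = ![0, 1]) : cS S (Subgroup.zpowers (y : G)) ≤ Q := by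
  set C := cS S (Subgroup.zpowers (y : G)) with hC
  have hn : ∀ q ∈ Q, ∀ g ∈ C, q * g * q⁻¹ ∈ C := fun q hq g hg => CBB_norm D hQ y hq hg
  by_contra hle
  set H := CBB_prod C Q hn with hH
  have hHS : H ≤ S := by
    rintro _ ⟨c, hc, q, hq, rfl⟩
    exact S.mul_mem (mem_cS_zpowers.1 hc).1 (hQ.1.1 hq)
  have hQH : Q ≤ H := fun q hq => ⟨1, C.one_mem, q, hq, by simp⟩
  have hCH : C ≤ H := fun c hc => ⟨c, hc, 1, Q.one_mem, by simp⟩
  have hlt : Q < H := lt_of_le_of_ne hQH (fun h => hle (h ▸ hCH))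
  have hHp : IsPGroup p H := hS.to_le hHS
  obtain ⟨g, hg, hgQ⟩ := Set.exists_of_ssubset (lt_nS (S := H) hHp hlt)
  have hg' := mem_nS.1 hg
  obtain ⟨c, hc, q, hq, hgc⟩ := hg'.1
  have hcn : c ∈ nS S Q := by
    have h1 : g ∈ nS S Q := mem_nS.2 ⟨hHS hg'.1, hg'.2⟩
    have h2 : q ∈ nS S Q := le_nS hQ.1.1 hq
    have h3 : c = g * q⁻¹ := by rw [hgc]; group
    rw [h3]
    exact (nS S Q).mul_mem h1 ((nS S Q).inv_mem h2)
  have hcy := (mem_cS_zpowers.1 hc).2
  have hcQ : c ∈ Q := by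
    refine CBB_nS_mem D hQ hy hcn ?_
    have h4 : c * y * c⁻¹ = y := by rw [← hcy]; group
    rw [h4]
  exact hgQ (hgc ▸ Q.mul_mem hcQ hq)

private theorem CBB_nS_eq (hS : IsPGroup p S) (hQ : F.Essential p Q) {y : Q}
    (hy : Multiplicative.toAdd (D.e y) = ![0, 1]) :
    nS S (cS S (Subgroup.zpowers (y : G))) = Q := by
  set C := cS S (Subgroup.zpowers (y : G)) with hC
  have hn : ∀ q ∈ Q, ∀ g ∈ C, q * g * q⁻¹ ∈ C := fun q hq g hg => CBB_norm D hQ y hq hg
  have hQP : Q ≤ nS S C := by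
    intro q hq
    rw [mem_nS]
    refine ⟨hQ.1.1 hq, fun x => ⟨fun hx => hn q hq x hx, fun hx => ?_⟩⟩
    have h1 := hn q⁻¹ (Q.inv_mem hq) _ hx
    have h2 : q⁻¹ * (q * x * q⁻¹) * q⁻¹⁻¹ = x := by group
    rwa [h2] at h1
  refine le_antisymm ?_ hQP
  by_contra hle
  have hPS : nS S C ≤ S := inf_le_left
  have hlt : Q < nS S C := lt_of_le_of_ne hQP (fun h => hle h.ge)
  obtain ⟨g, hg, hgQ⟩ := Set.exists_of_ssubset (lt_nS (S := nS S C) (hS.to_le hPS) hlt)
  have hg' := mem_nS.1 hg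
  refine hgQ (CBB_nS_mem D hQ hy (mem_nS.2 ⟨hPS hg'.1, hg'.2⟩) ?_)
  have hyC : (y : G) ∈ C := mem_cS_zpowers.2 ⟨hQ.1.1 y.2, rfl⟩
  have h1 := (mem_cS_zpowers.1 (((mem_nS.1 hg'.1).2 _).1 hyC)).2
  exact h1.symm

private theorem CBB_not_centric (hS : IsPGroup p S) (hE : NoCentricBelow F p)
    (hQ : F.Essential p Q) {y : Q} (hy : Multiplicative.toAdd (D.e y) = ![0, 1]) :
    ¬ F.Centric (cS S (Subgroup.zpowers (y : G))) := by
  intro hc
  have h1 := hE Q hQ _ hc (CBB_cS_y_le D hS hQ hy)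
  refine CBB_not_center D hy (Subgroup.mem_center_iff.2 fun r => ?_)
  have h2 : (r : G) ∈ cS S (Subgroup.zpowers (y : G)) := by rw [h1]; exact r.2
  exact Subtype.ext (mem_cS_zpowers.1 h2).2.symm

private theorem CBB_nIdx (hS : IsPGroup p S) (hQ : F.Essential p Q) {y : Q}
    (hy : Multiplicative.toAdd (D.e y) = ![0, 1]) : p ≤ nIdx S ⟨(y : G), hQ.1.1 y.2⟩ := by
  set y' : S := ⟨(y : G), hQ.1.1 y.2⟩ with hy'
  have h1 : Subgroup.centralizer ({y'} : Set S) ≠ ⊤ := by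
    intro h
    refine CBB_not_center D hy ((D.center y).2 fun s hs => ?_)
    have h2 : (⟨s, hs⟩ : S) ∈ Subgroup.centralizer ({y'} : Set S) := by rw [h]; trivial
    have h3 := Subgroup.mem_centralizer_iff.1 h2 y' rfl
    exact (congrArg Subtype.val h3).symm
  have h2 := CBB_frattini hS _ h1
  unfold nIdx
  have h3 : (commutator S ⊔ Subgroup.centralizer ({y'} : Set S)).index ≠ 1 := by
    rwa [Ne, Subgroup.index_eq_one]
  obtain ⟨n, hn⟩ := hS.index (commutator S ⊔ Subgroup.centralizer ({y'} : Set S))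
  rw [hn] at h3 ⊢
  have h4 : n ≠ 0 := by
    rintro rfl
    exact h3 (pow_zero p)
  exact Nat.le_self_pow h4 p

end CBBdata

/-! ### Restriction to `Q` and extension to `S` -/

section CBBaut

set_option linter.unusedSectionVars false

variable {G : Type*} [Group G] [Finite G] {S : Subgroup G} {F : FusionSystem S}

/-- Restriction of an element of `Aut_F(S)` stabilising `Q`. -/
private theorem CBB_res {Q : Subgroup G} (hQS : Q ≤ S) (a : F.aut S)
    (ha : ∀ z : S, (z : G) ∈ Q → ((a : MulAut S) z : G) ∈ Q) :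
    ∃ a' : F.aut Q, ∀ z : Q, ((a' : MulAut Q) z : G) = (a : MulAut S) ⟨z, hQS z.2⟩ := by
  have h1 : (a : MulAut S) ∈ F.iso S S := (F.mem_aut le_rfl _).1 a.2
  obtain ⟨Q', ψ, hψ, hψa⟩ := F.exists_res h1 hQS
  have hle : Q' ≤ Q := by
    intro y hy
    have h2 := hψa (ψ.symm ⟨y, hy⟩)
    rw [MulEquiv.apply_symm_apply] at h2
    have h3 : y = ((a : MulAut S) ⟨(ψ.symm ⟨y, hy⟩ : Q), hQS (ψ.symm ⟨y, hy⟩).2⟩ : G) := h2
    rw [h3]
    exact ha _ (ψ.symm ⟨y, hy⟩).2
  have hcard : Nat.card Q' = Nat.card Q := (Nat.card_congr ψ.toEquiv).symm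
  have heq : Q' = Q := Subgroup.eq_of_le_of_card_ge hle hcard.ge
  subst heq
  exact ⟨⟨ψ, Or.inr hψ⟩, hψa⟩

/-- Extension of an element of `Aut_F(Q)` normalising `Aut_S(Q)`, for `Q` essential. -/
private theorem CBB_ext {p : ℕ} [Fact p.Prime] (hS : IsPGroup p S) (hF : F.Saturated p)
    (hE : NoCentricBelow F p) {Q : Subgroup G} (hQ : F.Essential p Q) (a : F.aut Q)
    (hn : ∀ t ∈ autS S Q, (a : MulAut Q) * t * (a : MulAut Q)⁻¹ ∈ autS S Q) :
    ∃ Ψ : F.aut S, ∀ z : Q, ((a : MulAut Q) z : G) = (Ψ : MulAut S) ⟨z, hQ.1.1 z.2⟩ := by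
  have hQS : Q ≤ S := hQ.1.1
  have ha : (a : MulAut Q) ∈ F.iso Q Q := (F.mem_aut hQS _).1 a.2
  have hfc : F.FullyCentralized Q := (hF.sylow Q hQS hQ.2.1).1
  obtain ⟨R', ψ, hψ, hψa⟩ := hF.extend Q Q (nS S Q) (a : MulAut Q) (le_nS hQS) ha hfc inf_le_left
    (by
      intro g hg
      have hg' := mem_nS.1 hg
      let t : MulAut Q := MulEquiv.mk' ((MulAut.conj g).toEquiv.subtypeEquiv (fun x => hg'.2 x)) (by
        intro a b
        apply Subtype.ext
        simp)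
      have htS : t ∈ autS S Q := ⟨g, hg'.1, fun x => rfl⟩
      obtain ⟨h, hh, hhx⟩ := hn t htS
      refine ⟨h, hh, fun x => ⟨(hg'.2 x).1 x.2, ?_⟩⟩
      have h1 := hhx ((a : MulAut Q) x)
      rw [← h1, MulAut.mul_apply, MulAut.mul_apply, MulAut.inv_apply_self]
      rfl)
  have hc : F.Centric (nS S Q) := hQ.1.mono (le_nS hQS) inf_le_left
  have hne : ¬ F.Essential p (nS S Q) := by
    intro h
    have h1 := hE _ h Q hQ.1 (le_nS hQS)
    exact (essential_lt_nS F p hS hF hQ).ne h1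
  obtain ⟨Ψ, hΨ, hΨψ⟩ := ext_of_not_essential F p hS hF hE ψ hψ hc hne
  refine ⟨⟨Ψ, Or.inr hΨ⟩, fun z => ?_⟩
  rw [← hψa z, hΨψ]

end CBBaut

section CBBN

set_option linter.unusedSectionVars false

variable {G : Type*} [Group G] [Finite G] {S : Subgroup G} {F : FusionSystem S}
  {p : ℕ} [Fact p.Prime] {Q : Subgroup G} (D : DataB F p Q)

/-- The elements of `Out_F(Q)` acting as `diag(d, 1)`. -/
private def CBB_N : Subgroup (F.Out Q) := (CBB_dg (ZMod p)).range.comap D.ρ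

private theorem CBB_card_N {k : Type*} [Field k] [CharP k p] :
    (Nat.card (CBB_N D) : k) ≠ 0 := by
  have h1 : Nat.card (CBB_N D) ∣ p - 1 := by
    have h2 : Nat.card (CBB_N D) = Nat.card ((CBB_N D).map D.ρ) :=
      Nat.card_congr ((CBB_N D).equivMapOfInjective D.ρ D.inj).toEquiv
    have h3 : (CBB_N D).map D.ρ ≤ (CBB_dg (ZMod p)).range := by
      rw [Subgroup.map_le_iff_le_comap]
      exact le_rfl
    have h4 : Nat.card (CBB_dg (ZMod p)).range ∣ Nat.card (ZMod p)ˣ :=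
      Subgroup.card_range_dvd _
    have h5 : Nat.card (ZMod p)ˣ = p - 1 := by
      rw [Nat.card_eq_fintype_card, ZMod.card_units_eq_totient, Nat.totient_prime Fact.out]
    rw [h2, ← h5]
    exact (Subgroup.card_dvd_of_le h3).trans h4
  rw [Ne, CharP.cast_eq_zero_iff k p]
  intro h2
  have hp : p.Prime := Fact.out
  have h3 := Nat.le_of_dvd (by have := hp.two_le; omega) (h2.trans h1)
  have := hp.two_le
  omega

/-- `SL₂(p)` inside `Out_F(Q)`. -/
private theorem CBB_theta : ∃ θ : Matrix.SpecialLinearGroup (Fin 2) (ZMod p) →* F.Out Q,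
    ∀ g, (D.ρ (θ g)).1 = g.1 := by
  choose f hf using D.sl
  refine ⟨MonoidHom.mk' f fun g h => D.inj (Units.ext ?_), hf⟩
  rw [hf, map_mul, Units.val_mul, hf, hf]
  rfl

/-- Elements of `A_y` stabilise `Q`. -/
private theorem CBB_stab (hS : IsPGroup p S) (hQ : F.Essential p Q) {y : Q}
    (hy : Multiplicative.toAdd (D.e y) = ![0, 1]) (a : F.aut S)
    (ha : a ∈ aStab F ⟨(y : G), hQ.1.1 y.2⟩) (z : S) (hz : (z : G) ∈ Q) :
    ((a : MulAut S) z : G) ∈ Q := by
  have hQS : Q ≤ S := hQ.1.1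
  have hay : (a : MulAut S) ⟨(y : G), hQS y.2⟩ = ⟨(y : G), hQS y.2⟩ := ha
  set C := cS S (Subgroup.zpowers (y : G)) with hC
  have hCa : ∀ x : S, (x : G) ∈ C ↔ ((a : MulAut S) x : G) ∈ C := by
    intro x
    rw [hC, mem_cS_zpowers, mem_cS_zpowers]
    constructor
    · rintro ⟨-, h1⟩
      refine ⟨((a : MulAut S) x).2, ?_⟩
      have h2 : (⟨(y : G), hQS y.2⟩ : S) * x = x * ⟨(y : G), hQS y.2⟩ := Subtype.ext h1
      have h3 := congrArg (a : MulAut S) h2
      rw [map_mul, map_mul, hay] at h3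
      exact congrArg Subtype.val h3
    · rintro ⟨-, h1⟩
      refine ⟨x.2, ?_⟩
      have h2 : (⟨(y : G), hQS y.2⟩ : S) * (a : MulAut S) x =
          (a : MulAut S) x * ⟨(y : G), hQS y.2⟩ := Subtype.ext h1
      have h3 : (a : MulAut S) (⟨(y : G), hQS y.2⟩ * x) =
          (a : MulAut S) (x * ⟨(y : G), hQS y.2⟩) := by
        rw [map_mul, map_mul, hay]
        exact h2
      exact congrArg Subtype.val ((a : MulAut S).injective h3)
  have hz' : (z : G) ∈ nS S C := by rw [CBB_nS_eq D hS hQ hy]; exact hz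
  have goal : ((a : MulAut S) z : G) ∈ nS S C := by
    rw [mem_nS] at hz' ⊢
    refine ⟨((a : MulAut S) z).2, fun x => ?_⟩
    by_cases hx : x ∈ S
    · obtain ⟨x0, hx0⟩ := (a : MulAut S).surjective ⟨x, hx⟩
      have e1 : x = ((a : MulAut S) x0 : G) := by rw [hx0]
      have e2 : ((a : MulAut S) z : G) * x * ((a : MulAut S) z : G)⁻¹ =
          ((a : MulAut S) (z * x0 * z⁻¹) : G) := by
        rw [map_mul, map_mul, map_inv, e1]
        rfl
      rw [e2, ← hCa, e1, ← hCa]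
      exact hz'.2 x0
    · constructor
      · intro h
        exact absurd (mem_cS_zpowers.1 h).1 hx
      · intro h
        have h1 := (mem_cS_zpowers.1 h).1
        have h2 : x = ((a : MulAut S) z : G)⁻¹ *
            (((a : MulAut S) z : G) * x * ((a : MulAut S) z : G)⁻¹) * ((a : MulAut S) z : G) := by
          group
        exact absurd (h2 ▸ S.mul_mem (S.mul_mem (S.inv_mem ((a : MulAut S) z).2) h1)
          ((a : MulAut S) z).2) hx
  rwa [CBB_nS_eq D hS hQ hy] at goal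

/-- The restriction of an element of `A_y` lies over `N`. -/
private theorem CBB_h1 (hS : IsPGroup p S) (hQ : F.Essential p Q) {y : Q}
    (hy : Multiplicative.toAdd (D.e y) = ![0, 1]) (a : F.aut S)
    (ha : a ∈ aStab F ⟨(y : G), hQ.1.1 y.2⟩) :
    ∃ a' : F.aut Q, (∀ z : Q, ((a' : MulAut Q) z : G) = (a : MulAut S) ⟨z, hQ.1.1 z.2⟩) ∧
      (QuotientGroup.mk a' : F.Out Q) ∈ CBB_N D := by
  have hQS : Q ≤ S := hQ.1.1
  obtain ⟨a', ha'⟩ := CBB_res hQS a (fun z hz => CBB_stab D hS hQ hy a ha z hz)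
  refine ⟨a', ha', ?_⟩
  have hay : (a : MulAut S) ⟨(y : G), hQS y.2⟩ = ⟨(y : G), hQS y.2⟩ := ha
  have hay' : (a' : MulAut Q) y = y := by
    apply Subtype.ext
    rw [ha', hay]
  have h1 : (D.ρ (QuotientGroup.mk a')).1.mulVec ![0, 1] = ![0, 1] := by
    have h2 := D.act a' y
    rw [hay', hy] at h2
    exact h2.symm
  -- an element of `Aut_S(Q)` acting as `u(1)`
  obtain ⟨o, ho⟩ := D.sl (slU (ZMod p) 1)
  obtain ⟨t, rfl⟩ := QuotientGroup.mk_surjective o
  have ht : (t : MulAut Q) ∈ autS S Q := (D.sylow t).2 ⟨1, ho⟩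
  obtain ⟨g, hg, hgt⟩ := ht
  -- the conjugate is in `Aut_S(Q)`
  have h3 : ((a' * t * a'⁻¹ : F.aut Q) : MulAut Q) ∈ autS S Q := by
    refine ⟨((a : MulAut S) ⟨g, hg⟩ : G), ((a : MulAut S) ⟨g, hg⟩).2, fun x => ?_⟩
    obtain ⟨x0, rfl⟩ := (a' : MulAut Q).surjective x
    have e1 : ((a' * t * a'⁻¹ : F.aut Q) : MulAut Q) ((a' : MulAut Q) x0) =
        (a' : MulAut Q) ((t : MulAut Q) x0) := by
      show ((a' : MulAut Q) * (t : MulAut Q) * (a' : MulAut Q)⁻¹) ((a' : MulAut Q) x0) = _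
      rw [MulAut.mul_apply, MulAut.mul_apply, MulAut.inv_apply_self]
    rw [e1, ha', ha']
    have e2 : (⟨((t : MulAut Q) x0 : G), hQS ((t : MulAut Q) x0).2⟩ : S) =
        ⟨g, hg⟩ * ⟨(x0 : G), hQS x0.2⟩ * ⟨g, hg⟩⁻¹ := by
      apply Subtype.ext
      exact hgt x0
    rw [e2, map_mul, map_mul, map_inv]
    rfl
  obtain ⟨s, hs⟩ := (D.sylow _).1 h3
  have h4 : (D.ρ (QuotientGroup.mk a')).1 * (slU (ZMod p) 1).1 =
      (slU (ZMod p) s).1 * (D.ρ (QuotientGroup.mk a')).1 := by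
    rw [← hs, ← ho, ← Units.val_mul, ← Units.val_mul, ← map_mul, ← map_mul]
    congr 2
    rw [← QuotientGroup.mk_mul, ← QuotientGroup.mk_mul]
    congr 1
    group
  obtain ⟨d, hd⟩ := CBB_mat_N _ h1 s h4
  exact ⟨d, hd⟩

/-- Every element of `N` comes from an element of `A_y`. -/
private theorem CBB_h2 (hS : IsPGroup p S) (hF : F.Saturated p) (hE : NoCentricBelow F p)
    (hQ : F.Essential p Q) {y : Q}
    (hy : Multiplicative.toAdd (D.e y) = ![0, 1]) (o : F.Out Q) (ho : o ∈ CBB_N D) :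
    ∃ a ∈ aStab F ⟨(y : G), hQ.1.1 y.2⟩, ∃ a' : F.aut Q,
      (∀ z : Q, ((a' : MulAut Q) z : G) = ((a : F.aut S) : MulAut S) ⟨z, hQ.1.1 z.2⟩) ∧
      (QuotientGroup.mk a' : F.Out Q) = o := by
  have hQS : Q ≤ S := hQ.1.1
  obtain ⟨b, rfl⟩ := QuotientGroup.mk_surjective o
  obtain ⟨d, hd⟩ := ho
  -- correct `b` by an inner automorphism
  have h1 : Multiplicative.toAdd (D.e ((b : MulAut Q) y)) = Multiplicative.toAdd (D.e y) := by
    rw [D.act b y, ← hd, hy, CBB_dg_val]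
    ext i
    fin_cases i <;> simp [Matrix.mulVec, dotProduct, Fin.sum_univ_two]
  have h2 : y⁻¹ * (b : MulAut Q) y ∈ Subgroup.center Q := by
    apply CBB_mem_center D
    rw [CBB_e_mul, CBB_e_inv, h1]
    exact neg_add_cancel _
  obtain ⟨q, hq⟩ := D.fill y (CBB_not_center D hy) _ h2
  have hq' : q * y * q⁻¹ = (b : MulAut Q) y := by rw [hq]; group
  have hconj : MulAut.conj q ∈ F.aut Q := autS_le_aut F hQS (conj_mem_autS hQS q)
  set c : F.aut Q := ⟨MulAut.conj q, hconj⟩ with hc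
  have hcinn : c ∈ F.inn Q := Subgroup.mem_subgroupOf.2 ⟨q, rfl⟩
  set a' : F.aut Q := c⁻¹ * b with ha'
  have ha'mk : (QuotientGroup.mk a' : F.Out Q) = QuotientGroup.mk b := by
    rw [ha', QuotientGroup.mk_mul, QuotientGroup.mk_inv, (QuotientGroup.eq_one_iff c).2 hcinn,
      inv_one, one_mul]
  have ha'y : (a' : MulAut Q) y = y := by
    show ((MulAut.conj q)⁻¹ * (b : MulAut Q)) y = y
    rw [MulAut.mul_apply, ← hq', ← map_inv, MulAut.conj_apply]
    group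
  clear_value a'
  have hn : ∀ t ∈ autS S Q, (a' : MulAut Q) * t * (a' : MulAut Q)⁻¹ ∈ autS S Q := by
    intro t ht
    have htF : t ∈ F.aut Q := autS_le_aut F hQS ht
    obtain ⟨s, hs⟩ := (D.sylow ⟨t, htF⟩).1 ht
    have e0 : (a' : MulAut Q) * t * (a' : MulAut Q)⁻¹ =
        ((a' * ⟨t, htF⟩ * a'⁻¹ : F.aut Q) : MulAut Q) := by
      rw [Subgroup.coe_mul, Subgroup.coe_mul, Subgroup.coe_inv]
    rw [e0, D.sylow]
    refine ⟨d * s, ?_⟩
    have e1 : D.ρ (QuotientGroup.mk a') = CBB_dg (ZMod p) d := by rw [ha'mk, hd]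
    rw [QuotientGroup.mk_mul, QuotientGroup.mk_mul, QuotientGroup.mk_inv, map_mul, map_mul,
      map_inv, e1, Units.val_mul, Units.val_mul, hs, CBB_dgU, Matrix.mul_assoc, ← Units.val_mul,
      mul_inv_cancel, Units.val_one, Matrix.mul_one]
  obtain ⟨Ψ, hΨ⟩ := CBB_ext hS hF hE hQ a' hn
  refine ⟨Ψ, ?_, a', hΨ, ha'mk⟩
  show (Ψ : MulAut S) ⟨(y : G), hQS y.2⟩ = ⟨(y : G), hQS y.2⟩
  apply Subtype.ext
  have h3 := hΨ y
  rw [ha'y] at h3
  exact h3.symm

end CBBN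

variable {G : Type*} [Group G] [Finite G] {S : Subgroup G} (F : FusionSystem S)
  {k : Type*} [Field k] [IsAlgClosed k]

theorem bound_B (p : ℕ) [Fact p.Prime] [CharP k p] (hS : IsPGroup p S) (hF : F.Saturated p)
    (hE : NoCentricBelow F p) (α : ∀ P : Subgroup G, Cocycle (F.Out P) k) (hα : Compatible F α)
    {Q : Subgroup G} (hQ : F.Essential p Q) (hB : TypeB p Q) :
    Nat.card (Subgroup.center S) = p ∧
    ∃ y : S, (y : G) ∈ Q ∧ nS S (cS S (Subgroup.zpowers (y : G))) = Q ∧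
      ¬ F.Centric (cS S (Subgroup.zpowers (y : G))) ∧ p ≤ nIdx S y ∧
      ∀ x : S, (F.cent x).Centric Q → x ∈ Subgroup.center S ∧
        zNum (TwAlg (centFam F α x Q)) ≤
          Nat.card {x' : S // ∃ a ∈ aStab F y, ((a : F.aut S) : MulAut S) x = x'} * lam F α y := by
  classical
  obtain ⟨D⟩ := exists_dataB F p hS hF hQ hB
  obtain ⟨y, hy⟩ := CBB_exists_y D
  have hQS : Q ≤ S := hQ.1.1
  set y' : S := ⟨(y : G), hQS y.2⟩ with hy'
  refine ⟨CBB_card hQ D, y', y.2, CBB_nS_eq D hS hQ hy, CBB_not_centric D hS hE hQ hy,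
    CBB_nIdx D hS hQ hy, fun x hx => ?_⟩
  -- `x` is central
  have hxQ : (x : G) ∈ Q := mem_of_cent_centric F x hx
  have hxc : ∀ q ∈ Q, q * (x : G) = x * q := fun q hq =>
    (mem_cS_zpowers.1 (hx.1 hq)).2.symm
  have hxZ : (⟨(x : G), hxQ⟩ : Q) ∈ Subgroup.center Q :=
    Subgroup.mem_center_iff.2 fun q => Subtype.ext (hxc q q.2)
  have hxS : x ∈ Subgroup.center S :=
    Subgroup.mem_center_iff.2 fun s => Subtype.ext ((D.center _).1 hxZ s s.2)
  refine ⟨hxS, ?_⟩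
  obtain ⟨hO, hz⟩ := zNum_centFam F α x hQS hxQ hxc
  rw [hz]
  set O : Subgroup (F.Out Q) := (F.centOut x Q).range with hOdef
  set N : Subgroup (F.Out Q) := CBB_N D with hN
  -- `SL₂(p) → O`
  obtain ⟨θ, hθ⟩ := CBB_theta D
  have hθO : ∀ g, θ g ∈ O := by
    intro g
    obtain ⟨a, ha⟩ := QuotientGroup.mk_surjective (θ g)
    refine (hO _).2 ⟨a, ?_, ha⟩
    have h1 : (D.ρ (QuotientGroup.mk a)).1.det = 1 := by
      rw [ha, hθ]
      exact g.2
    exact congrArg Subtype.val (D.cent a h1 _ hxZ)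
  let θ' : Matrix.SpecialLinearGroup (Fin 2) (ZMod p) →* O := θ.codRestrict O hθO
  have hθ' : Function.Injective θ' := by
    intro g h hgh
    have h1 : θ g = θ h := congrArg Subtype.val hgh
    apply Subtype.ext
    rw [← hθ g, ← hθ h, h1]
  have hst : zNum (TwAlg ((α Q).comap O.subtype)) ≤
      lNum (TwAlg (((α Q).comap O.subtype).comap (N.subgroupOf O).subtype)) := by
    refine zNum_le_steinberg p (ZMod p) ((α Q).comap O.subtype) θ' hθ' (N.subgroupOf O) ?_ ?_ ?_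
    · intro o
      obtain ⟨g, d, hgd⟩ := CBB_factor (D.ρ (o : F.Out Q))
      refine ⟨g, (θ' g)⁻¹ * o, ?_, by group⟩
      rw [Subgroup.mem_subgroupOf]
      refine ⟨d, ?_⟩
      show CBB_dg (ZMod p) d = D.ρ ((θ g)⁻¹ * (o : F.Out Q))
      rw [map_mul, map_inv, eq_inv_mul_iff_mul_eq]
      refine Units.ext ?_
      rw [Units.val_mul, hθ, hgd]
    · rintro κ ⟨d, hd⟩ s
      refine ⟨d * s, ?_⟩
      rw [mul_inv_eq_iff_eq_mul]
      apply Subtype.ext
      show (κ : F.Out Q) * θ (slU (ZMod p) s) = θ (slU (ZMod p) (d * s)) * (κ : F.Out Q)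
      refine D.inj (Units.ext ?_)
      have hd' : D.ρ (κ : F.Out Q) = CBB_dg (ZMod p) d := hd.symm
      rw [map_mul, map_mul, Units.val_mul, Units.val_mul, hθ, hθ, hd']
      exact CBB_dgU d s
    · rintro κ ⟨d, hd⟩
      refine ⟨d, ?_⟩
      rw [mul_inv_eq_iff_eq_mul]
      apply Subtype.ext
      show (κ : F.Out Q) * θ (slW (ZMod p)) = θ (slD (ZMod p) d * slW (ZMod p)) * (κ : F.Out Q)
      refine D.inj (Units.ext ?_)
      have hd' : D.ρ (κ : F.Out Q) = CBB_dg (ZMod p) d := hd.symm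
      rw [map_mul, map_mul, Units.val_mul, Units.val_mul, hθ, hθ, hd']
      exact CBB_dgW d
  -- pass to subgroups of `Out_F(Q)`
  have htr : lNum (TwAlg (((α Q).comap O.subtype).comap (N.subgroupOf O).subtype)) =
      lNum (TwAlg ((α Q).comap (N ⊓ O).subtype)) := by
    let e : (N.subgroupOf O) ≃* (N ⊓ O : Subgroup (F.Out Q)) :=
      { toFun := fun a => ⟨a.1.1, ⟨a.2, a.1.2⟩⟩
        invFun := fun a => ⟨⟨a.1, a.2.2⟩, a.2.1⟩
        left_inv := fun _ => rfl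
        right_inv := fun _ => rfl
        map_mul' := fun _ _ => rfl }
    obtain ⟨E⟩ := twAlgEquiv_of_mulEquiv ((α Q).comap (N ⊓ O).subtype) e
    exact lNum_congr E.toRingEquiv
  have hix : lNum (TwAlg ((α Q).comap (N ⊓ O).subtype)) ≤
      (N ⊓ O).relIndex N * lNum (TwAlg ((α Q).comap N.subtype)) :=
    lNum_le_index (α Q) (N ⊓ O) N inf_le_left (CBB_card_N D)
  have hlam : lNum (TwAlg ((α Q).comap N.subtype)) ≤ lam F α y' :=
    lNum_le_lam F p hS α hα y' hQ.1 (fun a ha z hz => CBB_stab D hS hQ hy a ha z hz) N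
      (fun a ha => CBB_h1 D hS hQ hy a ha) (fun o ho => CBB_h2 D hS hF hE hQ hy o ho)
  -- the orbit of `x`
  have horb : (N ⊓ O).relIndex N ≤
      Nat.card {x' : S // ∃ a ∈ aStab F y', ((a : F.aut S) : MulAut S) x = x'} := by
    have h0 : ∀ o : N, ∃ a ∈ aStab F y', ∃ a' : F.aut Q,
        (∀ z : Q, ((a' : MulAut Q) z : G) = ((a : F.aut S) : MulAut S) ⟨z, hQS z.2⟩) ∧
        (QuotientGroup.mk a' : F.Out Q) = o :=
      fun o => CBB_h2 D hS hF hE hQ hy o.1 o.2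
    choose A hA1 A' hA2 hA3 using h0
    let φ : N ⧸ (N ⊓ O).subgroupOf N →
        {x' : S // ∃ a ∈ aStab F y', ((a : F.aut S) : MulAut S) x = x'} :=
      fun c => ⟨((A c.out : F.aut S) : MulAut S) x, A c.out, hA1 _, rfl⟩
    have hφ : Function.Injective φ := by
      intro c c' hcc
      have h1 : ((A c.out : F.aut S) : MulAut S) x = ((A c'.out : F.aut S) : MulAut S) x :=
        congrArg Subtype.val hcc
      have h2 : (A' c.out : MulAut Q) ⟨(x : G), hxQ⟩ = (A' c'.out : MulAut Q) ⟨(x : G), hxQ⟩ := by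
        apply Subtype.ext
        rw [hA2, hA2]
        exact congrArg Subtype.val h1
      have h3 : ((c.out : N) : F.Out Q)⁻¹ * ((c'.out : N) : F.Out Q) ∈ O := by
        rw [← hA3, ← hA3]
        refine (hO _).2 ⟨(A' c.out)⁻¹ * A' c'.out, ?_, rfl⟩
        show (((A' c.out : MulAut Q)⁻¹ * (A' c'.out : MulAut Q)) ⟨(x : G), hxQ⟩ : G) = x
        rw [MulAut.mul_apply, ← h2, MulAut.inv_apply_self]
      rw [← Quotient.out_eq c, ← Quotient.out_eq c']
      refine QuotientGroup.eq.2 ?_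
      rw [Subgroup.mem_subgroupOf]
      exact ⟨N.mul_mem (N.inv_mem c.out.2) c'.out.2, h3⟩
    exact Nat.card_le_card_of_injective φ hφ
  calc zNum (TwAlg ((α Q).comap O.subtype))
      ≤ (N ⊓ O).relIndex N * lNum (TwAlg ((α Q).comap N.subtype)) := hst.trans (htr.le.trans hix)
    _ ≤ _ := Nat.mul_le_mul horb hlam

end MNF
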