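import Pool.Agent.W_0649d4.CCentral

/-! `C_F(x)`-centric subgroups (blueprint, section CAS). -/

namespace MNF

variable {G : Type*} [Group G] [Finite G] {S : Subgroup G} (F : FusionSystem S)

/-- For `x` fully centralized, `C_F(x)`-centric subgroups contain `x` and are `F`-centric. -/
theorem mem_of_cent_centric (x : S) {Q : Subgroup G} (hQ : (F.cent x).Centric Q) :
    (x : G) ∈ Q := by
  apply hQ.2 Q (FusionSystem.Conj.refl _ hQ.1)
  rw [mem_cS]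
  refine ⟨mem_cS_zpowers.mpr ⟨x.2, rfl⟩, ?_⟩
  intro y hy
  exact ((mem_cS_zpowers.mp (hQ.1 hy)).2).symm

theorem centric_of_cent_centric (p : ℕ) [Fact p.Prime] (hF : F.Saturated p) (x : S)
    (hx : F.FullyCentralized (Subgroup.zpowers (x : G))) {Q : Subgroup G}
    (hQ : (F.cent x).Centric Q) : F.Centric Q := by
  have hxQ := mem_of_cent_centric F x hQ
  refine ⟨fun y hy => (hQ.1 hy).1, ?_⟩
  rintro Q' ⟨φ, hφ⟩
  have hx'S : (φ ⟨x, hxQ⟩ : G) ∈ S := F.le_right hφ (φ _).2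
  let x' : S := ⟨φ ⟨x, hxQ⟩, hx'S⟩
  have hx'Q' : (x' : G) ∈ Q' := (φ ⟨x, hxQ⟩).2
  have hconj : F.ConjEl (x' : G) (x : G) := by
    refine ⟨Q', Q, φ.symm, hx'Q', F.symm_mem hφ, ?_⟩
    show (φ.symm (φ ⟨x, hxQ⟩) : G) = x
    rw [MulEquiv.symm_apply_apply]
  have hyy : (x' : G) ∈ cS S (Subgroup.zpowers (x' : G)) := mem_cS_zpowers.mpr ⟨x'.2, rfl⟩
  obtain ⟨R, χ, hχ, hχx, hR⟩ := exists_iso_cS F hF x x' hx hconj hyy
  have hQ'C : Q' ≤ cS S (Subgroup.zpowers (x' : G)) := by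
    intro y hy
    rw [mem_cS_zpowers]
    refine ⟨F.le_right hφ hy, ?_⟩
    set c := φ.symm ⟨y, hy⟩ with hc
    have h1 : (φ c : G) = y := by rw [hc, MulEquiv.apply_symm_apply]
    have h2 : (x : G) * c = c * x := (mem_cS_zpowers.mp (hQ.1 c.2)).2
    have h3 := (map_cS F hφ c ⟨x, hxQ⟩).mp h2
    rw [h1] at h3
    exact h3
  obtain ⟨Q'', ω, hω, hQ''R, hωχ⟩ := exists_res_le F hχ hQ'C
  have hconj2 : (F.cent x).Conj Q Q'' := by
    refine ⟨φ.trans ω, hQ.1, hQ''R.trans hR, Q, Q'', φ.trans ω, le_rfl, hxQ,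
      F.trans_mem hφ hω, ?_, fun y => rfl⟩
    show (ω (φ ⟨x, hxQ⟩) : G) = x
    rw [hωχ]
    exact hχx
  have hcent := hQ.2 Q'' hconj2
  intro g hg
  rw [mem_cS] at hg
  have hgC : g ∈ cS S (Subgroup.zpowers (x' : G)) := by
    rw [mem_cS_zpowers]
    exact ⟨hg.1, hg.2 _ hx'Q'⟩
  have h1 : (χ ⟨g, hgC⟩ : G) ∈ Q'' := by
    apply hcent
    rw [mem_cS]
    refine ⟨hR (χ _).2, ?_⟩
    intro z hz
    set u := ω.symm ⟨z, hz⟩ with hu
    have h2 : (ω u : G) = z := by rw [hu, MulEquiv.apply_symm_apply]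
    have h3 : (χ ⟨u, hQ'C u.2⟩ : G) = z := by rw [← hωχ, h2]
    have h4 : (u : G) * g = g * u := hg.2 u u.2
    have h5 := (map_cS F hχ ⟨g, hgC⟩ ⟨u, hQ'C u.2⟩).mp h4
    rw [h3] at h5
    exact h5
  set u := ω.symm ⟨_, h1⟩ with hu
  have h2 : (ω u : G) = χ ⟨g, hgC⟩ := by rw [hu, MulEquiv.apply_symm_apply]
  rw [hωχ] at h2
  have h3 : (⟨u, hQ'C u.2⟩ : cS S (Subgroup.zpowers (x' : G))) = ⟨g, hgC⟩ :=
    χ.injective (Subtype.ext h2)
  have h4 : (u : G) = g := congrArg Subtype.val h3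
  rw [← h4]
  exact u.2

end MNF
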