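import Pool.Agent.W_0649d4.CBasic

/-! Comparison of `α_Q` and `α_S` on subgroups of `Aut_F(S)` stabilising `Q`. -/

namespace MNF

variable {G : Type*} [Group G] [Finite G] {S : Subgroup G} (F : FusionSystem S)
  {k : Type*} [Field k]

/-- Restriction of an automorphism of `S` to a stable subgroup. -/
theorem exists_res_aut {P : Subgroup G} (hP : P ≤ S) (a : F.aut S)
    (ha : ∀ y : S, (y : G) ∈ P → ((a : MulAut S) y : G) ∈ P) :
    ∃ a' : F.aut P, ∀ y : P, ((a' : MulAut P) y : G) = (a : MulAut S) ⟨y, hP y.2⟩ := by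
  have haS : (a : MulAut S) ∈ F.iso S S := (F.mem_aut le_rfl _).mp a.2
  obtain ⟨Q', ψ, hψ, h1⟩ := F.exists_res haS hP
  have hle : Q' ≤ P := by
    intro y hy
    have h2 := h1 (ψ.symm ⟨y, hy⟩)
    rw [MulEquiv.apply_symm_apply] at h2
    have h3 : y = ((a : MulAut S) ⟨(ψ.symm ⟨y, hy⟩ : P), hP (ψ.symm ⟨y, hy⟩).2⟩ : G) := h2
    rw [h3]
    exact ha _ (ψ.symm ⟨y, hy⟩).2
  have heq : Q' = P := Subgroup.eq_of_le_of_card_ge hle (Nat.card_congr ψ.toEquiv).le
  subst heq
  exact ⟨⟨ψ, Or.inr hψ⟩, h1⟩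

theorem aut_ext_of_res {P : Subgroup G} {a b : F.aut P}
    (h : ∀ y : P, ((a : MulAut P) y : G) = (b : MulAut P) y) : a = b := by
  apply Subtype.ext
  apply MulEquiv.ext
  intro y
  exact Subtype.ext (h y)

/-- Automorphisms of `S` stabilising `Q` stabilise `N_S(Q)`. -/
theorem stab_nS {Q : Subgroup G} (hQ : Q ≤ S) (D : Subgroup (F.aut S))
    (hD : ∀ a ∈ D, ∀ y : S, (y : G) ∈ Q → (((a : F.aut S) : MulAut S) y : G) ∈ Q) :
    ∀ a ∈ D, ∀ y : S, (y : G) ∈ nS S Q → (((a : F.aut S) : MulAut S) y : G) ∈ nS S Q := by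
  intro a ha y hy
  have key : ∀ y : S, (y : G) ∈ nS S Q → ∀ x ∈ Q,
      (((a : F.aut S) : MulAut S) y : G) * x * (((a : F.aut S) : MulAut S) y : G)⁻¹ ∈ Q := by
    intro y hy x hx
    let xS : S := ⟨x, hQ hx⟩
    let x' : S := ((a⁻¹ : F.aut S) : MulAut S) xS
    have hx' : (x' : G) ∈ Q := hD a⁻¹ (inv_mem ha) xS hx
    have hax : ((a : F.aut S) : MulAut S) x' = xS := by
      show ((a : F.aut S) : MulAut S) (((a : F.aut S) : MulAut S)⁻¹ xS) = xS
      rw [MulAut.apply_inv_self]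
    have h1 : ((y * x' * y⁻¹ : S) : G) ∈ Q := ((mem_nS.mp hy).2 _).mp hx'
    have h2 := hD a ha _ h1
    rw [map_mul, map_mul, map_inv, hax] at h2
    exact h2
  rw [mem_nS]
  refine ⟨(((a : F.aut S) : MulAut S) y).2, fun x => ⟨fun hx => key y hy x hx, fun hx => ?_⟩⟩
  have hy' : ((y⁻¹ : S) : G) ∈ nS S Q := inv_mem hy
  have h1 := key y⁻¹ hy' _ hx
  rw [map_inv] at h1
  have h2 : ((((a : F.aut S) : MulAut S) y)⁻¹ : S) = ((((a : F.aut S) : MulAut S) y : S))⁻¹ := rfl
  have h3 : (((((a : F.aut S) : MulAut S) y)⁻¹ : S) : G) *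
      ((((a : F.aut S) : MulAut S) y : G) * x * (((a : F.aut S) : MulAut S) y : G)⁻¹) *
      (((((a : F.aut S) : MulAut S) y)⁻¹ : S) : G)⁻¹ = x := by
    rw [Subgroup.coe_inv]
    group
  rwa [h3] at h1

/-- Induction on `|S : Q|` along `Q < N_S(Q) < ...`; `D` stabilises `N_S(Q)`. -/
theorem tower (p : ℕ) [Fact p.Prime] (hS : IsPGroup p S)
    (α : ∀ P : Subgroup G, Cocycle (F.Out P) k) (hα : Compatible F α) {Q : Subgroup G}
    (hQ : F.Centric Q) (D : Subgroup (F.aut S))
    (hD : ∀ a ∈ D, ∀ y : S, (y : G) ∈ Q → (((a : F.aut S) : MulAut S) y : G) ∈ Q) :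
    ∃ c : D → kˣ, ∀ a b : D, ∀ a' b' : F.aut Q,
      (∀ y : Q, ((a' : MulAut Q) y : G) = ((a : F.aut S) : MulAut S) ⟨y, hQ.1 y.2⟩) →
      (∀ y : Q, ((b' : MulAut Q) y : G) = ((b : F.aut S) : MulAut S) ⟨y, hQ.1 y.2⟩) →
      α Q (QuotientGroup.mk a') (QuotientGroup.mk b') =
        α S (QuotientGroup.mk (a : F.aut S)) (QuotientGroup.mk (b : F.aut S)) *
          (c a * c b * (c (a * b))⁻¹) := by
  induction hn : Nat.card S - Nat.card Q using Nat.strong_induction_on generalizing Q with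
  | _ n ih =>
    rcases eq_or_lt_of_le hQ.1 with heq | hlt
    · subst heq
      refine ⟨fun _ => 1, fun a b a' b' ha hb => ?_⟩
      have h1 : a' = (a : F.aut Q) := aut_ext_of_res F ha
      have h2 : b' = (b : F.aut Q) := aut_ext_of_res F hb
      rw [h1, h2]
      simp
    · have hQR := lt_nS hS hlt
      have hRS : nS S Q ≤ S := inf_le_left
      have hR : F.Centric (nS S Q) := hQ.mono hQR.le hRS
      have hDR := stab_nS F hQ.1 D hD
      have hcard : Nat.card Q < Nat.card (nS S Q) := by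
        by_contra hcon
        exact hQR.ne (Subgroup.eq_of_le_of_card_ge hQR.le (not_lt.mp hcon))
      have hcardS : Nat.card (nS S Q) ≤ Nat.card S := Subgroup.card_le_of_le hRS
      obtain ⟨cR, hcR⟩ := ih (Nat.card S - Nat.card (nS S Q)) (by omega) hR hDR rfl
      obtain ⟨c0, hc0⟩ := hα Q (nS S Q) hQR hQ hR (fun r hr y hy => ((mem_nS.mp hr).2 y).mp hy)
      choose res hres using fun a : D => exists_res_aut F hRS (a : F.aut S) (hDR a a.2)
      have hmul : ∀ a b : D, res (a * b) = res a * res b := by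
        intro a b
        apply aut_ext_of_res F
        intro y
        rw [hres (a * b) y]
        show _ = (((res a : F.aut (nS S Q)) : MulAut (nS S Q))
          (((res b : F.aut (nS S Q)) : MulAut (nS S Q)) y) : G)
        rw [hres a]
        show (((a : F.aut S) : MulAut S) (((b : F.aut S) : MulAut S) ⟨y, hRS y.2⟩) : G) = _
        congr 2
        exact Subtype.ext (hres b y).symm
      refine ⟨fun a => cR a * c0 (res a), fun a b a' b' ha hb => ?_⟩
      have h1 := hcR a b (res a) (res b) (hres a) (hres b)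
      have h2 := hc0 (res a) (res b) (fun y hy => by
          rw [hres a]; exact hD a a.2 _ hy) (fun y hy => by
          rw [hres b]; exact hD b b.2 _ hy) a' b' (fun y => by
          rw [ha y, hres a]) (fun y => by rw [hb y, hres b])
      rw [h2, h1]
      show _ = _ * (cR a * c0 (res a) * (cR b * c0 (res b)) *
        (cR (a * b) * c0 (res (a * b)))⁻¹)
      rw [hmul]
      apply Units.ext
      simp only [Units.val_mul, Units.val_inv_eq_inv_val]
      have n1 := (c0 (res a * res b)).ne_zero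
      have n2 := (cR (a * b)).ne_zero
      field_simp

/-- The kernel of `aStab F y → elStab F y` is a `p`-group. -/
theorem ker_isPGroup (p : ℕ) (hS : IsPGroup p S) (y : S) :
    IsPGroup p ((QuotientGroup.mk' (F.inn S)).subgroupMap (aStab F y)).ker := by
  rintro ⟨a, ha⟩
  rw [MonoidHom.mem_ker] at ha
  have h1 : QuotientGroup.mk' (F.inn S) (a : F.aut S) = 1 := congrArg Subtype.val ha
  rw [QuotientGroup.mk'_apply, QuotientGroup.eq_one_iff] at h1
  obtain ⟨s, hs⟩ := Subgroup.mem_subgroupOf.mp h1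
  obtain ⟨n, hn⟩ := hS s
  refine ⟨n, ?_⟩
  apply Subtype.ext
  apply Subtype.ext
  apply Subtype.ext
  show ((a : F.aut S) : MulAut S) ^ p ^ n = 1
  have h2 : ((a : F.aut S) : MulAut S) = MulAut.conj s := hs.symm
  rw [h2, ← map_pow, hn, map_one]

end MNF
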