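import Pool.Agent.W_0649d4.CBasic
import Pool.Agent.W_0649d4.CTower
import Pool.Agent.W_0649d4.AComp

/-! Comparison of `l` and `z` (blueprint, section CAS). -/

namespace MNF

section general

theorem exists_injP_of_ringEquiv {A B : Type*} [Ring A] [Ring B] (e : A ≃+* B) :
    ∃ f : Quotient (simpleProjSetoid A) → Quotient (simpleProjSetoid B),
      Function.Injective f := by
  let P := {m : Submodule A A // IsCoatom m ∧ Module.Projective A (A ⧸ m)}
  letI inst : ∀ m : P, Module B (A ⧸ m.1) :=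
    fun m => Module.compHom (A ⧸ m.1) e.symm.toRingHom
  have hsm : ∀ (m : P) (b : B) (x : A ⧸ m.1), b • x = e.symm b • x := fun m b x => rfl
  have hsm' : ∀ (m : P) (a : A) (x : A ⧸ m.1), a • x = e a • x := by
    intro m a x
    rw [hsm, RingEquiv.symm_apply_apply]
  have hsimple : ∀ m : P, IsSimpleModule B (A ⧸ m.1) := by
    intro m
    have h1 : IsSimpleModule A (A ⧸ m.1) := isSimpleModule_iff_isCoatom.mpr m.2.1
    have hnt : Nontrivial (A ⧸ m.1) := IsSimpleModule.nontrivial A _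
    rw [isSimpleModule_iff_toSpanSingleton_surjective]
    refine ⟨hnt, fun x hx y => ?_⟩
    obtain ⟨a, ha⟩ := IsSimpleModule.toSpanSingleton_surjective A hx y
    refine ⟨e a, ?_⟩
    rw [LinearMap.toSpanSingleton_apply] at ha ⊢
    rw [← ha]
    exact (hsm' m a x).symm
  have hproj : ∀ m : P, Module.Projective B (A ⧸ m.1) := by
    intro m
    have := m.2.2
    haveI i1 : RingHomInvPair (e : A →+* B) (e.symm : B →+* A) := RingHomInvPair.of_ringEquiv e
    haveI i2 : RingHomInvPair (e.symm : B →+* A) (e : A →+* B) := RingHomInvPair.symm _ _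
    let E : (A ⧸ m.1) ≃ₛₗ[(e : A →+* B)] (A ⧸ m.1) :=
      { Equiv.refl (A ⧸ m.1) with
        map_add' := fun _ _ => rfl
        map_smul' := fun a x => hsm' m a x }
    exact Module.Projective.of_equiv E
  have h1 : ∀ m : P, ∃ J : {J : Submodule B B // IsCoatom J ∧ Module.Projective B (B ⧸ J)},
      Nonempty ((A ⧸ m.1) ≃ₗ[B] (B ⧸ J.1)) := by
    intro m
    obtain ⟨J, hJ, ⟨e1⟩⟩ := isSimpleModule_iff_quot_maximal.mp (hsimple m)
    have := hproj m
    exact ⟨⟨J, hJ.out, Module.Projective.of_equiv' e1⟩, ⟨e1⟩⟩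
  choose J hJ using h1
  refine ⟨fun c => Quotient.mk _ (J c.out), ?_⟩
  intro c c' h
  have h2 := Quotient.exact h
  obtain ⟨e0⟩ : Nonempty ((B ⧸ (J c.out).1) ≃ₗ[B] (B ⧸ (J c'.out).1)) := h2
  obtain ⟨e1⟩ := hJ c.out
  obtain ⟨e2⟩ := hJ c'.out
  let f := (e1.trans e0).trans e2.symm
  have h3 : Nonempty ((A ⧸ c.out.1) ≃ₗ[A] (A ⧸ c'.out.1)) := by
    refine ⟨{ f with
      map_smul' := fun a x => ?_ }⟩
    show f (a • x) = a • f x
    rw [hsm', map_smul, ← hsm']
  have h4 : (simpleProjSetoid A) c.out c'.out := h3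
  rw [← Quotient.out_eq c, ← Quotient.out_eq c']
  exact Quotient.sound h4

theorem zNum_congr {A B : Type*} [Ring A] [Ring B] (e : A ≃+* B) : zNum A = zNum B := by
  obtain ⟨f, hf⟩ := exists_injP_of_ringEquiv e
  obtain ⟨g, hg⟩ := exists_injP_of_ringEquiv e.symm
  obtain ⟨h, hh⟩ := Function.Embedding.schroeder_bernstein hf hg
  exact Nat.card_congr (Equiv.ofBijective h hh)

end general

variable {G : Type*} [Group G] [Finite G] {S : Subgroup G} (F : FusionSystem S)
  {k : Type*} [Field k] [IsAlgClosed k]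

/-- The common comparison: `y ∈ S`, `Q` centric and stable under `aStab F y`, `N` a subgroup of
`Out_F(Q)` which is the image of `aStab F y` under restriction; then `l(k_{α_Q} N) ≤ λ(y)`. -/
theorem lNum_le_lam (p : ℕ) [Fact p.Prime] [CharP k p] (hS : IsPGroup p S)
    (α : ∀ P : Subgroup G, Cocycle (F.Out P) k) (hα : Compatible F α) (y : S) {Q : Subgroup G}
    (hQ : F.Centric Q)
    (hD : ∀ a ∈ aStab F y, ∀ z : S, (z : G) ∈ Q → (((a : F.aut S) : MulAut S) z : G) ∈ Q)
    (N : Subgroup (F.Out Q))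
    (h1 : ∀ a ∈ aStab F y, ∃ a' : F.aut Q,
      (∀ z : Q, ((a' : MulAut Q) z : G) = ((a : F.aut S) : MulAut S) ⟨z, hQ.1 z.2⟩) ∧
      (QuotientGroup.mk a' : F.Out Q) ∈ N)
    (h2 : ∀ o ∈ N, ∃ a ∈ aStab F y, ∃ a' : F.aut Q,
      (∀ z : Q, ((a' : MulAut Q) z : G) = ((a : F.aut S) : MulAut S) ⟨z, hQ.1 z.2⟩) ∧
      (QuotientGroup.mk a' : F.Out Q) = o) :
    lNum (TwAlg ((α Q).comap N.subtype)) ≤ lam F α y := by
  choose res hres hresN using fun a : aStab F y => h1 a a.2
  have hmul : ∀ a b : aStab F y, res (a * b) = res a * res b := by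
    intro a b
    apply aut_ext_of_res F
    intro z
    rw [hres (a * b) z]
    show _ = (((res a : F.aut Q) : MulAut Q) (((res b : F.aut Q) : MulAut Q) z) : G)
    rw [hres a]
    show (((a : F.aut S) : MulAut S) (((b : F.aut S) : MulAut S) ⟨z, hQ.1 z.2⟩) : G) = _
    congr 2
    exact Subtype.ext (hres b z).symm
  let ρ : aStab F y →* N := MonoidHom.mk' (fun a => ⟨QuotientGroup.mk (res a), hresN a⟩) (by
    intro a b
    apply Subtype.ext
    show (QuotientGroup.mk (res (a * b)) : F.Out Q) = QuotientGroup.mk (res a) *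
      QuotientGroup.mk (res b)
    rw [hmul]
    rfl)
  have hρ : Function.Surjective ρ := by
    rintro ⟨o, ho⟩
    obtain ⟨a, ha, a', ha', hao⟩ := h2 o ho
    refine ⟨⟨a, ha⟩, ?_⟩
    apply Subtype.ext
    show (QuotientGroup.mk (res ⟨a, ha⟩) : F.Out Q) = o
    rw [← hao]
    congr 1
    apply aut_ext_of_res F
    intro z
    rw [hres ⟨a, ha⟩ z, ha' z]
  obtain ⟨c, hc⟩ := tower F p hS α hα hQ (aStab F y) hD
  refine lNum_comp p ((QuotientGroup.mk' (F.inn S)).subgroupMap (aStab F y))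
    (MonoidHom.subgroupMap_surjective _ _) (ker_isPGroup F p hS y) ρ hρ _ _ ⟨c, ?_⟩
  intro a b
  exact hc a b (res a) (res b) (hres a) (hres b)

omit [IsAlgClosed k] in
/-- `centFam` as a restriction to a subgroup: `Out_{C_F(x)}(Q)`, `x ∈ Z(Q)`, is mapped
isomorphically onto its image in `Out_F(Q)`, which is the image of `{a : a x = x}`. -/
theorem zNum_centFam (α : ∀ P : Subgroup G, Cocycle (F.Out P) k) (x : S) {Q : Subgroup G}
    (hQS : Q ≤ S) (hx : (x : G) ∈ Q) (hxc : ∀ y ∈ Q, y * (x : G) = x * y) :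
    (∀ o : F.Out Q, o ∈ (F.centOut x Q).range ↔ ∃ a : F.aut Q,
      ((a : MulAut Q) ⟨x, hx⟩ : G) = x ∧ (QuotientGroup.mk a : F.Out Q) = o) ∧
    zNum (TwAlg (centFam F α x Q)) = zNum (TwAlg ((α Q).comap (F.centOut x Q).range.subtype)) := by
  have hQC : Q ≤ cS S (Subgroup.zpowers (x : G)) := by
    intro y hy
    rw [mem_cS_zpowers]
    exact ⟨hQS hy, (hxc y hy).symm⟩
  constructor
  · intro o
    constructor
    · rintro ⟨q, rfl⟩
      obtain ⟨a0, rfl⟩ := QuotientGroup.mk_surjective q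
      refine ⟨⟨a0, F.cent_aut_le x Q a0.2⟩, ?_, rfl⟩
      show ((a0 : MulAut Q) ⟨x, hx⟩ : G) = x
      rcases a0.2 with h | ⟨_, _, P', Q', ψ, h, hx', hψ, hψx, hφψ⟩
      · rw [h]; rfl
      · rw [hφψ]
        exact hψx
    · rintro ⟨a, ha, rfl⟩
      have h1 : (a : MulAut Q) ∈ (F.cent x).aut Q := by
        refine Or.inr ⟨hQC, hQC, Q, Q, (a : MulAut Q), le_rfl, hx, (F.mem_aut hQS _).mp a.2, ha,
          fun y => rfl⟩
      exact ⟨QuotientGroup.mk ⟨(a : MulAut Q), h1⟩, rfl⟩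
  · have hinj : Function.Injective (F.centOut x Q) := by
      rw [injective_iff_map_eq_one]
      intro q hq
      obtain ⟨a0, rfl⟩ := QuotientGroup.mk_surjective q
      have h1 : (QuotientGroup.mk (⟨a0, F.cent_aut_le x Q a0.2⟩ : F.aut Q) : F.Out Q) = 1 := hq
      rw [QuotientGroup.eq_one_iff] at h1 ⊢
      exact Subgroup.mem_subgroupOf.mpr (Subgroup.mem_subgroupOf.mp h1)
    obtain ⟨e⟩ := twAlgEquiv_of_mulEquiv ((α Q).comap (F.centOut x Q).range.subtype)
      (MonoidHom.ofInjective hinj)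
    exact zNum_congr e.toRingEquiv

end MNF
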