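import Pool.Agent.W_0649d4.CCentral
import Pool.Agent.W_0649d4.COut

/-! TASK CTypeAData: normalised data for essential subgroups of type (A) (blueprint, section TA). -/

namespace MNF

section sl

variable {K : Type} [Field K]

theorem CTA_slU_mul (s t : K) : slU K s * slU K t = slU K (s + t) := by
  apply Subtype.ext
  ext i j
  fin_cases i <;> fin_cases j <;>
    simp [slU, Matrix.mul_apply, Fin.sum_univ_two, add_comm]

theorem CTA_slV_mul (s t : K) : slV K s * slV K t = slV K (s + t) := by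
  apply Subtype.ext
  ext i j
  fin_cases i <;> fin_cases j <;>
    simp [slV, Matrix.mul_apply, Fin.sum_univ_two]

theorem CTA_slU_zero : slU K 0 = 1 := by
  apply Subtype.ext
  ext i j
  fin_cases i <;> fin_cases j <;> simp [slU]

theorem CTA_slV_zero : slV K 0 = 1 := by
  apply Subtype.ext
  ext i j
  fin_cases i <;> fin_cases j <;> simp [slV]

theorem CTA_slU_pow (s : K) (n : ℕ) : slU K s ^ n = slU K (n * s) := by
  induction n with
  | zero => simp [CTA_slU_zero]
  | succ n ih => rw [pow_succ, ih, CTA_slU_mul]; congr 1; push_cast; ring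

theorem CTA_slV_pow (s : K) (n : ℕ) : slV K s ^ n = slV K (n * s) := by
  induction n with
  | zero => simp [CTA_slV_zero]
  | succ n ih => rw [pow_succ, ih, CTA_slV_mul]; congr 1; push_cast; ring

/-- `SL₂(K)` is generated by the `slU s`, `slV s`. -/
theorem sl_closure (K : Type) [Field K] :
    Subgroup.closure ({g | ∃ s, g = slU K s} ∪ {g | ∃ s, g = slV K s}) =
      (⊤ : Subgroup (Matrix.SpecialLinearGroup (Fin 2) K)) := by
  set H := Subgroup.closure ({g | ∃ s, g = slU K s} ∪ {g | ∃ s, g = slV K s}) with hH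
  have hU : ∀ s, slU K s ∈ H := fun s => Subgroup.subset_closure (Or.inl ⟨s, rfl⟩)
  have hV : ∀ s, slV K s ∈ H := fun s => Subgroup.subset_closure (Or.inr ⟨s, rfl⟩)
  have key : ∀ g : Matrix.SpecialLinearGroup (Fin 2) K, g.1 1 0 ≠ 0 → g ∈ H := by
    intro g hg
    have hdet : g.1 0 0 * g.1 1 1 - g.1 0 1 * g.1 1 0 = 1 := by
      rw [← Matrix.det_fin_two]; exact g.2
    have e : g = slU K ((g.1 0 0 - 1) / g.1 1 0) * slV K (g.1 1 0) *
        slU K ((g.1 1 1 - 1) / g.1 1 0) := by
      apply Subtype.ext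
      ext i j
      fin_cases i <;> fin_cases j
      · simp [slU, slV, Matrix.mul_apply, Fin.sum_univ_two]
        field_simp
        ring
      · simp [slU, slV, Matrix.mul_apply, Fin.sum_univ_two]
        field_simp
        linear_combination -hdet
      · simp [slU, slV, Matrix.mul_apply, Fin.sum_univ_two]
      · simp [slU, slV, Matrix.mul_apply, Fin.sum_univ_two]
        field_simp
        ring
    rw [e]
    exact H.mul_mem (H.mul_mem (hU _) (hV _)) (hU _)
  rw [eq_top_iff]
  intro g _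
  by_cases hg : g.1 1 0 = 0
  · have hdet : g.1 0 0 * g.1 1 1 - g.1 0 1 * g.1 1 0 = 1 := by
      rw [← Matrix.det_fin_two]; exact g.2
    have ha : g.1 0 0 ≠ 0 := by
      intro h0
      rw [h0, hg] at hdet
      simp at hdet
    have h1 : slV K 1 * g ∈ H := by
      apply key
      have : (slV K 1 * g).1 1 0 = g.1 0 0 := by
        simp [slV, Matrix.mul_apply, Fin.sum_univ_two, hg]
      rw [this]; exact ha
    have h2 : g = (slV K 1)⁻¹ * (slV K 1 * g) := by group
    rw [h2]
    exact H.mul_mem (H.inv_mem (hV 1)) h1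
  · exact key g hg

/-- matrices which fix the first basis vector -/
theorem CTA_fix_e1 (g : Matrix.SpecialLinearGroup (Fin 2) K)
    (h : Matrix.mulVec g.1 ![1, 0] = ![1, 0]) : ∃ s, g = slU K s := by
  have h0 := congrFun h 0
  have h1 := congrFun h 1
  simp [Matrix.mulVec, dotProduct, Fin.sum_univ_two] at h0 h1
  have hdet : g.1 0 0 * g.1 1 1 - g.1 0 1 * g.1 1 0 = 1 := by
    rw [← Matrix.det_fin_two]; exact g.2
  rw [show g.1 0 0 = 1 from h0, show g.1 1 0 = 0 from h1] at hdet
  have h3 : g.1 1 1 = 1 := by simpa using hdet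
  refine ⟨g.1 0 1, Subtype.ext ?_⟩
  ext i j
  fin_cases i <;> fin_cases j <;> simp [slU, h0, h1, h3]

theorem CTA_slU_e1 (s : K) : Matrix.mulVec (slU K s).1 ![1, 0] = ![1, 0] := by
  ext i
  fin_cases i <;> simp [slU, Matrix.mulVec, dotProduct, Fin.sum_univ_two]

/-- `SL₂(K)` is transitive on nonzero vectors. -/
theorem CTA_trans (w : Fin 2 → K) (hw : w ≠ 0) :
    ∃ g : Matrix.SpecialLinearGroup (Fin 2) K, Matrix.mulVec g.1 ![1, 0] = w := by
  by_cases h0 : w 0 = 0
  · have h1 : w 1 ≠ 0 := by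
      intro h1
      apply hw
      ext i
      fin_cases i <;> simp [h0, h1]
    refine ⟨⟨!![0, -(w 1)⁻¹; w 1, 0], ?_⟩, ?_⟩
    · rw [Matrix.det_fin_two_of]
      field_simp
      ring
    · ext i
      fin_cases i <;> simp [Matrix.mulVec, dotProduct, Fin.sum_univ_two, h0]
  · refine ⟨⟨!![w 0, 0; w 1, (w 0)⁻¹], ?_⟩, ?_⟩
    · rw [Matrix.det_fin_two_of]
      field_simp
      ring
    · ext i
      fin_cases i <;> simp [Matrix.mulVec, dotProduct, Fin.sum_univ_two]

/-- A `p`-element lies in every normal subgroup of index prime to `p`. -/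
theorem CTA_pelt {Γ : Type*} [Group Γ] {p : ℕ} (hp : p.Prime) (N : Subgroup Γ) [N.Normal]
    (hi : ¬ p ∣ N.index) {a : Γ} {n : ℕ} (ha : a ^ (p ^ n) = 1) : a ∈ N := by
  have h1 : a ^ N.index ∈ N := Subgroup.pow_index_mem N a
  have h2 : (N.index).Coprime (orderOf a) := by
    have h3 : orderOf a ∣ p ^ n := orderOf_dvd_of_pow_eq_one ha
    exact Nat.Coprime.coprime_dvd_right h3
      (Nat.Coprime.pow_right n ((Nat.Prime.coprime_iff_not_dvd hp).mpr hi).symm)
  obtain ⟨m, hm⟩ := exists_pow_eq_self_of_coprime h2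
  rw [← hm]
  exact N.pow_mem h1 m

theorem CTA_mulVec_mul (g h : Matrix.SpecialLinearGroup (Fin 2) K) (v : Fin 2 → K) :
    Matrix.mulVec (g * h).1 v = Matrix.mulVec g.1 (Matrix.mulVec h.1 v) := by
  rw [Matrix.mulVec_mulVec]; rfl

theorem CTA_mulVec_one (v : Fin 2 → K) :
    Matrix.mulVec (1 : Matrix.SpecialLinearGroup (Fin 2) K).1 v = v := by
  rw [Matrix.SpecialLinearGroup.coe_one, Matrix.one_mulVec]

/-- A `p`-subgroup of `SL₂(K)` fixes a nonzero vector. -/
theorem CTA_fixed [Finite K] (p : ℕ) [Fact p.Prime] [CharP K p]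
    (P : Subgroup (Matrix.SpecialLinearGroup (Fin 2) K)) (hP : IsPGroup p P) :
    ∃ w : Fin 2 → K, w ≠ 0 ∧ ∀ g ∈ P, Matrix.mulVec g.1 w = w := by
  letI : MulAction P (Fin 2 → K) :=
    { smul := fun g v => Matrix.mulVec g.1.1 v
      one_smul := fun v => CTA_mulVec_one v
      mul_smul := fun g h v => CTA_mulVec_mul g.1 h.1 v }
  have hcard : p ∣ Nat.card (Fin 2 → K) := by
    have h1 : p ∣ Nat.card K := by
      have : Fintype K := Fintype.ofFinite K
      rw [Nat.card_eq_fintype_card, ← CharP.cast_eq_zero_iff K p]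
      exact Nat.cast_card_eq_zero K
    rw [Nat.card_fun, Nat.card_fin]
    exact dvd_pow h1 two_ne_zero
  have h0 : (0 : Fin 2 → K) ∈ MulAction.fixedPoints P (Fin 2 → K) := by
    intro g
    change Matrix.mulVec g.1.1 0 = 0
    exact Matrix.mulVec_zero _
  obtain ⟨w, hw, hne⟩ := hP.exists_fixed_point_of_prime_dvd_card_of_fixed_point
    (Fin 2 → K) hcard h0
  exact ⟨w, hne.symm, fun g hg => hw ⟨g, hg⟩⟩

end sl

/-- `Aut_S(P)` is a `p`-group. -/
theorem CTA_autS_pGroup {G : Type*} [Group G] {S : Subgroup G} {p : ℕ} (hS : IsPGroup p S)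
    (P : Subgroup G) : IsPGroup p (autS S P) := by
  rintro ⟨φ, s, hs, h⟩
  obtain ⟨k, hk⟩ := hS ⟨s, hs⟩
  refine ⟨k, ?_⟩
  have hk' : s ^ (p ^ k) = 1 := congrArg Subtype.val hk
  apply Subtype.ext
  have hpow : ∀ (n : ℕ) (x : P), ((φ ^ n) x : G) = s ^ n * x * (s ^ n)⁻¹ := by
    intro n
    induction n with
    | zero => intro x; simp
    | succ n ih =>
      intro x
      rw [pow_succ', MulAut.mul_apply, h, ih, pow_succ']
      group
  change φ ^ (p ^ k) = 1
  ext x
  rw [hpow, hk']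
  simp

variable {G : Type*} [Group G] [Finite G] {S : Subgroup G} (F : FusionSystem S)

/-- Data for type (A), normalised so that `Aut_S(Q)` is the group of the upper unipotent
matrices. -/
structure DataA (F : FusionSystem S) (p : ℕ) (Q : Subgroup G) where
  K : Type
  [field : Field K]
  [finite : Finite K]
  [char : CharP K p]
  θ : Matrix.SpecialLinearGroup (Fin 2) K →* MulAut Q
  V : Subgroup Q
  C : Subgroup Q
  ν : Multiplicative (Fin 2 → K) ≃* V
  comm : ∀ x ∈ Q, ∀ y ∈ Q, x * y = y * x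
  inj : Function.Injective θ
  range_le : θ.range ≤ F.aut Q
  normal : ∀ a ∈ F.aut Q, ∀ g ∈ θ.range, a * g * a⁻¹ ∈ θ.range
  index : ¬ p ∣ θ.range.relIndex (F.aut Q)
  act : ∀ g v, θ g (ν (Multiplicative.ofAdd v) : Q) =
    (ν (Multiplicative.ofAdd (Matrix.mulVec g.1 v)) : Q)
  triv : ∀ g, ∀ c ∈ C, θ g c = c
  sup : V ⊔ C = ⊤
  inf : V ⊓ C = ⊥
  sylow : ∀ a : MulAut Q, a ∈ autS S Q ↔ ∃ s, a = θ (slU K s)
  pgen : pGen F p Q = θ.range
  fix : fixQ F p Q = C
  com : comQ F p Q = V

theorem exists_dataA (p : ℕ) [Fact p.Prime] (hS : IsPGroup p S) (hF : F.Saturated p)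
    {Q : Subgroup G} (hQ : F.Essential p Q) (h : TypeA F p Q) : Nonempty (DataA F p Q) := by
  obtain ⟨hcomm, K, hfield, hfinite, hchar, θ, V, C, ν, hrange, hnormal, hindex, hact, htriv,
    hsup, hinf⟩ := h
  have hp : p.Prime := Fact.out
  have hQS : Q ≤ S := hQ.1.1
  -- `θ` is injective
  have hinj : Function.Injective θ := by
    rw [injective_iff_map_eq_one]
    intro g hg
    have h1 : ∀ v : Fin 2 → K, Matrix.mulVec g.1 v = v := by
      intro v
      have h2 := hact g v
      rw [hg] at h2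
      have h3 : ν (Multiplicative.ofAdd v) = ν (Multiplicative.ofAdd (Matrix.mulVec g.1 v)) :=
        Subtype.ext h2
      exact (Multiplicative.ofAdd.injective (ν.injective h3)).symm
    apply Subtype.ext
    ext i j
    have h4 := congrFun (h1 (Pi.single j 1)) i
    rw [Matrix.mulVec_single_one] at h4
    simp only [Matrix.col_apply] at h4
    rw [h4, Matrix.SpecialLinearGroup.coe_one, Matrix.one_apply, Pi.single_apply]
  -- decomposition of elements
  have hdec : ∀ y : Q, ∃ (v : Fin 2 → K) (c : Q), c ∈ C ∧ y = (ν (Multiplicative.ofAdd v) : Q) * c := by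
    intro y
    have hCn : C.Normal := ⟨fun n hn g => by
      have e : g * n * g⁻¹ = n := by
        have : g * n = n * g := Subtype.ext (hcomm g g.2 n n.2)
        rw [this, mul_inv_cancel_right]
      rw [e]; exact hn⟩
    have hy : y ∈ V ⊔ C := by rw [hsup]; exact Subgroup.mem_top y
    rw [← SetLike.mem_coe, Subgroup.mul_normal V C] at hy
    obtain ⟨a, ha, c, hc, rfl⟩ := hy
    refine ⟨Multiplicative.toAdd (ν.symm ⟨a, ha⟩), c, hc, ?_⟩
    rw [ofAdd_toAdd, MulEquiv.apply_symm_apply]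
  have hTp := CTA_autS_pGroup hS Q
  have hTi : ¬ p ∣ ((autS S Q).subgroupOf (F.aut Q)).index := (hF.sylow Q hQS hQ.2.1).2
  have hTA : autS S Q ≤ F.aut Q := autS_le_aut F hQS
  -- `p`-elements lie in the image of `θ`
  have hLn : (θ.range.subgroupOf (F.aut Q)).Normal := by
    refine ⟨fun n hn g => ?_⟩
    exact Subgroup.mem_subgroupOf.mpr (hnormal g.1 g.2 n.1 (Subgroup.mem_subgroupOf.mp hn))
  have hpelt : ∀ a ∈ F.aut Q, ∀ n : ℕ, a ^ (p ^ n) = 1 → a ∈ θ.range := by
    intro a ha n han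
    have h1 := CTA_pelt hp (θ.range.subgroupOf (F.aut Q)) hindex
      (a := (⟨a, ha⟩ : F.aut Q)) (n := n) (Subtype.ext han)
    exact Subgroup.mem_subgroupOf.mp h1
  have hTL : ∀ a ∈ autS S Q, a ∈ θ.range := by
    intro a ha
    obtain ⟨n, hn⟩ := hTp ⟨a, ha⟩
    exact hpelt a (hTA ha) n (congrArg Subtype.val hn)
  -- a vector fixed by `Aut_S(Q)`
  have hPp : IsPGroup p ((autS S Q).comap θ) := hTp.comap_of_injective θ hinj
  obtain ⟨w, hw0, hw⟩ := CTA_fixed p _ hPp
  obtain ⟨g0, hg0⟩ := CTA_trans w hw0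
  -- change of `θ` and `ν`
  let θ' : Matrix.SpecialLinearGroup (Fin 2) K →* MulAut Q :=
    θ.comp (MulAut.conj g0).toMonoidHom
  have hθ' : ∀ g, θ' g = θ (g0 * g * g0⁻¹) := fun g => rfl
  let m0 : (Fin 2 → K) ≃+ (Fin 2 → K) :=
    { toFun := fun v => Matrix.mulVec g0.1 v
      invFun := fun v => Matrix.mulVec (g0⁻¹).1 v
      left_inv := fun v => by
        have h := CTA_mulVec_mul g0⁻¹ g0 v
        rw [inv_mul_cancel, CTA_mulVec_one] at h
        exact h.symm
      right_inv := fun v => by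
        have h := CTA_mulVec_mul g0 g0⁻¹ v
        rw [mul_inv_cancel, CTA_mulVec_one] at h
        exact h.symm
      map_add' := fun v v' => Matrix.mulVec_add _ _ _ }
  let ν' : Multiplicative (Fin 2 → K) ≃* V := (AddEquiv.toMultiplicative m0).trans ν
  have hν' : ∀ v, ν' (Multiplicative.ofAdd v) =
      ν (Multiplicative.ofAdd (Matrix.mulVec g0.1 v)) := fun v => rfl
  have hrange' : θ'.range = θ.range := by
    ext a
    constructor
    · rintro ⟨g, rfl⟩
      exact ⟨_, rfl⟩
    · rintro ⟨g, rfl⟩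
      refine ⟨g0⁻¹ * g * g0, ?_⟩
      rw [hθ']
      congr 1
      group
  have hinj' : Function.Injective θ' := by
    intro a b hab
    rw [hθ', hθ'] at hab
    have h1 := hinj hab
    exact mul_left_cancel (mul_right_cancel h1)
  have hact' : ∀ g v, θ' g (ν' (Multiplicative.ofAdd v) : Q) =
      (ν' (Multiplicative.ofAdd (Matrix.mulVec g.1 v)) : Q) := by
    intro g v
    rw [hν', hν', hθ', hact, ← CTA_mulVec_mul, ← CTA_mulVec_mul]
    congr 5
    group
  have htriv' : ∀ g, ∀ c ∈ C, θ' g c = c := fun g c hc => htriv _ c hc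
  have hdec' : ∀ y : Q, ∃ (v : Fin 2 → K) (c : Q), c ∈ C ∧
      y = (ν' (Multiplicative.ofAdd v) : Q) * c := by
    intro y
    obtain ⟨v, c, hc, hy⟩ := hdec y
    refine ⟨Matrix.mulVec (g0⁻¹).1 v, c, hc, ?_⟩
    rw [hy, hν', ← CTA_mulVec_mul, mul_inv_cancel, CTA_mulVec_one]
  -- the group of the upper unipotent matrices
  let U : Subgroup (MulAut Q) :=
    { carrier := {a | ∃ s, a = θ' (slU K s)}
      one_mem' := ⟨0, by rw [CTA_slU_zero, map_one]⟩
      mul_mem' := by
        rintro a b ⟨s, rfl⟩ ⟨t, rfl⟩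
        exact ⟨s + t, by rw [← map_mul, CTA_slU_mul]⟩
      inv_mem' := by
        rintro a ⟨s, rfl⟩
        refine ⟨-s, ?_⟩
        rw [← map_inv]
        congr 1
        rw [inv_eq_iff_mul_eq_one, CTA_slU_mul, add_neg_cancel, CTA_slU_zero] }
  have hUp : IsPGroup p U := by
    rintro ⟨a, s, rfl⟩
    refine ⟨1, Subtype.ext ?_⟩
    change θ' (slU K s) ^ (p ^ 1) = 1
    rw [← map_pow, pow_one, CTA_slU_pow, CharP.cast_eq_zero, zero_mul, CTA_slU_zero, map_one]
  have hUA : U ≤ F.aut Q := by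
    rintro a ⟨s, rfl⟩
    apply hrange
    rw [← hrange']
    exact ⟨_, rfl⟩
  have hTU : autS S Q ≤ U := by
    intro a ha
    obtain ⟨g, rfl⟩ := hTL a ha
    have h1 : Matrix.mulVec g.1 w = w := hw g ha
    have h2 : Matrix.mulVec (g0⁻¹ * g * g0).1 ![1, 0] = ![1, 0] := by
      rw [CTA_mulVec_mul, hg0, CTA_mulVec_mul, h1, ← hg0, ← CTA_mulVec_mul, inv_mul_cancel,
        CTA_mulVec_one]
    obtain ⟨s, hs⟩ := CTA_fix_e1 _ h2
    refine ⟨s, ?_⟩
    rw [← hs, hθ']
    congr 1
    group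
  have hTU' : (U.subgroupOf (F.aut Q)) = (autS S Q).subgroupOf (F.aut Q) := by
    have hT : IsPGroup p ((autS S Q).subgroupOf (F.aut Q)) := hTp.comap_subtype
    have := (hT.toSylow hTi).is_maximal' (Q := U.subgroupOf (F.aut Q)) hUp.comap_subtype
      (fun a ha => Subgroup.mem_subgroupOf.mpr (hTU (Subgroup.mem_subgroupOf.mp ha)))
    exact this
  have hsyl : ∀ a : MulAut Q, a ∈ autS S Q ↔ ∃ s, a = θ' (slU K s) := by
    intro a
    constructor
    · intro ha; exact hTU ha
    · intro ha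
      have h1 : (⟨a, hUA ha⟩ : F.aut Q) ∈ U.subgroupOf (F.aut Q) := Subgroup.mem_subgroupOf.mpr ha
      rw [hTU'] at h1
      exact Subgroup.mem_subgroupOf.mp h1
  -- `pGen`
  have hpgen : pGen F p Q = θ'.range := by
    apply le_antisymm
    · unfold pGen
      rw [Subgroup.closure_le]
      rintro a ⟨ha, n, hn⟩
      rw [hrange']
      exact hpelt a ha n hn
    · have h1 : (⊤ : Subgroup (Matrix.SpecialLinearGroup (Fin 2) K)) ≤ (pGen F p Q).comap θ' := by
        rw [← sl_closure K, Subgroup.closure_le]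
        rintro g (⟨s, rfl⟩ | ⟨s, rfl⟩)
        · refine Subgroup.subset_closure ⟨hrange (hrange' ▸ ⟨_, rfl⟩), 1, ?_⟩
          rw [← map_pow, pow_one, CTA_slU_pow, CharP.cast_eq_zero, zero_mul, CTA_slU_zero, map_one]
        · refine Subgroup.subset_closure ⟨hrange (hrange' ▸ ⟨_, rfl⟩), 1, ?_⟩
          rw [← map_pow, pow_one, CTA_slV_pow, CharP.cast_eq_zero, zero_mul, CTA_slV_zero, map_one]
      rintro a ⟨g, rfl⟩
      exact h1 (Subgroup.mem_top g)
  -- the fixed points
  have hfix : fixQ F p Q = C := by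
    apply le_antisymm
    · intro y hy
      obtain ⟨v, c, hc, rfl⟩ := hdec' y
      have h1 : ∀ g : Matrix.SpecialLinearGroup (Fin 2) K, Matrix.mulVec g.1 v = v := by
        intro g
        have h2 := hy (θ' g) (by rw [hpgen]; exact ⟨g, rfl⟩)
        rw [map_mul, htriv' g c hc, hact'] at h2
        have h3 := mul_right_cancel h2
        exact Multiplicative.ofAdd.injective (ν'.injective (Subtype.ext h3))
      have h2 : v = 0 := by
        have hu := congrFun (h1 (slU K 1)) 0
        have hv := congrFun (h1 (slV K 1)) 1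
        simp [slU, slV, Matrix.mulVec, dotProduct, Fin.sum_univ_two] at hu hv
        ext i
        fin_cases i
        · exact hv
        · exact hu
      rw [h2, ofAdd_zero, map_one, Subgroup.coe_one, one_mul]
      exact hc
    · intro c hc a ha
      rw [hpgen] at ha
      obtain ⟨g, rfl⟩ := ha
      exact htriv' g c hc
  -- the commutators
  have hcommQ : ∀ a b : Q, a * b = b * a := fun a b => Subtype.ext (hcomm a a.2 b b.2)
  have hcom : comQ F p Q = V := by
    apply le_antisymm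
    · unfold comQ
      rw [Subgroup.closure_le]
      rintro z ⟨a, ha, y, rfl⟩
      rw [hpgen] at ha
      obtain ⟨g, rfl⟩ := ha
      obtain ⟨v, c, hc, rfl⟩ := hdec' y
      rw [map_mul, htriv' g c hc, hact']
      have e : ∀ a b c : Q, a * c * (b * c)⁻¹ = a * b⁻¹ := by
        intro a b c; group
      rw [e]
      exact V.mul_mem (ν' _).2 (V.inv_mem (ν' _).2)
    · have hgen : ∀ (g : Matrix.SpecialLinearGroup (Fin 2) K) (v : Fin 2 → K),
          (ν' (Multiplicative.ofAdd (Matrix.mulVec g.1 v - v)) : Q) ∈ comQ F p Q := by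
        intro g v
        refine Subgroup.subset_closure ⟨θ' g, by rw [hpgen]; exact ⟨g, rfl⟩,
          (ν' (Multiplicative.ofAdd v) : Q), ?_⟩
        rw [hact', ofAdd_sub, map_div, Subgroup.coe_div, div_eq_mul_inv]
      intro z hz
      obtain ⟨v, hv⟩ : ∃ v, z = (ν' (Multiplicative.ofAdd v) : Q) :=
        ⟨Multiplicative.toAdd (ν'.symm ⟨z, hz⟩), by
          rw [ofAdd_toAdd, MulEquiv.apply_symm_apply]⟩
      have k1 := hgen (slU K (v 0)) ![0, 1]
      have k2 := hgen (slV K (v 1)) ![1, 0]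
      have e : v = (Matrix.mulVec (slU K (v 0)).1 ![0, 1] - ![0, 1]) +
          (Matrix.mulVec (slV K (v 1)).1 ![1, 0] - ![1, 0]) := by
        ext i
        fin_cases i <;> simp [slU, slV, Matrix.vecHead, Matrix.vecTail]
      rw [hv, e, ofAdd_add, map_mul, Subgroup.coe_mul]
      exact Subgroup.mul_mem _ k1 k2
  exact ⟨{ K := K, field := hfield, finite := hfinite, char := hchar, θ := θ', V := V, C := C,
           ν := ν', comm := hcomm, inj := hinj', range_le := hrange' ▸ hrange,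
           normal := by rw [hrange']; exact hnormal
           index := by rw [hrange']; exact hindex
           act := hact', triv := htriv', sup := hsup, inf := hinf, sylow := hsyl,
           pgen := hpgen, fix := hfix, com := hcom }⟩

/-- No centric subgroup lies properly in an abelian subgroup. -/
theorem noCentricBelow_of_comm {Q : Subgroup G} (hQ : Q ≤ S)
    (hc : ∀ x ∈ Q, ∀ y ∈ Q, x * y = y * x) {R : Subgroup G} (hR : F.Centric R) (hRQ : R ≤ Q) :
    R = Q := by
  refine le_antisymm hRQ ?_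
  intro q hq
  apply hR.2 R (FusionSystem.Conj.refl F hR.1)
  rw [mem_cS]
  exact ⟨hQ hq, fun x hx => hc x (hRQ hx) q hq⟩

/-- Essential subgroups are proper subgroups of their normalizers in `S` (`Q ≠ S` since `p`
divides the order of `Out_F(Q)`, but not that of `Out_F(S)`). -/
theorem essential_lt_nS (p : ℕ) [Fact p.Prime] (hS : IsPGroup p S) (hF : F.Saturated p)
    {Q : Subgroup G} (hQ : F.Essential p Q) : Q < nS S Q := by
  apply lt_nS hS
  refine lt_of_le_of_ne hQ.1.1 ?_
  intro h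
  subst h
  obtain ⟨-, -, M, -, hM, -⟩ := hQ
  exact card_out F p hF (hM.trans (Subgroup.card_subgroup_dvd_card M))

/-- Every element `y` of an essential subgroup `Q` of type (A) is conjugate under `Aut_F(Q)` to an
element fixed by `Aut_S(Q)`; in particular `Q` is not the centralizer of a fully centralized
element. -/
theorem typeA_cS_ne (p : ℕ) [Fact p.Prime] (hS : IsPGroup p S) (hF : F.Saturated p)
    {Q : Subgroup G} (hQ : F.Essential p Q) (h : TypeA F p Q) (x : S)
    (hx : F.FullyCentralized (Subgroup.zpowers (x : G))) :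
    cS S (Subgroup.zpowers (x : G)) ≠ Q := by
  intro heq
  obtain ⟨D⟩ := exists_dataA F p hS hF hQ h
  letI := D.field
  have hQS : Q ≤ S := hQ.1.1
  have hxQ : (x : G) ∈ Q := by
    rw [← heq]; exact mem_cS_zpowers.mpr ⟨x.2, rfl⟩
  -- decomposition
  obtain ⟨v, c, hc, hy⟩ : ∃ (v : Fin 2 → D.K) (c : Q), c ∈ D.C ∧
      (⟨x, hxQ⟩ : Q) = (D.ν (Multiplicative.ofAdd v) : Q) * c := by
    have hCn : D.C.Normal := ⟨fun n hn g => by
      have e : g * n * g⁻¹ = n := by
        have : g * n = n * g := Subtype.ext (D.comm g g.2 n n.2)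
        rw [this, mul_inv_cancel_right]
      rw [e]; exact hn⟩
    have hy : (⟨x, hxQ⟩ : Q) ∈ D.V ⊔ D.C := by rw [D.sup]; exact Subgroup.mem_top _
    rw [← SetLike.mem_coe, Subgroup.mul_normal D.V D.C] at hy
    obtain ⟨a, ha, c, hc, hac⟩ := hy
    refine ⟨Multiplicative.toAdd (D.ν.symm ⟨a, ha⟩), c, hc, ?_⟩
    rw [ofAdd_toAdd, MulEquiv.apply_symm_apply]
    exact hac.symm
  -- an automorphism which maps `x` to an element fixed by `Aut_S(Q)`
  obtain ⟨l, hl⟩ : ∃ l : Matrix.SpecialLinearGroup (Fin 2) D.K,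
      ∀ s, Matrix.mulVec (slU D.K s).1 (Matrix.mulVec l.1 v) = Matrix.mulVec l.1 v := by
    by_cases hv : v = 0
    · exact ⟨1, fun s => by rw [hv]; simp⟩
    · obtain ⟨g, hg⟩ := CTA_trans v hv
      refine ⟨g⁻¹, fun s => ?_⟩
      rw [← hg, ← CTA_mulVec_mul g⁻¹ g, inv_mul_cancel, CTA_mulVec_one, CTA_slU_e1]
  have hliso : ((D.θ l : MulAut Q) : Q ≃* Q) ∈ F.iso Q Q :=
    (F.mem_aut hQS _).mp (D.range_le ⟨l, rfl⟩)
  obtain ⟨z, hz⟩ : ∃ z : Q, z = (D.θ l : MulAut Q) ⟨x, hxQ⟩ := ⟨_, rfl⟩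
  have hconj : F.Conj (Subgroup.zpowers (x : G)) (Subgroup.zpowers (z : G)) := by
    obtain ⟨ψ, hψ, -⟩ := CCentral_zpowers F hliso ⟨x, hxQ⟩
    rw [hz]
    exact ⟨ψ, hψ⟩
  have hfixz : ∀ a ∈ autS S Q, a z = z := by
    intro a ha
    obtain ⟨s, rfl⟩ := (D.sylow a).mp ha
    rw [hz, hy, map_mul, map_mul, D.triv l c hc, D.triv _ c hc, D.act, D.act, hl]
  have hle : nS S Q ≤ cS S (Subgroup.zpowers (z : G)) := by
    intro g hg
    rw [mem_cS_zpowers]
    have hg' := mem_nS.mp hg
    refine ⟨hg'.1, ?_⟩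
    let cg : MulAut Q :=
      { toFun := fun y => ⟨g * y * g⁻¹, (hg'.2 y).mp y.2⟩
        invFun := fun y => ⟨g⁻¹ * y * g, (hg'.2 _).mpr (by
          have e : g * (g⁻¹ * (y : G) * g) * g⁻¹ = y := by group
          rw [e]; exact y.2)⟩
        left_inv := fun y => Subtype.ext (by simp [mul_assoc])
        right_inv := fun y => Subtype.ext (by simp [mul_assoc])
        map_mul' := fun y y' => Subtype.ext (by simp [mul_assoc]) }
    have h1 := hfixz cg ⟨g, hg'.1, fun y => rfl⟩
    have h2 : g * (z : G) * g⁻¹ = z := congrArg Subtype.val h1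
    calc (z : G) * g = g * (z : G) * g⁻¹ * g := by rw [h2]
      _ = g * z := by group
  have h1 : Nat.card Q < Nat.card (nS S Q) := by
    have hlt := essential_lt_nS F p hS hF hQ
    by_contra hcon
    push Not at hcon
    exact hlt.ne (Subgroup.eq_of_le_of_card_ge hlt.le hcon)
  have h2 : Nat.card (nS S Q) ≤ Nat.card (cS S (Subgroup.zpowers (z : G))) :=
    Subgroup.card_le_of_le hle
  have h3 : Nat.card (cS S (Subgroup.zpowers (z : G))) ≤
      Nat.card (cS S (Subgroup.zpowers (x : G))) := hx _ hconj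
  rw [heq] at h3
  omega

end MNF
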