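import Pool.Agent.W_0649d4.CExt
import Pool.Agent.W_0649d4.CCaseA
import Pool.Agent.W_0649d4.CCaseL
import Pool.Agent.W_0649d4.CTypeAData
import Pool.Agent.W_0649d4.AHigman

/-! The pairs `(x, Q)` contributing to `k(F, α)` (blueprint, section CAS). -/

namespace MNF

variable {G : Type*} [Group G] [Finite G] {S : Subgroup G} (F : FusionSystem S)
  {k : Type*} [Field k] [IsAlgClosed k]

/-- `Q = C_S(x)`. -/
theorem case_one (p : ℕ) [Fact p.Prime] [CharP k p] (hS : IsPGroup p S) (hF : F.Saturated p)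
    (hE : NoCentricBelow F p) (α : ∀ P : Subgroup G, Cocycle (F.Out P) k) (hα : Compatible F α)
    (x : S) (hx : F.FullyCentralized (Subgroup.zpowers (x : G)))
    (hxE : ¬ F.Essential p (cS S (Subgroup.zpowers (x : G)))) :
    zNum (TwAlg (centFam F α x (cS S (Subgroup.zpowers (x : G))))) ≤ lam F α x := by
  have hQ := centric_cS F x hx
  have hxQ : (x : G) ∈ cS S (Subgroup.zpowers (x : G)) := mem_cS_zpowers.mpr ⟨x.2, rfl⟩
  obtain ⟨hN, hz⟩ := zNum_centFam F α x hQ.1 hxQ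
    (fun y hy => (mem_cS_zpowers.mp hy).2.symm)
  rw [hz]
  refine (zNum_le_lNum k _).trans ?_
  have hD : ∀ a ∈ aStab F x, ∀ z : S, (z : G) ∈ cS S (Subgroup.zpowers (x : G)) →
      (((a : F.aut S) : MulAut S) z : G) ∈ cS S (Subgroup.zpowers (x : G)) := by
    intro a ha z hz
    have hax : ((a : F.aut S) : MulAut S) x = x := ha
    rw [mem_cS_zpowers] at hz ⊢
    refine ⟨(((a : F.aut S) : MulAut S) z).2, ?_⟩
    have h1 : x * z = z * x := Subtype.ext hz.2
    have h2 := congrArg ((a : F.aut S) : MulAut S) h1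
    rw [map_mul, map_mul, hax] at h2
    exact congrArg Subtype.val h2
  refine lNum_le_lam F p hS α hα x hQ hD _ ?_ ?_
  · intro a ha
    obtain ⟨a', ha'⟩ := exists_res_aut F hQ.1 a (hD a ha)
    refine ⟨a', ha', (hN _).mpr ⟨a', ?_, rfl⟩⟩
    rw [ha' ⟨x, hxQ⟩]
    have hax : ((a : F.aut S) : MulAut S) x = x := ha
    exact congrArg Subtype.val hax
  · intro o ho
    obtain ⟨a', ha', rfl⟩ := (hN o).mp ho
    obtain ⟨ψ, hψ, h1⟩ := ext_of_not_essential F p hS hF hE (a' : MulAut _)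
      ((F.mem_aut hQ.1 _).mp a'.2) hQ hxE
    refine ⟨⟨ψ, Or.inr hψ⟩, ?_, a', h1, rfl⟩
    show (ψ : S ≃* S) x = x
    apply Subtype.ext
    rw [← ha']
    exact (h1 ⟨x, hxQ⟩).symm

/-- `Q < C_S(x)`. -/
theorem case_two (p : ℕ) [Fact p.Prime] [CharP k p] (hS : IsPGroup p S) (hF : F.Saturated p)
    (hE : NoCentricBelow F p) (α : ∀ P : Subgroup G, Cocycle (F.Out P) k)
    (x : S) (hx : F.FullyCentralized (Subgroup.zpowers (x : G))) {Q : Subgroup G}
    (hQ : (F.cent x).Centric Q) (hne : Q ≠ cS S (Subgroup.zpowers (x : G)))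
    (hz : zNum (TwAlg (centFam F α x Q)) ≠ 0) : F.Essential p Q := by
  by_contra hQE
  apply hz
  have hQc : F.Centric Q := centric_of_cent_centric F p hF x hx hQ
  have hxQ : (x : G) ∈ Q := mem_of_cent_centric F x hQ
  have hQT : Q ≤ cS S (Subgroup.zpowers (x : G)) := hQ.1
  have hTS : cS S (Subgroup.zpowers (x : G)) ≤ S := inf_le_left
  have hT : IsPGroup p (cS S (Subgroup.zpowers (x : G))) := by
    intro t
    obtain ⟨n, hn⟩ := hS ⟨t, hTS t.2⟩
    refine ⟨n, Subtype.ext ?_⟩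
    have h1 := congrArg Subtype.val hn
    rw [Subgroup.coe_pow] at h1 ⊢
    exact h1
  -- elements of `Aut_{C_F(x)}(Q)` fix `x`
  have hfix : ∀ a ∈ (F.cent x).aut Q, (a ⟨x, hxQ⟩ : G) = x := by
    rintro a (rfl | ⟨-, -, P', Q', ψ, h, hx', hψ, hψx, hφψ⟩)
    · rfl
    · rw [hφψ ⟨x, hxQ⟩]
      exact hψx
  let V : Subgroup ((F.cent x).aut Q) :=
    (autS (cS S (Subgroup.zpowers (x : G))) Q).subgroupOf ((F.cent x).aut Q)
  have hV : V.Normal := by
    refine ⟨fun t ht a => ?_⟩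
    obtain ⟨s, hs, hts⟩ := Subgroup.mem_subgroupOf.mp ht
    have haF : (a : MulAut Q) ∈ F.iso Q Q := (F.mem_aut hQc.1 _).mp (F.cent_aut_le x Q a.2)
    obtain ⟨ψ, hψ, h1⟩ := ext_of_not_essential F p hS hF hE (a : MulAut Q) haF hQc hQE
    have hψx : ψ x = x := by
      apply Subtype.ext
      have h2 := h1 ⟨x, hxQ⟩
      have h3 : ((a : MulAut Q) ⟨x, hxQ⟩ : G) = x := hfix a a.2
      have h4 : ((a : MulAut Q) ⟨x, hxQ⟩ : G) = ψ x := h2
      rw [← h4]
      exact h3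
    refine Subgroup.mem_subgroupOf.mpr ⟨(ψ ⟨s, hTS hs⟩ : G), ?_, fun y => ?_⟩
    · rw [mem_cS_zpowers] at hs ⊢
      refine ⟨(ψ ⟨s, hTS (mem_cS_zpowers.mpr hs)⟩).2, ?_⟩
      have h2 : x * (⟨s, hs.1⟩ : S) = ⟨s, hs.1⟩ * x := Subtype.ext hs.2
      have h3 := congrArg ψ h2
      rw [map_mul, map_mul, hψx] at h3
      exact congrArg Subtype.val h3
    · show ((a : MulAut Q) ((t : MulAut Q) ((a : MulAut Q)⁻¹ y)) : G) = _
      have h2 : ∀ z : Q, ((a : MulAut Q) z : G) = ψ ⟨z, hQc.1 z.2⟩ := h1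
      rw [h2 ((t : MulAut Q) ((a : MulAut Q)⁻¹ y))]
      have h3 : (⟨((t : MulAut Q) ((a : MulAut Q)⁻¹ y) : Q),
          hQc.1 ((t : MulAut Q) ((a : MulAut Q)⁻¹ y)).2⟩ : S) =
          ⟨s, hTS hs⟩ * ⟨((a : MulAut Q)⁻¹ y : Q), hQc.1 ((a : MulAut Q)⁻¹ y).2⟩ *
            (⟨s, hTS hs⟩)⁻¹ := Subtype.ext (hts ((a : MulAut Q)⁻¹ y))
      rw [h3, map_mul, map_mul, map_inv]
      have h4 : (ψ ⟨((a : MulAut Q)⁻¹ y : Q), hQc.1 ((a : MulAut Q)⁻¹ y).2⟩ : G) = y := by
        rw [← h2 ((a : MulAut Q)⁻¹ y)]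
        exact congrArg Subtype.val (MulAut.apply_inv_self Q (a : MulAut Q) y)
      show (ψ ⟨s, hTS hs⟩ : G) * ψ ⟨((a : MulAut Q)⁻¹ y : Q), _⟩ * (ψ ⟨s, hTS hs⟩ : G)⁻¹ = _
      rw [h4]
  have hU : (V.map (QuotientGroup.mk' ((F.cent x).inn Q))).Normal :=
    hV.map _ (QuotientGroup.mk'_surjective _)
  refine zNum_eq_zero p (centFam F α x Q) (V.map (QuotientGroup.mk' ((F.cent x).inn Q))) ?_ ?_
  · rintro ⟨u, hu⟩
    obtain ⟨t, ht, rfl⟩ := hu
    obtain ⟨s, hs, hts⟩ := Subgroup.mem_subgroupOf.mp ht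
    obtain ⟨n, hn⟩ := hT ⟨s, hs⟩
    refine ⟨n, Subtype.ext ?_⟩
    have hn' : s ^ p ^ n = 1 := by
      have h1 := congrArg Subtype.val hn
      rw [Subgroup.coe_pow] at h1
      exact h1
    have hpow : ∀ (m : ℕ) (y : Q), (((t : MulAut Q) ^ m) y : G) = s ^ m * y * (s ^ m)⁻¹ := by
      intro m
      induction m with
      | zero => intro y; simp
      | succ m ih =>
        intro y
        rw [pow_succ', MulAut.mul_apply, hts, ih, pow_succ']
        group
    have ht1 : t ^ p ^ n = 1 := by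
      apply Subtype.ext
      apply MulEquiv.ext
      intro y
      apply Subtype.ext
      have h1 := hpow (p ^ n) y
      rw [hn'] at h1
      rw [Subgroup.coe_pow, h1]
      simp
    rw [Subgroup.coe_pow, Subgroup.coe_one]
    show (QuotientGroup.mk' ((F.cent x).inn Q) t) ^ p ^ n = 1
    rw [← map_pow, ht1, map_one]
  · intro hbot
    have hlt : Q < cS S (Subgroup.zpowers (x : G)) := lt_of_le_of_ne hQT hne
    obtain ⟨s, hs, hsQ⟩ := SetLike.exists_of_lt (lt_nS hT hlt)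
    obtain ⟨hsT, hsn⟩ := mem_nS.mp hs
    have hsn' : ∀ y ∈ Q, s * y * s⁻¹ ∈ Q := fun y hy => (hsn y).mp hy
    -- conjugation with `s`
    obtain ⟨φ, hφ⟩ : ∃ φ : MulAut Q, ∀ y : Q, (φ y : G) = s * y * s⁻¹ := by
      refine ⟨{ toFun := fun y => ⟨s * y * s⁻¹, hsn' y y.2⟩
                invFun := fun y => ⟨s⁻¹ * y * s, ?_⟩
                left_inv := ?_
                right_inv := ?_
                map_mul' := ?_ }, fun y => rfl⟩
      · rw [hsn]
        have h1 : s * (s⁻¹ * (y : G) * s) * s⁻¹ = y := by group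
        rw [h1]
        exact y.2
      · intro y
        apply Subtype.ext
        show s⁻¹ * (s * (y : G) * s⁻¹) * s = y
        group
      · intro y
        apply Subtype.ext
        show s * (s⁻¹ * (y : G) * s) * s⁻¹ = y
        group
      · intro y z
        apply Subtype.ext
        show s * ((y : G) * z) * s⁻¹ = (s * y * s⁻¹) * (s * z * s⁻¹)
        group
    have hφS : φ ∈ autS (cS S (Subgroup.zpowers (x : G))) Q := ⟨s, hsT, hφ⟩
    have hφA : φ ∈ (F.cent x).aut Q := autS_le_aut (F := F.cent x) hQT hφS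
    have h1 : QuotientGroup.mk' ((F.cent x).inn Q) ⟨φ, hφA⟩ ∈
        V.map (QuotientGroup.mk' ((F.cent x).inn Q)) :=
      Subgroup.mem_map_of_mem _ (Subgroup.mem_subgroupOf.mpr hφS)
    rw [hbot, Subgroup.mem_bot, QuotientGroup.mk'_apply, QuotientGroup.eq_one_iff] at h1
    obtain ⟨q, hq⟩ := Subgroup.mem_subgroupOf.mp h1
    have hq' : ∀ y : Q, (q : G) * y * (q : G)⁻¹ = s * y * s⁻¹ := by
      intro y
      rw [← hφ y]
      have h2 := congrArg (fun ψ : MulAut Q => (ψ y : G)) hq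
      exact h2
    have h3 : (q : G)⁻¹ * s ∈ cS (cS S (Subgroup.zpowers (x : G))) Q := by
      rw [mem_cS]
      refine ⟨mul_mem (inv_mem (hQT q.2)) hsT, fun y hy => ?_⟩
      have h4 := hq' ⟨y, hy⟩
      have h5 : (q : G) * y * (q : G)⁻¹ = s * y * s⁻¹ := h4
      calc y * ((q : G)⁻¹ * s) = (q : G)⁻¹ * ((q : G) * y * (q : G)⁻¹) * s := by group
        _ = (q : G)⁻¹ * (s * y * s⁻¹) * s := by rw [h5]
        _ = (q : G)⁻¹ * s * y := by group
    have h6 := hQ.2 Q (FusionSystem.Conj.refl (F.cent x) hQT) h3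
    apply hsQ
    have h7 : s = (q : G) * ((q : G)⁻¹ * s) := by group
    rw [h7]
    exact mul_mem q.2 h6

end MNF
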