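import Pool.Agent.W_0649d4.CBasic

/-! TASK CCentral. Centralizers of fully centralized elements. -/

namespace MNF

variable {G : Type*} [Group G] {S : Subgroup G} (F : FusionSystem S)

/-- Restriction of an isomorphism to a cyclic subgroup. -/
theorem CCentral_zpowers {P Q : Subgroup G} {φ : P ≃* Q} (hφ : φ ∈ F.iso P Q) (x : P) :
    ∃ ψ : Subgroup.zpowers (x : G) ≃* Subgroup.zpowers (φ x : G),
      ψ ∈ F.iso (Subgroup.zpowers (x : G)) (Subgroup.zpowers (φ x : G)) ∧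
      (ψ ⟨x, Subgroup.mem_zpowers (x : G)⟩ : G) = φ x := by
  have hle : Subgroup.zpowers (x : G) ≤ P := by
    rw [Subgroup.zpowers_le]; exact x.2
  obtain ⟨Q', ψ, hψ, h1⟩ := F.exists_res hφ hle
  have hpow : ∀ n : ℤ, ∀ h : (x : G) ^ n ∈ P, (φ ⟨(x : G) ^ n, h⟩ : G) = (φ x : G) ^ n := by
    intro n h
    have e : (⟨(x : G) ^ n, h⟩ : P) = x ^ n := Subtype.ext (by simp)
    rw [e, map_zpow]
    simp
  have hQ' : Q' = Subgroup.zpowers (φ x : G) := by
    ext y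
    rw [Subgroup.mem_zpowers_iff]
    constructor
    · intro hy
      have h2 := h1 (ψ.symm ⟨y, hy⟩)
      rw [MulEquiv.apply_symm_apply] at h2
      obtain ⟨n, hn⟩ := Subgroup.mem_zpowers_iff.mp (ψ.symm ⟨y, hy⟩).2
      refine ⟨n, ?_⟩
      rw [← hpow n (by rw [hn]; exact hle (ψ.symm ⟨y, hy⟩).2)]
      have h3 : y = (φ ⟨(ψ.symm ⟨y, hy⟩ : Subgroup.zpowers (x : G)),
        hle (ψ.symm ⟨y, hy⟩).2⟩ : G) := h2
      refine Eq.trans ?_ h3.symm
      exact congrArg (fun z : P => (φ z : G)) (Subtype.ext hn)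
    · rintro ⟨n, rfl⟩
      have hm : (x : G) ^ n ∈ Subgroup.zpowers (x : G) := ⟨n, rfl⟩
      have h2 := h1 ⟨(x : G) ^ n, hm⟩
      rw [hpow n (hle hm)] at h2
      rw [← h2]
      exact (ψ _).2
  subst hQ'
  exact ⟨ψ, hψ, h1 _⟩

theorem iso_cS [Finite G] (x : S)
    (hx : F.FullyCentralized (Subgroup.zpowers (x : G))) {R : Subgroup G}
    {φ : cS S (Subgroup.zpowers (x : G)) ≃* R}
    (hφ : φ ∈ F.iso (cS S (Subgroup.zpowers (x : G))) R)
    (hxx : (x : G) ∈ cS S (Subgroup.zpowers (x : G))) :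
    R = cS S (Subgroup.zpowers (φ ⟨x, hxx⟩ : G)) ∧
      F.FullyCentralized (Subgroup.zpowers (φ ⟨x, hxx⟩ : G)) := by
  obtain ⟨ψ, hψ, -⟩ := CCentral_zpowers F hφ ⟨x, hxx⟩
  have hconj : F.Conj (Subgroup.zpowers (x : G)) (Subgroup.zpowers (φ ⟨x, hxx⟩ : G)) :=
    ⟨ψ, hψ⟩
  have hle : R ≤ cS S (Subgroup.zpowers (φ ⟨x, hxx⟩ : G)) := by
    intro r hr
    rw [mem_cS_zpowers]
    refine ⟨F.le_right hφ hr, ?_⟩
    set c := φ.symm ⟨r, hr⟩ with hc
    have h1 : (φ c : G) = r := by rw [hc, MulEquiv.apply_symm_apply]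
    have h2 : (x : G) * c = c * x := (mem_cS_zpowers.mp c.2).2
    have h3 := (map_cS F hφ c ⟨x, hxx⟩).mp h2
    rw [h1] at h3
    exact h3
  have hcard : Nat.card R = Nat.card (cS S (Subgroup.zpowers (x : G))) :=
    (Nat.card_congr φ.toEquiv).symm
  have hR : R = cS S (Subgroup.zpowers (φ ⟨x, hxx⟩ : G)) := by
    refine Subgroup.eq_of_le_of_card_ge hle ?_
    rw [hcard]
    exact hx _ hconj
  refine ⟨hR, fun Q hQ => ?_⟩
  rw [← hR, hcard]
  exact hx Q (hconj.trans hQ)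

/-- If `x` is fully centralized, then `C_S(x)` is centric, and every isomorphism from `C_S(x)` maps
it onto the centralizer of the image of `x`, which is again fully centralized. -/
theorem centric_cS [Finite G] (x : S)
    (hx : F.FullyCentralized (Subgroup.zpowers (x : G))) :
    F.Centric (cS S (Subgroup.zpowers (x : G))) := by
  have hxx : (x : G) ∈ cS S (Subgroup.zpowers (x : G)) := mem_cS_zpowers.mpr ⟨x.2, rfl⟩
  refine ⟨inf_le_left, ?_⟩
  rintro Q ⟨φ, hφ⟩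
  obtain ⟨hQ, -⟩ := iso_cS F x hx hφ hxx
  intro g hg
  rw [mem_cS] at hg
  have h1 : g ∈ cS S (Subgroup.zpowers (φ ⟨x, hxx⟩ : G)) :=
    mem_cS_zpowers.mpr ⟨hg.1, hg.2 _ (φ ⟨x, hxx⟩).2⟩
  rwa [← hQ] at h1

/-- An element `y` of `S` which is `F`-conjugate to a fully centralized `x` is mapped to `x` by an
isomorphism defined on `C_S(y)`. -/
theorem exists_iso_cS [Finite G] {p : ℕ} (hF : F.Saturated p) (x y : S)
    (hx : F.FullyCentralized (Subgroup.zpowers (x : G))) (hyx : F.ConjEl (y : G) (x : G))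
    (hyy : (y : G) ∈ cS S (Subgroup.zpowers (y : G))) :
    ∃ (R : Subgroup G) (φ : cS S (Subgroup.zpowers (y : G)) ≃* R),
      φ ∈ F.iso (cS S (Subgroup.zpowers (y : G))) R ∧ (φ ⟨y, hyy⟩ : G) = x ∧
      R ≤ cS S (Subgroup.zpowers (x : G)) := by
  obtain ⟨P, Q, χ, hyP, hχ, hχy⟩ := hyx
  obtain ⟨ψ, hψ, hψy⟩ := CCentral_zpowers F hχ ⟨y, hyP⟩
  simp only at ψ hψ hψy
  have hle : Subgroup.zpowers (y : G) ≤ cS S (Subgroup.zpowers (y : G)) := by
    rw [Subgroup.zpowers_le]; exact hyy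
  rw [← hχy] at hx
  obtain ⟨R, Ψ, hΨ, hΨψ⟩ := hF.extend (Subgroup.zpowers (y : G))
    (Subgroup.zpowers (χ ⟨y, hyP⟩ : G)) (cS S (Subgroup.zpowers (y : G))) ψ hle hψ hx
    inf_le_left (by
      intro g hg
      refine ⟨1, S.one_mem, fun z => ?_⟩
      have h1 : g * (z : G) * g⁻¹ = z := by
        have h2 : (z : G) * g = g * z := (mem_cS.mp hg).2 z z.2
        rw [← h2, mul_inv_cancel_right]
      refine ⟨by rw [h1]; exact z.2, ?_⟩
      have h3 : (⟨g * (z : G) * g⁻¹, by rw [h1]; exact z.2⟩ : Subgroup.zpowers (y : G)) = z :=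
        Subtype.ext h1
      rw [h3]
      simp)
  have hΨy : (Ψ ⟨y, hyy⟩ : G) = x := by
    have h1 := hΨψ ⟨y, Subgroup.mem_zpowers (y : G)⟩
    rw [hψy, hχy] at h1
    exact h1
  refine ⟨R, Ψ, hΨ, hΨy, ?_⟩
  intro r hr
  rw [mem_cS_zpowers]
  refine ⟨F.le_right hΨ hr, ?_⟩
  set c := Ψ.symm ⟨r, hr⟩ with hc
  have h1 : (Ψ c : G) = r := by rw [hc, MulEquiv.apply_symm_apply]
  have h2 : (y : G) * c = c * y := (mem_cS_zpowers.mp c.2).2
  have h3 := (map_cS F hΨ c ⟨y, hyy⟩).mp h2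
  rw [h1, hΨy] at h3
  exact h3

end MNF
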