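import Pool.Agent.W_0649d4.CEmb

/-! TASK CDerived: if `|[S,S]| = p`, every essential subgroup is of type (A') (blueprint,
section DER). -/

namespace MNF

section der

/-- In a group of prime order every nontrivial element is a generator. -/
private theorem der_zpow {Q : Type*} [Group Q] {p : ℕ} [Fact p.Prime] {D : Subgroup Q}
    (hD : Nat.card D = p) {e : Q} (he : e ∈ D) (he1 : e ≠ 1) {d : Q} (hd : d ∈ D) :
    ∃ n : ℤ, e ^ n = d := by
  have h1 : (⟨e, he⟩ : D) ≠ 1 := fun h => he1 (congrArg Subtype.val h)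
  have h2 := mem_zpowers_of_prime_card (g := (⟨e, he⟩ : D)) (g' := ⟨d, hd⟩) hD h1
  obtain ⟨n, hn⟩ := h2
  exact ⟨n, congrArg Subtype.val hn⟩

private theorem der_pow {Q : Type*} [Group Q] (a : MulAut Q) {q e : Q} (h : a q = e * q)
    (he : a e = e) (n : ℕ) : (a ^ n) q = e ^ n * q := by
  have h1 : ∀ n : ℕ, (a ^ n) e = e := by
    intro n
    induction n with
    | zero => rfl
    | succ n ih => rw [pow_succ, MulAut.mul_apply, he, ih]
  induction n with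
  | zero => simp
  | succ n ih =>
    rw [pow_succ, MulAut.mul_apply, h, map_mul, h1, ih, pow_succ', mul_assoc]

/-- The group of all `a ∈ A` with `a q ∈ D q` and `a = 1` on `D`. -/
private theorem der_U {Q : Type*} [Group Q] {p : ℕ} (A : Subgroup (MulAut Q)) (D : Subgroup Q)
    (hD : Nat.card D = p) (hinv : ∀ a ∈ A, ∀ d ∈ D, a d ∈ D) :
    ∃ W : Subgroup A, W.Normal ∧ IsPGroup p W ∧
      ∀ a : A, a ∈ W ↔ (∀ q, a.1 q * q⁻¹ ∈ D) ∧ ∀ d ∈ D, a.1 d = d := by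
  let W : Subgroup A :=
    { carrier := {a | (∀ q, a.1 q * q⁻¹ ∈ D) ∧ ∀ d ∈ D, a.1 d = d}
      one_mem' := ⟨fun q => by
        show q * q⁻¹ ∈ D
        rw [mul_inv_cancel]
        exact D.one_mem, fun d _ => rfl⟩
      mul_mem' := by
        rintro a b ⟨ha1, ha2⟩ ⟨hb1, hb2⟩
        refine ⟨fun q => ?_, fun d hd => ?_⟩
        · show a.1 (b.1 q) * q⁻¹ ∈ D
          have h1 := mul_mem (ha1 (b.1 q)) (hb1 q)
          have h2 : a.1 (b.1 q) * (b.1 q)⁻¹ * (b.1 q * q⁻¹) = a.1 (b.1 q) * q⁻¹ := by group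
          rwa [h2] at h1
        · show a.1 (b.1 d) = d
          rw [hb2 d hd, ha2 d hd]
      inv_mem' := by
        rintro a ⟨ha1, ha2⟩
        refine ⟨fun q => ?_, fun d hd => ?_⟩
        · show (a.1⁻¹) q * q⁻¹ ∈ D
          have h1 := inv_mem (ha1 (a.1⁻¹ q))
          rw [MulAut.apply_inv_self] at h1
          have h2 : (q * ((a.1⁻¹) q)⁻¹)⁻¹ = (a.1⁻¹) q * q⁻¹ := by group
          rwa [h2] at h1
        · show (a.1⁻¹) d = d
          conv_lhs => rw [← ha2 d hd]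
          rw [MulAut.inv_apply_self] }
  have hmem : ∀ a : A, a ∈ W ↔ (∀ q, a.1 q * q⁻¹ ∈ D) ∧ ∀ d ∈ D, a.1 d = d := fun a => Iff.rfl
  refine ⟨W, ⟨?_⟩, ?_, hmem⟩
  · intro a ha g
    obtain ⟨ha1, ha2⟩ := (hmem a).1 ha
    refine (hmem _).2 ⟨fun q => ?_, fun d hd => ?_⟩
    · show g.1 (a.1 (g.1⁻¹ q)) * q⁻¹ ∈ D
      have h1 := hinv g.1 g.2 _ (ha1 (g.1⁻¹ q))
      rw [map_mul, map_inv, MulAut.apply_inv_self] at h1
      exact h1
    · show g.1 (a.1 (g.1⁻¹ d)) = d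
      rw [ha2 _ (hinv g.1⁻¹ (inv_mem g.2) d hd), MulAut.apply_inv_self]
  · rintro ⟨a, ha⟩
    obtain ⟨ha1, ha2⟩ := (hmem a).1 ha
    refine ⟨1, Subtype.ext (Subtype.ext ?_)⟩
    show a.1 ^ p ^ 1 = 1
    rw [pow_one]
    ext q
    have h1 : a.1 q = (a.1 q * q⁻¹) * q := by group
    rw [der_pow a.1 h1 (ha2 _ (ha1 q)) p]
    have h2 : (⟨a.1 q * q⁻¹, ha1 q⟩ : D) ^ p = 1 := by
      rw [← hD]
      exact pow_card_eq_one'
    have h3 : (a.1 q * q⁻¹) ^ p = 1 := congrArg Subtype.val h2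
    rw [h3, one_mul]
    rfl

/-- Pigeonhole. -/
private theorem der_pigeon {Q : Type*} [Group Q] [Finite Q] {p : ℕ} (T : Subgroup (MulAut Q))
    (D : Subgroup Q) (hD : Nat.card D = p) (hTD : ∀ t ∈ T, ∀ q : Q, t q * q⁻¹ ∈ D)
    (hT : p < Nat.card T) (w : Q) : ∃ t ∈ T, t ≠ 1 ∧ t w = w := by
  let f : T → D := fun t => ⟨t.1 w * w⁻¹, hTD t.1 t.2 w⟩
  have hnot : ¬ Function.Injective f := by
    intro hinj
    have := Nat.card_le_card_of_injective f hinj
    omega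
  rw [Function.Injective] at hnot
  push Not at hnot
  obtain ⟨t1, t2, h12, hne⟩ := hnot
  have h : t1.1 w = t2.1 w := by
    have h0 : t1.1 w * w⁻¹ = t2.1 w * w⁻¹ := congrArg Subtype.val h12
    exact mul_right_cancel h0
  refine ⟨t2.1⁻¹ * t1.1, mul_mem (inv_mem t2.2) t1.2, fun h1 => ?_, ?_⟩
  · exact hne (Subtype.ext (inv_mul_eq_one.1 h1).symm)
  · rw [MulAut.mul_apply, h, MulAut.inv_apply_self]

private theorem der_card {Q : Type*} [Group Q] [Finite Q] {p : ℕ} [Fact p.Prime]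
    (hab : ∀ x y : Q, x * y = y * x) (A T : Subgroup (MulAut Q)) (hTA : T ≤ A)
    (hT : IsPGroup p T) (hi : ¬ p ∣ T.relIndex A) (D : Subgroup Q) (hD : Nat.card D = p)
    (hTD : ∀ t ∈ T, ∀ q : Q, t q * q⁻¹ ∈ D) (hTf : ∀ t ∈ T, ∀ d ∈ D, t d = d)
    (hcore : ∀ W : Subgroup A, W.Normal → IsPGroup p W → W = ⊥) (hT1 : T ≠ ⊥) :
    Nat.card T = p := by
  have hp : p.Prime := Fact.out
  have hex : ∃ g ∈ A, ∃ d ∈ D, g d ∉ D := by
    by_contra hcon
    push Not at hcon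
    obtain ⟨W, hW1, hW2, hW3⟩ := der_U A D hD hcon
    have hW := hcore W hW1 hW2
    apply hT1
    rw [Subgroup.eq_bot_iff_forall]
    intro t ht
    have h1 : (⟨t, hTA ht⟩ : A) ∈ W := (hW3 _).2 ⟨hTD t ht, hTf t ht⟩
    rw [hW, Subgroup.mem_bot] at h1
    exact congrArg Subtype.val h1
  obtain ⟨g, hg, d₀, hd₀, hgd₀⟩ := hex
  have hd₀1 : d₀ ≠ 1 := by
    rintro rfl
    apply hgd₀
    rw [map_one]
    exact D.one_mem
  have hle : ¬ p < Nat.card T := by
    intro hlt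
    obtain ⟨t₀, ht₀, ht₀1, ht₀w⟩ := der_pigeon T D hD hTD hlt (g d₀)
    obtain ⟨t₁, ht₁, ht₁1, ht₁w⟩ := der_pigeon T D hD hTD hlt (g⁻¹ d₀)
    have hfix0 : ∀ d ∈ D, t₀ (g d) = g d := by
      intro d hd
      obtain ⟨n, rfl⟩ := der_zpow hD hd₀ hd₀1 hd
      rw [map_zpow, map_zpow, ht₀w]
    have hfix1 : ∀ d ∈ D, t₁ (g⁻¹ d) = g⁻¹ d := by
      intro d hd
      obtain ⟨n, rfl⟩ := der_zpow hD hd₀ hd₀1 hd
      rw [map_zpow, map_zpow, ht₁w]
    have hcomm : t₀ * (g * t₁ * g⁻¹) = (g * t₁ * g⁻¹) * t₀ := by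
      ext q
      show t₀ (g (t₁ (g⁻¹ q))) = g (t₁ (g⁻¹ (t₀ q)))
      obtain ⟨e, he⟩ : ∃ e : Q, e = t₀ q * q⁻¹ := ⟨_, rfl⟩
      obtain ⟨e', he'⟩ : ∃ e' : Q, e' = t₁ (g⁻¹ q) * (g⁻¹ q)⁻¹ := ⟨_, rfl⟩
      have h1 : t₀ q = e * q := by rw [he]; group
      have h2 : t₁ (g⁻¹ q) = e' * (g⁻¹ q) := by rw [he']; group
      have h3 : e ∈ D := he ▸ hTD t₀ ht₀ q
      have h4 : e' ∈ D := he' ▸ hTD t₁ ht₁ (g⁻¹ q)
      calc t₀ (g (t₁ (g⁻¹ q))) = t₀ (g e' * q) := by rw [h2, map_mul, MulAut.apply_inv_self]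
        _ = g e' * (e * q) := by rw [map_mul, hfix0 e' h4, h1]
        _ = e * (g e' * q) := by rw [← mul_assoc, hab (g e') e, mul_assoc]
        _ = g (t₁ (g⁻¹ (t₀ q))) := by
          rw [h1, map_mul g⁻¹, map_mul t₁, hfix1 e h3, h2, map_mul g, MulAut.apply_inv_self,
            map_mul g, MulAut.apply_inv_self]
    -- the two elements in `A`
    let a₀ : A := ⟨t₀, hTA ht₀⟩
    let a₁ : A := ⟨g * t₁ * g⁻¹, mul_mem (mul_mem hg (hTA ht₁)) (inv_mem hg)⟩
    have hcA : a₀ * a₁ = a₁ * a₀ := Subtype.ext hcomm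
    have hp0 : IsPGroup p (Subgroup.zpowers a₀) := by
      obtain ⟨k, hk⟩ := hT ⟨t₀, ht₀⟩
      have hk' : t₀ ^ p ^ k = 1 := congrArg Subtype.val hk
      have hk2 : a₀ ^ p ^ k = 1 := Subtype.ext hk'
      rintro ⟨x, n, rfl⟩
      refine ⟨k, Subtype.ext ?_⟩
      show (a₀ ^ n) ^ p ^ k = 1
      rw [← zpow_natCast, ← zpow_mul, mul_comm, zpow_mul, zpow_natCast, hk2, one_zpow]
    have hp1 : IsPGroup p (Subgroup.zpowers a₁) := by
      obtain ⟨k, hk⟩ := hT ⟨t₁, ht₁⟩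
      have hk' : t₁ ^ p ^ k = 1 := congrArg Subtype.val hk
      have hk3 : (g * t₁ * g⁻¹) ^ p ^ k = 1 := by
        rw [conj_pow, hk', mul_one, mul_inv_cancel]
      have hk2 : a₁ ^ p ^ k = 1 := Subtype.ext hk3
      rintro ⟨x, n, rfl⟩
      refine ⟨k, Subtype.ext ?_⟩
      show (a₁ ^ n) ^ p ^ k = 1
      rw [← zpow_natCast, ← zpow_mul, mul_comm, zpow_mul, zpow_natCast, hk2, one_zpow]
    have hH : IsPGroup p (Subgroup.zpowers a₀ ⊔ Subgroup.zpowers a₁ : Subgroup A) := by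
      apply hp0.to_sup_of_normal_right' hp1
      rw [Subgroup.zpowers_le]
      apply Subgroup.centralizer_le_normalizer
      rw [Subgroup.mem_centralizer_iff]
      rintro _ ⟨n, rfl⟩
      have h5 : Commute a₁ a₀ := hcA.symm
      exact (h5.zpow_left n)
    obtain ⟨a, ha⟩ := emb_sylow p (T.subgroupOf A) (hT.comap_subtype) hi _ hH
    have hb0 : a.1 * t₀ * a.1⁻¹ ∈ T :=
      Subgroup.mem_subgroupOf.1 (ha a₀ (Subgroup.mem_sup_left (Subgroup.mem_zpowers _)))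
    have hb1 : a.1 * (g * t₁ * g⁻¹) * a.1⁻¹ ∈ T :=
      Subgroup.mem_subgroupOf.1 (ha a₁ (Subgroup.mem_sup_right (Subgroup.mem_zpowers _)))
    have hc0 : ∀ r : Q, a.1 (t₀ r * r⁻¹) ∈ D := by
      intro r
      have h1 := hTD _ hb0 (a.1 r)
      have h2 : (a.1 * t₀ * a.1⁻¹) (a.1 r) = a.1 (t₀ r) := by
        show a.1 (t₀ (a.1⁻¹ (a.1 r))) = a.1 (t₀ r)
        rw [MulAut.inv_apply_self]
      rw [h2, ← map_inv, ← map_mul] at h1
      exact h1
    have hc1 : ∀ r : Q, a.1 (g (t₁ r * r⁻¹)) ∈ D := by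
      intro r
      have h1 := hTD _ hb1 (a.1 (g r))
      have h2 : (a.1 * (g * t₁ * g⁻¹) * a.1⁻¹) (a.1 (g r)) = a.1 (g (t₁ r)) := by
        show a.1 (g (t₁ (g⁻¹ (a.1⁻¹ (a.1 (g r)))))) = a.1 (g (t₁ r))
        rw [MulAut.inv_apply_self, MulAut.inv_apply_self]
      rw [h2, ← map_inv, ← map_mul, ← map_inv, ← map_mul] at h1
      exact h1
    have hne : ∀ t : MulAut Q, t ≠ 1 → ∃ r, t r * r⁻¹ ≠ 1 := by
      intro t ht
      by_contra hcon
      push Not at hcon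
      apply ht
      ext r
      exact mul_inv_eq_one.1 (hcon r)
    obtain ⟨r₀, hr₀⟩ := hne t₀ ht₀1
    obtain ⟨r₁, hr₁⟩ := hne t₁ ht₁1
    have hd0 : ∀ d ∈ D, a.1 d ∈ D := by
      intro d hd
      obtain ⟨n, rfl⟩ := der_zpow hD (hTD t₀ ht₀ r₀) hr₀ hd
      rw [map_zpow]
      exact zpow_mem (hc0 r₀) n
    have hd1 : ∀ d ∈ D, a.1 (g d) ∈ D := by
      intro d hd
      obtain ⟨n, rfl⟩ := der_zpow hD (hTD t₁ ht₁ r₁) hr₁ hd
      rw [map_zpow, map_zpow]
      exact zpow_mem (hc1 r₁) n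
    have ha0 : a.1 d₀ ≠ 1 := by
      intro h
      apply hd₀1
      exact (map_eq_one_iff a.1 a.1.injective).1 h
    obtain ⟨n, hn⟩ := der_zpow hD (hd0 d₀ hd₀) ha0 (hd1 d₀ hd₀)
    apply hgd₀
    rw [← map_zpow] at hn
    rw [← a.1.injective hn]
    exact zpow_mem hd₀ n
  rcases hT.card_eq_or_dvd with h6 | h6
  · exact absurd (Subgroup.card_eq_one.1 h6) hT1
  · have h7 : p ≤ Nat.card T := Nat.le_of_dvd Nat.card_pos h6
    omega

/-- A normal subgroup of prime order of a `p`-group is central. -/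
private theorem der_central {P : Type*} [Group P] [Finite P] {p : ℕ} [Fact p.Prime]
    (hP : IsPGroup p P) (N : Subgroup P) [N.Normal] (hN : Nat.card N = p) :
    N ≤ Subgroup.center P := by
  rw [← Subgroup.commutator_top_right_eq_bot_iff_le_center]
  have hle : ⁅N, (⊤ : Subgroup P)⁆ ≤ N := Subgroup.commutator_le_left N ⊤
  have hdvd : Nat.card ↥⁅N, (⊤ : Subgroup P)⁆ ∣ p := by
    rw [← hN]
    exact Subgroup.card_dvd_of_le hle
  rcases (Nat.dvd_prime (Fact.out : p.Prime)).1 hdvd with h | h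
  · exact Subgroup.card_eq_one.1 h
  · exfalso
    have heq : ⁅N, (⊤ : Subgroup P)⁆ = N := by
      apply Subgroup.eq_of_le_of_card_ge hle
      rw [h, hN]
    have hnil : Group.IsNilpotent P := hP.isNilpotent
    obtain ⟨n, hn⟩ := Subgroup.nilpotent_iff_lowerCentralSeries.1 hnil
    have h1 : ∀ n, N ≤ Subgroup.lowerCentralSeries (⊤ : Subgroup P) n := by
      intro n
      induction n with
      | zero => exact le_top
      | succ n ih =>
        rw [← heq]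
        exact Subgroup.commutator_mono ih le_rfl
    have h2 := h1 n
    rw [hn, le_bot_iff] at h2
    rw [h2] at hN
    have h3 : Nat.card (⊥ : Subgroup P) = 1 := Subgroup.card_bot
    rw [h3] at hN
    exact (Fact.out : p.Prime).one_lt.ne hN

end der

variable {G : Type*} [Group G] [Finite G] {S : Subgroup G} (F : FusionSystem S)

theorem typeA'_of_card (p : ℕ) [Fact p.Prime] (hS : IsPGroup p S) (hF : F.Saturated p)
    (hc : Nat.card (commutator S) = p) {Q : Subgroup G} (hQ : F.Essential p Q) :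
    TypeA' S p Q := by
  have hp : p.Prime := Fact.out
  have hQS : Q ≤ S := hQ.1.1
  have hcQ : cS S Q ≤ Q := hQ.1.2 Q (FusionSystem.Conj.refl F hQS)
  have hcen : commutator S ≤ Subgroup.center S := der_central hS (commutator S) hc
  have hcen' : ∀ d ∈ commutator S, ∀ s ∈ S, s * (d : G) = d * s := by
    intro d hd s hs
    have h1 := Subgroup.mem_center_iff.1 (hcen hd) ⟨s, hs⟩
    exact congrArg Subtype.val h1
  have hcQ' : ∀ d ∈ commutator S, (d : G) ∈ Q := by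
    intro d hd
    apply hcQ
    rw [mem_cS]
    exact ⟨d.2, fun x hx => hcen' d hd x (hQS hx)⟩
  have hcomm : ∀ s (hs : s ∈ S) x (hx : x ∈ S),
      (⟨s * x * s⁻¹ * x⁻¹, mul_mem (mul_mem (mul_mem hs hx) (inv_mem hs)) (inv_mem hx)⟩ : S) ∈
        commutator S := by
    intro s hs x hx
    exact Subgroup.commutator_mem_commutator (Subgroup.mem_top (⟨s, hs⟩ : S))
      (Subgroup.mem_top (⟨x, hx⟩ : S))
  have hnorm : ∀ s ∈ S, ∀ x ∈ Q, s * x * s⁻¹ ∈ Q := by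
    intro s hs x hx
    have h1 := mul_mem (hcQ' _ (hcomm s hs x (hQS hx))) hx
    have h2 : s * x * s⁻¹ * x⁻¹ * x = s * x * s⁻¹ := by group
    have h3 : s * x * s⁻¹ * x⁻¹ * x ∈ Q := h1
    rwa [h2] at h3
  have hnS : nS S Q = S := by
    apply le_antisymm inf_le_left
    intro s hs
    show s ∈ nS S Q
    rw [mem_nS]
    refine ⟨hs, fun x => ⟨hnorm s hs x, fun hx => ?_⟩⟩
    have h1 := hnorm s⁻¹ (inv_mem hs) _ hx
    have h2 : s⁻¹ * (s * x * s⁻¹) * s⁻¹⁻¹ = x := by group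
    rwa [h2] at h1
  -- `D = S'` as a subgroup of `Q`
  obtain ⟨D, hDmem⟩ : ∃ D : Subgroup Q, ∀ d : Q, d ∈ D ↔ ∃ e ∈ commutator S, (e : G) = d := by
    refine ⟨((commutator S).map S.subtype).subgroupOf Q, fun d => ?_⟩
    rw [Subgroup.mem_subgroupOf]
    constructor
    · rintro ⟨e, he, h⟩
      exact ⟨e, he, h⟩
    · rintro ⟨e, he, h⟩
      exact ⟨e, he, h⟩
  have hDcard : Nat.card D = p := by
    rw [← hc]
    refine Nat.card_congr (Equiv.ofBijective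
      (fun d : D => (⟨⟨((d : Q) : G), hQS (d : Q).2⟩, ?_⟩ : commutator S)) ⟨?_, ?_⟩)
    · obtain ⟨e, he, h⟩ := (hDmem d).1 d.2
      have h1 : (⟨((d : Q) : G), hQS (d : Q).2⟩ : S) = e := Subtype.ext h.symm
      rw [h1]
      exact he
    · intro d d' hdd
      have h1 : (((d : Q) : G)) = ((d' : Q) : G) :=
        congrArg (fun z : commutator S => ((z : S) : G)) hdd
      exact Subtype.ext (Subtype.ext h1)
    · intro e
      refine ⟨⟨⟨((e : S) : G), hcQ' e e.2⟩, (hDmem _).2 ⟨e, e.2, rfl⟩⟩, ?_⟩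
      exact Subtype.ext (Subtype.ext rfl)
  have hTD : ∀ t ∈ autS S Q, ∀ q : Q, t q * q⁻¹ ∈ D := by
    rintro t ⟨s, hs, h⟩ q
    refine (hDmem _).2 ⟨_, hcomm s hs q (hQS q.2), ?_⟩
    show s * q * s⁻¹ * (q : G)⁻¹ = (t q : G) * (q : G)⁻¹
    rw [h]
  have hTf : ∀ t ∈ autS S Q, ∀ d ∈ D, t d = d := by
    rintro t ⟨s, hs, h⟩ d hd
    obtain ⟨e, he, hed⟩ := (hDmem d).1 hd
    apply Subtype.ext
    rw [h, ← hed, hcen' e he s hs]
    group
  have hTA : autS S Q ≤ F.aut Q := autS_le_aut F hQS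
  have hnr := hQ.not_le_range hF
  -- `Q` is abelian
  have hab : ∀ x ∈ Q, ∀ y ∈ Q, x * y = y * x := by
    by_contra hcon
    push Not at hcon
    obtain ⟨x, hx, y, hy, hxy⟩ := hcon
    have hcD : ∀ u v : Q, u * v * u⁻¹ * v⁻¹ ∈ D := by
      intro u v
      exact (hDmem _).2 ⟨_, hcomm u (hQS u.2) v (hQS v.2), rfl⟩
    have hne : (⟨x, hx⟩ : Q) * ⟨y, hy⟩ * (⟨x, hx⟩ : Q)⁻¹ * (⟨y, hy⟩ : Q)⁻¹ ≠ 1 := by
      intro h
      apply hxy
      have h1 := congrArg (Subtype.val) h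
      have h2 : x * y * x⁻¹ * y⁻¹ = 1 := h1
      rw [mul_inv_eq_one, mul_inv_eq_iff_eq_mul] at h2
      exact h2
    have hinv : ∀ a ∈ F.aut Q, ∀ d ∈ D, a d ∈ D := by
      intro a _ d hd
      obtain ⟨n, rfl⟩ := der_zpow hDcard (hcD _ _) hne hd
      rw [map_zpow, map_mul, map_mul, map_mul, map_inv, map_inv]
      exact zpow_mem (hcD _ _) n
    obtain ⟨W, hW1, hW2, hW3⟩ := der_U (F.aut Q) D hDcard hinv
    apply hnr
    intro t ht
    have h1 : (⟨t, hTA ht⟩ : F.aut Q) ∈ W := (hW3 _).2 ⟨hTD t ht, hTf t ht⟩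
    exact Subgroup.mem_subgroupOf.1 (hQ.le_inn W hW2 h1)
  refine ⟨hab, ?_⟩
  have hab' : ∀ x y : Q, x * y = y * x := fun x y => Subtype.ext (hab x x.2 y y.2)
  have hrange : ∀ φ ∈ (MulAut.conj (G := Q)).range, φ = 1 := by
    rintro φ ⟨y, rfl⟩
    ext x
    rw [MulAut.conj_apply, hab' y x, mul_inv_cancel_right]
    rfl
  have hcore : ∀ W : Subgroup (F.aut Q), W.Normal → IsPGroup p W → W = ⊥ := by
    intro W hW1 hW2
    rw [Subgroup.eq_bot_iff_forall]
    intro w hw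
    exact Subtype.ext (hrange _ (Subgroup.mem_subgroupOf.1 (hQ.le_inn W hW2 hw)))
  have hT1 : autS S Q ≠ ⊥ := by
    intro h
    apply hnr
    rw [h]
    exact bot_le
  have hcardT : Nat.card (autS S Q) = p :=
    der_card hab' (F.aut Q) (autS S Q) hTA (autS_isPGroup hS Q) (hF.sylow Q hQS hQ.2.1).2 D
      hDcard hTD hTf hcore hT1
  -- the conjugation action of `S` on `Q`
  let Φ : S →* MulAut Q := MonoidHom.mk' (fun s =>
    { toFun := fun x => ⟨s * x * (s : G)⁻¹, hnorm s s.2 x x.2⟩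
      invFun := fun x => ⟨(s : G)⁻¹ * x * s, by
        have := hnorm (s : G)⁻¹ (inv_mem s.2) x x.2
        rwa [inv_inv] at this⟩
      left_inv := fun x => Subtype.ext (by
        show (s : G)⁻¹ * (s * x * (s : G)⁻¹) * s = x
        group)
      right_inv := fun x => Subtype.ext (by
        show (s : G) * ((s : G)⁻¹ * x * s) * (s : G)⁻¹ = x
        group)
      map_mul' := fun x y => Subtype.ext (by
        show (s : G) * (x * y) * (s : G)⁻¹ = s * x * (s : G)⁻¹ * (s * y * (s : G)⁻¹)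
        group) }) (by
    intro s t
    ext x
    show ((s : G) * t) * x * ((s : G) * t)⁻¹ = s * (t * x * (t : G)⁻¹) * (s : G)⁻¹
    group)
  have hΦ : ∀ (s : S) (x : Q), (Φ s x : G) = s * x * (s : G)⁻¹ := fun s x => rfl
  have hΦr : Φ.range = autS S Q := by
    apply le_antisymm
    · rintro _ ⟨s, rfl⟩
      exact ⟨s, s.2, fun x => rfl⟩
    · rintro φ ⟨s, hs, h⟩
      refine ⟨⟨s, hs⟩, ?_⟩
      ext x
      rw [hΦ, h]
  have hΦk : Φ.ker = Q.subgroupOf S := by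
    ext s
    rw [MonoidHom.mem_ker, Subgroup.mem_subgroupOf]
    constructor
    · intro h
      apply hcQ
      rw [mem_cS]
      refine ⟨s.2, fun x hx => ?_⟩
      have h1 : (Φ s ⟨x, hx⟩ : G) = x := by rw [h]; rfl
      rw [hΦ] at h1
      rw [mul_inv_eq_iff_eq_mul] at h1
      exact h1.symm
    · intro h
      ext x
      rw [hΦ, hab s h x x.2, mul_inv_cancel_right]
      rfl
  have hindex : (Q.subgroupOf S).index = p := by
    rw [← hΦk, Subgroup.index_ker, hΦr, hcardT]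
  obtain ⟨φ, hφ, hφ1⟩ : ∃ φ ∈ autS S Q, φ ≠ 1 := by
    by_contra hcon
    push Not at hcon
    exact hT1 ((Subgroup.eq_bot_iff_forall _).2 hcon)
  rw [← hΦr] at hφ
  obtain ⟨t, rfl⟩ := hφ
  have hgen : ∀ s : S, ∃ n : ℤ, Φ t ^ n = Φ s := by
    intro s
    have h1 : Nat.card Φ.range = p := by rw [hΦr, hcardT]
    exact der_zpow h1 ⟨t, rfl⟩ hφ1 ⟨s, rfl⟩
  -- the commutator map
  have hψm : ∀ x y : Q.subgroupOf S, (t * (x * y : S) * t⁻¹ * (x * y : S)⁻¹ : S) =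
      (t * x * t⁻¹ * (x : S)⁻¹) * (t * y * t⁻¹ * (y : S)⁻¹) := by
    intro x y
    have h1 : (t * y * t⁻¹ * (y : S)⁻¹ : S) ∈ commutator S :=
      Subgroup.commutator_mem_commutator (Subgroup.mem_top _) (Subgroup.mem_top _)
    have h2 := Subgroup.mem_center_iff.1 (hcen h1) (x : S)
    calc (t * (x * y : S) * t⁻¹ * (x * y : S)⁻¹ : S)
        = (t * x * t⁻¹ * (x : S)⁻¹) * ((x : S) * (t * y * t⁻¹ * (y : S)⁻¹)) * (x : S)⁻¹ := by
          group
      _ = (t * x * t⁻¹ * (x : S)⁻¹) * ((t * y * t⁻¹ * (y : S)⁻¹) * (x : S)) * (x : S)⁻¹ := by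
          rw [h2]
      _ = _ := by group
  let ψ : Q.subgroupOf S →* S := MonoidHom.mk' (fun x => t * x * t⁻¹ * (x : S)⁻¹) (fun x y => by
    rw [← hψm]
    rfl)
  have hψ : ∀ x, ψ x = t * x * t⁻¹ * (x : S)⁻¹ := fun x => rfl
  have hψk : ψ.ker = (Subgroup.center S).subgroupOf (Q.subgroupOf S) := by
    ext x
    rw [MonoidHom.mem_ker, Subgroup.mem_subgroupOf, hψ]
    constructor
    · intro h
      rw [mul_inv_eq_one] at h
      have hxQ : ((x : S) : G) ∈ Q := Subgroup.mem_subgroupOf.1 x.2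
      have h1 : Φ t ⟨(x : S), hxQ⟩ = ⟨(x : S), hxQ⟩ := by
        apply Subtype.ext
        rw [hΦ]
        exact congrArg Subtype.val h
      have h2 : ∀ n : ℤ, (Φ t ^ n) ⟨(x : S), hxQ⟩ = ⟨(x : S), hxQ⟩ := by
        have h3 : Φ t ∈ MulAction.stabilizer (MulAut Q) (⟨(x : S), hxQ⟩ : Q) := h1
        intro n
        exact zpow_mem h3 n
      rw [Subgroup.mem_center_iff]
      intro s
      obtain ⟨n, hn⟩ := hgen s
      have h4 := h2 n
      rw [hn] at h4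
      have h5 : (s : G) * (x : S) * (s : G)⁻¹ = (x : S) := by
        rw [← hΦ s ⟨(x : S), hxQ⟩]
        exact congrArg Subtype.val h4
      rw [mul_inv_eq_iff_eq_mul] at h5
      exact Subtype.ext h5
    · intro h
      have h1 := Subgroup.mem_center_iff.1 h t
      rw [h1, mul_inv_cancel_right, mul_inv_cancel]
  have hψr : Nat.card ψ.range = p := by
    have h1 : ψ.range ≤ commutator S := by
      rintro _ ⟨x, rfl⟩
      exact Subgroup.commutator_mem_commutator (Subgroup.mem_top _) (Subgroup.mem_top _)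
    have h2 : Nat.card ψ.range ∣ p := by
      rw [← hc]
      exact Subgroup.card_dvd_of_le h1
    rcases (Nat.dvd_prime hp).1 h2 with h | h
    · exfalso
      apply hφ1
      have h3 := Subgroup.card_eq_one.1 h
      ext x
      have h4 : ψ ⟨⟨x, hQS x.2⟩, Subgroup.mem_subgroupOf.2 x.2⟩ ∈ ψ.range := ⟨_, rfl⟩
      rw [h3, Subgroup.mem_bot, hψ, mul_inv_eq_one] at h4
      rw [hΦ]
      exact congrArg Subtype.val h4
    · exact h
  have hle : Subgroup.center S ≤ Q.subgroupOf S := by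
    intro x hx
    rw [Subgroup.mem_subgroupOf]
    apply hcQ
    rw [mem_cS]
    refine ⟨x.2, fun y hy => ?_⟩
    exact congrArg Subtype.val (Subgroup.mem_center_iff.1 hx ⟨y, hQS hy⟩)
  have hrel : (Subgroup.center S).relIndex (Q.subgroupOf S) = p := by
    show ((Subgroup.center S).subgroupOf (Q.subgroupOf S)).index = p
    rw [← hψk, Subgroup.index_ker, hψr]
  rw [hnS, ← Subgroup.relIndex_mul_index hle, hrel, hindex, sq]

end MNF
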