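import Pool.Agent.W_0649d4.CBasic

/-! Consequences of a strongly `p`-embedded subgroup (helper45). -/

namespace MNF

/-- A finite group with a strongly `p`-embedded subgroup has no nontrivial normal `p`-subgroup. -/
theorem emb_core {K : Type*} [Group K] [Finite K] {p : ℕ} [Fact p.Prime] (M : Subgroup K)
    (hM : M ≠ ⊤) (hp : p ∣ Nat.card M)
    (h : ∀ g : K, g ∉ M → ¬ p ∣ Nat.card ↥(M ⊓ M.map (MulAut.conj g).toMonoidHom))
    (N : Subgroup K) [N.Normal] (hN : IsPGroup p N) : N = ⊥ := by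
  obtain ⟨x, hx⟩ := exists_prime_orderOf_dvd_card' (G := M) p hp
  have hxp : IsPGroup p (Subgroup.zpowers (x : K)) := by
    apply IsPGroup.of_card (n := 1)
    rw [Nat.card_zpowers, Subgroup.orderOf_coe, hx, pow_one]
  have key : ∀ (R : Subgroup K), IsPGroup p R → (x : K) ∈ R → R ≤ M := by
    intro R hR hxR
    by_contra hRM
    have hnil : Group.IsNilpotent R := hR.isNilpotent
    have h1 : (M.subgroupOf R) < ⊤ := by
      rw [lt_top_iff_ne_top, Ne, Subgroup.subgroupOf_eq_top]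
      exact hRM
    have h2 := Group.normalizerCondition_of_isNilpotent (G := R) _ h1
    obtain ⟨r, hr1, hr2⟩ := Set.exists_of_ssubset h2
    have hrM : (r : K) ∉ M := fun hrM => hr2 (Subgroup.mem_subgroupOf.2 hrM)
    apply h r hrM
    have hr1' : r⁻¹ ∈ Subgroup.normalizer ((M.subgroupOf R : Subgroup R) : Set R) :=
      inv_mem hr1
    rw [Subgroup.mem_normalizer_iff] at hr1'
    have h3 := (hr1' ⟨x, hxR⟩).1 (Subgroup.mem_subgroupOf.2 x.2)
    rw [Subgroup.mem_subgroupOf] at h3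
    have hmem : (x : K) ∈ M ⊓ M.map (MulAut.conj (r : K)).toMonoidHom := by
      refine ⟨x.2, (r : K)⁻¹ * x * r, ?_, ?_⟩
      · simpa using h3
      · show (r : K) * ((r : K)⁻¹ * x * r) * (r : K)⁻¹ = x
        group
    have h4 : orderOf (x : K) ∣ Nat.card ↥(M ⊓ M.map (MulAut.conj (r : K)).toMonoidHom) :=
      Subgroup.orderOf_dvd_natCard _ hmem
    rw [Subgroup.orderOf_coe, hx] at h4
    exact h4
  have hNM : N ≤ M := by
    have h1 := key (N ⊔ Subgroup.zpowers (x : K)) (hN.to_sup_of_normal_left hxp)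
      (Subgroup.mem_sup_right (Subgroup.mem_zpowers _))
    exact le_sup_left.trans h1
  obtain ⟨g, hg⟩ : ∃ g, g ∉ M := by
    by_contra hcon
    push Not at hcon
    exact hM ((Subgroup.eq_top_iff' M).2 hcon)
  by_contra hne
  apply h g hg
  have h5 : N ≤ M ⊓ M.map (MulAut.conj g).toMonoidHom := by
    intro n hn
    refine ⟨hNM hn, g⁻¹ * n * g, hNM ?_, ?_⟩
    · have := (inferInstance : N.Normal).conj_mem n hn g⁻¹
      simpa using this
    · show g * (g⁻¹ * n * g) * g⁻¹ = n
      group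
  refine dvd_trans ?_ (Subgroup.card_dvd_of_le h5)
  rcases hN.card_eq_or_dvd with h6 | h6
  · exact absurd (Subgroup.card_eq_one.1 h6) hne
  · exact h6

open scoped Pointwise in
/-- Conjugates of `p`-subgroups are contained in a given Sylow subgroup. -/
theorem emb_sylow {M : Type*} [Group M] [Finite M] (p : ℕ) [Fact p.Prime] (T : Subgroup M)
    (hT : IsPGroup p T) (hi : ¬ p ∣ T.index) (B : Subgroup M) (hB : IsPGroup p B) :
    ∃ a : M, ∀ b ∈ B, a * b * a⁻¹ ∈ T := by
  obtain ⟨Q, hQ⟩ := hB.exists_le_sylow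
  obtain ⟨g, hg⟩ := MulAction.exists_smul_eq M Q (hT.toSylow hi)
  refine ⟨g, fun b hb => ?_⟩
  have h1 : g * b * g⁻¹ ∈ (g • Q : Sylow p M) := by
    have h2 : (MulAut.conj g) • b ∈ (MulAut.conj g) • (Q : Subgroup M) :=
      Subgroup.smul_mem_pointwise_smul b (MulAut.conj g) (Q : Subgroup M) (hQ hb)
    exact h2
  rw [hg] at h1
  exact h1

variable {G : Type*} [Group G] [Finite G] {S : Subgroup G} {F : FusionSystem S}

/-- A normal `p`-subgroup of `Aut_F(Q)`, `Q` essential, consists of inner automorphisms. -/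
theorem FusionSystem.Essential.le_inn {p : ℕ} [Fact p.Prime] {Q : Subgroup G}
    (hQ : F.Essential p Q) (W : Subgroup (F.aut Q)) [W.Normal] (hW : IsPGroup p W) :
    W ≤ F.inn Q := by
  obtain ⟨-, -, M, hM1, hM2, hM3⟩ := hQ
  have hn : (W.map (QuotientGroup.mk' (F.inn Q))).Normal :=
    Subgroup.Normal.map inferInstance _ (QuotientGroup.mk'_surjective _)
  have h1 := emb_core M hM1 hM2 hM3 (W.map (QuotientGroup.mk' (F.inn Q))) (hW.map _)
  rw [Subgroup.map_eq_bot_iff, QuotientGroup.ker_mk'] at h1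
  exact h1

omit [Finite G] in
/-- If `Q` is essential then `Aut_S(Q)` does not consist of inner automorphisms. -/
theorem FusionSystem.Essential.not_le_range {p : ℕ} [Fact p.Prime] {Q : Subgroup G}
    (hQ : F.Essential p Q) (hF : F.Saturated p) :
    ¬ autS S Q ≤ (MulAut.conj (G := Q)).range := by
  obtain ⟨hc, hf, M, hM1, hM2, hM3⟩ := hQ
  intro hle
  have h1 : autS S Q = (MulAut.conj (G := Q)).range := by
    refine le_antisymm hle ?_
    rintro _ ⟨y, rfl⟩
    exact conj_mem_autS hc.1 y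
  apply (hF.sylow Q hc.1 hf).2
  rw [h1]
  have h2 : Nat.card M ∣ Nat.card (F.Out Q) := Subgroup.card_subgroup_dvd_card M
  exact hM2.trans h2

omit [Finite G] in
/-- `Aut_S(Q)` is a `p`-group. -/
theorem autS_isPGroup {p : ℕ} (hS : IsPGroup p S) (Q : Subgroup G) : IsPGroup p (autS S Q) := by
  rintro ⟨φ, s, hs, h⟩
  obtain ⟨k, hk⟩ := hS ⟨s, hs⟩
  refine ⟨k, Subtype.ext ?_⟩
  have h1 : s ^ p ^ k = 1 := congrArg Subtype.val hk
  have h2 : ∀ (n : ℕ) (x : Q), ((φ ^ n : MulAut Q) x : G) = s ^ n * x * (s ^ n)⁻¹ := by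
    intro n
    induction n with
    | zero => intro x; simp
    | succ n ih =>
      intro x
      rw [pow_succ, MulAut.mul_apply, ih, h, pow_succ]
      group
  show φ ^ p ^ k = 1
  ext x
  rw [h2, h1]
  simp

omit [Finite G] in
/-- An essential subgroup is a proper subgroup of `S`. -/
theorem FusionSystem.Essential.ne_top {p : ℕ} [Fact p.Prime] {Q : Subgroup G}
    (hQ : F.Essential p Q) (hF : F.Saturated p) : Q ≠ S := by
  rintro rfl
  apply hQ.not_le_range hF
  rintro φ ⟨s, hs, h⟩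
  refine ⟨⟨s, hs⟩, ?_⟩
  ext x
  rw [h]
  rfl

end MNF
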