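import Pool.Agent.W_0649d4.CAlperin
import Pool.Agent.W_0649d4.CCentral
import Pool.Agent.W_0649d4.COut

/-! TASK CExt. Extension to `S` of isomorphisms from centric non-essential subgroups. -/

namespace MNF

variable {G : Type*} [Group G] [Finite G] {S : Subgroup G} (F : FusionSystem S)

/-- The working hypothesis on the essential subgroups: no centric subgroup is properly contained
in an essential one. -/
def NoCentricBelow (F : FusionSystem S) (p : ℕ) : Prop :=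
  ∀ Q, F.Essential p Q → ∀ R, F.Centric R → R ≤ Q → R = Q

/-- The induction on `Gen`. -/
private theorem CExt_gen (p : ℕ) (hE : NoCentricBelow F p) {P Q : Subgroup G} (φ : P ≃* Q)
    (hφ : Gen F p φ) : ∀ (hP : F.Centric P) (_hPE : ¬ F.Essential p P),
    ∃ ψ : S ≃* S, ψ ∈ F.iso S S ∧ (∀ x : P, (φ x : G) = ψ ⟨x, hP.1 x.2⟩) ∧
      F.Centric Q ∧ ¬ F.Essential p Q := by
  induction hφ with
  | @base P Q φ R hPR ψ hψ hR h =>
    intro hP hPE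
    rcases hR with hR | hR
    · subst hR
      have hφ : φ ∈ F.iso P Q := F.res_mem φ hPR hψ h
      refine ⟨ψ, hψ, h, hP.conj ⟨φ, hφ⟩, fun hQ => hPE ?_⟩
      refine essential_image F p hQ (F.symm_mem hψ) φ.symm (fun x => ?_)
      have h1 := h (φ.symm x)
      rw [MulEquiv.apply_symm_apply] at h1
      have h2 : ψ ⟨(φ.symm x : P), hPR (φ.symm x).2⟩ = ⟨(x : G), hQ.1.1 x.2⟩ :=
        Subtype.ext h1.symm
      have h3 := congrArg ψ.symm h2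
      rw [MulEquiv.symm_apply_apply] at h3
      exact congrArg Subtype.val h3
    · exact absurd (hE R hR P hP hPR ▸ hR) hPE
  | @trans P Q R φ χ _ _ ih1 ih2 =>
    intro hP hPE
    obtain ⟨ψ1, hψ1, h1, hQ, hQE⟩ := ih1 hP hPE
    obtain ⟨ψ2, hψ2, h2, hR, hRE⟩ := ih2 hQ hQE
    refine ⟨ψ1.trans ψ2, F.trans_mem hψ1 hψ2, fun x => ?_, hR, hRE⟩
    show (χ (φ x) : G) = ψ2 (ψ1 ⟨x, hP.1 x.2⟩)
    rw [h2 (φ x)]
    have h3 : (⟨(φ x : Q), hQ.1 (φ x).2⟩ : S) = ψ1 ⟨x, hP.1 x.2⟩ := Subtype.ext (h1 x)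
    rw [h3]

/-- Induction on `Gen`, with the statement: `φ : P ≃ Q`, `P` centric and not essential implies that
`φ` is the restriction of an element of `iso S S`, and `Q` is not essential. -/
theorem ext_of_not_essential (p : ℕ) [Fact p.Prime] (hS : IsPGroup p S) (hF : F.Saturated p)
    (hE : NoCentricBelow F p) {P Q : Subgroup G} (φ : P ≃* Q) (hφ : φ ∈ F.iso P Q)
    (hP : F.Centric P) (hPE : ¬ F.Essential p P) :
    ∃ ψ : S ≃* S, ψ ∈ F.iso S S ∧ ∀ x : P, (φ x : G) = ψ ⟨x, hP.1 x.2⟩ := by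
  obtain ⟨ψ, hψ, h, _⟩ := CExt_gen F p hE φ (alperin F p hS hF φ hφ) hP hPE
  exact ⟨ψ, hψ, h⟩

/-- Elements of a class of fully centralized elements are `Aut_F(S)`-conjugate, provided their
centralizers are not essential. -/
theorem aConj_of_conjEl (p : ℕ) [Fact p.Prime] (hS : IsPGroup p S) (hF : F.Saturated p)
    (hE : NoCentricBelow F p) (x y : S)
    (hx : F.FullyCentralized (Subgroup.zpowers (x : G)))
    (hy : F.FullyCentralized (Subgroup.zpowers (y : G)))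
    (hyE : ¬ F.Essential p (cS S (Subgroup.zpowers (y : G))))
    (hyx : F.ConjEl (y : G) (x : G)) : AConj F y x := by
  have hyy : (y : G) ∈ cS S (Subgroup.zpowers (y : G)) := mem_cS_zpowers.mpr ⟨y.2, rfl⟩
  obtain ⟨R, φ, hφ, h1, _⟩ := exists_iso_cS F hF x y hx hyx hyy
  obtain ⟨ψ, hψ, h2⟩ := ext_of_not_essential F p hS hF hE φ hφ (centric_cS F y hy) hyE
  refine ⟨⟨ψ, Or.inr hψ⟩, ?_⟩
  apply Subtype.ext
  show (ψ y : G) = x
  have h3 := h2 ⟨y, hyy⟩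
  rw [h1] at h3
  exact h3.symm

/-- If `Q` is centric and not essential, then `Aut_S(Q)` is normal in `Aut_F(Q)`. -/
theorem autS_normal (p : ℕ) [Fact p.Prime] (hS : IsPGroup p S) (hF : F.Saturated p)
    (hE : NoCentricBelow F p) {Q : Subgroup G} (hQ : F.Centric Q) (hQE : ¬ F.Essential p Q) :
    ∀ a ∈ F.aut Q, ∀ t ∈ autS S Q, a * t * a⁻¹ ∈ autS S Q := by
  rintro a ha t ⟨s, hs, ht⟩
  have ha' : a ∈ F.iso Q Q := (F.mem_aut hQ.1 a).mp ha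
  obtain ⟨ψ, hψ, h⟩ := ext_of_not_essential F p hS hF hE a ha' hQ hQE
  refine ⟨(ψ ⟨s, hs⟩ : G), (ψ ⟨s, hs⟩).2, fun x => ?_⟩
  show (a (t (a⁻¹ x)) : G) = _
  rw [h (t (a⁻¹ x))]
  have h1 : (⟨(t (a⁻¹ x) : Q), hQ.1 (t (a⁻¹ x)).2⟩ : S) =
      ⟨s, hs⟩ * ⟨(a⁻¹ x : Q), hQ.1 (a⁻¹ x).2⟩ * (⟨s, hs⟩)⁻¹ := Subtype.ext (ht (a⁻¹ x))
  rw [h1, map_mul, map_mul, map_inv]
  have h2 : (ψ ⟨(a⁻¹ x : Q), hQ.1 (a⁻¹ x).2⟩ : G) = x := by
    rw [← h (a⁻¹ x)]
    have h3 : a (a⁻¹ x) = x := MulAut.apply_inv_self Q a x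
    exact congrArg Subtype.val h3
  show (ψ ⟨s, hs⟩ : G) * ψ ⟨(a⁻¹ x : Q), hQ.1 (a⁻¹ x).2⟩ * (ψ ⟨s, hs⟩ : G)⁻¹ = _
  rw [h2]

end MNF
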