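import Pool.Agent.W_0649d4.SLGen

/-! Transvections of finite abelian groups (used in CTypeAP; blueprint, section TRV). -/

namespace MNF

namespace Trv

variable {Q : Type*} [Group Q] {p : ℕ} [Fact p.Prime]

/-! ### powers with exponents in `ZMod p` -/

theorem pw_natCast {e : Q} (he : e ^ p = 1) (n : ℕ) : e ^ ((n : ZMod p)).val = e ^ n := by
  rw [ZMod.val_natCast]
  exact (pow_eq_pow_mod n he).symm

theorem pw_add {e : Q} (he : e ^ p = 1) (a b : ZMod p) :
    e ^ (a + b).val = e ^ a.val * e ^ b.val := by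
  rw [ZMod.val_add, ← pow_add]
  exact (pow_eq_pow_mod _ he).symm

theorem pw_mul {e : Q} (he : e ^ p = 1) (a b : ZMod p) :
    (e ^ a.val) ^ b.val = e ^ (a * b).val := by
  rw [ZMod.val_mul, ← pow_mul]
  exact pow_eq_pow_mod _ he

omit [Fact p.Prime] in
theorem pw_pow {e : Q} (he : e ^ p = 1) (k : ℕ) : (e ^ k) ^ p = 1 := by
  rw [← pow_mul, mul_comm, pow_mul, he, one_pow]

/-! ### transvections -/

/-- `t q = q * e ^ (f q)`, with `e ^ p = 1`, `f : Q → F_p` a homomorphism, `f e = 0`, `t ≠ 1`. -/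
structure Tv (p : ℕ) [Fact p.Prime] (t : MulAut Q) (e : Q) (f : Q → ZMod p) : Prop where
  he : e ^ p = 1
  hf : ∀ x y, f (x * y) = f x + f y
  h : ∀ q, t q = q * e ^ (f q).val
  h0 : f e = 0
  hne : t ≠ 1

theorem Tv.f_one {t : MulAut Q} {e : Q} {f : Q → ZMod p} (h : Tv p t e f) : f 1 = 0 := by
  have h1 := h.hf 1 1
  rw [mul_one] at h1
  exact left_eq_add.1 h1

theorem Tv.f_pow {t : MulAut Q} {e : Q} {f : Q → ZMod p} (h : Tv p t e f) (x : Q) (n : ℕ) :
    f (x ^ n) = n * f x := by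
  induction n with
  | zero => rw [pow_zero, h.f_one, Nat.cast_zero, zero_mul]
  | succ n ih =>
    rw [pow_succ, h.hf, ih]
    push_cast
    ring

theorem Tv.fix {t : MulAut Q} {e : Q} {f : Q → ZMod p} (h : Tv p t e f) : t e = e := by
  rw [h.h, h.h0, ZMod.val_zero, pow_zero, mul_one]

theorem Tv.pow_apply {t : MulAut Q} {e : Q} {f : Q → ZMod p} (h : Tv p t e f) (n : ℕ) (q : Q) :
    (t ^ n) q = q * (e ^ (f q).val) ^ n := by
  induction n with
  | zero => rw [pow_zero, pow_zero, mul_one]; rfl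
  | succ n ih =>
    rw [pow_succ', MulAut.mul_apply, ih, map_mul, map_pow, map_pow, h.fix, h.h q, mul_assoc,
      ← pow_succ']

theorem Tv.pow_p {t : MulAut Q} {e : Q} {f : Q → ZMod p} (h : Tv p t e f) : t ^ p = 1 := by
  ext q
  rw [h.pow_apply, pw_pow h.he, mul_one]
  rfl

theorem Tv.orderOf {t : MulAut Q} {e : Q} {f : Q → ZMod p} (h : Tv p t e f) :
    orderOf t = p := orderOf_eq_prime h.pow_p h.hne

/-- conjugates of transvections -/
theorem Tv.conj {t : MulAut Q} {e : Q} {f : Q → ZMod p} (h : Tv p t e f) (g : MulAut Q) :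
    Tv p (g * t * g⁻¹) (g e) (fun q => f (g⁻¹ q)) := by
  refine ⟨?_, ?_, ?_, ?_, ?_⟩
  · rw [← map_pow, h.he, map_one]
  · intro x y
    rw [map_mul, h.hf]
  · intro q
    rw [MulAut.mul_apply, MulAut.mul_apply, h.h, map_mul, map_pow, MulAut.apply_inv_self]
  · show f (g⁻¹ (g e)) = 0
    rw [MulAut.inv_apply_self]
    exact h.h0
  · intro h1
    apply h.hne
    have h2 : t = g⁻¹ * (g * t * g⁻¹) * g := by group
    rw [h2, h1]
    group

/-! ### the stability group of a chain -/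

/-- The automorphisms which act trivially on `W1`, `W2 / W1` and `Q / W2`. -/
def stab (W1 W2 : Subgroup Q) (hW : W1 ≤ W2) : Subgroup (MulAut Q) where
  carrier := {a | (∀ q, a q * q⁻¹ ∈ W2) ∧ (∀ x ∈ W2, a x * x⁻¹ ∈ W1) ∧ ∀ x ∈ W1, a x = x}
  one_mem' := by
    refine ⟨fun q => ?_, fun x _ => ?_, fun x _ => rfl⟩
    · rw [MulAut.one_apply, mul_inv_cancel]; exact W2.one_mem
    · rw [MulAut.one_apply, mul_inv_cancel]; exact W1.one_mem
  mul_mem' := by
    rintro a b ⟨ha1, ha2, ha3⟩ ⟨hb1, hb2, hb3⟩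
    refine ⟨fun q => ?_, fun x hx => ?_, fun x hx => ?_⟩
    · have e : (a * b) q * q⁻¹ = (a (b q) * (b q)⁻¹) * (b q * q⁻¹) := by
        rw [MulAut.mul_apply]; group
      rw [e]
      exact W2.mul_mem (ha1 _) (hb1 _)
    · have e : (a * b) x * x⁻¹ = (a (b x) * (b x)⁻¹) * (b x * x⁻¹) := by
        rw [MulAut.mul_apply]; group
      rw [e]
      have h1 : b x ∈ W2 := by
        have e2 : b x = (b x * x⁻¹) * x := by group
        rw [e2]
        exact W2.mul_mem (hW (hb2 x hx)) hx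
      exact W1.mul_mem (ha2 _ h1) (hb2 x hx)
    · rw [MulAut.mul_apply, hb3 x hx, ha3 x hx]
  inv_mem' := by
    rintro a ⟨ha1, ha2, ha3⟩
    have h3 : ∀ x ∈ W1, a⁻¹ x = x := by
      intro x hx
      have h4 := congrArg (fun y => a⁻¹ y) (ha3 x hx)
      simp only [MulAut.inv_apply_self] at h4
      exact h4.symm
    have h2 : ∀ x ∈ W2, a⁻¹ x * x⁻¹ ∈ W1 := by
      intro x hx
      have hd := ha2 x hx
      have e : a x = (a x * x⁻¹) * x := by group
      have h4 := congrArg (fun y => a⁻¹ y) e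
      simp only [MulAut.inv_apply_self] at h4
      rw [map_mul, h3 _ hd] at h4
      have e2 : a⁻¹ x * x⁻¹ = (a x * x⁻¹)⁻¹ := by
        rw [eq_inv_iff_mul_eq_one]
        have h5 : a⁻¹ x = (a x * x⁻¹)⁻¹ * x := by
          rw [eq_inv_mul_iff_mul_eq]
          exact h4.symm
        rw [h5]
        group
      rw [e2]
      exact W1.inv_mem hd
    refine ⟨fun q => ?_, h2, h3⟩
    have hd := ha1 q
    have e : a q = (a q * q⁻¹) * q := by group
    have h4 := congrArg (fun y => a⁻¹ y) e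
    simp only [MulAut.inv_apply_self] at h4
    rw [map_mul] at h4
    have h5 : a⁻¹ q = (a⁻¹ (a q * q⁻¹))⁻¹ * q := by
      rw [eq_inv_mul_iff_mul_eq]
      exact h4.symm
    have h6 : a⁻¹ (a q * q⁻¹) ∈ W2 := by
      have e2 : a⁻¹ (a q * q⁻¹) = (a⁻¹ (a q * q⁻¹) * (a q * q⁻¹)⁻¹) * (a q * q⁻¹) := by group
      rw [e2]
      exact W2.mul_mem (hW (h2 _ hd)) hd
    rw [h5, mul_inv_cancel_right]
    exact W2.inv_mem h6

theorem pow_aux (a : MulAut Q) (x : Q) (hx : a (a x * x⁻¹) = a x * x⁻¹) (n : ℕ) :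
    (a ^ n) x = (a x * x⁻¹) ^ n * x := by
  induction n with
  | zero => rw [pow_zero, pow_zero, one_mul]; rfl
  | succ n ih =>
    rw [pow_succ', MulAut.mul_apply, ih, map_mul, map_pow, hx, pow_succ]
    group

theorem stab_pow [Finite Q] {W1 W2 : Subgroup Q} {hW : W1 ≤ W2} {a : MulAut Q}
    (ha : a ∈ stab W1 W2 hW) : a ^ (Nat.card Q * Nat.card Q) = 1 := by
  have hb : a ^ Nat.card Q ∈ stab W1 W2 hW := Subgroup.pow_mem _ ha _
  have hfix : ∀ x ∈ W2, (a ^ Nat.card Q) x = x := by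
    intro x hx
    rw [pow_aux a x (ha.2.2 _ (ha.2.1 x hx)), pow_card_eq_one', one_mul]
  rw [pow_mul]
  ext q
  rw [pow_aux _ q (hfix _ (hb.1 q)), pow_card_eq_one', one_mul]
  rfl

theorem stab_isPGroup [Finite Q] (hQ : IsPGroup p Q) (W1 W2 : Subgroup Q) (hW : W1 ≤ W2) :
    IsPGroup p (stab W1 W2 hW) := by
  obtain ⟨n, hn⟩ := IsPGroup.iff_card.1 hQ
  rintro ⟨a, ha⟩
  refine ⟨n + n, Subtype.ext ?_⟩
  have h1 := stab_pow ha
  rw [hn, ← pow_add] at h1
  exact h1

/-! ### two transvections generating a `p`-group -/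

theorem zpowers_eq [Finite Q] (hc : ∀ x y : Q, x * y = y * x) (hQ : IsPGroup p Q)
    {A : Subgroup (MulAut Q)}
    (hA : ∀ B : Subgroup (MulAut Q), B ≤ A → IsPGroup p B → Nat.card B ∣ p)
    {t1 t2 : MulAut Q} {e1 e2 : Q} {f1 f2 : Q → ZMod p} (h1 : Tv p t1 e1 f1)
    (h2 : Tv p t2 e2 f2) (hm1 : t1 ∈ A) (hm2 : t2 ∈ A) (h : f1 e2 = 0) :
    Subgroup.zpowers t1 = Subgroup.zpowers t2 := by
  have hW : Subgroup.zpowers e2 ≤ Subgroup.zpowers e1 ⊔ Subgroup.zpowers e2 := le_sup_right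
  have hs1 : t1 ∈ stab (Subgroup.zpowers e2) (Subgroup.zpowers e1 ⊔ Subgroup.zpowers e2) hW := by
    have hfix : ∀ x ∈ Subgroup.zpowers e1 ⊔ Subgroup.zpowers e2, t1 x = x := by
      have hle : Subgroup.zpowers e1 ⊔ Subgroup.zpowers e2 ≤
          t1.toMonoidHom.eqLocus (MonoidHom.id Q) := by
        refine sup_le ?_ ?_
        · rw [Subgroup.zpowers_le]
          exact h1.fix
        · rw [Subgroup.zpowers_le]
          show t1 e2 = e2
          rw [h1.h, h, ZMod.val_zero, pow_zero, mul_one]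
      exact fun x hx => hle hx
    refine ⟨fun q => ?_, fun x hx => ?_, fun x hx => hfix x (hW hx)⟩
    · rw [h1.h, hc q, mul_inv_cancel_right]
      exact Subgroup.mem_sup_left (Subgroup.pow_mem _ (Subgroup.mem_zpowers e1) _)
    · rw [hfix x hx, mul_inv_cancel]
      exact Subgroup.one_mem _
  have hs2 : t2 ∈ stab (Subgroup.zpowers e2) (Subgroup.zpowers e1 ⊔ Subgroup.zpowers e2) hW := by
    have h3 : ∀ q, t2 q * q⁻¹ ∈ Subgroup.zpowers e2 := by
      intro q
      rw [h2.h, hc q, mul_inv_cancel_right]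
      exact Subgroup.pow_mem _ (Subgroup.mem_zpowers e2) _
    refine ⟨fun q => hW (h3 q), fun x _ => h3 x, fun x hx => ?_⟩
    obtain ⟨n, rfl⟩ := hx
    show t2 (e2 ^ n) = e2 ^ n
    rw [map_zpow, h2.fix]
  set B := stab (Subgroup.zpowers e2) (Subgroup.zpowers e1 ⊔ Subgroup.zpowers e2) hW ⊓ A with hB
  have hBp : IsPGroup p B := (stab_isPGroup hQ _ _ hW).to_le inf_le_left
  have hcard : Nat.card B ≤ p := Nat.le_of_dvd (Fact.out : p.Prime).pos (hA B inf_le_right hBp)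
  have e3 : Subgroup.zpowers t1 = B := by
    apply Subgroup.eq_of_le_of_card_ge
    · rw [Subgroup.zpowers_le]
      exact ⟨hs1, hm1⟩
    · rw [Nat.card_zpowers, h1.orderOf]
      exact hcard
  have e4 : Subgroup.zpowers t2 = B := by
    apply Subgroup.eq_of_le_of_card_ge
    · rw [Subgroup.zpowers_le]
      exact ⟨hs2, hm2⟩
    · rw [Nat.card_zpowers, h2.orderOf]
      exact hcard
  rw [e3, e4]

/-! ### the action of `SL₂` -/

/-- A direct factor `K²` of a commutative group. -/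
structure Coord (Q : Type*) [Group Q] (K : Type) [Field K] where
  comm : ∀ x y : Q, x * y = y * x
  ν : (Fin 2 → K) → Q
  φ : Q → (Fin 2 → K)
  ν_add : ∀ v w, ν (v + w) = ν v * ν w
  φ_mul : ∀ x y, φ (x * y) = φ x + φ y
  φν : ∀ v, φ (ν v) = v

namespace Coord

variable {K : Type} [Field K] (c : Coord Q K)

theorem ν_zero : c.ν 0 = 1 := by
  have h := c.ν_add 0 0
  rw [add_zero] at h
  exact left_eq_mul.1 h

theorem φ_one : c.φ 1 = 0 := by
  have h := c.φ_mul 1 1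
  rw [mul_one] at h
  exact left_eq_add.1 h

theorem ν_nsmul (n : ℕ) (v : Fin 2 → K) : c.ν (n • v) = (c.ν v) ^ n := by
  induction n with
  | zero => rw [zero_smul, pow_zero, c.ν_zero]
  | succ n ih => rw [succ_nsmul, c.ν_add, ih, pow_succ]

/-- the action of a matrix -/
def act (g : Matrix.SpecialLinearGroup (Fin 2) K) (q : Q) : Q :=
  q * c.ν (g.1.mulVec (c.φ q) - c.φ q)

theorem φ_act (g : Matrix.SpecialLinearGroup (Fin 2) K) (q : Q) :
    c.φ (c.act g q) = g.1.mulVec (c.φ q) := by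
  unfold act
  rw [c.φ_mul, c.φν, add_sub_cancel]

theorem act_mul (h g : Matrix.SpecialLinearGroup (Fin 2) K) (q : Q) :
    c.act (h * g) q = c.act h (c.act g q) := by
  have h1 : c.act h (c.act g q) =
      c.act g q * c.ν (h.1.mulVec (c.φ (c.act g q)) - c.φ (c.act g q)) := rfl
  have h2 : c.act g q = q * c.ν (g.1.mulVec (c.φ q) - c.φ q) := rfl
  have h3 : c.act (h * g) q = q * c.ν ((h.1 * g.1).mulVec (c.φ q) - c.φ q) := rfl
  rw [h1, c.φ_act, h2, h3, mul_assoc, ← c.ν_add, ← Matrix.mulVec_mulVec]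
  congr 2
  abel

theorem act_one (q : Q) : c.act 1 q = q := by
  unfold act
  rw [Matrix.SpecialLinearGroup.coe_one, Matrix.one_mulVec, sub_self, c.ν_zero, mul_one]

theorem act_map (g : Matrix.SpecialLinearGroup (Fin 2) K) (x y : Q) :
    c.act g (x * y) = c.act g x * c.act g y := by
  unfold act
  rw [c.φ_mul, Matrix.mulVec_add]
  have e : g.1.mulVec (c.φ x) + g.1.mulVec (c.φ y) - (c.φ x + c.φ y) =
      (g.1.mulVec (c.φ x) - c.φ x) + (g.1.mulVec (c.φ y) - c.φ y) := by abel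
  rw [e, c.ν_add, mul_assoc, mul_assoc, ← mul_assoc y, ← mul_assoc (c.ν _) y, c.comm y]

/-- the action of `SL₂` by automorphisms -/
def θ : Matrix.SpecialLinearGroup (Fin 2) K →* MulAut Q where
  toFun g :=
    { toFun := c.act g
      invFun := c.act g⁻¹
      left_inv := fun q => by rw [← c.act_mul, inv_mul_cancel, c.act_one]
      right_inv := fun q => by rw [← c.act_mul, mul_inv_cancel, c.act_one]
      map_mul' := c.act_map g }
  map_one' := by
    ext q
    exact c.act_one q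
  map_mul' := fun h g => by
    ext q
    exact c.act_mul h g q

theorem θ_apply (g : Matrix.SpecialLinearGroup (Fin 2) K) (q : Q) :
    c.θ g q = q * c.ν (g.1.mulVec (c.φ q) - c.φ q) := rfl

theorem θ_ν (g : Matrix.SpecialLinearGroup (Fin 2) K) (v : Fin 2 → K) :
    c.θ g (c.ν v) = c.ν (g.1.mulVec v) := by
  rw [c.θ_apply, c.φν, ← c.ν_add, add_sub_cancel]

theorem θ_slU (s : K) (q : Q) : c.θ (slU K s) q = q * c.ν ![s * c.φ q 1, 0] := by
  rw [c.θ_apply]
  congr 2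
  ext i
  fin_cases i <;> simp [slU, dotProduct, Fin.sum_univ_two]

theorem θ_slV (s : K) (q : Q) : c.θ (slV K s) q = q * c.ν ![0, s * c.φ q 0] := by
  rw [c.θ_apply]
  congr 2
  ext i
  fin_cases i <;> simp [slV, dotProduct, Fin.sum_univ_two]

/-- the transvection with centre `(x, y)` -/
def tr (x y : K) : Matrix.SpecialLinearGroup (Fin 2) K :=
  ⟨!![1 - x * y, x * x; -(y * y), 1 + x * y], by rw [Matrix.det_fin_two_of]; ring⟩

theorem θ_tr (x y : K) (q : Q) :
    c.θ (tr x y) q = q * c.ν ((x * c.φ q 1 - y * c.φ q 0) • ![x, y]) := by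
  rw [c.θ_apply]
  congr 2
  ext i
  fin_cases i
  · simp [tr, dotProduct, Fin.sum_univ_two]
    ring
  · simp [tr, dotProduct, Fin.sum_univ_two]
    ring

theorem θ_tr_ne (x y : K) (h : x ≠ 0 ∨ y ≠ 0) : c.θ (tr x y) ≠ 1 := by
  intro h1
  have h2 : ∀ v : Fin 2 → K, (tr x y).1.mulVec v = v := by
    intro v
    have h3 := c.θ_ν (tr x y) v
    rw [h1, MulAut.one_apply] at h3
    have h4 := congrArg c.φ h3
    rw [c.φν, c.φν] at h4
    exact h4.symm
  have h3 := congrFun (h2 ![0, 1]) 0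
  have h4 := congrFun (h2 ![1, 0]) 1
  simp [tr, Matrix.mulVec, dotProduct, Fin.sum_univ_two] at h3 h4
  rcases h with h | h
  · exact h h3
  · exact h h4

/-- the subgroup `V` with its coordinates and the complement `C` -/
theorem exists_VC : ∃ (V C : Subgroup Q) (ν : Multiplicative (Fin 2 → K) ≃* V),
    (∀ g v, c.θ g (ν (Multiplicative.ofAdd v) : Q) =
      (ν (Multiplicative.ofAdd (Matrix.mulVec g.1 v)) : Q)) ∧
    (∀ g, ∀ x ∈ C, c.θ g x = x) ∧ V ⊔ C = ⊤ ∧ V ⊓ C = ⊥ := by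
  let n : Multiplicative (Fin 2 → K) →* Q :=
    { toFun := fun v => c.ν v.toAdd
      map_one' := c.ν_zero
      map_mul' := fun v w => c.ν_add _ _ }
  have hn : Function.Injective n := by
    intro v w h
    have h1 := congrArg c.φ (show c.ν v.toAdd = c.ν w.toAdd from h)
    rw [c.φν, c.φν] at h1
    exact h1
  let C : Subgroup Q :=
    { carrier := {q | c.φ q = 0}
      one_mem' := c.φ_one
      mul_mem' := fun {a b} ha hb => by
        show c.φ (a * b) = 0
        rw [c.φ_mul, show c.φ a = 0 from ha, show c.φ b = 0 from hb, add_zero]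
      inv_mem' := fun {a} ha => by
        show c.φ a⁻¹ = 0
        have h1 := c.φ_mul a a⁻¹
        rw [mul_inv_cancel, c.φ_one, show c.φ a = 0 from ha, zero_add] at h1
        exact h1.symm }
  have hinv : ∀ x : Q, c.φ x⁻¹ = - c.φ x := by
    intro x
    have h1 := c.φ_mul x x⁻¹
    rw [mul_inv_cancel, c.φ_one] at h1
    exact (neg_eq_of_add_eq_zero_right h1.symm).symm
  refine ⟨n.range, C, MonoidHom.ofInjective hn, ?_, ?_, ?_, ?_⟩
  · intro g v
    exact c.θ_ν g v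
  · intro g x hx
    rw [c.θ_apply, show c.φ x = 0 from hx, Matrix.mulVec_zero, sub_zero, c.ν_zero, mul_one]
  · rw [eq_top_iff]
    intro q _
    have e : q = c.ν (c.φ q) * ((c.ν (c.φ q))⁻¹ * q) := by group
    rw [e]
    refine Subgroup.mul_mem_sup ⟨Multiplicative.ofAdd (c.φ q), rfl⟩ ?_
    show c.φ ((c.ν (c.φ q))⁻¹ * q) = 0
    rw [c.φ_mul, hinv, c.φν, neg_add_cancel]
  · rw [eq_bot_iff]
    rintro q ⟨⟨v, rfl⟩, hq⟩
    have h1 : c.φ (c.ν v.toAdd) = 0 := hq
    rw [c.φν] at h1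
    show c.ν v.toAdd = 1
    rw [h1, c.ν_zero]

end Coord

/-! ### the main step -/

theorem f_pow {f : Q → ZMod p} (hf : ∀ x y, f (x * y) = f x + f y) (x : Q) (n : ℕ) :
    f (x ^ n) = n * f x := by
  have h1 : f 1 = 0 := by
    have h1 := hf 1 1
    rw [mul_one] at h1
    exact left_eq_add.1 h1
  induction n with
  | zero => rw [pow_zero, h1, Nat.cast_zero, zero_mul]
  | succ n ih =>
    rw [pow_succ, hf, ih]
    push_cast
    ring

/-- coordinates from two elements of order `p` and two functionals -/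
def mkCoord (hc : ∀ x y : Q, x * y = y * x) {e1 e2 : Q} (he1 : e1 ^ p = 1) (he2 : e2 ^ p = 1)
    {φ1 φ2 : Q → ZMod p} (h1 : ∀ x y, φ1 (x * y) = φ1 x + φ1 y)
    (h2 : ∀ x y, φ2 (x * y) = φ2 x + φ2 y) (h11 : φ1 e1 = 1) (h12 : φ1 e2 = 0)
    (h21 : φ2 e1 = 0) (h22 : φ2 e2 = 1) : Coord Q (ZMod p) where
  comm := hc
  ν v := e1 ^ (v 0).val * e2 ^ (v 1).val
  φ q := ![φ1 q, φ2 q]
  ν_add v w := by
    rw [Pi.add_apply, Pi.add_apply, pw_add he1, pw_add he2, mul_assoc, mul_assoc,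
      ← mul_assoc (e1 ^ (w 0).val), ← mul_assoc (e2 ^ (v 1).val), hc (e1 ^ (w 0).val)]
  φ_mul x y := by
    ext i
    fin_cases i
    · exact h1 x y
    · exact h2 x y
  φν v := by
    ext i
    fin_cases i
    · show φ1 (e1 ^ (v 0).val * e2 ^ (v 1).val) = v 0
      rw [h1, f_pow h1, f_pow h1, h11, h12, ZMod.natCast_zmod_val, mul_one, mul_zero, add_zero]
    · show φ2 (e1 ^ (v 0).val * e2 ^ (v 1).val) = v 1
      rw [h2, f_pow h2, f_pow h2, h21, h22, ZMod.natCast_zmod_val, ZMod.natCast_zmod_val, mul_one,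
        mul_zero, zero_add]

theorem slU_nat {K : Type*} [Field K] (a : K) (n : ℕ) : slU K (n * a) = (slU K a) ^ n := by
  induction n with
  | zero => rw [Nat.cast_zero, zero_mul, slU_zero, pow_zero]
  | succ n ih =>
    rw [pow_succ, ← ih, ← slU_add]
    congr 1
    push_cast
    ring

theorem slV_nat {K : Type*} [Field K] (a : K) (n : ℕ) : slV K (n * a) = (slV K a) ^ n := by
  induction n with
  | zero => rw [Nat.cast_zero, zero_mul, slV_zero, pow_zero]
  | succ n ih =>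
    rw [pow_succ, ← ih, ← slV_add]
    congr 1
    push_cast
    ring

/-- `SL₂(F_p)` is generated by `u(a)` and `v(b)`. -/
theorem gen_mem {H : Type*} [Group H] (ψ : Matrix.SpecialLinearGroup (Fin 2) (ZMod p) →* H)
    (L : Subgroup H) {a b : ZMod p} (ha : a ≠ 0) (hb : b ≠ 0) (h1 : ψ (slU (ZMod p) a) ∈ L)
    (h2 : ψ (slV (ZMod p) b) ∈ L) : ψ.range ≤ L := by
  have hU : ∀ s, slU (ZMod p) s ∈ L.comap ψ := by
    intro s
    have e : s = ((s * a⁻¹).val : ℕ) * a := by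
      rw [ZMod.natCast_zmod_val, mul_assoc, inv_mul_cancel₀ ha, mul_one]
    rw [e, slU_nat]
    exact Subgroup.pow_mem (L.comap ψ) h1 _
  have hV : ∀ s, slV (ZMod p) s ∈ L.comap ψ := by
    intro s
    have e : s = ((s * b⁻¹).val : ℕ) * b := by
      rw [ZMod.natCast_zmod_val, mul_assoc, inv_mul_cancel₀ hb, mul_one]
    rw [e, slV_nat]
    exact Subgroup.pow_mem (L.comap ψ) h2 _
  have hW : slW (ZMod p) ∈ L.comap ψ := by
    rw [← slWc_one, slWc_eq]
    exact Subgroup.mul_mem _ (Subgroup.mul_mem _ (hU _) (hV _)) (hU _)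
  have h3 : (⊤ : Subgroup (Matrix.SpecialLinearGroup (Fin 2) (ZMod p))) ≤ L.comap ψ := by
    rw [← sl_gen, Subgroup.closure_le]
    rintro x (⟨s, rfl⟩ | hx)
    · exact hU s
    · have e : x = slW (ZMod p) := hx
      rw [e]
      exact hW
  rintro y ⟨x, rfl⟩
  exact h3 (Subgroup.mem_top x)

/-- transvections of `θ(SL₂)` -/
theorem tv_tr (c : Coord Q (ZMod p)) (x y : ZMod p) (h : x ≠ 0 ∨ y ≠ 0) :
    Tv p (c.θ (Coord.tr x y)) (c.ν ![x, y]) (fun q => x * c.φ q 1 - y * c.φ q 0) := by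
  refine ⟨?_, ?_, ?_, ?_, c.θ_tr_ne x y h⟩
  · rw [← c.ν_nsmul]
    have e : p • (![x, y] : Fin 2 → ZMod p) = 0 := by
      ext i
      simp
    rw [e, c.ν_zero]
  · intro a b
    rw [c.φ_mul, Pi.add_apply, Pi.add_apply]
    ring
  · intro q
    rw [c.θ_tr, ← c.ν_nsmul]
    congr 2
    ext i
    simp
  · show x * c.φ (c.ν ![x, y]) 1 - y * c.φ (c.ν ![x, y]) 0 = 0
    rw [c.φν]
    simp [mul_comm]

theorem core [Finite Q] (hc : ∀ x y : Q, x * y = y * x) (hQ : IsPGroup p Q)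
    {A : Subgroup (MulAut Q)}
    (hA : ∀ B : Subgroup (MulAut Q), B ≤ A → IsPGroup p B → Nat.card B ∣ p)
    {t : MulAut Q} {e : Q} {f : Q → ZMod p} (h : Tv p t e f) (ht : t ∈ A) {g : MulAut Q}
    (hg : g ∈ A) (hgt : g * t * g⁻¹ ∉ Subgroup.zpowers t) :
    ∃ c : Coord Q (ZMod p), c.θ.range ≤ A ∧
      (∀ a ∈ A, ∀ l ∈ c.θ.range, a * l * a⁻¹ ∈ c.θ.range) ∧ t ∈ c.θ.range := by
  have h' := h.conj g
  have ht' : g * t * g⁻¹ ∈ A := A.mul_mem (A.mul_mem hg ht) (A.inv_mem hg)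
  have ha : f (g e) ≠ 0 := by
    intro h0
    apply hgt
    rw [zpowers_eq hc hQ hA h h' ht ht' h0]
    exact Subgroup.mem_zpowers _
  have hb : f (g⁻¹ e) ≠ 0 := by
    intro h0
    apply hgt
    rw [← zpowers_eq hc hQ hA h' h ht' ht h0]
    exact Subgroup.mem_zpowers _
  let c : Coord Q (ZMod p) := mkCoord hc h.he h'.he
    (φ1 := fun q => (f (g⁻¹ e))⁻¹ * f (g⁻¹ q)) (φ2 := fun q => (f (g e))⁻¹ * f q)
    (fun x y => by rw [map_mul, h.hf]; ring) (fun x y => by rw [h.hf]; ring)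
    (inv_mul_cancel₀ hb) (by rw [MulAut.inv_apply_self, h.h0, mul_zero])
    (by rw [h.h0, mul_zero]) (inv_mul_cancel₀ ha)
  have hU : c.θ (slU (ZMod p) (f (g e))) = t := by
    ext q
    rw [c.θ_slU, h.h]
    have e1 : f (g e) * c.φ q 1 = f q := by
      show f (g e) * ((f (g e))⁻¹ * f q) = f q
      rw [← mul_assoc, mul_inv_cancel₀ ha, one_mul]
    rw [e1]
    show q * (e ^ (f q).val * (g e) ^ (0 : ZMod p).val) = q * e ^ (f q).val
    rw [ZMod.val_zero, pow_zero, mul_one]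
  have hV : c.θ (slV (ZMod p) (f (g⁻¹ e))) = g * t * g⁻¹ := by
    ext q
    rw [c.θ_slV, h'.h]
    have e1 : f (g⁻¹ e) * c.φ q 0 = f (g⁻¹ q) := by
      show f (g⁻¹ e) * ((f (g⁻¹ e))⁻¹ * f (g⁻¹ q)) = f (g⁻¹ q)
      rw [← mul_assoc, mul_inv_cancel₀ hb, one_mul]
    rw [e1]
    show q * (e ^ (0 : ZMod p).val * (g e) ^ (f (g⁻¹ q)).val) = q * (g e) ^ (f (g⁻¹ q)).val
    rw [ZMod.val_zero, pow_zero, one_mul]
  have hle : c.θ.range ≤ A := gen_mem c.θ A ha hb (by rw [hU]; exact ht) (by rw [hV]; exact ht')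
  have key : ∀ a ∈ A, a * t * a⁻¹ ∈ c.θ.range := by
    intro a haA
    have h'' := h.conj a
    have hm : a * t * a⁻¹ ∈ A := A.mul_mem (A.mul_mem haA ht) (A.inv_mem haA)
    have hlin : ∀ x y : ZMod p, f (a⁻¹ (c.ν ![x, y])) =
        x * f (a⁻¹ (c.ν ![1, 0])) + y * f (a⁻¹ (c.ν ![0, 1])) := by
      intro x y
      have e1 : (![x, y] : Fin 2 → ZMod p) = x.val • ![1, 0] + y.val • ![0, 1] := by
        ext i
        fin_cases i <;> simp
      rw [e1, c.ν_add, c.ν_nsmul, c.ν_nsmul, h''.hf, h''.f_pow, h''.f_pow, ZMod.natCast_zmod_val,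
        ZMod.natCast_zmod_val]
    obtain ⟨x, y, hxy, h0⟩ : ∃ x y : ZMod p, (x ≠ 0 ∨ y ≠ 0) ∧ f (a⁻¹ (c.ν ![x, y])) = 0 := by
      by_cases h1 : f (a⁻¹ (c.ν ![1, 0])) = 0
      · exact ⟨1, 0, Or.inl one_ne_zero, h1⟩
      · refine ⟨f (a⁻¹ (c.ν ![0, 1])), -f (a⁻¹ (c.ν ![1, 0])), Or.inr (neg_ne_zero.2 h1), ?_⟩
        rw [hlin]
        ring
    have h2 := zpowers_eq hc hQ hA h'' (tv_tr c x y hxy) hm (hle ⟨_, rfl⟩) h0
    have h3 : a * t * a⁻¹ ∈ Subgroup.zpowers (c.θ (Coord.tr x y)) := by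
      rw [← h2]
      exact Subgroup.mem_zpowers _
    have h4 : Subgroup.zpowers (c.θ (Coord.tr x y)) ≤ c.θ.range := by
      rw [Subgroup.zpowers_le]
      exact ⟨_, rfl⟩
    exact h4 h3
  refine ⟨c, hle, ?_, ⟨_, hU⟩⟩
  rintro a haA l ⟨x, rfl⟩
  have h5 := gen_mem ((MulAut.conj a).toMonoidHom.comp c.θ) c.θ.range ha hb
    (by
      show a * c.θ (slU (ZMod p) (f (g e))) * a⁻¹ ∈ c.θ.range
      rw [hU]
      exact key a haA)
    (by
      show a * c.θ (slV (ZMod p) (f (g⁻¹ e))) * a⁻¹ ∈ c.θ.range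
      rw [hV]
      have e1 : a * (g * t * g⁻¹) * a⁻¹ = (a * g) * t * (a * g)⁻¹ := by group
      rw [e1]
      exact key _ (A.mul_mem haA hg))
  exact h5 ⟨x, rfl⟩

theorem pw_inj {e : Q} (he : orderOf e = p) {a b : ZMod p} (h : e ^ a.val = e ^ b.val) : a = b := by
  rw [pow_inj_mod, he] at h
  rw [Nat.mod_eq_of_lt (ZMod.val_lt a), Nat.mod_eq_of_lt (ZMod.val_lt b)] at h
  exact ZMod.val_injective p h

/-- an automorphism of order `p` of a commutative group whose fixed points have index `p` is a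
transvection -/
theorem exists_tv [Finite Q] (hc : ∀ x y : Q, x * y = y * x) {t : MulAut Q} (ht : t ^ p = 1)
    (hne : t ≠ 1) (hidx : (t.toMonoidHom.eqLocus (MonoidHom.id Q)).index = p) :
    ∃ e f, Tv p t e f := by
  have hp : p.Prime := Fact.out
  let δ : Q →* Q :=
    { toFun := fun q => t q * q⁻¹
      map_one' := by rw [map_one, inv_one, mul_one]
      map_mul' := fun x y => by
        rw [map_mul, mul_inv_rev, hc y⁻¹ x⁻¹, mul_assoc, mul_assoc, ← mul_assoc (t y), hc (t y) x⁻¹,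
          mul_assoc] }
  have hδ : ∀ q, δ q = t q * q⁻¹ := fun q => rfl
  have hker : δ.ker = t.toMonoidHom.eqLocus (MonoidHom.id Q) := by
    ext q
    rw [MonoidHom.mem_ker, hδ, mul_inv_eq_one]
    exact Iff.rfl
  have hcard : Nat.card δ.range = p := by
    rw [← Subgroup.index_ker, hker, hidx]
  have hRne : δ.range ≠ ⊥ := by
    intro h
    rw [h, Subgroup.card_bot] at hcard
    exact hp.one_lt.ne hcard
  obtain ⟨e, heR, he1⟩ := (Subgroup.ne_bot_iff_exists_ne_one.1 hRne : ∃ a : δ.range, a ≠ 1) |>.elim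
    (fun a ha => (⟨a.1, a.2, fun h => ha (Subtype.ext h)⟩ : ∃ e : Q, e ∈ δ.range ∧ e ≠ 1))
  have hep : e ^ p = 1 := by
    have h1 : (⟨e, heR⟩ : δ.range) ^ p = 1 := by
      rw [← hcard]
      exact pow_card_eq_one'
    exact congrArg Subtype.val h1
  have horder : orderOf e = p := orderOf_eq_prime hep he1
  have hR : Subgroup.zpowers e = δ.range := by
    apply Subgroup.eq_of_le_of_card_ge
    · rw [Subgroup.zpowers_le]
      exact heR
    · rw [Nat.card_zpowers, horder, hcard]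
  have hex : ∀ q, ∃ z : ZMod p, e ^ z.val = t q * q⁻¹ := by
    intro q
    have h1 : δ q ∈ Subgroup.zpowers e := by
      rw [hR]
      exact ⟨q, rfl⟩
    rw [← mem_powers_iff_mem_zpowers] at h1
    obtain ⟨n, hn⟩ := h1
    refine ⟨(n : ZMod p), ?_⟩
    rw [pw_natCast hep]
    exact hn
  choose f hf using hex
  have hval1 : (1 : ZMod p).val = 1 := by
    have : Fact (1 < p) := ⟨hp.one_lt⟩
    exact ZMod.val_one p
  have hfe : f e = 0 := by
    obtain ⟨c, hcdef⟩ : ∃ c : ZMod p, c = f e + 1 := ⟨_, rfl⟩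
    have hte : t e = e ^ c.val := by
      rw [hcdef, pw_add hep, hf e, hval1, pow_one, inv_mul_cancel_right]
    have hpow : ∀ n : ℕ, (t ^ n) e = e ^ (c ^ n).val := by
      intro n
      induction n with
      | zero => rw [pow_zero, pow_zero, hval1, pow_one]; rfl
      | succ n ih =>
        rw [pow_succ', MulAut.mul_apply, ih, map_pow, hte, pw_mul hep, pow_succ']
    have h1 := hpow p
    rw [ht, MulAut.one_apply, ZMod.pow_card] at h1
    have h2 : e ^ (1 : ZMod p).val = e ^ c.val := by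
      rw [hval1, pow_one]
      exact h1
    have h3 := pw_inj horder h2
    rw [hcdef] at h3
    exact right_eq_add.1 h3
  refine ⟨e, f, hep, ?_, ?_, hfe, hne⟩
  · intro x y
    apply pw_inj horder
    rw [pw_add hep, hf, hf, hf]
    exact δ.map_mul x y
  · intro q
    rw [hf, hc q, inv_mul_cancel_right]

end Trv

end MNF
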