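import Pool.Agent.W_0649d4.CAlperin
import Pool.Agent.W_0649d4.TrvH56

/-! TASK CTypeAP: type (A') implies type (A) (transvections; blueprint, section TRV). -/

namespace MNF

variable {G : Type*} [Group G] [Finite G] {S : Subgroup G} (F : FusionSystem S)

omit [Finite G] in
/-- Conjugation by the elements of `N_S(Q)`. -/
def CTypeAP_conj (S Q : Subgroup G) : ↥(nS S Q) →* MulAut Q where
  toFun u := cjP Q u (mem_nS.mp u.2).2
  map_one' := by
    ext x
    rw [cjP_coe]
    simp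
  map_mul' u v := by
    ext x
    rw [MulAut.mul_apply, cjP_coe, cjP_coe, cjP_coe, Subgroup.coe_mul]
    group

omit [Finite G] in
theorem CTypeAP_conj_coe (S Q : Subgroup G) (u : nS S Q) (x : Q) :
    (CTypeAP_conj S Q u x : G) = u * x * (u : G)⁻¹ := rfl

omit [Finite G] in
theorem CTypeAP_range (S Q : Subgroup G) : (CTypeAP_conj S Q).range = autS S Q := by
  ext φ
  constructor
  · rintro ⟨u, rfl⟩
    exact ⟨u, (mem_nS.mp u.2).1, fun x => rfl⟩
  · rintro ⟨s, hs, h⟩
    have hn : s ∈ nS S Q := by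
      refine mem_nS.mpr ⟨hs, fun x => ⟨fun hx => ?_, fun hx => ?_⟩⟩
      · rw [← h ⟨x, hx⟩]
        exact (φ ⟨x, hx⟩).2
      · have h1 := h (φ⁻¹ ⟨s * x * s⁻¹, hx⟩)
        rw [MulAut.apply_inv_self] at h1
        have h2 : x = (φ⁻¹ ⟨s * x * s⁻¹, hx⟩ : Q) := by
          have h3 : s * x * s⁻¹ = s * (φ⁻¹ ⟨s * x * s⁻¹, hx⟩ : Q) * s⁻¹ := h1
          exact mul_left_cancel (mul_right_cancel h3)
        rw [h2]
        exact (φ⁻¹ ⟨s * x * s⁻¹, hx⟩ : Q).2
    refine ⟨⟨s, hn⟩, ?_⟩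
    ext x
    rw [CTypeAP_conj_coe, h]

omit [Finite G] in
theorem CTypeAP_ker {Q : Subgroup G} (hQS : Q ≤ S) (hc : ∀ x ∈ Q, ∀ y ∈ Q, x * y = y * x)
    (hcS : cS S Q ≤ Q) (u : nS S Q) : u ∈ (CTypeAP_conj S Q).ker ↔ (u : G) ∈ Q := by
  rw [MonoidHom.mem_ker]
  constructor
  · intro h
    apply hcS
    rw [mem_cS]
    refine ⟨(mem_nS.mp u.2).1, fun x hx => ?_⟩
    have h1 := CTypeAP_conj_coe S Q u ⟨x, hx⟩
    rw [h] at h1
    have h2 : x = u * x * (u : G)⁻¹ := h1
    rw [eq_mul_inv_iff_mul_eq] at h2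
    exact h2
  · intro h
    ext x
    rw [CTypeAP_conj_coe, hc _ h _ x.2, mul_inv_cancel_right]
    rfl

/-- The fixed points of `Aut_S(Q)` in `Q`. -/
def CTypeAP_fix (S Q : Subgroup G) : Subgroup Q where
  carrier := {q | ∀ a ∈ autS S Q, a q = q}
  one_mem' := fun a _ => map_one a
  mul_mem' := fun ha hb a h => by rw [map_mul, ha a h, hb a h]
  inv_mem' := fun ha a h => by rw [map_inv, ha a h]

omit [Finite G] in
/-- `|N_S(Q) : Z(N_S(Q))| = |Q : C_Q(T)| |T|`. -/
theorem CTypeAP_index {Q : Subgroup G} (hQS : Q ≤ S) (hc : ∀ x ∈ Q, ∀ y ∈ Q, x * y = y * x)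
    (hcS : cS S Q ≤ Q) : (Subgroup.center (nS S Q)).index =
      (CTypeAP_fix S Q).index * Nat.card (autS S Q) := by
  have hle : Subgroup.center (nS S Q) ≤ (CTypeAP_conj S Q).ker := by
    intro u hu
    rw [Subgroup.mem_center_iff] at hu
    rw [MonoidHom.mem_ker]
    ext x
    rw [CTypeAP_conj_coe]
    have h1 := congrArg Subtype.val (hu ⟨x, le_nS hQS x.2⟩)
    have h2 : (x : G) * u = u * x := h1
    rw [← h2, mul_inv_cancel_right]
    rfl
  rw [← Subgroup.relIndex_mul_index hle, Subgroup.index_ker, CTypeAP_range]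
  congr 1
  let j : Q →* (CTypeAP_conj S Q).ker :=
    { toFun := fun q => ⟨⟨q, le_nS hQS q.2⟩, (CTypeAP_ker hQS hc hcS _).2 q.2⟩
      map_one' := rfl
      map_mul' := fun _ _ => rfl }
  have hj : Function.Surjective j := by
    rintro ⟨⟨u, hu⟩, hk⟩
    exact ⟨⟨u, (CTypeAP_ker hQS hc hcS _).1 hk⟩, rfl⟩
  have h1 := Subgroup.index_comap_of_surjective
    ((Subgroup.center (nS S Q)).subgroupOf (CTypeAP_conj S Q).ker) hj
  have h2 : ((Subgroup.center (nS S Q)).subgroupOf (CTypeAP_conj S Q).ker).comap j =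
      CTypeAP_fix S Q := by
    ext q
    rw [Subgroup.mem_comap, Subgroup.mem_subgroupOf, Subgroup.mem_center_iff]
    constructor
    · intro h a ha
      rw [← CTypeAP_range] at ha
      obtain ⟨u, rfl⟩ := ha
      apply Subtype.ext
      rw [CTypeAP_conj_coe]
      have h3 := congrArg Subtype.val (h u)
      have h4 : (u : G) * q = q * u := h3
      rw [h4, mul_inv_cancel_right]
    · intro h u
      have h3 := h (CTypeAP_conj S Q u) (by rw [← CTypeAP_range]; exact ⟨u, rfl⟩)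
      have h4 := congrArg Subtype.val h3
      rw [CTypeAP_conj_coe, mul_inv_eq_iff_eq_mul] at h4
      exact Subtype.ext h4
  rw [h2] at h1
  exact h1.symm

/-- `p`-subgroups of `A` have order dividing `p` if `A` has a subgroup of order `p` and of index
prime to `p`. -/
theorem CTypeAP_sylow {M : Type*} [Group M] [Finite M] {p : ℕ} [Fact p.Prime] {T A : Subgroup M}
    (hTA : T ≤ A) (hT : Nat.card T = p) (hi : ¬ p ∣ T.relIndex A) (B : Subgroup M) (hBA : B ≤ A)
    (hB : IsPGroup p B) : Nat.card B ∣ p := by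
  have hp : p.Prime := Fact.out
  obtain ⟨n, hn⟩ := IsPGroup.iff_card.1 hB
  have h1 : Nat.card A = p * T.relIndex A := by
    have h2 := Subgroup.card_mul_index (T.subgroupOf A)
    rw [Nat.card_congr (Subgroup.subgroupOfEquivOfLe hTA).toEquiv, hT] at h2
    exact h2.symm
  have h2 : Nat.card B ∣ Nat.card A := Subgroup.card_dvd_of_le hBA
  rw [hn, h1] at h2
  rw [hn]
  rcases Nat.lt_or_ge n 2 with h | h
  · calc p ^ n ∣ p ^ 1 := pow_dvd_pow p (by omega)
      _ = p := pow_one p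
  · exfalso
    apply hi
    have h3 : p * p ∣ p * T.relIndex A := by
      rw [← pow_two]
      exact (pow_dvd_pow p h).trans h2
    exact Nat.dvd_of_mul_dvd_mul_left hp.pos h3

/-- `T = Aut_S(Q) = ⟨t⟩` of order `p` is not normal in `Aut_F(Q)`. -/
theorem CTypeAP_not_normal (p : ℕ) [Fact p.Prime] (hS : IsPGroup p S) (hF : F.Saturated p)
    {Q : Subgroup G} (hQ : F.Essential p Q) (hc : ∀ x ∈ Q, ∀ y ∈ Q, x * y = y * x)
    {t : MulAut Q} (ht : orderOf t = p) (hT : Subgroup.zpowers t = autS S Q) :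
    ∃ g ∈ F.aut Q, g * t * g⁻¹ ∉ Subgroup.zpowers t := by
  by_contra hcon
  push Not at hcon
  have hp : p.Prime := Fact.out
  have hconj : ∀ g ∈ F.aut Q, ∀ s ∈ Subgroup.zpowers t, g * s * g⁻¹ ∈ Subgroup.zpowers t := by
    rintro g hg s ⟨n, rfl⟩
    have e : g * t ^ n * g⁻¹ = (g * t * g⁻¹) ^ n := (conj_zpow).symm
    show g * t ^ n * g⁻¹ ∈ _
    rw [e]
    exact Subgroup.zpow_mem _ (hcon g hg) n
  obtain ⟨hcen, hfn, M, hM1, hM2, hM3⟩ := hQ
  have hinn : ∀ y ∈ F.inn Q, y = 1 := by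
    intro y hy
    obtain ⟨z, hz⟩ := Subgroup.mem_subgroupOf.mp hy
    apply Subtype.ext
    rw [← hz]
    ext x
    show ((z * x * z⁻¹ : Q) : G) = x
    have h1 := hc z z.2 x x.2
    show (z : G) * x * (z : G)⁻¹ = x
    rw [h1, mul_inv_cancel_right]
  obtain ⟨x, hx⟩ := exists_prime_orderOf_dvd_card' (G := M) p hM2
  obtain ⟨a, ha⟩ := QuotientGroup.mk_surjective (s := F.inn Q) x.1
  have hx1 : x.1 ^ p = 1 := by
    have h1 : x ^ p = 1 := by rw [← hx, pow_orderOf_eq_one]
    exact congrArg Subtype.val h1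
  have hap : a ^ p = 1 := by
    apply hinn
    rw [← QuotientGroup.eq_one_iff]
    have h1 : ((a ^ p : F.aut Q) : F.Out Q) = (a : F.Out Q) ^ p := rfl
    rw [h1, ha, hx1]
  have ha1 : a ≠ 1 := by
    intro h
    rw [h] at ha
    have h1 : x.1 = 1 := ha.symm
    have h2 : x = 1 := Subtype.ext h1
    rw [h2, orderOf_one] at hx
    exact hp.one_lt.ne hx
  have horda : orderOf a = p := orderOf_eq_prime hap ha1
  have hBp : IsPGroup p (Subgroup.zpowers a) := by
    refine IsPGroup.of_card (n := 1) ?_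
    rw [Nat.card_zpowers, horda, pow_one]
  obtain ⟨b, hb⟩ := CAlperin_sylow p ((autS S Q).subgroupOf (F.aut Q))
    ((CAlperin_autS_pGroup hS Q).comap_subtype) (CAlperin_index F hF hcen.1 hfn) _ hBp
  have hb1 : (b : MulAut Q) * a * (b : MulAut Q)⁻¹ ∈ Subgroup.zpowers t := by
    rw [hT]
    exact Subgroup.mem_subgroupOf.mp (hb a (Subgroup.mem_zpowers a))
  have haT : (a : MulAut Q) ∈ Subgroup.zpowers t := by
    have h1 := hconj _ (inv_mem b.2) _ hb1
    have e : (b : MulAut Q)⁻¹ * ((b : MulAut Q) * a * (b : MulAut Q)⁻¹) * ((b : MulAut Q)⁻¹)⁻¹ =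
        a := by group
    rwa [e] at h1
  have horda' : orderOf (a : MulAut Q) = p := by
    rw [← horda]
    exact orderOf_injective (F.aut Q).subtype Subtype.val_injective a
  have hTa : Subgroup.zpowers (a : MulAut Q) = Subgroup.zpowers t := by
    apply Subgroup.eq_of_le_of_card_ge
    · rw [Subgroup.zpowers_le]
      exact haT
    · rw [Nat.card_zpowers, Nat.card_zpowers, ht, horda']
  have hmkM : ∀ s : F.aut Q, (s : MulAut Q) ∈ Subgroup.zpowers t → ((s : F.aut Q) : F.Out Q) ∈ M := by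
    intro s hs
    rw [← hTa] at hs
    obtain ⟨n, hn⟩ := hs
    have h1 : a ^ n = s := Subtype.ext hn
    rw [← h1]
    have h2 : ((a ^ n : F.aut Q) : F.Out Q) = (a : F.Out Q) ^ n := rfl
    rw [h2, ha]
    exact Subgroup.zpow_mem _ x.2 n
  obtain ⟨g, hg⟩ : ∃ g, g ∉ M := by
    by_contra h
    push Not at h
    exact hM1 (eq_top_iff.2 fun g _ => h g)
  obtain ⟨c, rfl⟩ := QuotientGroup.mk_surjective (s := F.inn Q) g
  apply hM3 _ hg
  have hmem : x.1 ∈ M ⊓ M.map (MulAut.conj ((c : F.aut Q) : F.Out Q)).toMonoidHom := by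
    refine ⟨x.2, ((c⁻¹ * a * c : F.aut Q) : F.Out Q), hmkM _ ?_, ?_⟩
    · have h1 := hconj _ (inv_mem c.2) _ haT
      rw [inv_inv] at h1
      exact h1
    · show (c : F.Out Q) * ((c⁻¹ * a * c : F.aut Q) : F.Out Q) * (c : F.Out Q)⁻¹ = x.1
      have h1 : ((c⁻¹ * a * c : F.aut Q) : F.Out Q) =
          (c : F.Out Q)⁻¹ * (a : F.Out Q) * (c : F.Out Q) := rfl
      rw [h1, ha]
      group
  have h1 := Subgroup.orderOf_dvd_natCard _ hmem
  have h2 : orderOf x.1 = p := by
    rw [← hx]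
    exact orderOf_injective M.subtype Subtype.val_injective x
  rwa [h2] at h1

theorem typeA_of_typeA' (p : ℕ) [Fact p.Prime] (hS : IsPGroup p S) (hF : F.Saturated p)
    {Q : Subgroup G} (hQ : F.Essential p Q) (h : TypeA' S p Q) : TypeA F p Q := by
  have hp : p.Prime := Fact.out
  obtain ⟨hc, hidx⟩ := h
  have hQS : Q ≤ S := hQ.1.1
  have hcS : cS S Q ≤ Q := hQ.1.2 Q (FusionSystem.Conj.refl F hQS)
  rw [CTypeAP_index hQS hc hcS] at hidx
  have hsyl := CAlperin_index F hF hQS hQ.2.1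
  have hTA : autS S Q ≤ F.aut Q := autS_le_aut F hQS
  -- the order of `T` is divisible by `p`
  have hpT : p ∣ Nat.card (autS S Q) := by
    obtain ⟨-, -, M, -, hM2, -⟩ := hQ
    have h1 : p ∣ Nat.card (F.Out Q) := hM2.trans (Subgroup.card_subgroup_dvd_card M)
    have h2 : p ∣ Nat.card (F.aut Q) := by
      refine h1.trans ?_
      have h3 := Subgroup.card_mul_index (F.inn Q)
      rw [← h3]
      exact Dvd.intro_left _ rfl
    have h3 := Subgroup.card_mul_index ((autS S Q).subgroupOf (F.aut Q))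
    rw [Nat.card_congr (Subgroup.subgroupOfEquivOfLe hTA).toEquiv] at h3
    rw [← h3] at h2
    exact (hp.dvd_mul.1 h2).resolve_right hsyl
  have hTne : autS S Q ≠ ⊥ := by
    intro h
    rw [h, Subgroup.card_bot] at hpT
    exact hp.one_lt.ne' (Nat.dvd_one.1 hpT)
  have hfixne : (CTypeAP_fix S Q).index ≠ 1 := by
    intro h
    rw [Subgroup.index_eq_one] at h
    apply hTne
    rw [eq_bot_iff]
    intro a ha
    rw [Subgroup.mem_bot]
    ext q
    have h1 : q ∈ CTypeAP_fix S Q := by rw [h]; exact Subgroup.mem_top q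
    rw [h1 a ha]
    rfl
  have hcardT : Nat.card (autS S Q) = p := by
    obtain ⟨i, hi, hi2⟩ := (Nat.dvd_prime_pow hp).1 (Dvd.intro_left _ hidx)
    interval_cases i
    · rw [hi2, pow_zero] at hpT
      exact absurd (Nat.dvd_one.1 hpT) hp.one_lt.ne'
    · rw [hi2, pow_one]
    · exfalso
      apply hfixne
      rw [hi2] at hidx
      have h1 : (CTypeAP_fix S Q).index * p ^ 2 = 1 * p ^ 2 := by rw [hidx, one_mul]
      exact Nat.eq_of_mul_eq_mul_right (pow_pos hp.pos 2) h1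
  have hfixp : (CTypeAP_fix S Q).index = p := by
    rw [hcardT] at hidx
    have h1 : (CTypeAP_fix S Q).index * p = p * p := by rw [hidx, pow_two]
    exact Nat.eq_of_mul_eq_mul_right hp.pos h1
  obtain ⟨⟨t, htT⟩, ht1⟩ := Subgroup.ne_bot_iff_exists_ne_one.1 hTne
  have ht1' : t ≠ 1 := fun h => ht1 (Subtype.ext h)
  have htp : t ^ p = 1 := by
    have h1 : (⟨t, htT⟩ : autS S Q) ^ p = 1 := by
      rw [← hcardT]
      exact pow_card_eq_one'
    exact congrArg Subtype.val h1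
  have hordt : orderOf t = p := orderOf_eq_prime htp ht1'
  have hTt : Subgroup.zpowers t = autS S Q := by
    apply Subgroup.eq_of_le_of_card_ge
    · rw [Subgroup.zpowers_le]
      exact htT
    · rw [Nat.card_zpowers, hordt, hcardT]
  have hfix : CTypeAP_fix S Q = t.toMonoidHom.eqLocus (MonoidHom.id Q) := by
    ext q
    constructor
    · intro hq
      exact hq t htT
    · intro hq a ha
      rw [← hTt] at ha
      obtain ⟨n, rfl⟩ := ha
      have h1 : t ∈ MulAction.stabilizer (MulAut Q) q := hq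
      exact Subgroup.zpow_mem _ h1 n
  rw [hfix] at hfixp
  have hc' : ∀ x y : Q, x * y = y * x := fun x y => Subtype.ext (hc x x.2 y y.2)
  obtain ⟨e, f, hTv⟩ := Trv.exists_tv hc' htp ht1' hfixp
  obtain ⟨g, hg, hgt⟩ := CTypeAP_not_normal F p hS hF hQ hc hordt hTt
  have hQp : IsPGroup p Q := hS.to_le hQS
  obtain ⟨c, h1, h2, h3⟩ := Trv.core hc' hQp
    (fun B hBA hB => CTypeAP_sylow hTA hcardT hsyl B hBA hB) hTv (hTA htT) hg hgt
  obtain ⟨V, C, ν, h4, h5, h6, h7⟩ := c.exists_VC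
  refine ⟨hc, ZMod p, inferInstance, inferInstance, inferInstance, c.θ, V, C, ν, h1, h2, ?_, h4,
    h5, h6, h7⟩
  have hTL : autS S Q ≤ c.θ.range := by
    rw [← hTt, Subgroup.zpowers_le]
    exact h3
  intro h8
  apply hsyl
  show p ∣ (autS S Q).relIndex (F.aut Q)
  rw [← Subgroup.relIndex_mul_relIndex _ _ _ hTL h1]
  exact Dvd.dvd.mul_left h8 _

end MNF
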