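import Mathlib

/-!
# Definitions for MP_0649d4_al (a Malle-Navarro type inequality for fusion systems)

* `Cocycle H k`: 2-cocycles `H × H → kˣ` (trivial action); `TwAlg α` : the twisted group algebra `k_α H`.
* `zNum A` : number of isomorphism classes of simple projective `A`-modules.
* `FusionSystem S` : a fusion system on a subgroup `S` of an ambient group `G`, given by its isomorphisms.
* `Saturated`, `Centric`, `cent` (centralizer system `C_F(x)`), `Out`, compatible families,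
  `wInv`, `kInv`, `mTop`.
-/

namespace MNF

open scoped BigOperators

/-! ## Twisted group algebras -/

section Cocycles

variable (H : Type*) [Group H] (k : Type*) [Field k]

/-- A 2-cocycle of `H` with values in `kˣ` (trivial action). -/
structure Cocycle where
  toFun : H → H → kˣ
  cocycle : ∀ a b c, toFun a b * toFun (a * b) c = toFun b c * toFun a (b * c)

end Cocycles

section Tw

variable {H : Type*} [Group H] {H' : Type*} [Group H'] {k : Type*} [Field k]

instance : CoeFun (Cocycle H k) (fun _ => H → H → kˣ) := ⟨Cocycle.toFun⟩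

theorem Cocycle.comap_aux (α : Cocycle H k) (f : H' →* H) (a b c : H') :
    α (f a) (f b) * α (f (a * b)) (f c) = α (f b) (f c) * α (f a) (f (b * c)) := by
  simpa only [map_mul] using α.cocycle (f a) (f b) (f c)

/-- Pull back of a cocycle along a group homomorphism. -/
def Cocycle.comap (α : Cocycle H k) (f : H' →* H) : Cocycle H' k where
  toFun a b := α (f a) (f b)
  cocycle := α.comap_aux f

/-- The twisted group algebra `k_α H`: the vector space with basis `H` and multiplication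
`a · b = α(a, b) ab` on basis elements. -/
def TwAlg (_α : Cocycle H k) : Type _ := H →₀ k

noncomputable instance instAddCommGroupTwAlg (α : Cocycle H k) : AddCommGroup (TwAlg α) :=
  inferInstanceAs (AddCommGroup (H →₀ k))

noncomputable instance instModuleTwAlg (α : Cocycle H k) : Module k (TwAlg α) :=
  inferInstanceAs (Module k (H →₀ k))

/-- The basis element of `k_α H` attached to `a`. -/
noncomputable def TwAlg.of (α : Cocycle H k) (a : H) : TwAlg α := (Finsupp.single a (1 : k) : H →₀ k)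

/-- The linear map out of `k_α H` with given values on the basis. -/
noncomputable def TwAlg.lift (α : Cocycle H k) {M : Type*} [AddCommMonoid M] [Module k M]
    (f : H → M) : TwAlg α →ₗ[k] M :=
  (Finsupp.lift M k H f : (H →₀ k) →ₗ[k] M)

theorem TwAlg.lift_of (α : Cocycle H k) {M : Type*} [AddCommMonoid M] [Module k M]
    (f : H → M) (a : H) : TwAlg.lift α f (TwAlg.of α a) = f a := by
  have h : (Finsupp.lift M k H f : (H →₀ k) →ₗ[k] M) (Finsupp.single a (1 : k)) = f a := by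
    rw [Finsupp.lift_apply]
    simp
  exact h

/-- The multiplication of `k_α H` as a bilinear map: `a · b = α(a, b) ab` on basis elements. -/
noncomputable def TwAlg.mulLin (α : Cocycle H k) : TwAlg α →ₗ[k] TwAlg α →ₗ[k] TwAlg α :=
  TwAlg.lift α (fun a => TwAlg.lift α (fun b => ((α a b : kˣ) : k) • TwAlg.of α (a * b)))

theorem TwAlg.mulLin_of_of (α : Cocycle H k) (a b : H) :
    TwAlg.mulLin α (TwAlg.of α a) (TwAlg.of α b) = ((α a b : kˣ) : k) • TwAlg.of α (a * b) := by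
  unfold TwAlg.mulLin
  rw [TwAlg.lift_of, TwAlg.lift_of]

/-- Two linear maps out of `k_α H` agreeing on the basis are equal. -/
theorem TwAlg.lhom_ext {α : Cocycle H k} {M : Type*} [AddCommMonoid M] [Module k M]
    {f g : TwAlg α →ₗ[k] M} (h : ∀ a, f (TwAlg.of α a) = g (TwAlg.of α a)) : f = g := by
  have : (f : (H →₀ k) →ₗ[k] M) = (g : (H →₀ k) →ₗ[k] M) := by
    apply Finsupp.lhom_ext'
    intro a
    apply LinearMap.ext_ring
    exact h a
  exact this

theorem Cocycle.one_left (α : Cocycle H k) (a : H) : α 1 a = α 1 1 := by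
  have h := α.cocycle 1 1 a
  simp only [one_mul] at h
  have h2 : α 1 1 * α 1 a = α 1 a * α 1 a := h
  exact (mul_right_cancel h2).symm

theorem Cocycle.one_right (α : Cocycle H k) (a : H) : α a 1 = α 1 1 := by
  have h := α.cocycle a 1 1
  simp only [mul_one] at h
  exact mul_right_cancel (b := α a 1) (by simpa [mul_comm] using h)

noncomputable instance (α : Cocycle H k) : Mul (TwAlg α) := ⟨fun x y => TwAlg.mulLin α x y⟩

noncomputable instance (α : Cocycle H k) : One (TwAlg α) :=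
  ⟨(((α 1 1)⁻¹ : kˣ) : k) • TwAlg.of α 1⟩

theorem TwAlg.mul_def (α : Cocycle H k) (x y : TwAlg α) : x * y = TwAlg.mulLin α x y := rfl

theorem TwAlg.one_def (α : Cocycle H k) :
    (1 : TwAlg α) = (((α 1 1)⁻¹ : kˣ) : k) • TwAlg.of α 1 := rfl

theorem TwAlg.of_mul_of (α : Cocycle H k) (a b : H) :
    TwAlg.of α a * TwAlg.of α b = ((α a b : kˣ) : k) • TwAlg.of α (a * b) :=
  TwAlg.mulLin_of_of α a b

theorem TwAlg.mul_add' (α : Cocycle H k) (x y z : TwAlg α) : x * (y + z) = x * y + x * z := by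
  simp only [TwAlg.mul_def, map_add]

theorem TwAlg.add_mul' (α : Cocycle H k) (x y z : TwAlg α) : (x + y) * z = x * z + y * z := by
  simp only [TwAlg.mul_def, map_add, LinearMap.add_apply]

theorem TwAlg.zero_mul' (α : Cocycle H k) (x : TwAlg α) : 0 * x = 0 := by
  simp only [TwAlg.mul_def, map_zero, LinearMap.zero_apply]

theorem TwAlg.mul_zero' (α : Cocycle H k) (x : TwAlg α) : x * 0 = 0 := by
  simp only [TwAlg.mul_def, map_zero]

theorem TwAlg.mul_assoc' (α : Cocycle H k) (x y z : TwAlg α) : x * y * z = x * (y * z) := by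
  have h : (TwAlg.mulLin α).compr₂ (TwAlg.mulLin α) =
      ((LinearMap.llcomp k (TwAlg α) (TwAlg α) (TwAlg α)).flip.comp (TwAlg.mulLin α)).flip.comp
        (TwAlg.mulLin α) := by
    apply TwAlg.lhom_ext
    intro a
    apply TwAlg.lhom_ext
    intro b
    apply TwAlg.lhom_ext
    intro c
    simp only [LinearMap.compr₂_apply, LinearMap.comp_apply, LinearMap.flip_apply,
      LinearMap.llcomp_apply, TwAlg.mulLin_of_of, map_smul, LinearMap.smul_apply, smul_smul]
    have h := α.cocycle a b c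
    rw [mul_assoc a b c]
    congr 1
    have := congrArg (fun u : kˣ => (u : k)) h
    simpa [Units.val_mul] using this
  have := LinearMap.congr_fun (LinearMap.congr_fun (LinearMap.congr_fun h x) y) z
  simpa [TwAlg.mul_def] using this

theorem TwAlg.one_mul' (α : Cocycle H k) (x : TwAlg α) : 1 * x = x := by
  have h : TwAlg.mulLin α 1 = LinearMap.id := by
    apply TwAlg.lhom_ext
    intro a
    rw [TwAlg.one_def, map_smul, LinearMap.smul_apply, TwAlg.mulLin_of_of, one_mul, smul_smul,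
      Cocycle.one_left α a, ← Units.val_mul, inv_mul_cancel, Units.val_one, one_smul,
      LinearMap.id_apply]
  exact LinearMap.congr_fun h x

theorem TwAlg.mul_one' (α : Cocycle H k) (x : TwAlg α) : x * 1 = x := by
  have h : (TwAlg.mulLin α).flip 1 = LinearMap.id := by
    apply TwAlg.lhom_ext
    intro a
    rw [LinearMap.flip_apply, TwAlg.one_def, map_smul, TwAlg.mulLin_of_of, mul_one, smul_smul,
      Cocycle.one_right α a, ← Units.val_mul, inv_mul_cancel, Units.val_one, one_smul,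
      LinearMap.id_apply]
  exact LinearMap.congr_fun h x

noncomputable instance instRingTwAlg (α : Cocycle H k) : Ring (TwAlg α) :=
  { instAddCommGroupTwAlg α with
  mul := fun x y => x * y
  one := 1
  left_distrib := TwAlg.mul_add' α
  right_distrib := TwAlg.add_mul' α
  zero_mul := TwAlg.zero_mul' α
  mul_zero := TwAlg.mul_zero' α
  mul_assoc := TwAlg.mul_assoc' α
  one_mul := TwAlg.one_mul' α
  mul_one := TwAlg.mul_one' α }

theorem TwAlg.smul_mul' (α : Cocycle H k) (r : k) (x y : TwAlg α) :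
    r • x * y = r • (x * y) := by
  simp only [TwAlg.mul_def, map_smul, LinearMap.smul_apply]

theorem TwAlg.mul_smul' (α : Cocycle H k) (r : k) (x y : TwAlg α) :
    x * r • y = r • (x * y) := by
  simp only [TwAlg.mul_def, map_smul]

noncomputable instance (α : Cocycle H k) : Algebra k (TwAlg α) :=
  Algebra.ofModule (TwAlg.smul_mul' α) (TwAlg.mul_smul' α)

end Tw

/-! ## Counting simple and simple projective modules -/

section Simple

variable (A : Type*) [Ring A]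

/-- Maximal left ideals of `A`, up to isomorphism of the quotient modules: this is the set of
isomorphism classes of simple `A`-modules. -/
def simpleSetoid : Setoid {m : Submodule A A // IsCoatom m} where
  r m m' := Nonempty ((A ⧸ m.1) ≃ₗ[A] (A ⧸ m'.1))
  iseqv := ⟨fun _ => ⟨LinearEquiv.refl _ _⟩, fun ⟨e⟩ => ⟨e.symm⟩, fun ⟨e⟩ ⟨f⟩ => ⟨e.trans f⟩⟩

/-- The number of isomorphism classes of simple `A`-modules. -/
noncomputable def lNum : ℕ := Nat.card (Quotient (simpleSetoid A))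

/-- Maximal left ideals `m` of `A` with `A/m` projective, up to isomorphism of the quotient
modules: this is the set of isomorphism classes of simple projective `A`-modules. -/
def simpleProjSetoid : Setoid {m : Submodule A A // IsCoatom m ∧ Module.Projective A (A ⧸ m)} where
  r m m' := Nonempty ((A ⧸ m.1) ≃ₗ[A] (A ⧸ m'.1))
  iseqv := ⟨fun _ => ⟨LinearEquiv.refl _ _⟩, fun ⟨e⟩ => ⟨e.symm⟩, fun ⟨e⟩ ⟨f⟩ => ⟨e.trans f⟩⟩

/-- `z(A)`: the number of isomorphism classes of simple projective `A`-modules. -/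
noncomputable def zNum : ℕ := Nat.card (Quotient (simpleProjSetoid A))

end Simple

/-! ## Fusion systems -/

section Fusion

variable {G : Type*} [Group G]

theorem mem_le {P Q : Subgroup G} (h : P ≤ Q) {x : G} (hx : x ∈ P) : x ∈ Q := h hx

/-- A fusion system on the subgroup `S` of `G` (take `G = S` for a fusion system on a group),
given by its isomorphisms `P ≃* Q` between subgroups of `S`: they contain the conjugations by
elements of `S` and are closed under inverses, compositions and restrictions. The morphisms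
`P → Q` of the fusion system are the isomorphisms `P ≃* P'` with `P' ≤ Q`. -/
structure FusionSystem (S : Subgroup G) where
  /-- the isomorphisms in the fusion system -/
  iso : ∀ P Q : Subgroup G, Set (P ≃* Q)
  le_left : ∀ {P Q : Subgroup G} {φ : P ≃* Q}, φ ∈ iso P Q → P ≤ S
  conj_mem : ∀ {P Q : Subgroup G} (s : G) (φ : P ≃* Q), s ∈ S → P ≤ S →
    (∀ x : P, (φ x : G) = s * x * s⁻¹) → φ ∈ iso P Q
  symm_mem : ∀ {P Q : Subgroup G} {φ : P ≃* Q}, φ ∈ iso P Q → φ.symm ∈ iso Q P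
  trans_mem : ∀ {P Q R : Subgroup G} {φ : P ≃* Q} {ψ : Q ≃* R}, φ ∈ iso P Q → ψ ∈ iso Q R →
    φ.trans ψ ∈ iso P R
  res_mem : ∀ {P Q P' Q' : Subgroup G} {φ : P ≃* Q} (ψ : P' ≃* Q') (h : P' ≤ P), φ ∈ iso P Q →
    (∀ x : P', (ψ x : G) = φ ⟨x, mem_le h x.2⟩) → ψ ∈ iso P' Q'

/-- The centralizer `C_S(P)`. -/
def cS (S P : Subgroup G) : Subgroup G := S ⊓ Subgroup.centralizer (P : Set G)

/-- The normalizer `N_S(P)`. -/
def nS (S P : Subgroup G) : Subgroup G := S ⊓ Subgroup.normalizer (P : Set G)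

theorem autS_one (S P : Subgroup G) : (1 : MulAut P) ∈ {φ : MulAut P | ∃ s ∈ S, ∀ x : P,
    (φ x : G) = s * x * s⁻¹} := ⟨1, S.one_mem, fun x => by simp⟩

theorem autS_mul (S P : Subgroup G) {φ ψ : MulAut P} (h1 : φ ∈ {φ : MulAut P | ∃ s ∈ S,
    ∀ x : P, (φ x : G) = s * x * s⁻¹}) (h2 : ψ ∈ {φ : MulAut P | ∃ s ∈ S, ∀ x : P,
    (φ x : G) = s * x * s⁻¹}) : φ * ψ ∈ {φ : MulAut P | ∃ s ∈ S, ∀ x : P,
    (φ x : G) = s * x * s⁻¹} := by
  obtain ⟨s, hs, h⟩ := h1
  obtain ⟨t, ht, h'⟩ := h2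
  refine ⟨s * t, S.mul_mem hs ht, fun x => ?_⟩
  rw [MulAut.mul_apply, h, h']
  group

theorem autS_inv (S P : Subgroup G) {φ : MulAut P} (h1 : φ ∈ {φ : MulAut P | ∃ s ∈ S,
    ∀ x : P, (φ x : G) = s * x * s⁻¹}) : φ⁻¹ ∈ {φ : MulAut P | ∃ s ∈ S, ∀ x : P,
    (φ x : G) = s * x * s⁻¹} := by
  obtain ⟨s, hs, h⟩ := h1
  refine ⟨s⁻¹, S.inv_mem hs, fun x => ?_⟩
  have h1 := h (φ⁻¹ x)
  rw [MulAut.apply_inv_self] at h1
  rw [h1]
  group

/-- `Aut_S(P)`: the automorphisms of `P` induced by conjugation with elements of `S`. -/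
def autS (S P : Subgroup G) : Subgroup (MulAut P) where
  carrier := {φ | ∃ s ∈ S, ∀ x : P, (φ x : G) = s * x * s⁻¹}
  one_mem' := autS_one S P
  mul_mem' := autS_mul S P
  inv_mem' := autS_inv S P

namespace FusionSystem

variable {S : Subgroup G} (F : FusionSystem S)

/-- `F`-conjugate subgroups. -/
def Conj (P Q : Subgroup G) : Prop := (F.iso P Q).Nonempty

/-- `F`-conjugate elements. -/
def ConjEl (x y : G) : Prop :=
  ∃ (P Q : Subgroup G) (φ : P ≃* Q) (h : x ∈ P), φ ∈ F.iso P Q ∧ (φ ⟨x, h⟩ : G) = y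

/-- `P` is fully `F`-centralized. -/
def FullyCentralized (P : Subgroup G) : Prop :=
  ∀ Q, F.Conj P Q → Nat.card (cS S Q) ≤ Nat.card (cS S P)

/-- `P` is fully `F`-normalized. -/
def FullyNormalized (P : Subgroup G) : Prop :=
  ∀ Q, F.Conj P Q → Nat.card (nS S Q) ≤ Nat.card (nS S P)

/-- `P` is `F`-centric. -/
def Centric (P : Subgroup G) : Prop := P ≤ S ∧ ∀ Q, F.Conj P Q → cS S Q ≤ Q

theorem aut_mul (P : Subgroup G) {φ ψ : MulAut P} (h1 : φ ∈ {φ | φ = 1 ∨ φ ∈ F.iso P P})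
    (h2 : ψ ∈ {φ | φ = 1 ∨ φ ∈ F.iso P P}) : φ * ψ ∈ {φ | φ = 1 ∨ φ ∈ F.iso P P} := by
  rcases h1 with rfl | h <;> rcases h2 with rfl | h'
  · exact Or.inl (one_mul 1)
  · rw [one_mul]; exact Or.inr h'
  · rw [mul_one]; exact Or.inr h
  · exact Or.inr (F.trans_mem h' h)

theorem aut_inv (P : Subgroup G) {φ : MulAut P} (h1 : φ ∈ {φ | φ = 1 ∨ φ ∈ F.iso P P}) :
    φ⁻¹ ∈ {φ | φ = 1 ∨ φ ∈ F.iso P P} := by
  rcases h1 with rfl | h
  · exact Or.inl inv_one
  · exact Or.inr (F.symm_mem h)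

/-- `Aut_F(P)`, for `P ≤ S` (and the trivial group for other `P`). -/
def aut (P : Subgroup G) : Subgroup (MulAut P) where
  carrier := {φ | φ = 1 ∨ φ ∈ F.iso P P}
  one_mem' := Or.inl rfl
  mul_mem' := F.aut_mul P
  inv_mem' := F.aut_inv P

/-- `Inn(P)` inside `Aut_F(P)`. -/
def inn (P : Subgroup G) : Subgroup (F.aut P) :=
  (MulAut.conj (G := P)).range.subgroupOf (F.aut P)

theorem inn_normal (P : Subgroup G) : (F.inn P).Normal := by
  refine ⟨fun n hn g => ?_⟩
  obtain ⟨y, hy⟩ := (Subgroup.mem_subgroupOf.mp hn)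
  refine Subgroup.mem_subgroupOf.mpr ⟨g.1 y, ?_⟩
  ext x
  have : (n : MulAut P) = MulAut.conj y := hy.symm
  simp [this, MulAut.conj_apply, MulAut.mul_apply]

instance (P : Subgroup G) : (F.inn P).Normal := F.inn_normal P

/-- `Out_F(P) = Aut_F(P)/Inn(P)`. -/
abbrev Out (P : Subgroup G) : Type _ := F.aut P ⧸ F.inn P

/-- `F` is saturated (Broto-Levi-Oliver): (I) every fully normalized `P` is fully centralized and
`Aut_S(P)` is a Sylow `p`-subgroup of `Aut_F(P)`; (II) every `φ : P ≃ Q` in `F` with `Q` fully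
centralized extends to every `R` with `P ≤ R ≤ N_φ`, where `N_φ` is the group of all
`g ∈ N_S(P)` such that `φ c_g φ⁻¹` is conjugation by an element of `S`. -/
structure Saturated (p : ℕ) : Prop where
  sylow : ∀ P, P ≤ S → F.FullyNormalized P →
    F.FullyCentralized P ∧ ¬ p ∣ (autS S P).relIndex (F.aut P)
  extend : ∀ (P Q R : Subgroup G) (φ : P ≃* Q) (hPR : P ≤ R), φ ∈ F.iso P Q →
    F.FullyCentralized Q → R ≤ S →
    (∀ g ∈ R, ∃ h ∈ S, ∀ x : P, ∃ hx : g * x * g⁻¹ ∈ P,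
      (φ ⟨g * x * g⁻¹, hx⟩ : G) = h * φ x * h⁻¹) →
    ∃ (R' : Subgroup G) (ψ : R ≃* R'), ψ ∈ F.iso R R' ∧
      ∀ x : P, (ψ ⟨x, mem_le hPR x.2⟩ : G) = φ x

/-- `Q` is `F`-essential: `F`-centric, fully normalized, and `Out_F(Q)` has a strongly
`p`-embedded subgroup. -/
def Essential (p : ℕ) (Q : Subgroup G) : Prop :=
  F.Centric Q ∧ F.FullyNormalized Q ∧
    ∃ M : Subgroup (F.Out Q), M ≠ ⊤ ∧ p ∣ Nat.card M ∧
      ∀ g : F.Out Q, g ∉ M → ¬ p ∣ Nat.card ↥(M ⊓ M.map (MulAut.conj g).toMonoidHom)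


/-- Every isomorphism of `F` restricts to every subgroup of its domain. -/
theorem exists_res {P Q P' : Subgroup G} {φ : P ≃* Q} (hφ : φ ∈ F.iso P Q) (h : P' ≤ P) :
    ∃ (Q' : Subgroup G) (ψ : P' ≃* Q'), ψ ∈ F.iso P' Q' ∧ ∀ x : P', (ψ x : G) = φ ⟨x, mem_le h x.2⟩ := by
  let f : P' →* G := (Q.subtype.comp φ.toMonoidHom).comp (Subgroup.inclusion h)
  have hf : Function.Injective f := by
    intro x y hxy
    have h1 : φ (Subgroup.inclusion h x) = φ (Subgroup.inclusion h y) := Subtype.ext hxy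
    have h2 := φ.injective h1
    exact Subgroup.inclusion_injective h h2
  refine ⟨f.range, MonoidHom.ofInjective hf, ?_, ?_⟩
  · exact F.res_mem _ h hφ (fun x => rfl)
  · intro x; rfl

/-- The isomorphisms `φ : P ≃ Q` of the centralizer fusion system `C_F(x)`: `P, Q ≤ C_S(x)` and
`φ` extends to some `ψ : P' ≃ Q'` in `F` with `P ≤ P'`, `x ∈ P'` and `ψ x = x`. -/
def centIso (x : S) (P Q : Subgroup G) : Set (P ≃* Q) :=
  {φ | P ≤ cS S (Subgroup.zpowers (x : G)) ∧ Q ≤ cS S (Subgroup.zpowers (x : G)) ∧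
    ∃ (P' Q' : Subgroup G) (ψ : P' ≃* Q') (h : P ≤ P') (hx : (x : G) ∈ P'), ψ ∈ F.iso P' Q' ∧
      (ψ ⟨x, hx⟩ : G) = x ∧ ∀ y : P, (φ y : G) = ψ ⟨y, mem_le h y.2⟩}

theorem centIso_conj (x : S) {P Q : Subgroup G} (s : G) (φ : P ≃* Q)
    (hs : s ∈ cS S (Subgroup.zpowers (x : G))) (hP : P ≤ cS S (Subgroup.zpowers (x : G)))
    (h : ∀ y : P, (φ y : G) = s * y * s⁻¹) : φ ∈ F.centIso x P Q := by
  have hQ : Q ≤ cS S (Subgroup.zpowers (x : G)) := by
    intro y hy
    have h1 := h (φ.symm ⟨y, hy⟩)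
    rw [MulEquiv.apply_symm_apply] at h1
    have h2 : y = s * (φ.symm ⟨y, hy⟩ : P) * s⁻¹ := h1
    rw [h2]
    exact mul_mem (mul_mem hs (hP (φ.symm ⟨y, hy⟩).2)) (inv_mem hs)
  refine ⟨hP, hQ, ?_⟩
  have hsx : s * x * s⁻¹ = x := by
    have h1 : s ∈ Subgroup.centralizer (Subgroup.zpowers (x : G) : Set G) := hs.2
    rw [Subgroup.mem_centralizer_iff] at h1
    have h2 := h1 x (Subgroup.mem_zpowers (x : G))
    rw [← h2]; group
  refine ⟨S, S, MulEquiv.mk' ((MulAut.conj s).toEquiv.subtypeEquiv (fun g => ?_)) ?_, ?_, x.2,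
    ?_, ?_, ?_⟩
  · constructor
    · intro hg
      exact mul_mem (mul_mem hs.1 hg) (inv_mem hs.1)
    · intro hg
      have h3 : s * g * s⁻¹ ∈ S := hg
      have : g = s⁻¹ * (s * g * s⁻¹) * s := by group
      rw [this]
      exact mul_mem (mul_mem (inv_mem hs.1) h3) hs.1
  · intro a b
    apply Subtype.ext
    simp
  · exact fun y hy => (hP hy).1
  · exact F.conj_mem s _ hs.1 le_rfl (fun y => rfl)
  · exact hsx
  · intro y
    exact h y
theorem centIso_symm (x : S) {P Q : Subgroup G} {φ : P ≃* Q} (h0 : φ ∈ F.centIso x P Q) :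
    φ.symm ∈ F.centIso x Q P := by
  obtain ⟨hP, hQ, P', Q', ψ, h, hx, hψ, hψx, hφψ⟩ := h0
  refine ⟨hQ, hP, Q', P', ψ.symm, ?_, ?_, F.symm_mem hψ, ?_, ?_⟩
  · intro y hy
    have h1 := hφψ (φ.symm ⟨y, hy⟩)
    rw [MulEquiv.apply_symm_apply] at h1
    have h2 : y = (ψ ⟨(φ.symm ⟨y, hy⟩ : P), h (φ.symm ⟨y, hy⟩).2⟩ : G) := h1
    rw [h2]
    exact (ψ _).2
  · rw [← hψx]
    exact (ψ _).2
  · have h1 : (⟨x, hx⟩ : P') = ψ.symm (ψ ⟨x, hx⟩) := (ψ.symm_apply_apply _).symm
    have h2 : ψ ⟨x, hx⟩ = ⟨(x : G), by rw [← hψx]; exact (ψ _).2⟩ := Subtype.ext hψx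
    rw [h2] at h1
    exact (congrArg (Subtype.val) h1).symm
  · intro y
    have h1 := hφψ (φ.symm y)
    rw [MulEquiv.apply_symm_apply] at h1
    have h2 : ψ ⟨(φ.symm y : P), h (φ.symm y).2⟩ =
        ⟨(y : G), by rw [h1]; exact (ψ _).2⟩ := Subtype.ext h1.symm
    have h3 := congrArg ψ.symm h2
    rw [MulEquiv.symm_apply_apply] at h3
    exact congrArg Subtype.val h3
theorem centIso_trans (x : S) {P Q R : Subgroup G} {φ : P ≃* Q} {χ : Q ≃* R}
    (h1 : φ ∈ F.centIso x P Q) (h2 : χ ∈ F.centIso x Q R) : φ.trans χ ∈ F.centIso x P R := by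
  obtain ⟨hP, hQ, P', Q', ψ, h, hx, hψ, hψx, hφψ⟩ := h1
  obtain ⟨hQ2, hR, Q'', R', ω, h', hx', hω, hωx, hχω⟩ := h2
  -- restrict `ψ` to the subgroup of all `y ∈ P'` with `ψ y ∈ Q''`
  let P'' : Subgroup G := ((Q''.subgroupOf Q').comap ψ.toMonoidHom).map P'.subtype
  have hP'' : P'' ≤ P' := by
    rintro y ⟨z, hz, rfl⟩
    exact z.2
  obtain ⟨Q3, ψ', hψ', hψψ'⟩ := F.exists_res hψ hP''
  have hQ3 : Q3 ≤ Q'' := by
    intro y hy
    have h1 := hψψ' (ψ'.symm ⟨y, hy⟩)
    rw [MulEquiv.apply_symm_apply] at h1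
    obtain ⟨z, hz, hz2⟩ := (ψ'.symm ⟨y, hy⟩).2
    have h2 : y = (ψ z : G) := by
      have h3 : (⟨(ψ'.symm ⟨y, hy⟩ : P''), hP'' (ψ'.symm ⟨y, hy⟩).2⟩ : P') = z :=
        Subtype.ext hz2.symm
      rw [h3] at h1
      exact h1
    rw [h2]
    exact Subgroup.mem_subgroupOf.mp hz
  obtain ⟨R3, ω', hω', hωω'⟩ := F.exists_res hω hQ3
  have hxP'' : (x : G) ∈ P'' := by
    refine ⟨⟨x, hx⟩, ?_, rfl⟩
    show ψ ⟨x, hx⟩ ∈ Q''.subgroupOf Q'
    rw [Subgroup.mem_subgroupOf, hψx]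
    exact hx'
  have hPP'' : P ≤ P'' := by
    intro y hy
    refine ⟨⟨y, h hy⟩, ?_, rfl⟩
    show ψ ⟨y, h hy⟩ ∈ Q''.subgroupOf Q'
    rw [Subgroup.mem_subgroupOf, ← hφψ ⟨y, hy⟩]
    exact h' (φ ⟨y, hy⟩).2
  refine ⟨hP, hR, P'', R3, ψ'.trans ω', hPP'', hxP'', F.trans_mem hψ' hω', ?_, ?_⟩
  · have h1 : (ψ' ⟨x, hxP''⟩ : G) = x := by rw [hψψ']; exact hψx
    have h2 := hωω' (ψ' ⟨x, hxP''⟩)
    have h3 : (⟨(ψ' ⟨x, hxP''⟩ : Q3), hQ3 (ψ' ⟨x, hxP''⟩).2⟩ : Q'') = ⟨x, hx'⟩ :=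
      Subtype.ext h1
    rw [h3, hωx] at h2
    exact h2
  · intro y
    have h1 : (ψ' ⟨y, hPP'' y.2⟩ : G) = φ y := by rw [hψψ']; exact (hφψ y).symm
    have h2 := hωω' (ψ' ⟨y, hPP'' y.2⟩)
    have h3 : (⟨(ψ' ⟨y, hPP'' y.2⟩ : Q3), hQ3 (ψ' ⟨y, hPP'' y.2⟩).2⟩ : Q'') =
        ⟨(φ y : G), h' (φ y).2⟩ := Subtype.ext h1
    rw [h3] at h2
    have h4 := hχω (φ y)
    show (χ (φ y) : G) = _
    rw [h4]
    exact h2.symm
theorem centIso_res (x : S) {P Q P1 Q1 : Subgroup G} {φ : P ≃* Q} (χ : P1 ≃* Q1) (h1 : P1 ≤ P)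
    (h0 : φ ∈ F.centIso x P Q) (h2 : ∀ y : P1, (χ y : G) = φ ⟨y, mem_le h1 y.2⟩) :
    χ ∈ F.centIso x P1 Q1 := by
  obtain ⟨hP, hQ, P', Q', ψ, h, hx, hψ, hψx, hφψ⟩ := h0
  refine ⟨h1.trans hP, ?_, P', Q', ψ, h1.trans h, hx, hψ, hψx, ?_⟩
  · intro y hy
    have h3 := h2 (χ.symm ⟨y, hy⟩)
    rw [MulEquiv.apply_symm_apply] at h3
    have h4 : y = (φ ⟨(χ.symm ⟨y, hy⟩ : P1), h1 (χ.symm ⟨y, hy⟩).2⟩ : G) := h3
    rw [h4]
    exact hQ (φ _).2
  · intro y
    rw [h2 y, hφψ]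

/-- The centralizer fusion system `C_F(x)` on `C_S(x)`, `x ∈ S`. -/
def cent (x : S) : FusionSystem (cS S (Subgroup.zpowers (x : G))) where
  iso P Q := F.centIso x P Q
  le_left h := h.1
  conj_mem := F.centIso_conj x
  symm_mem := F.centIso_symm x
  trans_mem := F.centIso_trans x
  res_mem := F.centIso_res x

theorem cent_aut_le (x : S) (P : Subgroup G) : (F.cent x).aut P ≤ F.aut P := by
  rintro φ (rfl | ⟨hP, _, P', Q', ψ, h, hx, hψ, hψx, hφψ⟩)
  · exact one_mem _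
  · exact Or.inr (F.res_mem φ h hψ hφψ)

theorem cent_inn_le (x : S) (P : Subgroup G) : (F.cent x).inn P ≤
    (F.inn P).comap (Subgroup.inclusion (F.cent_aut_le x P)) := by
  intro φ hφ
  rw [Subgroup.mem_comap]
  exact Subgroup.mem_subgroupOf.mpr (Subgroup.mem_subgroupOf.mp hφ)

/-- The canonical map `Out_{C_F(x)}(P) → Out_F(P)`. -/
def centOut (x : S) (P : Subgroup G) : (F.cent x).Out P →* F.Out P :=
  QuotientGroup.map _ _ (Subgroup.inclusion (F.cent_aut_le x P)) (F.cent_inn_le x P)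

end FusionSystem

/-! ## The invariants -/

section Invariants

variable {k : Type*} [Field k] {S : Subgroup G}

/-- `α` is an `F`-compatible family of 2-cocycles: whenever `Q < R` are `F`-centric with `Q`
normal in `R`, the pull backs of `α_Q` and `α_R` to the automorphism group
`A = {a ∈ Aut_F(R) : a(Q) = Q}` of the chain are cohomologous. (Only the classes of the cocycles
matter, and only the values at `F`-centric subgroups.) -/
def Compatible (F : FusionSystem S) (α : ∀ P : Subgroup G, Cocycle (F.Out P) k) : Prop :=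
  ∀ (Q R : Subgroup G) (h : Q < R), F.Centric Q → F.Centric R →
    (∀ r ∈ R, ∀ y ∈ Q, r * y * r⁻¹ ∈ Q) →
    ∃ c : F.aut R → kˣ, ∀ a b : F.aut R,
      (∀ y : R, (y : G) ∈ Q → ((a : MulAut R) y : G) ∈ Q) →
      (∀ y : R, (y : G) ∈ Q → ((b : MulAut R) y : G) ∈ Q) →
      ∀ a' b' : F.aut Q,
        (∀ y : Q, ((a' : MulAut Q) y : G) = (a : MulAut R) ⟨y, mem_le h.le y.2⟩) →
        (∀ y : Q, ((b' : MulAut Q) y : G) = (b : MulAut R) ⟨y, mem_le h.le y.2⟩) →
        α Q (QuotientGroup.mk a') (QuotientGroup.mk b') =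
          α R (QuotientGroup.mk a) (QuotientGroup.mk b) * (c a * c b * (c (a * b))⁻¹)

/-- The restriction `α(x)` of the family `α` to the centralizer system `C_F(x)`. -/
def centFam (F : FusionSystem S) (α : ∀ P : Subgroup G, Cocycle (F.Out P) k) (x : S)
    (P : Subgroup G) : Cocycle ((F.cent x).Out P) k := (α P).comap (F.centOut x P)

/-- `R` is a set of representatives of the `F`-conjugacy classes of `F`-centric subgroups. -/
def IsCentricTransversal (F : FusionSystem S) (R : Finset (Subgroup G)) : Prop :=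
  (∀ Q ∈ R, F.Centric Q) ∧ ∀ P, F.Centric P → ∃! Q, Q ∈ R ∧ F.Conj P Q

/-- `w(F, α)`, computed with the representatives `R`. -/
noncomputable def wInv (F : FusionSystem S) (α : ∀ P : Subgroup G, Cocycle (F.Out P) k)
    (R : Finset (Subgroup G)) : ℕ := ∑ Q ∈ R, zNum (TwAlg (α Q))

/-- `X` is a set of representatives of the `F`-conjugacy classes of elements of `S`, each
`⟨x⟩`, `x ∈ X`, being fully `F`-centralized. -/
def IsElementTransversal (F : FusionSystem S) (X : Finset S) : Prop :=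
  (∀ x ∈ X, F.FullyCentralized (Subgroup.zpowers (x : G))) ∧
    ∀ y : S, ∃! x, x ∈ X ∧ F.ConjEl (y : G) (x : G)

/-- `k(F, α) = ∑_{x ∈ [S/F]} w(C_F(x), α(x))`, computed with the representatives `X` of the
elements and `Y x` of the `C_F(x)`-centric subgroups. -/
noncomputable def kInv (F : FusionSystem S) (α : ∀ P : Subgroup G, Cocycle (F.Out P) k)
    (X : Finset S) (Y : S → Finset (Subgroup G)) : ℕ :=
  ∑ x ∈ X, wInv (F.cent x) (centFam F α x) (Y x)

theorem linStab_mul (F : FusionSystem S) (μ : S →* ℂˣ) {a b : F.aut S}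
    (ha : ∀ y : S, μ ((a : MulAut S) y) = μ y) (hb : ∀ y : S, μ ((b : MulAut S) y) = μ y)
    (y : S) : μ (((a * b : F.aut S) : MulAut S) y) = μ y := by
  show μ ((a : MulAut S) ((b : MulAut S) y)) = μ y
  rw [ha, hb]

theorem linStab_inv (F : FusionSystem S) (μ : S →* ℂˣ) {a : F.aut S}
    (ha : ∀ y : S, μ ((a : MulAut S) y) = μ y) (y : S) :
    μ (((a⁻¹ : F.aut S) : MulAut S) y) = μ y := by
  show μ ((a : MulAut S)⁻¹ y) = μ y
  rw [← ha ((a : MulAut S)⁻¹ y), MulAut.apply_inv_self]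

/-- The stabiliser `I(μ)` in `Out_F(S)` of the linear character `μ` of `S`. -/
def linStab (F : FusionSystem S) (μ : S →* ℂˣ) : Subgroup (F.Out S) :=
  Subgroup.map (QuotientGroup.mk' (F.inn S))
    { carrier := {a | ∀ y : S, μ ((a : MulAut S) y) = μ y}
      one_mem' := fun y => rfl
      mul_mem' := linStab_mul F μ
      inv_mem' := linStab_inv F μ }

/-- `Z` is a set of representatives of the `Out_F(S)`-orbits of linear characters of `S`. -/
def IsLinTransversal (F : FusionSystem S) (Z : Finset (S →* ℂˣ)) : Prop :=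
  ∀ μ : S →* ℂˣ, ∃! ν, ν ∈ Z ∧ ∃ a : F.aut S, ∀ y : S, ν y = μ ((a : MulAut S) y)

/-- `m(F, α, d)`, `|S| = p^d`: only `Q = S`, the chain of length zero and the linear characters
`μ` of `S` contribute, so this is `∑_{μ ∈ Lin(S)/Out_F(S)} z(k_α I(μ))`. -/
noncomputable def mTop (F : FusionSystem S) (α : ∀ P : Subgroup G, Cocycle (F.Out P) k)
    (Z : Finset (S →* ℂˣ)) : ℕ :=
  ∑ μ ∈ Z, zNum (TwAlg ((α S).comap (linStab F μ).subtype))

/-! ## The hypotheses on essential subgroups -/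

/-- (A) `Q` is abelian and `Q = V × C` where, for some finite field `K` of characteristic `p`,
`θ : SL₂(K) → Aut(Q)` has image a normal subgroup of index prime to `p` of `Aut_F(Q)`, acts
trivially on `C`, and acts on `V ≅ K²` as on the natural module. -/
def TypeA (F : FusionSystem S) (p : ℕ) (Q : Subgroup G) : Prop :=
  (∀ x ∈ Q, ∀ y ∈ Q, x * y = y * x) ∧
    ∃ (K : Type) (_ : Field K) (_ : Finite K) (_ : CharP K p)
      (θ : Matrix.SpecialLinearGroup (Fin 2) K →* MulAut Q) (V C : Subgroup Q)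
      (ν : Multiplicative (Fin 2 → K) ≃* V),
      θ.range ≤ F.aut Q ∧
      (∀ a ∈ F.aut Q, ∀ g ∈ θ.range, a * g * a⁻¹ ∈ θ.range) ∧
      ¬ p ∣ θ.range.relIndex (F.aut Q) ∧
      (∀ g v, θ g (ν (Multiplicative.ofAdd v) : Q) =
        (ν (Multiplicative.ofAdd (Matrix.mulVec g.1 v)) : Q)) ∧
      (∀ g, ∀ c ∈ C, θ g c = c) ∧ V ⊔ C = ⊤ ∧ V ⊓ C = ⊥

/-- (A') `Q` is abelian and `|N_S(Q) : Z(N_S(Q))| = p²`. -/
def TypeA' (S : Subgroup G) (p : ℕ) (Q : Subgroup G) : Prop :=
  (∀ x ∈ Q, ∀ y ∈ Q, x * y = y * x) ∧ (Subgroup.center (nS S Q)).index = p ^ 2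

/-- (B) `Q` is nonabelian of order `p³`. -/
def TypeB (p : ℕ) (Q : Subgroup G) : Prop :=
  Nat.card Q = p ^ 3 ∧ ¬ ∀ x ∈ Q, ∀ y ∈ Q, x * y = y * x

end Invariants

end Fusion

end MNF
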