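import Pool.Agent.W_0649d4.CBoundA
import Pool.Agent.W_0649d4.CBoundB
import Pool.Agent.W_0649d4.BBudget
import Pool.Agent.W_0649d4.CTypeAP
import Pool.Agent.W_0649d4.CDerived

/-! TASK Final (blueprint, section FIN). -/

namespace MNF

open scoped BigOperators

variable {G : Type*} [Group G] [Finite G] {S : Subgroup G} (F : FusionSystem S)
  {k : Type*} [Field k] [IsAlgClosed k]

section Transport

omit [Finite G]

/-- elements of `Aut_F(S)` are isomorphisms of `F`. -/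
private theorem fin_iso (a : F.aut S) : ((a : MulAut S) : S ≃* S) ∈ F.iso S S :=
  (F.mem_aut le_rfl _).1 a.2

/-- Restriction of an element of `Aut_F(S)`. -/
private theorem fin_res (a : F.aut S) {Q Q' : Subgroup G} (hQ : Q ≤ S) (hQ' : Q' ≤ S)
    (h : ∀ s : S, (s : G) ∈ Q ↔ (((a : MulAut S) s : S) : G) ∈ Q') :
    ∃ φ : Q ≃* Q', φ ∈ F.iso Q Q' ∧ ∀ x : Q, (φ x : G) = (a : MulAut S) ⟨x, hQ x.2⟩ := by
  let φ : Q ≃* Q' :=
    { toFun := fun x => ⟨((a : MulAut S) ⟨x, hQ x.2⟩ : S), (h ⟨x, hQ x.2⟩).1 x.2⟩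
      invFun := fun y => ⟨((a : MulAut S)⁻¹ ⟨y, hQ' y.2⟩ : S), by
        rw [h, MulAut.apply_inv_self]
        exact y.2⟩
      left_inv := fun x => by
        apply Subtype.ext
        show (((a : MulAut S)⁻¹ ((a : MulAut S) ⟨x, hQ x.2⟩) : S) : G) = x
        rw [MulAut.inv_apply_self]
      right_inv := fun y => by
        apply Subtype.ext
        show (((a : MulAut S) ((a : MulAut S)⁻¹ ⟨y, hQ' y.2⟩) : S) : G) = y
        rw [MulAut.apply_inv_self]
      map_mul' := fun x y => by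
        apply Subtype.ext
        show (((a : MulAut S) (⟨x, hQ x.2⟩ * ⟨y, hQ y.2⟩) : S) : G) = _
        rw [map_mul]
        rfl }
  exact ⟨φ, F.res_mem φ hQ (fin_iso F a) (fun x => rfl), fun x => rfl⟩

/-- Centralizers are transported. -/
private theorem fin_cS (a : F.aut S) {y y' : S} (h : (a : MulAut S) y = y') (s : S) :
    (s : G) ∈ cS S (Subgroup.zpowers (y : G)) ↔
      (((a : MulAut S) s : S) : G) ∈ cS S (Subgroup.zpowers (y' : G)) := by
  rw [mem_cS_zpowers, mem_cS_zpowers]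
  constructor
  · rintro ⟨-, h1⟩
    refine ⟨((a : MulAut S) s).2, ?_⟩
    have h2 : y * s = s * y := Subtype.ext h1
    have h3 := congrArg (a : MulAut S) h2
    rw [map_mul, map_mul, h] at h3
    exact congrArg Subtype.val h3
  · rintro ⟨-, h1⟩
    refine ⟨s.2, ?_⟩
    have h2 : (a : MulAut S) (y * s) = (a : MulAut S) (s * y) := by
      rw [map_mul, map_mul, h]
      exact Subtype.ext h1
    exact congrArg Subtype.val ((a : MulAut S).injective h2)

private theorem fin_mem_nS {P : Subgroup G} (hP : P ≤ S) (s : S) :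
    (s : G) ∈ nS S P ↔ ∀ t : S, (t : G) ∈ P ↔ ((s * t * s⁻¹ : S) : G) ∈ P := by
  rw [mem_nS]
  constructor
  · rintro ⟨-, h⟩ t
    exact h t
  · intro h
    refine ⟨s.2, fun x => ?_⟩
    constructor
    · intro hx
      exact (h ⟨x, hP hx⟩).1 hx
    · intro hx
      have hxS : x ∈ S := by
        have h1 := S.mul_mem (S.mul_mem (S.inv_mem s.2) (hP hx)) s.2
        have h2 : (s : G)⁻¹ * ((s : G) * x * (s : G)⁻¹) * (s : G) = x := by group
        rwa [h2] at h1
      exact (h ⟨x, hxS⟩).2 hx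

/-- Normalizers are transported. -/
private theorem fin_nS (a : F.aut S) {P P' : Subgroup G} (hP : P ≤ S) (hP' : P' ≤ S)
    (h : ∀ s : S, (s : G) ∈ P ↔ (((a : MulAut S) s : S) : G) ∈ P') (s : S) :
    (s : G) ∈ nS S P ↔ (((a : MulAut S) s : S) : G) ∈ nS S P' := by
  rw [fin_mem_nS hP, fin_mem_nS hP']
  constructor
  · intro h1 t
    have h2 : (a : MulAut S) ((a : MulAut S)⁻¹ t) = t := MulAut.apply_inv_self _ _ _
    have h3 := h1 ((a : MulAut S)⁻¹ t)
    rw [h, h, map_mul, map_mul, map_inv, h2] at h3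
    exact h3
  · intro h1 t
    rw [h, h, map_mul, map_mul, map_inv]
    exact h1 _

/-- `AConj` elements have `F`-conjugate centralizers. -/
private theorem fin_centric {y y' : S} (h : AConj F y y')
    (hc : F.Centric (cS S (Subgroup.zpowers (y : G)))) :
    F.Centric (cS S (Subgroup.zpowers (y' : G))) := by
  obtain ⟨a, ha⟩ := h
  obtain ⟨φ, hφ, -⟩ := fin_res F a (inf_le_left : cS S (Subgroup.zpowers (y : G)) ≤ S)
    (inf_le_left : cS S (Subgroup.zpowers (y' : G)) ≤ S) (fin_cS F a ha)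
  exact hc.conj ⟨φ, hφ⟩

private theorem fin_pgen (p : ℕ) {Q Q' : Subgroup G} {φ : Q ≃* Q'} (hφ : φ ∈ F.iso Q Q')
    {b : MulAut Q} (hb : b ∈ pGen F p Q) : MulAut.congr φ b ∈ pGen F p Q' := by
  have hQ : Q ≤ S := F.le_left hφ
  have hQ' : Q' ≤ S := F.le_right hφ
  have h1 : pGen F p Q ≤ (pGen F p Q').comap (MulAut.congr φ).toMonoidHom := by
    unfold pGen
    rw [Subgroup.closure_le]
    rintro c ⟨hc, n, hn⟩
    refine Subgroup.subset_closure ⟨?_, n, ?_⟩
    · have hc' := (F.mem_aut hQ c).1 hc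
      exact (F.mem_aut hQ' _).2 (F.trans_mem (F.symm_mem hφ) (F.trans_mem hc' hφ))
    · show (MulAut.congr φ c) ^ (p ^ n) = 1
      rw [← map_pow, hn, map_one]
  exact h1 hb

private theorem fin_fix (p : ℕ) {Q Q' : Subgroup G} {φ : Q ≃* Q'} (hφ : φ ∈ F.iso Q Q')
    {x : Q} (hx : x ∈ fixQ F p Q) : φ x ∈ fixQ F p Q' := by
  intro b hb
  have h1 := hx _ (fin_pgen F p (F.symm_mem hφ) hb)
  have h2 : φ.symm (b (φ.symm.symm x)) = x := h1
  rw [MulEquiv.symm_symm] at h2
  have h3 := congrArg φ h2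
  rw [MulEquiv.apply_symm_apply] at h3
  exact h3

private theorem fin_com (p : ℕ) {Q Q' : Subgroup G} {φ : Q ≃* Q'} (hφ : φ ∈ F.iso Q Q')
    {x : Q} (hx : x ∈ comQ F p Q) : φ x ∈ comQ F p Q' := by
  have h1 : comQ F p Q ≤ (comQ F p Q').comap φ.toMonoidHom := by
    unfold comQ
    rw [Subgroup.closure_le]
    rintro c ⟨a, ha, y, rfl⟩
    refine Subgroup.subset_closure ⟨MulAut.congr φ a, fin_pgen F p hφ ha, φ y, ?_⟩
    show φ (a y * y⁻¹) = φ (a (φ.symm (φ y))) * (φ y)⁻¹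
    rw [MulEquiv.symm_apply_apply, map_mul, map_inv]
  exact h1 hx

/-- The pair lemma. -/
private theorem fin_pair {X : Finset S} (hX : IsElementTransversal F X)
    {Y : S → Finset (Subgroup G)} (hY : ∀ x ∈ X, IsCentricTransversal (F.cent x) (Y x))
    {x x' : S} (hx : x ∈ X) (hx' : x' ∈ X) {Q Q' : Subgroup G} (hQ : Q ∈ Y x) (hQ' : Q' ∈ Y x')
    (a : F.aut S) (ha : (a : MulAut S) x = x')
    (h : ∀ s : S, (s : G) ∈ Q ↔ (((a : MulAut S) s : S) : G) ∈ Q') : x = x' ∧ Q = Q' := by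
  have hxx : x = x' := by
    obtain ⟨r, -, hr⟩ := hX.2 x
    have h1 := hr x ⟨hx, S, S, MulEquiv.refl S, x.2, F.refl_mem le_rfl, rfl⟩
    have h2 := hr x' ⟨hx', S, S, (a : MulAut S), x.2, fin_iso F a, by
      show (((a : MulAut S) x : S) : G) = x'
      rw [ha]⟩
    exact h1.trans h2.symm
  refine ⟨hxx, ?_⟩
  subst hxx
  have hc := (hY x hx).1 Q hQ
  have hc' := (hY x hx).1 Q' hQ'
  have hQS : Q ≤ S := fun y hy => (hc.1 hy).1
  have hQS' : Q' ≤ S := fun y hy => (hc'.1 hy).1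
  obtain ⟨φ, hφ, hφa⟩ := fin_res F a hQS hQS' h
  have hconj : (F.cent x).Conj Q Q' := by
    refine ⟨φ, hc.1, hc'.1, S, S, (a : MulAut S), hQS, x.2, fin_iso F a, ?_, hφa⟩
    show (((a : MulAut S) x : S) : G) = x
    rw [ha]
  obtain ⟨r, -, hr⟩ := (hY x hx).2 Q hc
  have h1 := hr Q ⟨hQ, FusionSystem.Conj.refl _ hc.1⟩
  have h2 := hr Q' ⟨hQ', hconj⟩
  exact h1.trans h2.symm

end Transport

/-- Kinds of pairs. -/
private def Kd (F : FusionSystem S) (p : ℕ) (x : S) (Q : Subgroup G) (y : S) (o : ℕ) : Prop :=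
  (F.FullyCentralized (Subgroup.zpowers (x : G)) ∧ Q = cS S (Subgroup.zpowers (x : G)) ∧
    y = x ∧ o = 1) ∨
  (F.Essential p Q ∧ TypeA F p Q ∧ (∃ (hx : (x : G) ∈ Q) (hy : (y : G) ∈ Q),
      (⟨x, hx⟩ : Q) ∈ fixQ F p Q ∧ (⟨x, hx⟩ : Q)⁻¹ * ⟨y, hy⟩ ∈ comQ F p Q) ∧
    cS S (Subgroup.zpowers (y : G)) = Q ∧ o = 1) ∨
  (nS S (cS S (Subgroup.zpowers (y : G))) = Q ∧ ¬ F.Centric (cS S (Subgroup.zpowers (y : G))) ∧
    p ≤ nIdx S y ∧ x ∈ Subgroup.center S ∧ Nat.card (Subgroup.center S) = p ∧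
    o = Nat.card {x' : S // ∃ a ∈ aStab F y, ((a : F.aut S) : MulAut S) x = x'})

private theorem exists_kd (p : ℕ) [Fact p.Prime] [CharP k p] (hS : IsPGroup p S)
    (hF : F.Saturated p) (hT : ∀ Q, F.Essential p Q → TypeA F p Q ∨ TypeB p Q)
    (hE : NoCentricBelow F p)
    (hC : ∀ x : S, F.FullyCentralized (Subgroup.zpowers (x : G)) →
      ¬ F.Essential p (cS S (Subgroup.zpowers (x : G))))
    (α : ∀ P : Subgroup G, Cocycle (F.Out P) k) (hα : Compatible F α) (x : S)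
    (hx : F.FullyCentralized (Subgroup.zpowers (x : G))) {Q : Subgroup G}
    (hQ : (F.cent x).Centric Q) (hz : zNum (TwAlg (centFam F α x Q)) ≠ 0) :
    ∃ y o, Kd F p x Q y o ∧ zNum (TwAlg (centFam F α x Q)) ≤ o * lam F α y := by
  by_cases h1 : Q = cS S (Subgroup.zpowers (x : G))
  · subst h1
    refine ⟨x, 1, Or.inl ⟨hx, rfl, rfl, rfl⟩, ?_⟩
    rw [one_mul]
    exact case_one F p hS hF hE α hα x hx (hC x hx)
  · have hQE := case_two F p hS hF hE α x hx hQ h1 hz
    rcases hT Q hQE with hA | hB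
    · have hxQ := mem_of_cent_centric F x hQ
      obtain ⟨h2, y, hy, h3, h4, h5⟩ := bound_A F p hS hF hE α hα hQE hA x hxQ hz
      refine ⟨y, 1, Or.inr (Or.inl ⟨hQE, hA, ⟨hxQ, hy, h2, h3⟩, h4, rfl⟩), ?_⟩
      rw [one_mul]
      exact h5
    · obtain ⟨h2, y, hy, h3, h4, h5, h6⟩ := bound_B F p hS hF hE α hα hQE hB
      obtain ⟨h7, h8⟩ := h6 x hQ
      exact ⟨y, _, Or.inr (Or.inr ⟨h3, h4, h5, h7, h2, rfl⟩), h8⟩

private theorem fin_A (p : ℕ) [Fact p.Prime] (hS : IsPGroup p S) (hF : F.Saturated p)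
    {x y x' y' : S} {Q Q' : Subgroup G} (hQS : Q ≤ S) (hQ' : F.Essential p Q')
    (hA' : TypeA F p Q') (hx : (x : G) ∈ Q) (hy : (y : G) ∈ Q)
    (h1 : (⟨x, hx⟩ : Q) ∈ fixQ F p Q) (h2 : (⟨x, hx⟩ : Q)⁻¹ * ⟨y, hy⟩ ∈ comQ F p Q)
    (hx' : (x' : G) ∈ Q') (hy' : (y' : G) ∈ Q')
    (h1' : (⟨x', hx'⟩ : Q') ∈ fixQ F p Q') (h2' : (⟨x', hx'⟩ : Q')⁻¹ * ⟨y', hy'⟩ ∈ comQ F p Q')
    (a : F.aut S) (ha : (a : MulAut S) y = y')
    (h : ∀ s : S, (s : G) ∈ Q ↔ (((a : MulAut S) s : S) : G) ∈ Q') : (a : MulAut S) x = x' := by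
  obtain ⟨φ, hφ, hφa⟩ := fin_res F a hQS hQ'.1.1 h
  obtain ⟨D⟩ := exists_dataA F p hS hF hQ' hA'
  have hb : fixQ F p Q' ⊓ comQ F p Q' = ⊥ := by
    rw [D.fix, D.com, inf_comm]
    exact D.inf
  have e1 := fin_fix F p hφ h1
  have e2 := fin_com F p hφ h2
  have e3 : φ ⟨y, hy⟩ = ⟨y', hy'⟩ := by
    apply Subtype.ext
    rw [hφa]
    exact congrArg Subtype.val ha
  have e4 : (⟨x', hx'⟩ : Q')⁻¹ * φ ⟨x, hx⟩ =
      ((⟨x', hx'⟩ : Q')⁻¹ * ⟨y', hy'⟩) * (φ ((⟨x, hx⟩ : Q)⁻¹ * ⟨y, hy⟩))⁻¹ := by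
    rw [map_mul, map_inv, e3]
    group
  have e5 : (⟨x', hx'⟩ : Q')⁻¹ * φ ⟨x, hx⟩ ∈ fixQ F p Q' ⊓ comQ F p Q' := by
    refine ⟨(fixQ F p Q').mul_mem ((fixQ F p Q').inv_mem h1') e1, ?_⟩
    rw [e4]
    exact (comQ F p Q').mul_mem h2' ((comQ F p Q').inv_mem e2)
  rw [hb, Subgroup.mem_bot, inv_mul_eq_one] at e5
  apply Subtype.ext
  have e6 := hφa ⟨x, hx⟩
  rw [← e5] at e6
  exact e6.symm

/-- The sum over a class. -/
private theorem fin_class (p : ℕ) [Fact p.Prime] (hS : IsPGroup p S) (hF : F.Saturated p)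
    (hC : ∀ x : S, F.FullyCentralized (Subgroup.zpowers (x : G)) →
      ¬ F.Essential p (cS S (Subgroup.zpowers (x : G))))
    {X : Finset S} (hX : IsElementTransversal F X)
    {Y : S → Finset (Subgroup G)} (hY : ∀ x ∈ X, IsCentricTransversal (F.cent x) (Y x))
    (T : Finset (Σ _ : S, Subgroup G)) (hT : ∀ i ∈ T, i.1 ∈ X ∧ i.2 ∈ Y i.1)
    (y : (Σ _ : S, Subgroup G) → S) (o : (Σ _ : S, Subgroup G) → ℕ)
    (hk : ∀ i ∈ T, Kd F p i.1 i.2 (y i) (o i)) (P : (Σ _ : S, Subgroup G) → Prop)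
    [DecidablePred P] (j : Σ _ : S, Subgroup G) (hj : j ∈ T)
    (hP : ∀ i, P i ↔ AConj F (y i) (y j)) :
    ∑ i ∈ T.filter P, o i ≤ nIdx S (y j) := by
  classical
  have hn : 1 ≤ nIdx S (y j) := Nat.one_le_iff_ne_zero.2 Subgroup.index_ne_zero_of_finite
  have hsub : ∀ i ∈ T, i.2 ≤ S := fun i hi t ht =>
    (((hY i.1 (hT i hi).1).1 i.2 (hT i hi).2).1 ht).1
  have hess : ∀ {s t : S}, AConj F s t → F.Essential p (cS S (Subgroup.zpowers (s : G))) →
      F.Essential p (cS S (Subgroup.zpowers (t : G))) := by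
    rintro s t ⟨a, ha⟩ hs
    obtain ⟨φ, hφ, hφa⟩ := fin_res F a (inf_le_left : cS S (Subgroup.zpowers (s : G)) ≤ S)
      (inf_le_left : cS S (Subgroup.zpowers (t : G)) ≤ S) (fin_cS F a ha)
    exact essential_image F p hs (fin_iso F a) φ hφa
  -- a class with only one pair
  have hone : (∀ i ∈ T, AConj F (y i) (y j) → i = j) → o j = 1 →
      ∑ i ∈ T.filter P, o i ≤ nIdx S (y j) := by
    intro h1 h2
    have h3 : T.filter P ⊆ {j} := by
      intro i hi
      obtain ⟨h4, h5⟩ := Finset.mem_filter.1 hi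
      exact Finset.mem_singleton.2 (h1 i h4 ((hP i).1 h5))
    refine (Finset.sum_le_sum_of_subset h3).trans ?_
    rw [Finset.sum_singleton, h2]
    exact hn
  have hext : ∀ i ∈ T, ∀ i' ∈ T, ∀ a : F.aut S, (a : MulAut S) i.1 = i'.1 →
      (∀ s : S, (s : G) ∈ i.2 ↔ (((a : MulAut S) s : S) : G) ∈ i'.2) → i = i' := by
    intro i hi i' hi' a h1 h2
    obtain ⟨h3, h4⟩ := fin_pair F hX hY (hT i hi).1 (hT i' hi').1 (hT i hi).2 (hT i' hi').2 a h1 h2
    exact Sigma.ext h3 (heq_of_eq h4)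
  rcases hk j hj with ⟨a1, a2, a3, a4⟩ | ⟨a1, a2, ⟨a3, a3', a3'', a3'''⟩, a4, a5⟩ |
    ⟨a1, a2, a3, a4, a5, a6⟩
  · -- first kind
    refine hone (fun i hi hij => ?_) a4
    have hcj : F.Centric (cS S (Subgroup.zpowers (y j : G))) := by
      rw [a3]
      exact centric_cS F _ a1
    rcases hk i hi with ⟨b1, b2, b3, b4⟩ | ⟨b1, b2, b3, b4, b5⟩ | ⟨b1, b2, b3, b4, b5, b6⟩
    · obtain ⟨a, ha⟩ := hij
      rw [b3, a3] at ha
      refine hext i hi j hj a ha ?_
      rw [b2, a2]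
      exact fin_cS F a ha
    · exfalso
      rw [← b4] at b1
      have h1 := hess hij b1
      rw [a3] at h1
      exact hC _ a1 h1
    · exact absurd (fin_centric F (AConj.symm F hij) hcj) b2
  · -- kind A
    refine hone (fun i hi hij => ?_) a5
    have hej : F.Essential p (cS S (Subgroup.zpowers (y j : G))) := by
      rw [a4]
      exact a1
    rcases hk i hi with ⟨b1, b2, b3, b4⟩ | ⟨b1, b2, ⟨b3, b3', b3'', b3'''⟩, b4, b5⟩ |
      ⟨b1, b2, b3, b4, b5, b6⟩
    · exfalso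
      have h1 := hess (AConj.symm F hij) hej
      rw [b3] at h1
      exact hC _ b1 h1
    · obtain ⟨a, ha⟩ := hij
      have h1 : ∀ s : S, (s : G) ∈ i.2 ↔ (((a : MulAut S) s : S) : G) ∈ j.2 := by
        rw [← b4, ← a4]
        exact fin_cS F a ha
      exact hext i hi j hj a (fin_A F p hS hF (hsub i hi) a1 a2 b3 b3' b3'' b3''' a3 a3' a3'' a3'''
        a ha h1) h1
    · exact absurd (fin_centric F (AConj.symm F hij) hej.1) b2
  · -- kind B
    have : Fintype S := Fintype.ofFinite S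
    have hB : ∀ i ∈ T.filter P, AConj F (y i) (y j) ∧
        nS S (cS S (Subgroup.zpowers (y i : G))) = i.2 ∧ i.1 ∈ Subgroup.center S ∧
        o i = Nat.card {x' : S // ∃ a ∈ aStab F (y i), ((a : F.aut S) : MulAut S) i.1 = x'} := by
      intro i hi
      obtain ⟨hi1, hi2⟩ := Finset.mem_filter.1 hi
      have hij := (hP i).1 hi2
      rcases hk i hi1 with ⟨b1, b2, b3, b4⟩ | ⟨b1, b2, b3, b4, b5⟩ | ⟨b1, b2, b3, b4, b5, b6⟩
      · exfalso
        apply a2
        refine fin_centric F hij ?_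
        rw [b3]
        exact centric_cS F _ b1
      · exfalso
        apply a2
        refine fin_centric F hij ?_
        rw [b4]
        exact b1.1
      · exact ⟨hij, b1, b4, b6⟩
    have hex : ∀ i ∈ T.filter P, ∃ a : F.aut S, (a : MulAut S) (y i) = y j := fun i hi =>
      (hB i hi).1
    choose! a ha using hex
    let R : (Σ _ : S, Subgroup G) → Finset S := fun i => Finset.univ.filter fun x' =>
      ∃ b ∈ aStab F (y j), ((b : F.aut S) : MulAut S) ((a i : MulAut S) i.1) = x'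
    have hR : ∀ i x', x' ∈ R i ↔
        ∃ b ∈ aStab F (y j), ((b : F.aut S) : MulAut S) ((a i : MulAut S) i.1) = x' := by
      intro i x'
      simp [R]
    have hcard : ∀ i ∈ T.filter P, o i = (R i).card := by
      intro i hi
      have hcR : (R i).card = Nat.card {x' // x' ∈ R i} := by
        rw [Nat.card_eq_fintype_card, Fintype.card_coe]
      rw [(hB i hi).2.2.2, hcR]
      refine Nat.card_congr ((a i : MulAut S).toEquiv.subtypeEquiv fun x' => ?_)
      rw [hR]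
      constructor
      · rintro ⟨b, hb, rfl⟩
        refine ⟨a i * b * (a i)⁻¹, ?_, ?_⟩
        · show (a i : MulAut S) ((b : MulAut S) ((a i : MulAut S)⁻¹ (y j))) = y j
          have h1 : (a i : MulAut S)⁻¹ (y j) = y i := by
            rw [← ha i hi, MulAut.inv_apply_self]
          have h2 : (b : MulAut S) (y i) = y i := hb
          rw [h1, h2, ha i hi]
        · show (a i : MulAut S) ((b : MulAut S) ((a i : MulAut S)⁻¹ ((a i : MulAut S) i.1))) = _
          rw [MulAut.inv_apply_self]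
          rfl
      · rintro ⟨c, hc, hcx⟩
        refine ⟨(a i)⁻¹ * c * a i, ?_, ?_⟩
        · show (a i : MulAut S)⁻¹ ((c : MulAut S) ((a i : MulAut S) (y i))) = y i
          have h2 : (c : MulAut S) (y j) = y j := hc
          rw [ha i hi, h2, ← ha i hi, MulAut.inv_apply_self]
        · show (a i : MulAut S)⁻¹ ((c : MulAut S) ((a i : MulAut S) i.1)) = x'
          rw [hcx]
          exact MulAut.inv_apply_self _ _ _
    rw [Finset.sum_congr rfl hcard]
    have hdis : Set.PairwiseDisjoint ((T.filter P : Finset _) : Set (Σ _ : S, Subgroup G)) R := by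
      intro i hi i' hi' hne
      have hi1 := Finset.mem_coe.1 hi
      have hi1' := Finset.mem_coe.1 hi'
      show Disjoint (R i) (R i')
      rw [Finset.disjoint_left]
      intro x' h1 h2
      obtain ⟨b, hb, hbx⟩ := (hR i x').1 h1
      obtain ⟨b', hb', hbx'⟩ := (hR i' x').1 h2
      apply hne
      have hbj : (b : MulAut S) (y j) = y j := hb
      have hbj' : (b' : MulAut S) (y j) = y j := hb'
      have hbj2 : (b' : MulAut S)⁻¹ (y j) = y j := by
        conv_lhs => rw [← hbj']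
        rw [MulAut.inv_apply_self]
      have hy' : ((((a i')⁻¹ * b'⁻¹ * b * a i : F.aut S)) : MulAut S) (y i) = y i' := by
        show (a i' : MulAut S)⁻¹ ((b' : MulAut S)⁻¹ ((b : MulAut S) ((a i : MulAut S) (y i)))) = y i'
        rw [ha i hi1, hbj, hbj2, ← ha i' hi1', MulAut.inv_apply_self]
      have hx' : ((((a i')⁻¹ * b'⁻¹ * b * a i : F.aut S)) : MulAut S) i.1 = i'.1 := by
        show (a i' : MulAut S)⁻¹ ((b' : MulAut S)⁻¹ ((b : MulAut S) ((a i : MulAut S) i.1))) = i'.1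
        rw [hbx, ← hbx', MulAut.inv_apply_self, MulAut.inv_apply_self]
      refine hext i (Finset.mem_filter.1 hi1).1 i' (Finset.mem_filter.1 hi1').1 _ hx' ?_
      rw [← (hB i hi1).2.1, ← (hB i' hi1').2.1]
      exact fin_nS F _ inf_le_left inf_le_left (fin_cS F _ hy')
    rw [← Finset.card_biUnion hdis]
    have hsubc : (T.filter P).biUnion R ⊆
        Finset.univ.filter (fun x' : S => x' ∈ Subgroup.center S) := by
      intro x' hx'
      obtain ⟨i, hi, hxi⟩ := Finset.mem_biUnion.1 hx'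
      obtain ⟨b, _, hbx⟩ := (hR i x').1 hxi
      rw [Finset.mem_filter]
      refine ⟨Finset.mem_univ _, ?_⟩
      have hchar : ∀ (f : MulAut S) (z : S), z ∈ Subgroup.center S → f z ∈ Subgroup.center S := by
        intro f z hz
        rw [Subgroup.mem_center_iff] at hz ⊢
        intro g
        have h1 := hz (f⁻¹ g)
        have h2 := congrArg f h1
        rw [map_mul, map_mul, MulAut.apply_inv_self] at h2
        exact h2
      rw [← hbx]
      exact hchar _ _ (hchar _ _ (hB i hi).2.2.1)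
    refine (Finset.card_le_card hsubc).trans ?_
    have h1 : (Finset.univ.filter (fun x' : S => x' ∈ Subgroup.center S)).card = p := by
      rw [← a5, Nat.card_eq_fintype_card, Fintype.card_subtype]
    rw [h1]
    exact a3

omit [IsAlgClosed k] in
/-- The combinatorial lemma. -/
private theorem fin_comb (p : ℕ) [Fact p.Prime] [CharP k p] (hS : IsPGroup p S)
    (hout : ¬ p ∣ Nat.card (F.Out S)) (α : ∀ P : Subgroup G, Cocycle (F.Out P) k)
    (Z : Finset (S →* ℂˣ)) (hZ : IsLinTransversal F Z) {ι : Type*} (T : Finset ι) (z o : ι → ℕ)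
    (y : ι → S) (hz : ∀ i ∈ T, z i ≤ o i * lam F α (y i))
    (ho : ∀ (j : ι), j ∈ T → ∀ (P : ι → Prop) [DecidablePred P],
      (∀ i, P i ↔ AConj F (y i) (y j)) → ∑ i ∈ T.filter P, o i ≤ nIdx S (y j)) :
    ∑ i ∈ T, z i ≤ Nat.card (ConjClasses (commutator S)) * mTop F α Z := by
  classical
  let st : Setoid S :=
    { r := AConj F
      iseqv := ⟨fun s => ⟨1, rfl⟩, fun h => AConj.symm F h, fun h h' => AConj.trans F h h'⟩ }
  let rep : S → S := fun s => (Quotient.mk st s).out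
  have hrep : ∀ s, AConj F (rep s) s := fun s =>
    Quotient.exact (s := st) (Quotient.out_eq (Quotient.mk st s))
  have hrep2 : ∀ s t, AConj F s t → rep s = rep t := by
    intro s t h
    show (Quotient.mk st s).out = (Quotient.mk st t).out
    have h1 : Quotient.mk st s = Quotient.mk st t := Quotient.sound h
    rw [h1]
  have hrep3 : ∀ s t, rep s = rep t → AConj F s t := by
    intro s t h
    have h1 := AConj.symm F (hrep s)
    rw [h] at h1
    exact AConj.trans F h1 (hrep t)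
  have hb := budget F p hS hout α (T.image fun i => rep (y i)) (by
    intro u hu v hv huv
    obtain ⟨i, hi, rfl⟩ := Finset.mem_image.1 hu
    obtain ⟨j, hj, rfl⟩ := Finset.mem_image.1 hv
    exact hrep2 _ _ (AConj.trans F (AConj.symm F (hrep (y i))) (AConj.trans F huv (hrep (y j)))))
    Z hZ
  calc ∑ i ∈ T, z i ≤ ∑ i ∈ T, o i * lam F α (y i) := Finset.sum_le_sum hz
    _ = ∑ r ∈ T.image (fun i => rep (y i)), ∑ i ∈ T.filter (fun i => rep (y i) = r),
        o i * lam F α (y i) :=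
      (Finset.sum_fiberwise_of_maps_to (fun i hi => Finset.mem_image_of_mem _ hi) _).symm
    _ ≤ ∑ r ∈ T.image (fun i => rep (y i)), nIdx S r * lam F α r := by
      refine Finset.sum_le_sum fun r hr => ?_
      obtain ⟨j, hj, rfl⟩ := Finset.mem_image.1 hr
      have h1 : ∀ i ∈ T.filter (fun i => rep (y i) = rep (y j)), o i * lam F α (y i) =
          o i * lam F α (rep (y j)) := by
        intro i hi
        rw [← (Finset.mem_filter.1 hi).2, AConj.lam_eq F α (hrep (y i))]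
      rw [Finset.sum_congr rfl h1, ← Finset.sum_mul]
      refine Nat.mul_le_mul_right _ ?_
      rw [AConj.nIdx_eq F (hrep (y j))]
      exact ho j hj _ fun i => ⟨fun h => hrep3 _ _ h, fun h => hrep2 _ _ h⟩
    _ ≤ _ := hb

theorem main_ineq (p : ℕ) [Fact p.Prime] [CharP k p] (hS : IsPGroup p S) (hF : F.Saturated p)
    (hT : ∀ Q, F.Essential p Q → TypeA F p Q ∨ TypeB p Q)
    (α : ∀ P : Subgroup G, Cocycle (F.Out P) k) (hα : Compatible F α)
    (X : Finset S) (hX : IsElementTransversal F X)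
    (Y : S → Finset (Subgroup G)) (hY : ∀ x ∈ X, IsCentricTransversal (F.cent x) (Y x))
    (Z : Finset (S →* ℂˣ)) (hZ : IsLinTransversal F Z) :
    kInv F α X Y ≤ Nat.card (ConjClasses (commutator S)) * mTop F α Z := by
  classical
  have hE : NoCentricBelow F p := by
    intro Q hQ R hR hRQ
    rcases hT Q hQ with h | h
    · exact noCentricBelow_of_comm F hQ.1.1 h.1 hR hRQ
    · exact noCentricBelow_typeB F p hS hF hQ h hR hRQ
  have hC : ∀ x : S, F.FullyCentralized (Subgroup.zpowers (x : G)) →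
      ¬ F.Essential p (cS S (Subgroup.zpowers (x : G))) := by
    intro x hx hQ
    rcases hT _ hQ with h | h
    · exact typeA_cS_ne F p hS hF hQ h x hx rfl
    · exact typeB_cS_ne F p hS hF hQ h x rfl
  set T : Finset (Σ _ : S, Subgroup G) := (X.sigma Y).filter
    (fun i => zNum (TwAlg (centFam F α i.1 i.2)) ≠ 0) with hTdef
  have hTX : ∀ i ∈ T, i.1 ∈ X ∧ i.2 ∈ Y i.1 := by
    intro i hi
    exact Finset.mem_sigma.1 (Finset.mem_filter.1 hi).1
  have hk : ∀ i ∈ T, ∃ y o, Kd F p i.1 i.2 y o ∧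
      zNum (TwAlg (centFam F α i.1 i.2)) ≤ o * lam F α y := by
    intro i hi
    exact exists_kd F p hS hF hT hE hC α hα i.1 (hX.1 i.1 (hTX i hi).1)
      ((hY i.1 (hTX i hi).1).1 i.2 (hTX i hi).2) (Finset.mem_filter.1 hi).2
  choose! y o hK hz using hk
  have hsum : kInv F α X Y = ∑ i ∈ T, zNum (TwAlg (centFam F α i.1 i.2)) := by
    rw [hTdef, Finset.sum_filter_ne_zero, Finset.sum_sigma]
    rfl
  rw [hsum]
  exact fin_comb F p hS (card_out F p hF) α Z hZ T _ o y hz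
    (fun j hj P _ hP => fin_class F p hS hF hC hX hY T hTX y o hK P j hj hP)

theorem main (p : ℕ) [Fact p.Prime] [CharP k p] (hS : IsPGroup p S) (hF : F.Saturated p)
    (hT : (∀ Q, F.Essential p Q → TypeA F p Q ∨ TypeA' S p Q ∨ TypeB p Q) ∨
      Nat.card (commutator S) = p)
    (α : ∀ P : Subgroup G, Cocycle (F.Out P) k) (hα : Compatible F α)
    (X : Finset S) (hX : IsElementTransversal F X)
    (Y : S → Finset (Subgroup G)) (hY : ∀ x ∈ X, IsCentricTransversal (F.cent x) (Y x))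
    (Z : Finset (S →* ℂˣ)) (hZ : IsLinTransversal F Z) :
    kInv F α X Y ≤ Nat.card (ConjClasses (commutator S)) * mTop F α Z := by
  apply main_ineq F p hS hF ?_ α hα X hX Y hY Z hZ
  intro Q hQ
  rcases hT with h | h
  · rcases h Q hQ with h1 | h1 | h1
    · exact Or.inl h1
    · exact Or.inl (typeA_of_typeA' F p hS hF hQ h1)
    · exact Or.inr h1
  · exact Or.inl (typeA_of_typeA' F p hS hF hQ (typeA'_of_card F p hS hF h hQ))

end MNF
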