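import Pool.Agent.W_0649d4.Defs

/-! Shared definitions for the proof (not used in the statement). -/

namespace MNF

open scoped BigOperators

section Tw

variable {H : Type*} [Group H] {k : Type*} [Field k]

/-- Cohomologous cocycles. -/
def Cocycle.Cohom (α β : Cocycle H k) : Prop :=
  ∃ c : H → kˣ, ∀ a b, α a b = β a b * (c a * c b * (c (a * b))⁻¹)

end Tw

section SL

variable (K : Type*) [Field K]

/-- upper unipotent -/
def slU (s : K) : Matrix.SpecialLinearGroup (Fin 2) K :=
  ⟨!![1, s; 0, 1], by simp [Matrix.det_fin_two_of]⟩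

/-- lower unipotent -/
def slV (s : K) : Matrix.SpecialLinearGroup (Fin 2) K :=
  ⟨!![1, 0; s, 1], by simp [Matrix.det_fin_two_of]⟩

/-- the Weyl element `[[0,1],[-1,0]]` -/
def slW : Matrix.SpecialLinearGroup (Fin 2) K :=
  ⟨!![0, 1; -1, 0], by simp [Matrix.det_fin_two_of]⟩

/-- diagonal -/
def slD (c : Kˣ) : Matrix.SpecialLinearGroup (Fin 2) K :=
  ⟨!![(c : K), 0; 0, ((c⁻¹ : Kˣ) : K)], by simp [Matrix.det_fin_two_of]⟩

end SL

section Fusion

variable {G : Type*} [Group G] {S : Subgroup G} {k : Type*} [Field k]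

/-- The stabiliser in `Aut_F(S)` of an element of `S`. -/
def aStab (F : FusionSystem S) (y : S) : Subgroup (F.aut S) where
  carrier := {a | (a : MulAut S) y = y}
  one_mem' := rfl
  mul_mem' := fun {a b} ha hb => by
    show (a : MulAut S) ((b : MulAut S) y) = y
    rw [show (b : MulAut S) y = y from hb]; exact ha
  inv_mem' := fun {a} ha => by
    show (a : MulAut S)⁻¹ y = y
    rw [show ((a : MulAut S)⁻¹ y = y) ↔ y = (a : MulAut S) y from
      ⟨fun h => by rw [← h, MulAut.apply_inv_self, h], fun h => by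
        conv_lhs => rw [h]
        rw [MulAut.inv_apply_self]⟩]
    exact (show (a : MulAut S) y = y from ha).symm

/-- `E_y`: the image of `aStab F y` in `Out_F(S)`, i.e. the stabiliser of the `S`-class of `y`. -/
def elStab (F : FusionSystem S) (y : S) : Subgroup (F.Out S) :=
  (aStab F y).map (QuotientGroup.mk' (F.inn S))

/-- `λ(y) = l(k_α E_y)`. -/
noncomputable def lam (F : FusionSystem S) (α : ∀ P : Subgroup G, Cocycle (F.Out P) k) (y : S) :
    ℕ := lNum (TwAlg ((α S).comap (elStab F y).subtype))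

/-- `n(y) = |S : S' C_S(y)|`. -/
noncomputable def nIdx (S : Subgroup G) (y : S) : ℕ :=
  (commutator S ⊔ Subgroup.centralizer ({y} : Set S)).index

/-- `Aut_F(S)`-conjugate elements of `S`. -/
def AConj (F : FusionSystem S) (y y' : S) : Prop := ∃ a : F.aut S, (a : MulAut S) y = y'

/-- Isomorphisms which are composites of restrictions of elements of `Aut_F(R)`, where `R = S` or
`R` is essential. -/
inductive Gen (F : FusionSystem S) (p : ℕ) : ∀ {P Q : Subgroup G}, (P ≃* Q) → Prop
  | base {P Q : Subgroup G} (φ : P ≃* Q) (R : Subgroup G) (hP : P ≤ R) (ψ : R ≃* R)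
      (hψ : ψ ∈ F.iso R R) (hR : R = S ∨ F.Essential p R)
      (h : ∀ x : P, (φ x : G) = ψ ⟨x, hP x.2⟩) : Gen F p φ
  | trans {P Q R : Subgroup G} {φ : P ≃* Q} {ψ : Q ≃* R} (h1 : Gen F p φ) (h2 : Gen F p ψ) :
      Gen F p (φ.trans ψ)

/-- The subgroup of `Aut(Q)` generated by the `p`-elements of `Aut_F(Q)`. -/
def pGen (F : FusionSystem S) (p : ℕ) (Q : Subgroup G) : Subgroup (MulAut Q) :=
  Subgroup.closure {a | a ∈ F.aut Q ∧ ∃ n : ℕ, a ^ (p ^ n) = 1}

/-- `C_Q(L)`, `L = pGen F p Q`. -/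
def fixQ (F : FusionSystem S) (p : ℕ) (Q : Subgroup G) : Subgroup Q where
  carrier := {c | ∀ a ∈ pGen F p Q, a c = c}
  one_mem' := fun a _ => map_one a
  mul_mem' := fun ha hb a h => by rw [map_mul, ha a h, hb a h]
  inv_mem' := fun ha a h => by rw [map_inv, ha a h]

/-- `[Q, L]`, `L = pGen F p Q`. -/
def comQ (F : FusionSystem S) (p : ℕ) (Q : Subgroup G) : Subgroup Q :=
  Subgroup.closure {c | ∃ a ∈ pGen F p Q, ∃ y : Q, c = a y * y⁻¹}

end Fusion

end MNF
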