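import Pool.Agent.W_0649d4.Iface

/-! Generation of `SL₂(K)` and matrix identities. -/

namespace MNF

variable {K : Type*} [Field K]

theorem slU_add (s t : K) : slU K (s + t) = slU K s * slU K t := by
  apply Subtype.ext
  simp [slU, Matrix.mul_fin_two, add_comm]

theorem slV_add (s t : K) : slV K (s + t) = slV K s * slV K t := by
  apply Subtype.ext
  simp [slV]

theorem slU_zero : slU K 0 = 1 := by
  apply Subtype.ext
  ext i j; fin_cases i <;> fin_cases j <;> simp [slU]

theorem slV_zero : slV K 0 = 1 := by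
  apply Subtype.ext
  ext i j; fin_cases i <;> fin_cases j <;> simp [slV]

theorem slU_injective : Function.Injective (slU K) := by
  intro s t h
  have := congrArg (fun g => g.1 0 1) h
  simpa [slU] using this

theorem slV_injective : Function.Injective (slV K) := by
  intro s t h
  have := congrArg (fun g => g.1 1 0) h
  simpa [slV] using this

/-- the matrix `[[0, c], [-c⁻¹, 0]]` -/
def slWc (c : Kˣ) : Matrix.SpecialLinearGroup (Fin 2) K :=
  ⟨!![0, (c : K); -((c⁻¹ : Kˣ) : K), 0], by simp [Matrix.det_fin_two_of]⟩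

theorem slWc_one : slWc (1 : Kˣ) = slW K := by
  apply Subtype.ext
  simp [slWc, slW]

theorem slWc_eq (c : Kˣ) : slWc c = slU K c * slV K (-((c⁻¹ : Kˣ) : K)) * slU K c := by
  apply Subtype.ext
  simp [slWc, slU, slV]

theorem slWc_eq' (c : Kˣ) : slWc c = slD K c * slW K := by
  apply Subtype.ext
  simp [slWc, slD, slW]

theorem slW_mul_slU (s : K) : slW K * slU K s = slV K (-s) * slW K := by
  apply Subtype.ext
  simp [slW, slU, slV]

theorem slWc_mul_slU (c : Kˣ) (s : K) :
    slWc c * slU K s = slV K (-(s * (c⁻¹ : Kˣ) * (c⁻¹ : Kˣ))) * slWc c := by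
  apply Subtype.ext
  simp [slWc, slU, slV]
  ring_nf

theorem sl_gen : Subgroup.closure ({g | ∃ s, g = slU K s} ∪ {slW K}) =
    (⊤ : Subgroup (Matrix.SpecialLinearGroup (Fin 2) K)) := by
  rw [eq_top_iff]
  intro g _
  set C := Subgroup.closure ({g | ∃ s, g = slU K s} ∪ {slW K}) with hC
  have hU : ∀ s, slU K s ∈ C := fun s => Subgroup.subset_closure (Or.inl ⟨s, rfl⟩)
  have hW : slW K ∈ C := Subgroup.subset_closure (Or.inr rfl)
  have hV : ∀ s, slV K s ∈ C := by
    intro s
    have h1 := slW_mul_slU (K := K) (-s)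
    rw [neg_neg] at h1
    have h2 : slV K s = slW K * slU K (-s) * (slW K)⁻¹ := by rw [h1]; group
    rw [h2]
    exact C.mul_mem (C.mul_mem hW (hU _)) (C.inv_mem hW)
  have key : ∀ g : Matrix.SpecialLinearGroup (Fin 2) K, g.1 1 0 ≠ 0 → g ∈ C := by
    intro g hg
    have hdet : g.1 0 0 * g.1 1 1 - g.1 0 1 * g.1 1 0 = 1 := by
      have := g.2
      rwa [Matrix.det_fin_two] at this
    have h1 : g = slU K ((g.1 0 0 - 1) / g.1 1 0) * slV K (g.1 1 0) *
        slU K ((g.1 1 1 - 1) / g.1 1 0) := by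
      apply Subtype.ext
      have h2 : (slU K ((g.1 0 0 - 1) / g.1 1 0) * slV K (g.1 1 0) *
        slU K ((g.1 1 1 - 1) / g.1 1 0)).1 =
          !![1 + (g.1 0 0 - 1) / g.1 1 0 * g.1 1 0,
            (1 + (g.1 0 0 - 1) / g.1 1 0 * g.1 1 0) * ((g.1 1 1 - 1) / g.1 1 0) +
              (g.1 0 0 - 1) / g.1 1 0;
            g.1 1 0, g.1 1 0 * ((g.1 1 1 - 1) / g.1 1 0) + 1] := by
        simp [slU, slV]
      rw [h2]
      ext i j
      fin_cases i <;> fin_cases j
      · simp; field_simp; ring
      · simp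
        field_simp
        linear_combination -hdet
      · simp
      · simp; field_simp; ring
    rw [h1]
    exact C.mul_mem (C.mul_mem (hU _) (hV _)) (hU _)
  by_cases hg : g.1 1 0 = 0
  · have hdet : g.1 0 0 * g.1 1 1 - g.1 0 1 * g.1 1 0 = 1 := by
      have := g.2
      rwa [Matrix.det_fin_two] at this
    have ha : g.1 0 0 ≠ 0 := by
      intro h0
      rw [h0, hg] at hdet
      simp at hdet
    have h1 : (slW K * g).1 1 0 ≠ 0 := by
      have h2 : (slW K * g).1 1 0 = - g.1 0 0 := by
        simp [slW, Matrix.mul_apply, Fin.sum_univ_two]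
      rw [h2]
      exact neg_ne_zero.mpr ha
    have h3 := C.mul_mem (C.inv_mem hW) (key _ h1)
    rwa [inv_mul_cancel_left] at h3
  · exact key g hg

end MNF
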